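import Mathlib
import Pool.Agent.R418.HL.P1

/-! Slanted lines: determinant bound for a family parametrised by polynomials, general form. -/

set_option autoImplicit false
set_option maxHeartbeats 1000000

namespace Pool.Agent.J4H76.HB

open Polynomial Finset
open Pool.Agent.W19.HZ (exp_eq prod_pow_fin coeff_bound)
open Pool.Agent.R418.HL (fact_le expo)

/-- A family `(τ i, y i)` is parametrised by polynomials of a small parameter, up to an error. -/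
def Param3 (C₄ S L e : ℝ) {ι : Type} (τ : ι → ℤ) (y : ι → ℝ) : Prop :=
  ∀ m : ℕ, ∃ (F G H : Fin m → ℝ[X]) (ω z ε : ι → ℝ),
    (∀ j, (F j).natDegree < 4 * m + 2) ∧ (∀ j, (G j).natDegree < 4 * m + 2) ∧
    (∀ j, (H j).natDegree < 4 * m + 2) ∧
    (∀ j k, |(F j).coeff k| ≤ 2 * C₄ ^ (m + 1)) ∧ (∀ j k, |(G j).coeff k| ≤ 2 * C₄ ^ (m + 1)) ∧
    (∀ j k, |(H j).coeff k| ≤ 2 * C₄ ^ (m + 1)) ∧
    (∀ i, 1 ≤ C₄ ^ m * ω i) ∧ (∀ i, |z i| ≤ C₄ * (L / S)) ∧ (∀ i, |ε i| ≤ C₄ * e) ∧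
    (∀ i (j : Fin m), ω i * (τ i : ℝ) ^ (j : ℕ) = S ^ (j : ℕ) * (F j).eval (z i)) ∧
    (∀ i (j : Fin m), ω i * (y i * (τ i : ℝ) ^ (j : ℕ)) =
      S ^ (j : ℕ) * (G j).eval (z i) + ε i * (S ^ (j : ℕ) * (H j).eval (z i)))

theorem dpb3 (C₄ : ℝ) (hC : 1 ≤ C₄) : ∃ C₅ : ℝ, 1 ≤ C₅ ∧ ∀ (m : ℕ) (S L V : ℝ), 1 ≤ m →
    0 < S → 0 < L → C₄ * L ≤ S → 1 ≤ V → ∀ (τ : Fin m ⊕ Fin m → ℤ) (y : Fin m ⊕ Fin m → ℝ),
    Param3 C₄ S L (1 / V ^ 4) τ y → ∀ Y : ℝ,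
    (∀ u : ℤ, |u| ≤ m →
      V ^ (4 * u - 2 * m) * L ^ (m * (m - 1)) * (L / S) ^ (u.natAbs ^ 2) ≤ Y) →
    V ^ (2 * m) * |Matrix.det (Matrix.of fun i : Fin m ⊕ Fin m =>
      Sum.elim (fun j : Fin m => (τ i : ℝ) ^ (j : ℕ)) (fun j : Fin m => y i * (τ i : ℝ) ^ (j : ℕ)))|
      ≤ C₅ ^ (m ^ 2) * Y := by
  have hC0 : 0 < C₄ := by linarith
  refine ⟨36864 * C₄ ^ 10, ?_, ?_⟩
  · have := one_le_pow₀ hC (n := 10)
    linarith
  intro m S L V hm hS hL hCL hV τ y hP Y hY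
  obtain ⟨F, G, H, ω, z, ε, hdF, hdG, hdH, hcF, hcG, hcH, hω, hz, hε, hτ, hy⟩ := hP m
  have hV0 : 0 < V := by linarith
  have hYpos : 0 < Y := by
    refine lt_of_lt_of_le ?_ (hY 0 (by simp))
    positivity
  have hδ : C₄ * (L / S) ≤ 1 := by
    rw [← mul_div_assoc, div_le_one hS]
    exact hCL
  have hωpos : ∀ i, 0 < ω i := by
    intro i
    have h1 := hω i
    by_contra hneg
    push Not at hneg
    have h2 : C₄ ^ m * ω i ≤ 0 := mul_nonpos_of_nonneg_of_nonpos (by positivity) hneg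
    linarith
  have key := @Pool.Agent.W803.HZ.DET.t (Fin m ⊕ Fin m) _ _ (4 * m + 2)
    (fun k => Sum.elim (fun j => S ^ (j : ℕ) * (F j).coeff (k : ℕ))
      (fun j => S ^ (j : ℕ) * (G j).coeff (k : ℕ)))
    (fun k => Sum.elim (fun _ => 0) (fun j => S ^ (j : ℕ) * (H j).coeff (k : ℕ)))
    (Sum.elim (fun j => 2 * C₄ ^ (m + 1) * S ^ (j : ℕ)) (fun j => 2 * C₄ ^ (m + 1) * S ^ (j : ℕ)))
    (by
      rintro (j | j) <;> simp only [Sum.elim_inl, Sum.elim_inr] <;> positivity)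
    (by
      rintro k (j | j)
      · simp only [Sum.elim_inl]
        rw [abs_mul, abs_of_pos (pow_pos hS _), mul_comm]
        exact mul_le_mul_of_nonneg_right (hcF j k) (by positivity)
      · simp only [Sum.elim_inr]
        rw [abs_mul, abs_of_pos (pow_pos hS _), mul_comm]
        exact mul_le_mul_of_nonneg_right (hcG j k) (by positivity))
    (by
      rintro k (j | j)
      · simp only [Sum.elim_inl]
        rw [abs_zero]
        positivity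
      · simp only [Sum.elim_inr]
        rw [abs_mul, abs_of_pos (pow_pos hS _), mul_comm]
        exact mul_le_mul_of_nonneg_right (hcH j k) (by positivity))
    z ε (C₄ * (L / S)) (C₄ * (1 / V ^ 4)) hz hδ hε
    (C₄ ^ (4 * m ^ 2) * ((V ^ (m + m))⁻¹ * (S ^ (m * (m - 1)))⁻¹ * Y))
    (by
      rw [Fintype.card_sum, Fintype.card_fin]
      exact fun s hs => expo C₄ hC m hm S L V hS hL hV Y hY s hs)
  rw [Fintype.card_sum, Fintype.card_fin, Fintype.prod_sum_type] at key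
  simp only [Sum.elim_inl, Sum.elim_inr] at key
  rw [Finset.prod_mul_distrib, Finset.prod_const, Finset.card_univ, Fintype.card_fin] at key
  set A : Matrix (Fin m ⊕ Fin m) (Fin m ⊕ Fin m) ℝ := Matrix.of fun i : Fin m ⊕ Fin m =>
    Sum.elim (fun j : Fin m => (τ i : ℝ) ^ (j : ℕ)) (fun j : Fin m => y i * (τ i : ℝ) ^ (j : ℕ))
    with hA
  have hmat : (Matrix.of fun i j : Fin m ⊕ Fin m => ∑ k : Fin (4 * m + 2), z i ^ (k : ℕ) *
      (Sum.elim (fun j : Fin m => S ^ (j : ℕ) * (F j).coeff (k : ℕ))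
      (fun j : Fin m => S ^ (j : ℕ) * (G j).coeff (k : ℕ)) j + ε i *
        Sum.elim (fun _ : Fin m => (0 : ℝ))
          (fun j : Fin m => S ^ (j : ℕ) * (H j).coeff (k : ℕ)) j)) =
      Matrix.of fun i j => ω i * A i j := by
    have hev : ∀ (f : ℝ[X]), f.natDegree < 4 * m + 2 → ∀ (i : Fin m ⊕ Fin m),
        f.eval (z i) = ∑ k : Fin (4 * m + 2), f.coeff (k : ℕ) * z i ^ (k : ℕ) := by
      intro f hf i
      rw [eval_eq_sum_range' hf, Finset.sum_range]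
    ext i j
    rcases j with j | j
    · simp only [Matrix.of_apply, Sum.elim_inl, mul_zero, add_zero, hA]
      rw [hτ i j, hev _ (hdF j) i, Finset.mul_sum]
      exact Finset.sum_congr rfl fun k _ => by ring
    · simp only [Matrix.of_apply, Sum.elim_inr, hA]
      rw [hy i j, hev _ (hdG j) i, hev _ (hdH j) i, Finset.mul_sum, Finset.mul_sum, Finset.mul_sum,
        ← Finset.sum_add_distrib]
      exact Finset.sum_congr rfl fun k _ => by ring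
  rw [hmat, Matrix.det_mul_column, abs_mul, abs_of_pos (Finset.prod_pos fun i _ => hωpos i)] at key
  have hprod : 1 ≤ C₄ ^ (m * (m + m)) * ∏ i, ω i := by
    have h7 : ∏ i : Fin m ⊕ Fin m, (C₄ ^ m * ω i) = C₄ ^ (m * (m + m)) * ∏ i, ω i := by
      rw [Finset.prod_mul_distrib, Finset.prod_const, Finset.card_univ, Fintype.card_sum,
        Fintype.card_fin, ← pow_mul]
    rw [← h7]
    calc (1 : ℝ) = ∏ _i : Fin m ⊕ Fin m, (1 : ℝ) := by rw [Finset.prod_const_one]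
      _ ≤ ∏ i : Fin m ⊕ Fin m, (C₄ ^ m * ω i) :=
        Finset.prod_le_prod (fun _ _ => zero_le_one) fun i _ => hω i
  have hdet : |A.det| ≤ C₄ ^ (m * (m + m)) * ((∏ i, ω i) * |A.det|) := by
    have h8 := mul_le_mul_of_nonneg_right hprod (abs_nonneg A.det)
    rw [one_mul, mul_assoc] at h8
    exact h8
  have hSS : (2 * C₄ ^ (m + 1)) ^ m * (∏ j : Fin m, S ^ (j : ℕ)) *
      ((2 * C₄ ^ (m + 1)) ^ m * (∏ j : Fin m, S ^ (j : ℕ))) =
      2 ^ (m + m) * C₄ ^ ((m + 1) * (m + m)) * S ^ (m * (m - 1)) := by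
    rw [← prod_pow_fin m S, pow_mul, pow_add 2 m m, pow_add (C₄ ^ (m + 1)) m m, mul_pow]
    ring
  rw [hSS] at key
  have hS' : S ^ (m * (m - 1)) * (S ^ (m * (m - 1)))⁻¹ = 1 :=
    mul_inv_cancel₀ (pow_pos hS _).ne'
  have hV' : V ^ (m + m) * (V ^ (m + m))⁻¹ = 1 := mul_inv_cancel₀ (pow_pos hV0 _).ne'
  have h2m : 2 * m = m + m := by ring
  rw [h2m]
  have hfin : V ^ (m + m) * (C₄ ^ (m * (m + m)) * (((m + m).factorial : ℝ) *
      (2 * ((4 * m + 2 : ℕ) : ℝ)) ^ (m + m) *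
      (2 ^ (m + m) * C₄ ^ ((m + 1) * (m + m)) * S ^ (m * (m - 1))) *
      (C₄ ^ (4 * m ^ 2) * ((V ^ (m + m))⁻¹ * (S ^ (m * (m - 1)))⁻¹ * Y)))) =
      (((m + m).factorial : ℝ) * (2 * ((4 * m + 2 : ℕ) : ℝ)) ^ (m + m) * 2 ^ (m + m)) *
        C₄ ^ (m * (m + m) + (m + 1) * (m + m) + 4 * m ^ 2) * Y := by
    rw [pow_add C₄ (m * (m + m) + (m + 1) * (m + m)), pow_add C₄ (m * (m + m))]
    calc _ = (V ^ (m + m) * (V ^ (m + m))⁻¹) * (S ^ (m * (m - 1)) * (S ^ (m * (m - 1)))⁻¹) *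
        ((((m + m).factorial : ℝ) * (2 * ((4 * m + 2 : ℕ) : ℝ)) ^ (m + m) * 2 ^ (m + m)) *
        (C₄ ^ (m * (m + m)) * C₄ ^ ((m + 1) * (m + m)) * C₄ ^ (4 * m ^ 2)) * Y) := by ring
      _ = _ := by
        rw [hS', hV']
        ring
  calc V ^ (m + m) * |A.det| ≤ V ^ (m + m) * (C₄ ^ (m * (m + m)) * ((∏ i, ω i) * |A.det|)) :=
        mul_le_mul_of_nonneg_left hdet (by positivity)
    _ ≤ V ^ (m + m) * (C₄ ^ (m * (m + m)) * (((m + m).factorial : ℝ) *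
      (2 * ((4 * m + 2 : ℕ) : ℝ)) ^ (m + m) *
      (2 ^ (m + m) * C₄ ^ ((m + 1) * (m + m)) * S ^ (m * (m - 1))) *
      (C₄ ^ (4 * m ^ 2) * ((V ^ (m + m))⁻¹ * (S ^ (m * (m - 1)))⁻¹ * Y)))) := by
        refine mul_le_mul_of_nonneg_left (mul_le_mul_of_nonneg_left key (by positivity))
          (by positivity)
    _ = (((m + m).factorial : ℝ) * (2 * ((4 * m + 2 : ℕ) : ℝ)) ^ (m + m) * 2 ^ (m + m)) *
        C₄ ^ (m * (m + m) + (m + 1) * (m + m) + 4 * m ^ 2) * Y := hfin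
    _ ≤ (36864 ^ (m ^ 2) * C₄ ^ (10 * m ^ 2)) * Y := by
        refine mul_le_mul_of_nonneg_right ?_ hYpos.le
        refine mul_le_mul (fact_le m hm) (pow_le_pow_right₀ hC ?_) (by positivity) (by positivity)
        nlinarith
    _ = (36864 * C₄ ^ 10) ^ (m ^ 2) * Y := by
        rw [mul_pow, ← pow_mul]

end Pool.Agent.J4H76.HB
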