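import Mathlib
import Pool.Agent.J4H76.HB.L1
import Pool.Agent.R418.HL.P2

/-! Slanted lines: the polynomials. -/

set_option autoImplicit false

namespace Pool.Agent.J4H76.HB

open Polynomial
open Pool.Agent.R418.HL (p5 p5_eval p5_deg pow_bd rootA abs3 deg_bound)
open Pool.Agent.W12.HZ.Pre (one_bd)
open Pool.Agent.W19.HZ (coeff_bound)

theorem U_deg (c : ℝ) : (p5 1 (-3 * c) (3 * c ^ 2) (-c ^ 3) 0).natDegree ≤ 3 := by
  have e1 : p5 1 (-3 * c) (3 * c ^ 2) (-c ^ 3) 0 =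
      C 1 + C (-3 * c) * X + C (3 * c ^ 2) * X ^ 2 + C (-c ^ 3) * X ^ 3 := by
    unfold p5
    rw [C_0]
    ring
  rw [e1]
  compute_degree

theorem f_deg (p1 p2 p3 p4 c : ℝ) (m j : ℕ) (hj : j < m) :
    (p5 0 p1 p2 p3 p4 ^ j * (p5 1 (-3 * c) (3 * c ^ 2) (-c ^ 3) 0 ^ (m - j) * 1)).natDegree
      ≤ 4 * m := by
  rw [mul_one]
  have h1 := natDegree_pow_le_of_le j (p5_deg 0 p1 p2 p3 p4)
  have h2 := natDegree_pow_le_of_le (m - j) (U_deg c)
  have h3 := natDegree_mul_le_of_le h1 h2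
  omega

theorem f_coeff (C1 p1 p2 p3 p4 c : ℝ) (h1 : |0| + |p1| + |p2| + |p3| + |p4| ≤ C1)
    (h2 : |1| + |(-3 * c)| + |3 * c ^ 2| + |(-c ^ 3)| + |0| ≤ C1) (m j : ℕ) (hj : j < m) (k : ℕ) :
    |(p5 0 p1 p2 p3 p4 ^ j * (p5 1 (-3 * c) (3 * c ^ 2) (-c ^ 3) 0 ^ (m - j) * 1)).coeff k|
      ≤ C1 ^ m := by
  have e1 : ∀ k, |(p5 1 (-3 * c) (3 * c ^ 2) (-c ^ 3) 0 ^ (m - j) * 1).coeff k| ≤
      C1 ^ (m - j) := by
    intro k
    have h := pow_bd one_bd 1 (-3 * c) (3 * c ^ 2) (-c ^ 3) 0 (m - j) k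
    refine h.trans ?_
    rw [mul_one]
    exact pow_le_pow_left₀ (by positivity) h2 _
  refine (pow_bd e1 0 p1 p2 p3 p4 j k).trans ?_
  calc _ ≤ C1 ^ j * C1 ^ (m - j) := by
        have : 0 ≤ C1 := le_trans (by positivity) h1
        exact mul_le_mul_of_nonneg_right (pow_le_pow_left₀ (by positivity) h1 _) (by positivity)
    _ = C1 ^ m := by
      rw [← pow_add]
      congr 1
      omega

theorem f_eval (S c τ z p1 p2 p3 p4 : ℝ)
    (h : τ * (1 - c * z) ^ 3 = S * (p5 0 p1 p2 p3 p4).eval z) (m j : ℕ) (hj : j < m) :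
    (1 - c * z) ^ (3 * m) * τ ^ j = S ^ j *
      (p5 0 p1 p2 p3 p4 ^ j * (p5 1 (-3 * c) (3 * c ^ 2) (-c ^ 3) 0 ^ (m - j) * 1)).eval z := by
  have hU : (p5 1 (-3 * c) (3 * c ^ 2) (-c ^ 3) 0).eval z = (1 - c * z) ^ 3 := by
    rw [p5_eval]
    ring
  rw [eval_mul, eval_mul, eval_one, mul_one, eval_pow, eval_pow, hU]
  have h1 : (1 - c * z) ^ (3 * m) = ((1 - c * z) ^ 3) ^ j * ((1 - c * z) ^ 3) ^ (m - j) := by
    rw [← pow_add, ← pow_mul]
    congr 1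
    omega
  rw [h1]
  calc _ = (τ * (1 - c * z) ^ 3) ^ j * ((1 - c * z) ^ 3) ^ (m - j) := by
        rw [mul_pow]; ring
    _ = _ := by
      rw [h, mul_pow]
      ring

theorem par_of (C1 S L e y0 μ c p1 p2 p3 p4 : ℝ) (hC1 : 8 ≤ C1)
    (h1 : |0| + |p1| + |p2| + |p3| + |p4| ≤ C1)
    (h2 : |1| + |(-3 * c)| + |3 * c ^ 2| + |(-c ^ 3)| + |0| ≤ C1) (hc : |c| ≤ 1) (hμ : |μ| ≤ 1)
    (hy0 : 2 * |y0| ≤ C1) (ι : Type) (τ : ι → ℤ) (y r z : ι → ℝ)
    (hτ : ∀ i, (τ i : ℝ) * (1 - c * z i) ^ 3 = S * (p5 0 p1 p2 p3 p4).eval (z i))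
    (hr : ∀ i, r i * (1 - c * z i) = y0 + μ * z i) (hz : ∀ i, |z i| ≤ C1 * (L / S))
    (hu : ∀ i, 1 / 2 ≤ 1 - c * z i) (hu2 : ∀ i, 1 - c * z i ≤ 2)
    (hyr : ∀ i, 2 * |y i - r i| ≤ C1 * e) : Param3 C1 S L e τ y := by
  intro m
  have hC11 : 1 ≤ C1 := by linarith
  have hC10 : 0 < C1 := by linarith
  obtain ⟨f, hf⟩ : ∃ f : Fin m → ℝ[X], ∀ j : Fin m, f j = p5 0 p1 p2 p3 p4 ^ (j : ℕ) *
      (p5 1 (-3 * c) (3 * c ^ 2) (-c ^ 3) 0 ^ (m - (j : ℕ)) * 1) := ⟨_, fun j => rfl⟩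
  have hfdeg : ∀ j, (f j).natDegree ≤ 4 * m := by
    intro j
    rw [hf j]
    exact f_deg p1 p2 p3 p4 c m j j.2
  have hfco : ∀ j k, |(f j).coeff k| ≤ C1 ^ m := by
    intro j k
    rw [hf j]
    exact f_coeff C1 p1 p2 p3 p4 c h1 h2 m j j.2 k
  have hfe : ∀ i (j : Fin m), (1 - c * z i) ^ (3 * m) * (τ i : ℝ) ^ (j : ℕ) =
      S ^ (j : ℕ) * (f j).eval (z i) := by
    intro i j
    rw [hf j]
    exact f_eval S c (τ i) (z i) p1 p2 p3 p4 (hτ i) m j j.2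
  clear hf
  refine ⟨fun j => (C 2 + C (-2 * c) * X) * f j,
    fun j => (C (2 * y0) + C (2 * μ) * X) * f j,
    fun j => (C 2 + C 0 * X) * f j,
    fun i => 2 * (1 - c * z i) ^ (3 * m + 1), z, fun i => (y i - r i) * (1 - c * z i),
    fun j => deg_bound m _ _ _ (hfdeg j), fun j => deg_bound m _ _ _ (hfdeg j),
    fun j => deg_bound m _ _ _ (hfdeg j), ?_, ?_, ?_, ?_, hz, ?_, ?_, ?_⟩
  · intro j k
    refine coeff_bound _ hC11 m _ _ ?_ ?_ (f j) (hfco j) k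
    · rw [abs_of_pos (by norm_num : (0 : ℝ) < 2)]
      linarith
    · rw [abs_mul, abs_neg, abs_of_pos (by norm_num : (0 : ℝ) < 2)]
      linarith
  · intro j k
    refine coeff_bound _ hC11 m _ _ ?_ ?_ (f j) (hfco j) k
    · rw [abs_mul, abs_of_pos (by norm_num : (0 : ℝ) < 2)]
      linarith
    · rw [abs_mul, abs_of_pos (by norm_num : (0 : ℝ) < 2)]
      linarith
  · intro j k
    refine coeff_bound _ hC11 m _ _ ?_ ?_ (f j) (hfco j) k
    · rw [abs_of_pos (by norm_num : (0 : ℝ) < 2)]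
      linarith
    · rw [abs_zero]
      linarith
  · intro i
    have h3 := hu i
    have h4 : (1 / 2 : ℝ) ^ (3 * m) ≤ (1 - c * z i) ^ (3 * m) := by gcongr
    have h5 : (1 : ℝ) ≤ C1 ^ m * (1 / 2) ^ (3 * m) := by
      rw [pow_mul, ← mul_pow]
      apply one_le_pow₀
      norm_num
      linarith
    have h6 : 0 ≤ (1 - c * z i) ^ (3 * m) := by
      apply pow_nonneg; linarith
    calc (1 : ℝ) ≤ C1 ^ m * (1 / 2) ^ (3 * m) := h5
      _ ≤ C1 ^ m * (1 - c * z i) ^ (3 * m) := by gcongr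
      _ = C1 ^ m * ((1 - c * z i) ^ (3 * m) * 1) := by ring
      _ ≤ C1 ^ m * ((1 - c * z i) ^ (3 * m) * (2 * (1 - c * z i))) := by
        gcongr
        linarith
      _ = _ := by ring
  · intro i
    rw [abs_mul]
    have h3 : |1 - c * z i| ≤ 2 := by
      rw [abs_of_pos (by linarith [hu i])]
      exact hu2 i
    calc |y i - r i| * |1 - c * z i| ≤ |y i - r i| * 2 := by gcongr
      _ = 2 * |y i - r i| := by ring
      _ ≤ C1 * e := hyr i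
  · intro i j
    have h3 := hfe i j
    have e1 : ((C 2 + C (-2 * c) * X) * f j).eval (z i) =
        2 * (1 - c * z i) * (f j).eval (z i) := by
      rw [eval_mul, eval_add, eval_mul, eval_C, eval_C, eval_X]
      ring
    rw [e1]
    calc 2 * (1 - c * z i) ^ (3 * m + 1) * (τ i : ℝ) ^ (j : ℕ) =
        2 * (1 - c * z i) * ((1 - c * z i) ^ (3 * m) * (τ i : ℝ) ^ (j : ℕ)) := by ring
      _ = _ := by rw [h3]; ring
  · intro i j
    have h3 := hfe i j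
    have e1 : ((C (2 * y0) + C (2 * μ) * X) * f j).eval (z i) =
        2 * (y0 + μ * z i) * (f j).eval (z i) := by
      rw [eval_mul, eval_add, eval_mul, eval_C, eval_C, eval_X]
      ring
    have e2 : ((C 2 + C 0 * X) * f j).eval (z i) = 2 * (f j).eval (z i) := by
      rw [eval_mul, eval_add, eval_mul, eval_C, eval_C, eval_X]
      ring
    have e3 : y i * (1 - c * z i) = y0 + μ * z i + (y i - r i) * (1 - c * z i) := by
      linear_combination hr i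
    rw [e1, e2]
    calc 2 * (1 - c * z i) ^ (3 * m + 1) * (y i * (τ i : ℝ) ^ (j : ℕ)) =
        2 * (y i * (1 - c * z i)) * ((1 - c * z i) ^ (3 * m) * (τ i : ℝ) ^ (j : ℕ)) := by ring
      _ = _ := by rw [h3, e3]; ring

end Pool.Agent.J4H76.HB
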