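import Mathlib
import Pool.Agent.J4H76.HB.L2

/-! Slanted lines: the real variable part. -/

set_option autoImplicit false

namespace Pool.Agent.J4H76.HB

open Polynomial
open Pool.Agent.R418.HL (p5 p5_eval rootA abs3)

/-- lower bound for the cubic factor -/
theorem q_low {a1 a2 a3 a4 z κ : ℝ}
    (h : κ + |a2| * |z| + |a3| * |z| ^ 2 + |a4| * |z| ^ 3 ≤ |a1|) :
    κ ≤ |a1 + a2 * z + a3 * z ^ 2 + a4 * z ^ 3| := by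
  have e1 : |a1| ≤ |a1 + a2 * z + a3 * z ^ 2 + a4 * z ^ 3| + |a2 * z| + |a3 * z ^ 2| +
      |a4 * z ^ 3| := by
    calc |a1| = |(a1 + a2 * z + a3 * z ^ 2 + a4 * z ^ 3) + (-(a2 * z)) +
      (-(a3 * z ^ 2)) + (-(a4 * z ^ 3))| := by
          congr 1
          ring
      _ ≤ |(a1 + a2 * z + a3 * z ^ 2 + a4 * z ^ 3) + (-(a2 * z)) +
      (-(a3 * z ^ 2))| + |-(a4 * z ^ 3)| := abs_add_le _ _
      _ ≤ |(a1 + a2 * z + a3 * z ^ 2 + a4 * z ^ 3) + (-(a2 * z))| +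
        |-(a3 * z ^ 2)| + |-(a4 * z ^ 3)| := by gcongr; exact abs_add_le _ _
      _ ≤ |a1 + a2 * z + a3 * z ^ 2 + a4 * z ^ 3| + |-(a2 * z)| + |-(a3 * z ^ 2)| +
        |-(a4 * z ^ 3)| := by
          gcongr; exact abs_add_le _ _
      _ = _ := by rw [abs_neg, abs_neg, abs_neg]
  rw [abs_mul, abs_mul, abs_mul, abs_pow, abs_pow] at e1
  linarith

theorem bd1 {C A B G D y0 : ℝ} (hC : 1 ≤ C) (hA : |A| ≤ C) (hB : |B| ≤ C) (hG : |G| ≤ C)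
    (hD : |D| ≤ C) (hy0 : |y0| ≤ 2 * C) :
    |4 * (A * y0 ^ 3 + 3 * B * y0 ^ 2 + 3 * G * y0 + D)| ≤ 108 * C ^ 4 := by
  have hC12 : C ≤ C ^ 2 := by nlinarith
  have hC23 : C ^ 2 ≤ C ^ 3 := pow_le_pow_right₀ hC (by norm_num)
  have hC34 : C ^ 3 ≤ C ^ 4 := pow_le_pow_right₀ hC (by norm_num)
  rw [abs_mul, abs_of_pos (by norm_num : (0 : ℝ) < 4)]
  have c1 : |A * y0 ^ 3 + 3 * B * y0 ^ 2 + 3 * G * y0 + D| ≤
      C * (2 * C) ^ 3 + 3 * C * (2 * C) ^ 2 + 3 * C * (2 * C) + C := by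
    calc |A * y0 ^ 3 + 3 * B * y0 ^ 2 + 3 * G * y0 + D|
        ≤ |A * y0 ^ 3 + 3 * B * y0 ^ 2 + 3 * G * y0| + |D| := abs_add_le _ _
      _ ≤ |A * y0 ^ 3| + |3 * B * y0 ^ 2| + |3 * G * y0| + |D| := by
        gcongr; exact abs3 _ _ _
      _ = |A| * |y0| ^ 3 + 3 * |B| * |y0| ^ 2 + 3 * |G| * |y0| + |D| := by
        rw [abs_mul, abs_mul, abs_mul, abs_mul, abs_mul, abs_pow, abs_pow,
          abs_of_pos (by norm_num : (0 : ℝ) < 3)]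
      _ ≤ _ := by gcongr
  have c2 : C * (2 * C) ^ 3 + 3 * C * (2 * C) ^ 2 + 3 * C * (2 * C) + C =
    8 * C ^ 4 + 12 * C ^ 3 + 6 * C ^ 2 + C := by ring
  linarith

theorem bd2 {C A B G y0 : ℝ} (hC : 1 ≤ C) (hA : |A| ≤ C) (hB : |B| ≤ C) (hG : |G| ≤ C)
    (hy0 : |y0| ≤ 2 * C) : |6 * (A * y0 ^ 2 + 2 * B * y0 + G)| ≤ 54 * C ^ 3 := by
  have hC12 : C ≤ C ^ 2 := by nlinarith
  have hC23 : C ^ 2 ≤ C ^ 3 := pow_le_pow_right₀ hC (by norm_num)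
  rw [abs_mul, abs_of_pos (by norm_num : (0 : ℝ) < 6)]
  have c1 : |A * y0 ^ 2 + 2 * B * y0 + G| ≤ C * (2 * C) ^ 2 + 2 * C * (2 * C) + C := by
    calc |A * y0 ^ 2 + 2 * B * y0 + G| ≤ |A * y0 ^ 2| + |2 * B * y0| + |G| := abs3 _ _ _
      _ = |A| * |y0| ^ 2 + 2 * |B| * |y0| + |G| := by
        rw [abs_mul, abs_mul, abs_mul, abs_pow, abs_of_pos (by norm_num : (0 : ℝ) < 2)]
      _ ≤ C * (2 * C) ^ 2 + 2 * C * (2 * C) + C := by gcongr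
  have c2 : C * (2 * C) ^ 2 + 2 * C * (2 * C) + C = 4 * C ^ 3 + 4 * C ^ 2 + C := by ring
  linarith

theorem bd3 {C A B y0 : ℝ} (hC : 1 ≤ C) (hA : |A| ≤ C) (hB : |B| ≤ C)
    (hy0 : |y0| ≤ 2 * C) : |4 * (A * y0 + B)| ≤ 12 * C ^ 2 := by
  have hC12 : C ≤ C ^ 2 := by nlinarith
  rw [abs_mul, abs_of_pos (by norm_num : (0 : ℝ) < 4)]
  have c1 : |A * y0 + B| ≤ C * (2 * C) + C := by
    calc |A * y0 + B| ≤ |A * y0| + |B| := abs_add_le _ _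
      _ = |A| * |y0| + |B| := by rw [abs_mul]
      _ ≤ _ := by gcongr
  have c2 : C * (2 * C) + C = 2 * C ^ 2 + C := by ring
  linarith

theorem bd4 {C e A B G D y0 yi : ℝ} (hC : 1 ≤ C) (he : 0 ≤ e) (he1 : 400 * C ^ 5 * e ≤ 1)
    (hA : |A| ≤ C) (hB : |B| ≤ C) (hG : |G| ≤ C) (hy0 : |y0| ≤ 2 * C) (hyi : |yi| ≤ C)
    (hy0y : |y0 - yi| ≤ C * e) (hd : 1 ≤ C * |A * yi ^ 3 + 3 * B * yi ^ 2 + 3 * G * yi + D|) :
    2 ≤ C * |4 * (A * y0 ^ 3 + 3 * B * y0 ^ 2 + 3 * G * y0 + D)| := by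
  have h3 : (0 : ℝ) < 3 := by norm_num
  have hC0 : 0 < C := by linarith
  have hC12 : C ≤ C ^ 2 := by nlinarith
  have hC23 : C ^ 2 ≤ C ^ 3 := pow_le_pow_right₀ hC (by norm_num)
  have c1 : |A * yi ^ 3 + 3 * B * yi ^ 2 + 3 * G * yi + D| ≤
      |A * y0 ^ 3 + 3 * B * y0 ^ 2 + 3 * G * y0 + D| + C * e * (19 * C ^ 3) := by
    have c2 : A * yi ^ 3 + 3 * B * yi ^ 2 + 3 * G * yi + D =
        (A * y0 ^ 3 + 3 * B * y0 ^ 2 + 3 * G * y0 + D) +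
        (-(y0 - yi)) * (A * (y0 ^ 2 + y0 * yi + yi ^ 2) + 3 * B * (y0 + yi) +
          3 * G) := by ring
    have c3 : |A * (y0 ^ 2 + y0 * yi + yi ^ 2) + 3 * B * (y0 + yi) + 3 * G| ≤
        19 * C ^ 3 := by
      have c4 : |y0 + yi| ≤ 3 * C := (abs_add_le _ _).trans (by linarith)
      have c5 : |y0 ^ 2 + y0 * yi + yi ^ 2| ≤ (2 * C) ^ 2 + 2 * C * C + C ^ 2 := by
        refine (abs3 _ _ _).trans ?_
        rw [abs_mul, abs_pow, abs_pow]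
        gcongr
      calc |A * (y0 ^ 2 + y0 * yi + yi ^ 2) + 3 * B * (y0 + yi) + 3 * G|
          ≤ |A * (y0 ^ 2 + y0 * yi + yi ^ 2)| + |3 * B * (y0 + yi)| + |3 * G| :=
            abs3 _ _ _
        _ = |A| * |y0 ^ 2 + y0 * yi + yi ^ 2| + 3 * |B| * |y0 + yi| + 3 * |G| := by
          rw [abs_mul, abs_mul, abs_mul, abs_mul, abs_of_pos h3]
        _ ≤ C * ((2 * C) ^ 2 + 2 * C * C + C ^ 2) + 3 * C * (3 * C) + 3 * C := by gcongr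
        _ = 7 * C ^ 3 + 9 * C ^ 2 + 3 * C := by ring
        _ ≤ 19 * C ^ 3 := by linarith
    calc |A * yi ^ 3 + 3 * B * yi ^ 2 + 3 * G * yi + D| =
        |(A * y0 ^ 3 + 3 * B * y0 ^ 2 + 3 * G * y0 + D) +
        (-(y0 - yi)) * (A * (y0 ^ 2 + y0 * yi + yi ^ 2) + 3 * B * (y0 + yi) +
          3 * G)| := by rw [← c2]
      _ ≤ |A * y0 ^ 3 + 3 * B * y0 ^ 2 + 3 * G * y0 + D| +
        |(-(y0 - yi)) * (A * (y0 ^ 2 + y0 * yi + yi ^ 2) + 3 * B * (y0 + yi) +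
          3 * G)| := abs_add_le _ _
      _ = |A * y0 ^ 3 + 3 * B * y0 ^ 2 + 3 * G * y0 + D| +
        |y0 - yi| * |A * (y0 ^ 2 + y0 * yi + yi ^ 2) + 3 * B * (y0 + yi) +
          3 * G| := by
        rw [abs_mul, abs_neg]
      _ ≤ _ := by gcongr
  have c5 : C * (C * e * (19 * C ^ 3)) ≤ 1 / 8 := by
    have : C * (C * e * (19 * C ^ 3)) = 19 / 400 * (400 * C ^ 5 * e) := by ring
    rw [this]; linarith
  have c6 : C * |A * yi ^ 3 + 3 * B * yi ^ 2 + 3 * G * yi + D| ≤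
    C * (|A * y0 ^ 3 + 3 * B * y0 ^ 2 + 3 * G * y0 + D| + C * e * (19 * C ^ 3)) := by gcongr
  rw [abs_mul, abs_of_pos (by norm_num : (0 : ℝ) < 4)]
  have c8 : C * (|A * y0 ^ 3 + 3 * B * y0 ^ 2 + 3 * G * y0 + D| + C * e * (19 * C ^ 3)) =
    C * |A * y0 ^ 3 + 3 * B * y0 ^ 2 + 3 * G * y0 + D| + C * (C * e * (19 * C ^ 3)) := by ring
  linarith

theorem bd5 {C A a1 a2 a3 w : ℝ} (hC : 1 ≤ C) (hA : |A| ≤ C) (b2 : |a2| ≤ 54 * C ^ 3)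
    (b3 : |a3| ≤ 12 * C ^ 2) (b4 : 2 ≤ C * |a1|) (hz : |w| ≤ 1 / (100 * C ^ 4)) :
    1 / C ≤ |a1 + a2 * w + a3 * w ^ 2 + A * w ^ 3| := by
  have hC0 : 0 < C := by linarith
  apply q_low
  have c8 : 0 < 1 / C := by positivity
  have c1 : |a2| * |w| ≤ 54 * C ^ 3 * (1 / (100 * C ^ 4)) := by gcongr
  have c2 : 54 * C ^ 3 * (1 / (100 * C ^ 4)) = 54 / 100 * (1 / C) := by field_simp
  have c3 : |a3| * |w| ^ 2 ≤ 12 * C ^ 2 * (1 / (100 * C ^ 4)) ^ 2 := by gcongr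
  have c4 : 12 * C ^ 2 * (1 / (100 * C ^ 4)) ^ 2 = 12 / 10000 * (1 / C) * (1 / C ^ 5) := by
    field_simp; norm_num
  have c5 : 1 / C ^ 5 ≤ 1 := by
    rw [div_le_one (by positivity)]; exact one_le_pow₀ hC
  have c6 : 12 / 10000 * (1 / C) * (1 / C ^ 5) ≤ 12 / 10000 * (1 / C) * 1 := by gcongr
  have c3' : |A| * |w| ^ 3 ≤ C * (1 / (100 * C ^ 4)) ^ 3 := by gcongr
  have c4' : C * (1 / (100 * C ^ 4)) ^ 3 = 1 / 1000000 * (1 / C) * (1 / C ^ 5) ^ 2 := by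
    field_simp; norm_num
  have c6' : 1 / 1000000 * (1 / C) * (1 / C ^ 5) ^ 2 ≤ 1 / 1000000 * (1 / C) * 1 ^ 2 := by
    gcongr
  have c7 : 2 * (1 / C) ≤ |a1| := by
    rw [mul_one_div, div_le_iff₀ hC0]
    linarith
  linarith

theorem bd6 {C A a1 a2 a3 c g0 : ℝ} (hC : 1 ≤ C) (hA : |A| ≤ C) (b1 : |a1| ≤ 108 * C ^ 4)
    (b2 : |a2| ≤ 54 * C ^ 3) (b3 : |a3| ≤ 12 * C ^ 2) (hc1 : |c| ≤ 1) (hg0b : |g0| ≤ 2 * C) :
    |0| + |(-a1)| + |3 * c * a1 - a2 * g0| +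
      |-3 * c ^ 2 * a1 + 2 * c * a2 * g0 - a3 * g0 ^ 2| +
      |c ^ 3 * a1 - c ^ 2 * a2 * g0 + c * a3 * g0 ^ 2 - A * g0 ^ 3| ≤ 1400 * C ^ 5 := by
  have h3 : (0 : ℝ) < 3 := by norm_num
  have hc2 : |c| ^ 2 ≤ 1 := pow_le_one₀ (abs_nonneg _) hc1
  have hc3 : |c| ^ 3 ≤ 1 := pow_le_one₀ (abs_nonneg _) hc1
  have t1 : |3 * c * a1 - a2 * g0| ≤ 3 * |a1| + |a2| * |g0| := by
    calc |3 * c * a1 - a2 * g0| ≤ |3 * c * a1| + |a2 * g0| := abs_sub _ _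
      _ = 3 * |c| * |a1| + |a2| * |g0| := by
        rw [abs_mul, abs_mul, abs_mul, abs_of_pos h3]
      _ ≤ 3 * 1 * |a1| + |a2| * |g0| := by gcongr
      _ = _ := by ring
  have t2 : |-3 * c ^ 2 * a1 + 2 * c * a2 * g0 - a3 * g0 ^ 2| ≤
      3 * |a1| + 2 * (|a2| * |g0|) + |a3| * |g0| ^ 2 := by
    calc |-3 * c ^ 2 * a1 + 2 * c * a2 * g0 - a3 * g0 ^ 2|
        ≤ |-3 * c ^ 2 * a1 + 2 * c * a2 * g0| + |a3 * g0 ^ 2| := abs_sub _ _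
      _ ≤ |-3 * c ^ 2 * a1| + |2 * c * a2 * g0| + |a3 * g0 ^ 2| := by
        gcongr; exact abs_add_le _ _
      _ = 3 * |c| ^ 2 * |a1| + 2 * |c| * (|a2| * |g0|) + |a3| * |g0| ^ 2 := by
        rw [abs_mul, abs_mul, abs_mul, abs_mul, abs_mul, abs_mul, abs_pow, abs_pow, abs_neg,
          abs_of_pos h3, abs_of_pos (by norm_num : (0 : ℝ) < 2)]
        ring
      _ ≤ 3 * 1 * |a1| + 2 * 1 * (|a2| * |g0|) + |a3| * |g0| ^ 2 := by gcongr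
      _ = _ := by ring
  have t3 : |c ^ 3 * a1 - c ^ 2 * a2 * g0 + c * a3 * g0 ^ 2 - A * g0 ^ 3| ≤
      |a1| + |a2| * |g0| + |a3| * |g0| ^ 2 + |A| * |g0| ^ 3 := by
    calc |c ^ 3 * a1 - c ^ 2 * a2 * g0 + c * a3 * g0 ^ 2 - A * g0 ^ 3|
        ≤ |c ^ 3 * a1 - c ^ 2 * a2 * g0 + c * a3 * g0 ^ 2| + |A * g0 ^ 3| := abs_sub _ _
      _ ≤ |c ^ 3 * a1 - c ^ 2 * a2 * g0| + |c * a3 * g0 ^ 2| + |A * g0 ^ 3| := by
        gcongr; exact abs_add_le _ _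
      _ ≤ |c ^ 3 * a1| + |c ^ 2 * a2 * g0| + |c * a3 * g0 ^ 2| + |A * g0 ^ 3| := by
        gcongr; exact abs_sub _ _
      _ = |c| ^ 3 * |a1| + |c| ^ 2 * (|a2| * |g0|) + |c| * (|a3| * |g0| ^ 2) +
          |A| * |g0| ^ 3 := by
        rw [abs_mul, abs_mul, abs_mul, abs_mul, abs_mul, abs_mul, abs_pow, abs_pow, abs_pow,
          abs_pow]
        ring
      _ ≤ 1 * |a1| + 1 * (|a2| * |g0|) + 1 * (|a3| * |g0| ^ 2) + |A| * |g0| ^ 3 := by gcongr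
      _ = _ := by ring
  have s1 : |a2| * |g0| ≤ 54 * C ^ 3 * (2 * C) := by gcongr
  have s2 : |a3| * |g0| ^ 2 ≤ 12 * C ^ 2 * (2 * C) ^ 2 := by gcongr
  have s3 : |A| * |g0| ^ 3 ≤ C * (2 * C) ^ 3 := by gcongr
  have s4 : 54 * C ^ 3 * (2 * C) = 108 * C ^ 4 := by ring
  have s5 : 12 * C ^ 2 * (2 * C) ^ 2 = 48 * C ^ 4 := by ring
  have s6 : C * (2 * C) ^ 3 = 8 * C ^ 4 := by ring
  have hC45 : C ^ 4 ≤ C ^ 5 := pow_le_pow_right₀ hC (by norm_num)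
  rw [abs_zero, abs_neg]
  linarith

theorem bd7 {C c : ℝ} (hC : 1 ≤ C) (hc1 : |c| ≤ 1) :
    |1| + |(-3 * c)| + |3 * c ^ 2| + |(-c ^ 3)| + |0| ≤ 1400 * C ^ 5 := by
  have hc2 : |c| ^ 2 ≤ 1 := pow_le_one₀ (abs_nonneg _) hc1
  have hc3 : |c| ^ 3 ≤ 1 := pow_le_one₀ (abs_nonneg _) hc1
  have hC5 : 1 ≤ C ^ 5 := one_le_pow₀ hC
  rw [abs_mul, abs_mul, abs_neg, abs_neg, abs_pow, abs_pow, abs_zero, abs_one,
    abs_of_pos (by norm_num : (0 : ℝ) < 3)]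
  linarith

theorem peq {S τ w z c g0 a1 a2 a3 A : ℝ}
    (h1 : τ = S * (-(z * (a1 + a2 * w + a3 * w ^ 2 + A * w ^ 3))))
    (h2 : w * (1 - c * z) = g0 * z) :
    τ * (1 - c * z) ^ 3 = S * (p5 0 (-a1) (3 * c * a1 - a2 * g0)
      (-3 * c ^ 2 * a1 + 2 * c * a2 * g0 - a3 * g0 ^ 2)
      (c ^ 3 * a1 - c ^ 2 * a2 * g0 + c * a3 * g0 ^ 2 - A * g0 ^ 3)).eval z := by
  rw [p5_eval]
  obtain ⟨u, hu'⟩ : ∃ u, u = 1 - c * z := ⟨_, rfl⟩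
  rw [← hu'] at h2 ⊢
  have e2 : (w * u) ^ 2 = (g0 * z) ^ 2 := by rw [h2]
  have e3 : (w * u) ^ 3 = (g0 * z) ^ 3 := by rw [h2]
  rw [h1]
  have e0 : S * -(z * (a1 + a2 * w + a3 * w ^ 2 + A * w ^ 3)) * u ^ 3 =
      S * -(z * (a1 * u ^ 3 + a2 * (w * u) * u ^ 2 + a3 * (w * u) ^ 2 * u +
        A * (w * u) ^ 3)) := by ring
  rw [e0, e2, e3, h2, hu']
  ring

end Pool.Agent.J4H76.HB
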