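import Mathlib
import Pool.Agent.J4H76.HB.L3

/-! Slanted lines: the real variable part. -/

set_option autoImplicit false

namespace Pool.Agent.J4H76.HB

open Polynomial
open Pool.Agent.R418.HL (p5 p5_eval rootA abs3)

theorem c2s (C : ℝ) (hC : 1 ≤ C) : ∃ c₀ C₄ : ℝ, 0 < c₀ ∧ 1 ≤ C₄ ∧
    ∀ (S L e A B G ν μ : ℝ) (ι : Type) (τ : ι → ℤ) (D E y : ι → ℝ) (i₀ : ι), 0 < S → 0 ≤ L →
    C₄ * L ≤ S → 0 ≤ e → C₄ * e ≤ 1 → |A| ≤ C → |B| ≤ C → |G| ≤ C → (∀ i, |D i| ≤ C) →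
    4 * |ν| + |μ| ≤ 1 → (∀ i, |y i| ≤ C) →
    (∀ i, |A * y i ^ 4 + 4 * B * y i ^ 3 + 6 * G * y i ^ 2 + 4 * D i * y i + E i| ≤ e) →
    (∀ i, 1 ≤ C * |A * y i ^ 3 + 3 * B * y i ^ 2 + 3 * G * y i + D i|) →
    (∀ i j, |y i - y j| ≤ c₀) →
    (∀ i, S * (D i - D i₀) = ν * τ i) → (∀ i, S * (E i - E i₀) = μ * τ i) →
    (∀ i, |(τ i : ℝ)| ≤ L) →
    (∀ r : ℝ, A * r ^ 4 + 4 * B * r ^ 3 + 6 * G * r ^ 2 + 4 * D i₀ * r + E i₀ = 0 →
      4 * ν * r + μ ≠ 0) →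
    Param3 C₄ S L e τ y := by
  have hC0 : 0 < C := by linarith
  have hC5 : 1 ≤ C ^ 5 := one_le_pow₀ hC
  refine ⟨1 / (200 * C ^ 4), 1400 * C ^ 5, by positivity, by linarith, ?_⟩
  intro S L e A B G ν μ ι τ D E y i₀ hS hL hLS he he1' hA hB hG hD hνμ hy hg hd hyy hτD hτE hτL hroot
  have he1 : 400 * C ^ 5 * e ≤ 1 := by
    have : 0 ≤ C ^ 5 * e := by positivity
    linarith
  choose r hr1 hr2 using fun i => rootA hC he he1 hA hB hG (hy i) (hg i) (hd i)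
  have he3 : 1 * e ≤ C ^ 5 * e := mul_le_mul_of_nonneg_right hC5 he
  have he2 : e ≤ 1 := by linarith
  have hCe : C * e ≤ 1 / (400 * C ^ 4) := by
    rw [le_div_iff₀ (by positivity)]
    calc C * e * (400 * C ^ 4) = 400 * C ^ 5 * e := by ring
      _ ≤ 1 := he1
  have hCe' : C * e ≤ C := by
    calc C * e ≤ C * 1 := mul_le_mul_of_nonneg_left he2 hC0.le
      _ = C := mul_one C
  obtain ⟨y0, hy0def⟩ : ∃ y0, y0 = r i₀ := ⟨_, rfl⟩
  have hy0y : |y0 - y i₀| ≤ C * e := by rw [hy0def]; exact hr1 i₀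
  have hy0 : |y0| ≤ 2 * C := by
    have e1 : y0 = (y0 - y i₀) + y i₀ := by ring
    calc |y0| = |(y0 - y i₀) + y i₀| := by rw [← e1]
      _ ≤ |y0 - y i₀| + |y i₀| := abs_add_le _ _
      _ ≤ 2 * C := by linarith [hy i₀]
  have hroot0 : A * y0 ^ 4 + 4 * B * y0 ^ 3 + 6 * G * y0 ^ 2 + 4 * D i₀ * y0 + E i₀ = 0 := by
    rw [hy0def]; exact hr2 i₀
  obtain ⟨a1, ha1⟩ : ∃ a1, a1 = 4 * (A * y0 ^ 3 + 3 * B * y0 ^ 2 + 3 * G * y0 + D i₀) := ⟨_, rfl⟩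
  obtain ⟨a2, ha2⟩ : ∃ a2, a2 = 6 * (A * y0 ^ 2 + 2 * B * y0 + G) := ⟨_, rfl⟩
  obtain ⟨a3, ha3⟩ : ∃ a3, a3 = 4 * (A * y0 + B) := ⟨_, rfl⟩
  obtain ⟨g0, hg0⟩ : ∃ g0, g0 = 4 * ν * y0 + μ := ⟨_, rfl⟩
  obtain ⟨c, hc⟩ : ∃ c, c = 4 * ν := ⟨_, rfl⟩
  have hν0 := abs_nonneg ν
  have hμ0 := abs_nonneg μ
  have hc1 : |c| ≤ 1 := by
    rw [hc, abs_mul, abs_of_pos (by norm_num : (0 : ℝ) < 4)]
    linarith
  have hμ1 : |μ| ≤ 1 := by linarith
  have hg0b : |g0| ≤ 2 * C := by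
    rw [hg0]
    calc |4 * ν * y0 + μ| ≤ |4 * ν * y0| + |μ| := abs_add_le _ _
      _ = 4 * |ν| * |y0| + |μ| := by
        rw [abs_mul, abs_mul, abs_of_pos (by norm_num : (0 : ℝ) < 4)]
      _ ≤ 4 * |ν| * (2 * C) + |μ| * (2 * C) := by
        have h1 : |μ| * 1 ≤ |μ| * (2 * C) := mul_le_mul_of_nonneg_left (by linarith) hμ0
        have h2 : 4 * |ν| * |y0| ≤ 4 * |ν| * (2 * C) :=
          mul_le_mul_of_nonneg_left hy0 (by positivity)
        linarith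
      _ = (4 * |ν| + |μ|) * (2 * C) := by ring
      _ ≤ 1 * (2 * C) := mul_le_mul_of_nonneg_right hνμ (by positivity)
      _ = 2 * C := one_mul _
  have hg0ne : g0 ≠ 0 := by
    rw [hg0]
    exact hroot y0 hroot0
  have b1 : |a1| ≤ 108 * C ^ 4 := by rw [ha1]; exact bd1 hC hA hB hG (hD i₀) hy0
  have b2 : |a2| ≤ 54 * C ^ 3 := by rw [ha2]; exact bd2 hC hA hB hG hy0
  have b3 : |a3| ≤ 12 * C ^ 2 := by rw [ha3]; exact bd3 hC hA hB hy0
  have b4 : 2 ≤ C * |a1| := by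
    rw [ha1]; exact bd4 hC he he1 hA hB hG hy0 (hy i₀) hy0y (hd i₀)
  have hz : ∀ i, |r i - y0| ≤ 1 / (100 * C ^ 4) := by
    intro i
    have e1 : r i - y0 = (r i - y i) + (y i - y i₀) + (-(y0 - y i₀)) := by ring
    have e2 : 1 / (100 * C ^ 4) = 1 / (400 * C ^ 4) + 1 / (200 * C ^ 4) + 1 / (400 * C ^ 4) := by
      field_simp; norm_num
    calc |r i - y0| = |(r i - y i) + (y i - y i₀) + (-(y0 - y i₀))| := by rw [← e1]
      _ ≤ |r i - y i| + |y i - y i₀| + |-(y0 - y i₀)| := abs3 _ _ _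
      _ = |r i - y i| + |y i - y i₀| + |y0 - y i₀| := by rw [abs_neg (y0 - y i₀)]
      _ ≤ 1 / (100 * C ^ 4) := by linarith [hr1 i, hyy i i₀]
  have hQ : ∀ i, 1 / C ≤ |a1 + a2 * (r i - y0) + a3 * (r i - y0) ^ 2 + A * (r i - y0) ^ 3| :=
    fun i => bd5 hC hA b2 b3 b4 (hz i)
  have hrel : ∀ i, (τ i : ℝ) * (g0 + c * (r i - y0)) = S * (-((r i - y0) *
      (a1 + a2 * (r i - y0) + a3 * (r i - y0) ^ 2 + A * (r i - y0) ^ 3))) := by
    intro i
    have h1 := hr2 i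
    have h5 := hτD i
    have h7 := hτE i
    rw [hg0, hc, ha1, ha2, ha3]
    linear_combination (-4 * r i) * h5 - h7 + S * h1 - S * hroot0
  have hC1pos : 0 < 1 / C := by positivity
  have hgne : ∀ i, g0 + c * (r i - y0) ≠ 0 := by
    intro i h0
    have h1 := hrel i
    rw [h0, mul_zero] at h1
    have h2 : (r i - y0) * (a1 + a2 * (r i - y0) + a3 * (r i - y0) ^ 2 +
        A * (r i - y0) ^ 3) = 0 := by
      rcases mul_eq_zero.1 h1.symm with h7 | h7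
      · exact absurd h7 hS.ne'
      · exact neg_eq_zero.1 h7
    rcases mul_eq_zero.1 h2 with h5 | h5
    · rw [h5, mul_zero, add_zero] at h0
      exact hg0ne h0
    · have h7 := hQ i
      rw [h5, abs_zero] at h7
      linarith
  obtain ⟨z, hzdef⟩ : ∃ z : ι → ℝ, ∀ i, z i = (r i - y0) / (g0 + c * (r i - y0)) :=
    ⟨fun i => (r i - y0) / (g0 + c * (r i - y0)), fun i => rfl⟩
  have hz1 : ∀ i, z i * (g0 + c * (r i - y0)) = r i - y0 := by
    intro i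
    rw [hzdef i, div_mul_cancel₀ _ (hgne i)]
  have hτz : ∀ i, (τ i : ℝ) = S * (-(z i *
      (a1 + a2 * (r i - y0) + a3 * (r i - y0) ^ 2 + A * (r i - y0) ^ 3))) := by
    intro i
    apply mul_right_cancel₀ (hgne i)
    rw [hrel i]
    linear_combination (S * (a1 + a2 * (r i - y0) + a3 * (r i - y0) ^ 2 + A * (r i - y0) ^ 3)) *
      hz1 i
  have hLS0 : 0 ≤ L / S := by positivity
  have hzL : ∀ i, |z i| ≤ C * (L / S) := by
    intro i
    have h1 := hτL i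
    rw [hτz i, abs_mul, abs_neg, abs_mul, abs_of_pos hS] at h1
    have h2 := hQ i
    obtain ⟨q, hq⟩ : ∃ q, q = |a1 + a2 * (r i - y0) + a3 * (r i - y0) ^ 2 +
      A * (r i - y0) ^ 3| := ⟨_, rfl⟩
    rw [← hq] at h1 h2
    have h5 : |z i| * (1 / C) ≤ L / S := by
      rw [le_div_iff₀ hS]
      have h7 : |z i| * (1 / C) ≤ |z i| * q := mul_le_mul_of_nonneg_left h2 (abs_nonneg _)
      have h8 := mul_le_mul_of_nonneg_right h7 hS.le
      linarith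
    have h9 : |z i| = C * (|z i| * (1 / C)) := by field_simp
    rw [h9]
    exact mul_le_mul_of_nonneg_left h5 hC0.le
  have hLS2 : C * (L / S) ≤ 1 / 2 := by
    have h1 : L / S ≤ 1 / (1400 * C ^ 5) := by
      rw [div_le_div_iff₀ hS (by positivity)]
      linarith
    have h2 : C * (1 / (1400 * C ^ 5)) = 1 / 1400 * (1 / C ^ 4) := by field_simp
    have h5 : 1 / C ^ 4 ≤ 1 := by
      rw [div_le_one (by positivity)]
      exact one_le_pow₀ hC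
    have h7 : C * (L / S) ≤ C * (1 / (1400 * C ^ 5)) := mul_le_mul_of_nonneg_left h1 hC0.le
    linarith
  have hcz : ∀ i, |c * z i| ≤ 1 / 2 := by
    intro i
    rw [abs_mul]
    calc |c| * |z i| ≤ 1 * (C * (L / S)) :=
          mul_le_mul hc1 (hzL i) (abs_nonneg _) (by norm_num)
      _ ≤ 1 / 2 := by linarith
  have hzu : ∀ i, (r i - y0) * (1 - c * z i) = g0 * z i := by
    intro i
    linear_combination -hz1 i
  have hCC5 : C ≤ C ^ 5 := le_self_pow₀ hC (by norm_num)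
  refine par_of (1400 * C ^ 5) S L e y0 μ c _ _ _ _ (by linarith)
    (bd6 hC hA b1 b2 b3 hc1 hg0b) (bd7 hC hc1) hc1 hμ1 (by linarith) ι τ y r z
    (fun i => peq (hτz i) (hzu i)) ?_ ?_ ?_ ?_ ?_
  · intro i
    have h1 := hzu i
    have h2 : g0 - c * y0 = μ := by rw [hg0, hc]; ring
    linear_combination h1 + z i * h2
  · intro i
    refine (hzL i).trans (mul_le_mul_of_nonneg_right ?_ hLS0)
    linarith
  · intro i
    have h2 := (abs_le.1 (hcz i)).2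
    linarith
  · intro i
    have h2 := (abs_le.1 (hcz i)).1
    linarith
  · intro i
    have h1 := hr1 i
    rw [abs_sub_comm] at h1
    have h2 : C * e ≤ C ^ 5 * e := mul_le_mul_of_nonneg_right hCC5 he
    have h5 : 0 ≤ C ^ 5 * e := by positivity
    linarith

end Pool.Agent.J4H76.HB
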