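import Mathlib
import Pool.Agent.J4H76.HB.L4
import Pool.Agent.R418.HL.P3

/-! Slanted lines: the determinants vanish. -/

set_option autoImplicit false

namespace Pool.Agent.J4H76.HB

open Polynomial
open Pool.Agent.R418.HL (Good Chart Mat qrt_eq cub_eq y_le e_le low_le det_eq par)

noncomputable section

lemma param3_mono {C₄ K S L V : ℝ} {ι : Type} {τ : ι → ℤ} {y : ι → ℝ} (hC₄ : 1 ≤ C₄) (hK : 1 ≤ K)
    (hL : 0 ≤ L / S) (h : Param3 C₄ S L (K / V ^ 4) τ y) :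
    Param3 (C₄ * K) S L (1 / V ^ 4) τ y := by
  have hle : C₄ ≤ C₄ * K := by nlinarith
  intro m
  obtain ⟨F, G, H, ω, z, ε, h1, h2, h3, h4, h5, h6, h7, h8, h9, h10, h11⟩ := h m
  have hpow : C₄ ^ m ≤ (C₄ * K) ^ m := pow_le_pow_left₀ (by linarith) hle m
  have hpow' : 2 * C₄ ^ (m + 1) ≤ 2 * (C₄ * K) ^ (m + 1) := by
    have := pow_le_pow_left₀ (by linarith) hle (m + 1)
    linarith
  refine ⟨F, G, H, ω, z, ε, h1, h2, h3, fun j k => (h4 j k).trans hpow',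
    fun j k => (h5 j k).trans hpow', fun j k => (h6 j k).trans hpow', ?_, ?_, ?_, h10, h11⟩
  · intro i
    have h12 := h7 i
    have h13 : 0 < C₄ ^ m := by positivity
    have h14 : 0 ≤ ω i := by
      by_contra hcon
      have := mul_nonpos_of_nonneg_of_nonpos h13.le (not_le.1 hcon).le
      linarith
    exact h12.trans (mul_le_mul_of_nonneg_right hpow h14)
  · intro i
    exact (h8 i).trans (mul_le_mul_of_nonneg_right hle hL)
  · intro i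
    refine (h9 i).trans (le_of_eq ?_)
    ring

lemma param3_comp {C₄ S L e : ℝ} {ι κ : Type} {τ : ι → ℤ} {y : ι → ℝ} (g : κ → ι)
    (h : Param3 C₄ S L e τ y) : Param3 C₄ S L e (fun i => τ (g i)) (fun i => y (g i)) := by
  intro m
  obtain ⟨F, G, H, ω, z, ε, h1, h2, h3, h4, h5, h6, h7, h8, h9, h10, h11⟩ := h m
  exact ⟨F, G, H, fun i => ω (g i), fun i => z (g i), fun i => ε (g i), h1, h2, h3, h4, h5, h6,
    fun i => h7 (g i), fun i => h8 (g i), fun i => h9 (g i), fun i j => h10 (g i) j,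
    fun i j => h11 (g i) j⟩

/-- the value of the form at the base point of the pencil -/
def om (a b c d e N M : ℤ) : ℤ :=
  a * M ^ 4 - 16 * b * M ^ 3 * N + 96 * c * M ^ 2 * N ^ 2 - 256 * d * M * N ^ 3 + 256 * e * N ^ 4

lemma om_shift (a b c d e N M t : ℤ) : om a b c (d + N * t) (e + M * t) N M = om a b c d e N M := by
  unfold om
  ring

lemma root_ne {a b c d e N M : ℤ} {R T S : ℝ} (hR : 0 < R) (hT : 0 < T) (hS : 0 < S)
    (hω : om a b c d e N M ≠ 0) (r : ℝ)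
    (h : (a * T ^ 4 / R) * r ^ 4 + 4 * (b * T ^ 2 / R) * r ^ 3 + 6 * (c / R) * r ^ 2 +
      4 * (d / (R * T ^ 2)) * r + e / (R * T ^ 4) = 0) :
    4 * (N * S / (R * T ^ 2)) * r + M * S / (R * T ^ 4) ≠ 0 := by
  intro h1
  apply hω
  have h2 : (M : ℝ) = -(4 * N * (T ^ 2 * r)) := by
    have h3 : (4 * (N * S / (R * T ^ 2)) * r + M * S / (R * T ^ 4)) * (R * T ^ 4 / S) =
        4 * N * (T ^ 2 * r) + M := by
      field_simp
    rw [h1, zero_mul] at h3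
    linarith
  have h4 : (a : ℝ) * (T ^ 2 * r) ^ 4 + 4 * b * (T ^ 2 * r) ^ 3 + 6 * c * (T ^ 2 * r) ^ 2 +
      4 * d * (T ^ 2 * r) + e = 0 := by
    have h3 : ((a * T ^ 4 / R) * r ^ 4 + 4 * (b * T ^ 2 / R) * r ^ 3 + 6 * (c / R) * r ^ 2 +
      4 * (d / (R * T ^ 2)) * r + e / (R * T ^ 4)) * (R * T ^ 4) =
        (a : ℝ) * (T ^ 2 * r) ^ 4 + 4 * b * (T ^ 2 * r) ^ 3 + 6 * c * (T ^ 2 * r) ^ 2 +
      4 * d * (T ^ 2 * r) + e := by
      field_simp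
    rw [h, zero_mul] at h3
    exact h3.symm
  have h5 : ((om a b c d e N M : ℤ) : ℝ) = 0 := by
    unfold om
    push_cast
    rw [h2]
    linear_combination (256 * (N : ℝ) ^ 4) * h4
  exact_mod_cast h5

theorem va3 (K : ℝ) (hK : 1 ≤ K) : ∃ c₀ S₀ : ℝ, 0 < c₀ ∧ 1 ≤ S₀ ∧
    ∀ (R T V S σ : ℝ) (m : ℕ) (a b c N M : ℤ)
    (d₀ e₀ p₀ q₀ : ℤ) (P Q τ : Fin m ⊕ Fin m → ℤ),
    1 ≤ R → 0 < T → S₀ ≤ S → S * (4 * |(N : ℝ)| * T ^ 2 + |(M : ℝ)|) ≤ R * T ^ 4 →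
    1 / 10 ≤ σ → V = S ^ σ → m = ⌈6 * σ⌉₊ → om a b c d₀ e₀ N M ≠ 0 →
    (∀ i, Good K R T V a b c (d₀ + N * τ i) (e₀ + M * τ i) (P i) (Q i) ∧
      Chart K R T V a b c (d₀ + N * τ i) (P i) (Q i)) →
    Good K R T V a b c d₀ e₀ p₀ q₀ → Chart K R T V a b c d₀ p₀ q₀ →
    (∀ i j, |(P i : ℝ) / (T ^ 2 * Q i) - P j / (T ^ 2 * Q j)| ≤ c₀) →
    (∀ i, |(P i : ℝ) / (T ^ 2 * Q i) - p₀ / (T ^ 2 * q₀)| ≤ c₀) →
    (∀ i, |(τ i : ℝ)| ≤ S ^ ((1 : ℝ) / 6)) →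
    (Mat m P Q τ).det = 0 := by
  have hK0 : 0 < K := by linarith
  have hK2 : K ≤ K ^ 4 := le_self_pow₀ hK (by norm_num)
  have hK24 : K ^ 2 ≤ K ^ 4 := pow_le_pow_right₀ hK (by norm_num)
  have hK4 : 1 ≤ K ^ 4 := one_le_pow₀ hK
  obtain ⟨c₀, C₄, hc₀, hC₄, hC'⟩ := c2s (K ^ 4) hK4
  have hK1 : 1 ≤ C₄ * K ^ 4 := one_le_mul_of_one_le_of_one_le hC₄ hK4
  obtain ⟨C₅, hC₅, hB'⟩ := dpb3 (C₄ * K ^ 4) hK1
  obtain ⟨S₁, hS₁, hP'⟩ := par (C₅ * K ^ 2)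
    (one_le_mul_of_one_le_of_one_le hC₅ (one_le_pow₀ hK))
  refine ⟨c₀, max S₁ ((C₄ * K ^ 4) ^ 10), hc₀, le_max_of_le_left hS₁, ?_⟩
  intro R T V S σ m a b c N M d₀ e₀ p₀ q₀ P Q τ hR hT0 hS hNM hσ hV hm hω hG hG0 hCh0 hcell hcell0 hd
  have hS1 : S₁ ≤ S := (le_max_left _ _).trans hS
  have hS2 : (C₄ * K ^ 4) ^ 10 ≤ S := (le_max_right _ _).trans hS
  obtain ⟨Y, hY1, hY2⟩ := hP' S σ m hS1 hσ hm
  have hR0 : 0 < R := by linarith
  have hS1' : 1 ≤ S := hS₁.trans hS1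
  have hS0 : 0 < S := by linarith
  set L : ℝ := S ^ ((1 : ℝ) / 6) with hLdef
  have hL0 : 0 < L := Real.rpow_pos_of_pos hS0 _
  have hm1 : 1 ≤ m := by
    rw [hm]
    exact Nat.one_le_ceil_iff.2 (by linarith)
  -- sizes
  have hhalf : C₄ * K ^ 4 ≤ S ^ ((1 : ℝ) / 10) := by
    have h1 : ((C₄ * K ^ 4) ^ 10) ^ ((1 : ℝ) / 10) ≤ S ^ ((1 : ℝ) / 10) :=
      Real.rpow_le_rpow (by positivity) hS2 (by norm_num)
    have h2 : ((C₄ * K ^ 4) ^ 10) ^ ((1 : ℝ) / 10) = C₄ * K ^ 4 := by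
      rw [← Real.rpow_natCast, ← Real.rpow_mul (by positivity)]
      norm_num
    linarith
  have hV1 : S ^ ((1 : ℝ) / 10) ≤ V := by
    rw [hV]
    exact Real.rpow_le_rpow_of_exponent_le hS1' hσ
  have hVK : C₄ * K ^ 4 ≤ V := hhalf.trans hV1
  have hV1' : 1 ≤ V := hK1.trans hVK
  have hV0 : 0 < V := by linarith
  have hLS : (C₄ * K ^ 4) * L ≤ S := by
    calc (C₄ * K ^ 4) * L ≤ S ^ ((1 : ℝ) / 10) * S ^ ((1 : ℝ) / 6) :=
          mul_le_mul_of_nonneg_right hhalf hL0.le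
      _ = S ^ ((1 : ℝ) / 10 + (1 : ℝ) / 6) := (Real.rpow_add hS0 _ _).symm
      _ ≤ S ^ (1 : ℝ) := Real.rpow_le_rpow_of_exponent_le hS1' (by norm_num)
      _ = S := Real.rpow_one S
  have hLS' : C₄ * L ≤ S := by
    refine le_trans ?_ hLS
    exact mul_le_mul_of_nonneg_right (le_mul_of_one_le_right (by linarith) hK4) hL0.le
  have hV4 : V ≤ V ^ 4 := le_self_pow₀ hV1' (by norm_num)
  have he1 : C₄ * (K ^ 4 / V ^ 4) ≤ 1 := by
    rw [← mul_div_assoc, div_le_one (by positivity)]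
    exact hVK.trans hV4
  have hRT4 : 0 < R * T ^ 4 := by positivity
  -- facts on the points
  have fact : ∀ d e p q : ℤ, Good K R T V a b c d e p q → Chart K R T V a b c d p q →
      (q : ℝ) ≠ 0 := by
    intro d e p q _ h2 h3
    have h4 := h2.1
    rw [h3, abs_zero, zero_mul, mul_zero] at h4
    linarith
  have fy : ∀ d e p q : ℤ, Good K R T V a b c d e p q → Chart K R T V a b c d p q →
      |(p : ℝ) / (T ^ 2 * q)| ≤ K ^ 4 := by
    intro d e p q h1 h2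
    exact (y_le hK hT0 (fact d e p q h1 h2) h1.hp h2.1).trans hK24
  have fe : ∀ d e p q : ℤ, Good K R T V a b c d e p q → Chart K R T V a b c d p q →
      |(a * T ^ 4 / R) * ((p : ℝ) / (T ^ 2 * q)) ^ 4 + 4 * (b * T ^ 2 / R) *
        (p / (T ^ 2 * q)) ^ 3 + 6 * (c / R) * (p / (T ^ 2 * q)) ^ 2 +
        4 * (d / (R * T ^ 2)) * (p / (T ^ 2 * q)) + e / (R * T ^ 4)| ≤ K ^ 4 / V ^ 4 := by
    intro d e p q h1 h2
    have h3 := h1.heq
    have h4 : (a : ℝ) * p ^ 4 + 4 * b * p ^ 3 * q + 6 * c * p ^ 2 * q ^ 2 + 4 * d * p * q ^ 3 +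
      e * q ^ 4 = 1 := by
      exact_mod_cast h3
    rw [qrt_eq hR0 hT0 (fact d e p q h1 h2) h4]
    exact e_le hK hR hT0 (fact d e p q h1 h2) hV0 h2.1
  have fl : ∀ d e p q : ℤ, Good K R T V a b c d e p q → Chart K R T V a b c d p q →
      1 ≤ K ^ 4 * |(a * T ^ 4 / R) * ((p : ℝ) / (T ^ 2 * q)) ^ 3 +
        3 * (b * T ^ 2 / R) * (p / (T ^ 2 * q)) ^ 2 + 3 * (c / R) * (p / (T ^ 2 * q)) +
        d / (R * T ^ 2)| := by
    intro d e p q h1 h2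
    rw [cub_eq hR0 hT0 (fact d e p q h1 h2)]
    apply low_le hK hR0 hT0 (fact d e p q h1 h2) h1.hq
    have h3 := h2.2
    push_cast at h3
    exact h3
  have fd : ∀ d e p q : ℤ, Good K R T V a b c d e p q → |(d : ℝ) / (R * T ^ 2)| ≤ K ^ 4 := by
    intro d e p q h1
    have h3 : 0 < R * T ^ 2 := by positivity
    rw [abs_div, abs_of_pos h3, div_le_iff₀ h3]
    refine h1.hd.trans ?_
    exact mul_le_mul_of_nonneg_right hK2 h3.le
  have hA : |(a : ℝ) * T ^ 4 / R| ≤ K ^ 4 := by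
    rw [abs_div, abs_mul, abs_of_pos hR0, abs_of_pos (by positivity : 0 < T ^ 4),
      div_le_iff₀ hR0]
    refine hG0.ha.trans ?_
    gcongr
  have hBb : |(b : ℝ) * T ^ 2 / R| ≤ K ^ 4 := by
    rw [abs_div, abs_mul, abs_of_pos hR0, abs_of_pos (by positivity : 0 < T ^ 2),
      div_le_iff₀ hR0]
    refine hG0.hb.trans ?_
    gcongr
  have hGg : |(c : ℝ) / R| ≤ K ^ 4 := by
    rw [abs_div, abs_of_pos hR0, div_le_iff₀ hR0]
    refine hG0.hc.trans ?_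
    gcongr
  have hνμ : 4 * |(N : ℝ) * S / (R * T ^ 2)| + |(M : ℝ) * S / (R * T ^ 4)| ≤ 1 := by
    have h3 : 0 < R * T ^ 2 := by positivity
    have e2 : |(N : ℝ) * S / (R * T ^ 2)| = |(N : ℝ)| * S / (R * T ^ 2) := by
      rw [abs_div, abs_mul (N : ℝ) S, abs_of_pos hS0, abs_of_pos h3]
    have e3 : |(M : ℝ) * S / (R * T ^ 4)| = |(M : ℝ)| * S / (R * T ^ 4) := by
      rw [abs_div, abs_mul (M : ℝ) S, abs_of_pos hS0, abs_of_pos hRT4]
    rw [e2, e3]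
    have e1 : 4 * (|(N : ℝ)| * S / (R * T ^ 2)) + |(M : ℝ)| * S / (R * T ^ 4) =
        S * (4 * |(N : ℝ)| * T ^ 2 + |(M : ℝ)|) / (R * T ^ 4) := by
      field_simp
    rw [e1, div_le_one hRT4]
    exact hNM
  have hroot := fun r => root_ne hR0 hT0 hS0 hω r
  -- the family with the base point
  have hpar : Param3 C₄ S L (K ^ 4 / V ^ 4)
      (fun o : Option (Fin m ⊕ Fin m) => o.elim 0 τ)
      (fun o : Option (Fin m ⊕ Fin m) => o.elim ((p₀ : ℝ) / (T ^ 2 * q₀))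
        (fun i => (P i : ℝ) / (T ^ 2 * Q i))) := by
    apply hC' S L (K ^ 4 / V ^ 4) (a * T ^ 4 / R) (b * T ^ 2 / R) (c / R)
      (N * S / (R * T ^ 2)) (M * S / (R * T ^ 4))
      (Option (Fin m ⊕ Fin m)) _
      (fun o : Option (Fin m ⊕ Fin m) => o.elim ((d₀ : ℝ) / (R * T ^ 2))
        (fun i => ((d₀ + N * τ i : ℤ) : ℝ) / (R * T ^ 2)))
      (fun o : Option (Fin m ⊕ Fin m) => o.elim ((e₀ : ℝ) / (R * T ^ 4))
        (fun i => ((e₀ + M * τ i : ℤ) : ℝ) / (R * T ^ 4))) _ none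
      hS0 hL0.le hLS' (by positivity) he1 hA hBb hGg _ hνμ
    · rintro (_ | i)
      · exact fy d₀ e₀ p₀ q₀ hG0 hCh0
      · exact fy _ _ (P i) (Q i) (hG i).1 (hG i).2
    · rintro (_ | i)
      · exact fe d₀ e₀ p₀ q₀ hG0 hCh0
      · exact fe _ _ (P i) (Q i) (hG i).1 (hG i).2
    · rintro (_ | i)
      · exact fl d₀ e₀ p₀ q₀ hG0 hCh0
      · exact fl _ _ (P i) (Q i) (hG i).1 (hG i).2
    · rintro (_ | i) (_ | j)
      · show |(p₀ : ℝ) / (T ^ 2 * q₀) - (p₀ : ℝ) / (T ^ 2 * q₀)| ≤ c₀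
        rw [sub_self, abs_zero]
        exact hc₀.le
      · show |(p₀ : ℝ) / (T ^ 2 * q₀) - (P j : ℝ) / (T ^ 2 * Q j)| ≤ c₀
        rw [abs_sub_comm]
        exact hcell0 j
      · exact hcell0 i
      · exact hcell i j
    · rintro (_ | i)
      · show S * ((d₀ : ℝ) / (R * T ^ 2) - (d₀ : ℝ) / (R * T ^ 2)) =
          N * S / (R * T ^ 2) * ((0 : ℤ) : ℝ)
        rw [sub_self, mul_zero, Int.cast_zero, mul_zero]
      · show S * (((d₀ + N * τ i : ℤ) : ℝ) / (R * T ^ 2) - (d₀ : ℝ) / (R * T ^ 2)) =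
          N * S / (R * T ^ 2) * (τ i : ℝ)
        push_cast
        field_simp
        ring
    · rintro (_ | i)
      · show S * ((e₀ : ℝ) / (R * T ^ 4) - (e₀ : ℝ) / (R * T ^ 4)) =
          M * S / (R * T ^ 4) * ((0 : ℤ) : ℝ)
        rw [sub_self, mul_zero, Int.cast_zero, mul_zero]
      · show S * (((e₀ + M * τ i : ℤ) : ℝ) / (R * T ^ 4) - (e₀ : ℝ) / (R * T ^ 4)) =
          M * S / (R * T ^ 4) * (τ i : ℝ)
        push_cast
        field_simp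
        ring
    · rintro (_ | i)
      · show |((0 : ℤ) : ℝ)| ≤ L
        rw [Int.cast_zero, abs_zero]
        exact hL0.le
      · show |((τ i : ℤ) : ℝ)| ≤ L
        exact hd i
    · exact hroot
    · rintro (_ | i)
      · exact fd d₀ e₀ p₀ q₀ hG0
      · exact fd _ _ (P i) (Q i) (hG i).1
  have hpar2 : Param3 (C₄ * K ^ 4) S L (1 / V ^ 4) τ
      (fun i : Fin m ⊕ Fin m => (P i : ℝ) / (T ^ 2 * Q i)) :=
    param3_mono hC₄ hK4 (by positivity) (param3_comp (fun i => some i) hpar)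
  have hY2' : ∀ u : ℤ, |u| ≤ m →
      V ^ (4 * u - 2 * m) * L ^ (m * (m - 1)) * (L / S) ^ (u.natAbs ^ 2) ≤ Y := by
    intro u hu
    rw [hV]
    exact hY2 u hu
  have hdet := hB' m S L V hm1 hS0 hL0 hLS hV1' _ _ hpar2 Y hY2'
  have hY0 : 0 ≤ Y := by
    have h1 := hY2' 0 (by rw [abs_zero]; positivity)
    refine le_trans ?_ h1
    positivity
  have hmain := det_eq (V := V) hK P Q τ (fun i => (P i : ℝ) / (T ^ 2 * Q i))
    hT0
    (by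
      intro i
      have h1 := fact _ _ (P i) (Q i) (hG i).1 (hG i).2
      field_simp)
    (fun i => (hG i).1.hq)
  set Dt : ℝ := |Matrix.det (Matrix.of fun i : Fin m ⊕ Fin m =>
    Sum.elim (fun j : Fin m => (τ i : ℝ) ^ (j : ℕ))
      (fun j : Fin m => (P i : ℝ) / (T ^ 2 * Q i) * (τ i : ℝ) ^ (j : ℕ)))| with hDt
  have hlt : |((Mat m P Q τ).det : ℝ)| < 1 := by
    have h1 : (K * V) ^ (2 * m) * Dt ≤ (K ^ 2) ^ (m ^ 2) * (C₅ ^ (m ^ 2) * Y) := by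
      have e1 : (K * V) ^ (2 * m) * Dt = (K ^ 2) ^ m * (V ^ (2 * m) * Dt) := by
        rw [mul_pow, pow_mul K 2 m]
        ring
      rw [e1]
      have e2 : (K ^ 2) ^ m ≤ (K ^ 2) ^ (m ^ 2) :=
        pow_le_pow_right₀ (one_le_pow₀ hK) (by nlinarith)
      exact mul_le_mul e2 hdet (by positivity) (by positivity)
    have h2 : (K ^ 2) ^ (m ^ 2) * (C₅ ^ (m ^ 2) * Y) = (C₅ * K ^ 2) ^ (m ^ 2) * Y := by
      rw [mul_pow C₅]
      ring
    rw [h2] at h1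
    exact (hmain.trans h1).trans_lt hY1
  have hlt' : |(Mat m P Q τ).det| < 1 := by exact_mod_cast hlt
  exact Int.abs_lt_one_iff.1 hlt'

end

end Pool.Agent.J4H76.HB
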