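import Mathlib

/-! Slanted lines: the value of the pencil on a rational section is not a square. -/

set_option autoImplicit false

namespace Pool.Agent.J4H76.HB

open Polynomial

theorem sq_of_odd {a u v : ℚ} {w : ℕ} (hw : Odd w) (hu : u ≠ 0) (h : v ^ 2 = a ^ w * u ^ 2) :
    IsSquare a := by
  obtain ⟨k, rfl⟩ := hw
  by_cases ha : a = 0
  · rw [ha]
    exact IsSquare.zero
  refine ⟨v / (a ^ k * u), ?_⟩
  have h1 : a ^ k * u ≠ 0 := mul_ne_zero (pow_ne_zero _ ha) hu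
  field_simp
  rw [h]
  ring

theorem odd_norm {W f x : ℚ[X]} {a : ℚ} (hW : W ≠ 0) (hodd : Odd W.natDegree)
    (hcop : IsCoprime x W) (h : W ∣ f ^ 2 - C a * x ^ 2) : IsSquare a := by
  have hnt : Nontrivial (AdjoinRoot W) := by
    apply AdjoinRoot.nontrivial
    intro h0
    have h1 : W.natDegree = 0 := natDegree_eq_of_degree_eq_some h0
    rw [h1] at hodd
    exact (Nat.not_odd_zero) hodd
  let pb := AdjoinRoot.powerBasis hW
  have : Module.Free ℚ (AdjoinRoot W) := Module.Free.of_basis pb.basis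
  have h1 : (AdjoinRoot.mk W f) ^ 2 = algebraMap ℚ (AdjoinRoot W) a * (AdjoinRoot.mk W x) ^ 2 := by
    have h2 := AdjoinRoot.mk_eq_zero.2 h
    rw [map_sub, map_mul, map_pow, map_pow, AdjoinRoot.mk_C, sub_eq_zero] at h2
    rw [h2, AdjoinRoot.algebraMap_eq]
  have h3 := congrArg (Algebra.norm ℚ) h1
  rw [map_mul, map_pow, map_pow, Algebra.norm_algebraMap, pb.finrank] at h3
  have hdim : pb.dim = W.natDegree := AdjoinRoot.powerBasis_dim hW
  rw [hdim] at h3
  have hunit : IsUnit (AdjoinRoot.mk W x) := by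
    obtain ⟨u, v, huv⟩ := hcop
    have h4 := congrArg (AdjoinRoot.mk W) huv
    rw [map_add, map_mul, map_mul, AdjoinRoot.mk_self, mul_zero, add_zero, map_one] at h4
    exact IsUnit.of_mul_eq_one _ (by rw [mul_comm]; exact h4)
  have hne : Algebra.norm ℚ (AdjoinRoot.mk W x) ≠ 0 := (hunit.map (Algebra.norm ℚ)).ne_zero
  exact sq_of_odd hodd hne h3

theorem lc_sq {a u v : ℚ} (hu : u ≠ 0) (h : v ^ 2 = a * u ^ 4) : IsSquare a := by
  refine ⟨v / u ^ 2, ?_⟩
  field_simp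
  rw [h]

theorem pencil_ns {a β γ δ κ ω : ℚ} (hκ : κ ≠ 0) (ha : ¬ IsSquare a) (hω : ¬ IsSquare ω)
    {x W f : ℚ[X]} (hcop : IsCoprime x W)
    (h : f ^ 2 = C a * x ^ 4 + (C β * (x ^ 3 * W) + (C γ * (x ^ 2 * W ^ 2) +
      ((C δ + C κ * X) * (x * W ^ 3) + C ω * W ^ 4)))) : False := by
  have ha0 : a ≠ 0 := fun h0 => ha (h0 ▸ IsSquare.zero)
  have hω0 : ω ≠ 0 := fun h0 => hω (h0 ▸ IsSquare.zero)
  have hlin : (C δ + C κ * X : ℚ[X]).natDegree = 1 := by
    rw [add_comm]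
    exact natDegree_linear hκ
  have hlin0 : (C δ + C κ * X : ℚ[X]) ≠ 0 := by
    intro h0
    rw [h0, natDegree_zero] at hlin
    exact absurd hlin (by norm_num)
  by_cases hW : W = 0
  · subst hW
    have hx : x ≠ 0 := by
      rintro rfl
      obtain ⟨u, v, huv⟩ := hcop
      simp at huv
    have h1 : f ^ 2 = C a * x ^ 4 := by rw [h]; ring
    have h2 := congrArg leadingCoeff h1
    rw [leadingCoeff_pow, leadingCoeff_mul, leadingCoeff_C, leadingCoeff_pow] at h2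
    exact ha (lc_sq (leadingCoeff_ne_zero.2 hx) h2)
  by_cases hx : x = 0
  · subst hx
    have h1 : f ^ 2 = C ω * W ^ 4 := by rw [h]; ring
    have h2 := congrArg leadingCoeff h1
    rw [leadingCoeff_pow, leadingCoeff_mul, leadingCoeff_C, leadingCoeff_pow] at h2
    exact hω (lc_sq (leadingCoeff_ne_zero.2 hW) h2)
  have hWe : ¬ Odd W.natDegree := by
    intro hodd
    apply ha
    refine odd_norm (f := f) (x := x ^ 2) hW hodd hcop.pow_left ?_
    refine ⟨C β * x ^ 3 + (C γ * (x ^ 2 * W) + ((C δ + C κ * X) * (x * W ^ 2) + C ω * W ^ 3)), ?_⟩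
    rw [h]; ring
  have hxe : ¬ Odd x.natDegree := by
    intro hodd
    apply hω
    refine odd_norm (f := f) (x := W ^ 2) hx hodd hcop.symm.pow_left ?_
    refine ⟨C a * x ^ 3 + (C β * (x ^ 2 * W) + (C γ * (x * W ^ 2) +
      (C δ + C κ * X) * W ^ 3)), ?_⟩
    rw [h]; ring
  rw [Nat.not_odd_iff_even] at hWe hxe
  obtain ⟨n, hn⟩ : ∃ n, n = x.natDegree := ⟨_, rfl⟩
  obtain ⟨w, hw⟩ : ∃ w, w = W.natDegree := ⟨_, rfl⟩
  have hxn : ∀ k, (x ^ k).natDegree = k * n := fun k => by rw [natDegree_pow, hn]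
  have hWn : ∀ k, (W ^ k).natDegree = k * w := fun k => by rw [natDegree_pow, hw]
  have d1 : (C a * x ^ 4).natDegree = 4 * n := by rw [natDegree_C_mul ha0, hxn]
  have d2 : (C β * (x ^ 3 * W)).natDegree ≤ 3 * n + w := by
    refine (natDegree_C_mul_le _ _).trans ?_
    refine (natDegree_mul_le_of_le (hxn 3).le hw.ge).trans (le_refl _)
  have d3 : (C γ * (x ^ 2 * W ^ 2)).natDegree ≤ 2 * n + 2 * w := by
    refine (natDegree_C_mul_le _ _).trans ?_
    exact natDegree_mul_le_of_le (hxn 2).le (hWn 2).le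
  have d4 : ((C δ + C κ * X) * (x * W ^ 3)).natDegree = 1 + (n + 3 * w) := by
    rw [natDegree_mul hlin0 (mul_ne_zero hx (pow_ne_zero 3 hW)), hlin,
      natDegree_mul hx (pow_ne_zero 3 hW), hWn, ← hn]
  have d5 : (C ω * W ^ 4).natDegree = 4 * w := by rw [natDegree_C_mul hω0, hWn]
  rw [← hn] at hxe
  rw [← hw] at hWe
  obtain ⟨n', hn'⟩ := hxe
  obtain ⟨w', hw'⟩ := hWe
  rcases lt_trichotomy w n with hlt | heq | hgt
  · -- the first term dominates
    have e4 : ((C δ + C κ * X) * (x * W ^ 3) + C ω * W ^ 4).natDegree < 4 * n :=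
      lt_of_le_of_lt (natDegree_add_le _ _) (max_lt (by omega) (by omega))
    have e3 : (C γ * (x ^ 2 * W ^ 2) + ((C δ + C κ * X) * (x * W ^ 3) +
        C ω * W ^ 4)).natDegree < 4 * n :=
      lt_of_le_of_lt (natDegree_add_le _ _) (max_lt (by omega) e4)
    have e2 : (C β * (x ^ 3 * W) + (C γ * (x ^ 2 * W ^ 2) + ((C δ + C κ * X) * (x * W ^ 3) +
        C ω * W ^ 4))).natDegree < (C a * x ^ 4).natDegree := by
      rw [d1]
      exact lt_of_le_of_lt (natDegree_add_le _ _) (max_lt (by omega) e3)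
    have h2 := congrArg leadingCoeff h
    rw [leadingCoeff_add_of_degree_lt' (degree_lt_degree e2), leadingCoeff_pow, leadingCoeff_mul,
      leadingCoeff_C, leadingCoeff_pow] at h2
    exact ha (lc_sq (leadingCoeff_ne_zero.2 hx) h2)
  · -- odd degree
    have e4 : ((C δ + C κ * X) * (x * W ^ 3) + C ω * W ^ 4).natDegree = 1 + (n + 3 * w) := by
      rw [natDegree_add_eq_left_of_natDegree_lt (by omega), d4]
    have e3 : (C γ * (x ^ 2 * W ^ 2) + ((C δ + C κ * X) * (x * W ^ 3) +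
        C ω * W ^ 4)).natDegree = 1 + (n + 3 * w) := by
      rw [natDegree_add_eq_right_of_natDegree_lt (by omega), e4]
    have e2 : (C β * (x ^ 3 * W) + (C γ * (x ^ 2 * W ^ 2) + ((C δ + C κ * X) * (x * W ^ 3) +
        C ω * W ^ 4))).natDegree = 1 + (n + 3 * w) := by
      rw [natDegree_add_eq_right_of_natDegree_lt (by omega), e3]
    have h2 := congrArg natDegree h
    rw [natDegree_add_eq_right_of_natDegree_lt (by omega), e2, natDegree_pow] at h2
    omega
  · -- the last term dominates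
    have e4 : ((C δ + C κ * X) * (x * W ^ 3)).natDegree < (C ω * W ^ 4).natDegree := by omega
    have e3 : (C γ * (x ^ 2 * W ^ 2)).natDegree < (C ω * W ^ 4).natDegree := by omega
    have e2 : (C β * (x ^ 3 * W)).natDegree < (C ω * W ^ 4).natDegree := by omega
    have e1 : (C a * x ^ 4).natDegree < (C ω * W ^ 4).natDegree := by omega
    have h1 : f ^ 2 = (C a * x ^ 4 + (C β * (x ^ 3 * W) + (C γ * (x ^ 2 * W ^ 2) +
      (C δ + C κ * X) * (x * W ^ 3)))) + C ω * W ^ 4 := by rw [h]; ring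
    have e5 : (C a * x ^ 4 + (C β * (x ^ 3 * W) + (C γ * (x ^ 2 * W ^ 2) +
      (C δ + C κ * X) * (x * W ^ 3)))).natDegree < (C ω * W ^ 4).natDegree := by
      refine lt_of_le_of_lt (natDegree_add_le _ _) (max_lt e1 ?_)
      refine lt_of_le_of_lt (natDegree_add_le _ _) (max_lt e2 ?_)
      exact lt_of_le_of_lt (natDegree_add_le _ _) (max_lt e3 e4)
    have h2 := congrArg leadingCoeff h1
    rw [leadingCoeff_add_of_degree_lt (degree_lt_degree e5), leadingCoeff_pow, leadingCoeff_mul,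
      leadingCoeff_C, leadingCoeff_pow] at h2
    exact hω (lc_sq (leadingCoeff_ne_zero.2 hW) h2)

/-- the form over the rational polynomials -/
theorem pencil_form {a b c d e N M : ℚ} (hN : N ≠ 0) (ha : ¬ IsSquare a)
    (hω : ¬ IsSquare (a * M ^ 4 - 16 * b * M ^ 3 * N + 96 * c * M ^ 2 * N ^ 2 -
      256 * d * M * N ^ 3 + 256 * e * N ^ 4)) {U W f : ℚ[X]} (h0 : U ≠ 0 ∨ W ≠ 0)
    (h : f ^ 2 = C a * U ^ 4 + C (4 * b) * (U ^ 3 * W) + C (6 * c) * (U ^ 2 * W ^ 2) +
      C 4 * (C d + C N * X) * (U * W ^ 3) + (C e + C M * X) * W ^ 4) : False := by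
  classical
  -- remove the common factor
  obtain ⟨g, U', W', hg, hU, hW, hcop⟩ : ∃ g U' W' : ℚ[X], g ≠ 0 ∧ U = g * U' ∧ W = g * W' ∧
      IsCoprime U' W' := by
    obtain ⟨U', hU'⟩ := EuclideanDomain.gcd_dvd_left U W
    obtain ⟨W', hW'⟩ := EuclideanDomain.gcd_dvd_right U W
    have hg : EuclideanDomain.gcd U W ≠ 0 := by
      intro h1
      rw [EuclideanDomain.gcd_eq_zero_iff] at h1
      rcases h0 with h2 | h2
      · exact h2 h1.1
      · exact h2 h1.2
    refine ⟨_, U', W', hg, hU', hW', EuclideanDomain.gcdA U W, EuclideanDomain.gcdB U W, ?_⟩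
    have h1 := EuclideanDomain.gcd_eq_gcd_ab U W
    apply mul_left_cancel₀ hg
    rw [mul_one]
    calc EuclideanDomain.gcd U W * (EuclideanDomain.gcdA U W * U' + EuclideanDomain.gcdB U W * W')
        = (EuclideanDomain.gcd U W * U') * EuclideanDomain.gcdA U W +
          (EuclideanDomain.gcd U W * W') * EuclideanDomain.gcdB U W := by ring
      _ = U * EuclideanDomain.gcdA U W + W * EuclideanDomain.gcdB U W := by rw [← hU', ← hW']
      _ = EuclideanDomain.gcd U W := h1.symm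
  have hdvd : (g ^ 2) ^ 2 ∣ f ^ 2 := by
    refine ⟨C a * U' ^ 4 + C (4 * b) * (U' ^ 3 * W') + C (6 * c) * (U' ^ 2 * W' ^ 2) +
      C 4 * (C d + C N * X) * (U' * W' ^ 3) + (C e + C M * X) * W' ^ 4, ?_⟩
    rw [h, hU, hW]
    ring
  rw [IsIntegrallyClosed.pow_dvd_pow_iff (by norm_num)] at hdvd
  obtain ⟨f', rfl⟩ := hdvd
  have h' : f' ^ 2 = C a * U' ^ 4 + C (4 * b) * (U' ^ 3 * W') + C (6 * c) * (U' ^ 2 * W' ^ 2) +
      C 4 * (C d + C N * X) * (U' * W' ^ 3) + (C e + C M * X) * W' ^ 4 := by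
    apply mul_left_cancel₀ (pow_ne_zero 4 hg)
    calc g ^ 4 * f' ^ 2 = (g ^ 2 * f') ^ 2 := by ring
      _ = _ := by
        rw [h, hU, hW]
        ring
  -- the linear substitution
  obtain ⟨x, hx⟩ : ∃ x : ℚ[X], x = C (4 * N) * U' + C M * W' := ⟨_, rfl⟩
  have h4N : (4 * N : ℚ) ≠ 0 := mul_ne_zero (by norm_num) hN
  have hcop' : IsCoprime x W' := by
    obtain ⟨u, v, huv⟩ := hcop
    refine ⟨C (4 * N)⁻¹ * u, v - C (4 * N)⁻¹ * u * C M, ?_⟩
    rw [hx]
    have h1 : C (4 * N)⁻¹ * C (4 * N) = (1 : ℚ[X]) := by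
      rw [← C_mul, inv_mul_cancel₀ h4N, C_1]
    linear_combination huv + u * U' * h1
  refine pencil_ns (a := a) (β := -4 * a * M + 16 * b * N)
    (γ := 6 * a * M ^ 2 - 48 * b * N * M + 96 * c * N ^ 2)
    (δ := -4 * a * M ^ 3 + 48 * b * N * M ^ 2 - 192 * c * N ^ 2 * M + 256 * d * N ^ 3)
    (κ := 256 * N ^ 4)
    (mul_ne_zero (by norm_num) (pow_ne_zero 4 hN)) ha hω (f := C (16 * N ^ 2) * f') hcop' ?_
  have e1 : (C (16 * N ^ 2) * f') ^ 2 = C (16 * N ^ 2) ^ 2 * f' ^ 2 := by ring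
  rw [e1, h', hx]
  simp only [C_add, C_sub, C_mul, C_pow, C_neg, map_ofNat]
  ring

end Pool.Agent.J4H76.HB
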