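import Mathlib
import Pool.Agent.J4H76.HB.L6
import Pool.Agent.R418.HL.Q2

/-! Slanted lines: points whose value is a square, in residue classes. -/

set_option autoImplicit false

namespace Pool.Agent.J4H76.HB

open Polynomial
open Pool.Agent.R418.HL (pad)

open Pool.Agent.W33.HZ in
theorem clsG (G : ℤ[X]) (m : ℕ)
    (hne : ∀ P₁ P₂ : ℤ[X], P₁ ≠ 0 ∨ P₂ ≠ 0 → P₁ ^ 2 - P₂ ^ 2 * G ≠ 0)
    (hGdeg : G.natDegree ≤ 4 * m) (p m' : ℕ)
    (hp : p.Prime) (hp3 : 3 < p) (hm' : 1 ≤ m') (L Gm : ℝ) (hL : 1 ≤ L) (hGm : 1 ≤ Gm)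
    (hlt : (2 * m') ^ 2 * Gm * L ^ (m' - 1) < (p : ℝ) ^ (2 * m' - 1))
    (𝒯 : Finset ℤ) (g : ℤ → ℤ) (hg : ∀ τ ∈ 𝒯, g τ ^ 2 = G.eval τ)
    (hτL : ∀ τ ∈ 𝒯, |(τ : ℝ)| ≤ L) (hgG : ∀ τ ∈ 𝒯, |(g τ : ℝ)| ≤ Gm)
    (hpg : ∀ τ ∈ 𝒯, ¬ (p : ℤ) ∣ g τ)
    (hpp : ∀ τ ∈ 𝒯, ∀ τ' ∈ 𝒯, (p : ℤ) ∣ τ - τ' ∧ (p : ℤ) ∣ g τ - g τ') :
    𝒯.card ≤ 2 * m' + 4 * m := by
  classical
  rcases 𝒯.eq_empty_or_nonempty with rfl | ⟨τ₀, hτ₀⟩
  · simp
  have hL0 : (0 : ℝ) < L := by linarith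
  have hG0 : (0 : ℝ) < Gm := by linarith
  -- the matrix
  set Am : {τ // τ ∈ 𝒯} → (Fin m' ⊕ Fin m') → ℤ := fun τ =>
    Sum.elim (fun j : Fin m' => τ.1 ^ (j : ℕ)) (fun j : Fin m' => g τ.1 * τ.1 ^ (j : ℕ)) with hAm
  set vv : Fin m' ⊕ Fin m' → ℝ := Sum.elim (fun j : Fin m' => L ^ (j : ℕ))
    (fun j : Fin m' => Gm * L ^ (j : ℕ)) with hvv
  have hvpos : ∀ j, 0 < vv j := by
    rintro (j | j)
    · exact pow_pos hL0 _
    · exact mul_pos hG0 (pow_pos hL0 _)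
  have hent : ∀ τ j, |(Am τ j : ℝ)| ≤ vv j := by
    rintro ⟨τ, hτ⟩ (j | j)
    · show |((τ ^ (j : ℕ) : ℤ) : ℝ)| ≤ L ^ (j : ℕ)
      push_cast
      rw [abs_pow]
      exact pow_le_pow_left₀ (abs_nonneg _) (hτL τ hτ) _
    · show |((g τ * τ ^ (j : ℕ) : ℤ) : ℝ)| ≤ Gm * L ^ (j : ℕ)
      push_cast
      rw [abs_mul, abs_pow]
      exact mul_le_mul (hgG τ hτ) (pow_le_pow_left₀ (abs_nonneg _) (hτL τ hτ) _)
        (pow_nonneg (abs_nonneg _) _) hG0.le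
  have hprod : ∏ j, vv j = (Gm * L ^ (m' - 1)) ^ m' := by
    rw [Fintype.prod_sum_type]
    have h1 : ∏ j : Fin m', vv (Sum.inl j) = ∏ j : Fin m', L ^ (j : ℕ) := rfl
    have h2 : ∏ j : Fin m', vv (Sum.inr j) = Gm ^ m' * ∏ j : Fin m', L ^ (j : ℕ) := by
      show ∏ j : Fin m', Gm * L ^ (j : ℕ) = _
      rw [Finset.prod_mul_distrib, Finset.prod_const, Finset.card_univ, Fintype.card_fin]
    rw [h1, h2, mul_pow, ← prod_pow]
    ring
  have hdet : ∀ f : (Fin m' ⊕ Fin m') → {τ // τ ∈ 𝒯},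
      Matrix.det (Matrix.of fun i j => Am (f i) j) = 0 := by
    intro f
    have h1 := pad p hp hp3 G m' hm' (fun i => (f i).1) (fun i => g (f i).1)
      (fun i => hg _ (f i).2) (fun i => hpg _ (f i).2) (fun i j => (hpp _ (f i).2 _ (f j).2).1)
      (fun i j => (hpp _ (f i).2 _ (f j).2).2)
    have h2 : (Matrix.of fun i : Fin m' ⊕ Fin m' =>
        Sum.elim (fun j : Fin m' => (f i).1 ^ (j : ℕ)) (fun j : Fin m' => g (f i).1 *
          (f i).1 ^ (j : ℕ))) = Matrix.of fun i j => Am (f i) j := rfl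
    rw [h2] at h1
    refine Int.eq_zero_of_abs_lt_dvd h1 ?_
    have h3 := det_col_bound (Matrix.of fun i j => Am (f i) j) vv hvpos
      (fun i j => hent (f i) j)
    rw [hprod, Fintype.card_sum, Fintype.card_fin] at h3
    have h4 : (((m' + m').factorial : ℕ) : ℝ) ≤ ((2 * (m' : ℝ)) ^ 2) ^ m' := by
      have h5 : (m' + m').factorial ≤ (m' + m') ^ (m' + m') := Nat.factorial_le_pow _
      have h6 : (((m' + m').factorial : ℕ) : ℝ) ≤ (((m' + m') ^ (m' + m') : ℕ) : ℝ) := by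
        exact_mod_cast h5
      refine h6.trans (le_of_eq ?_)
      push_cast
      rw [← pow_mul, two_mul, two_mul]
    have h7 : |((Matrix.of fun i j => Am (f i) j).det : ℝ)| <
        (((p : ℤ) ^ (m' * (2 * m' - 1)) : ℤ) : ℝ) := by
      calc |((Matrix.of fun i j => Am (f i) j).det : ℝ)|
          ≤ (((m' + m').factorial : ℕ) : ℝ) * (Gm * L ^ (m' - 1)) ^ m' := h3
        _ ≤ ((2 * (m' : ℝ)) ^ 2) ^ m' * (Gm * L ^ (m' - 1)) ^ m' :=
            mul_le_mul_of_nonneg_right h4 (by positivity)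
        _ = ((2 * (m' : ℝ)) ^ 2 * Gm * L ^ (m' - 1)) ^ m' := by
            rw [← mul_pow, mul_assoc]
        _ < ((p : ℝ) ^ (2 * m' - 1)) ^ m' :=
            pow_lt_pow_left₀ hlt (by positivity) (by omega)
        _ = (((p : ℤ) ^ (m' * (2 * m' - 1)) : ℤ) : ℝ) := by
            push_cast
            rw [← pow_mul, Nat.mul_comm]
    exact_mod_cast h7
  -- the relation
  have hH1 : (1 : ℝ) ≤ Gm * L ^ m' := one_le_mul_of_one_le_of_one_le hGm (one_le_pow₀ hL)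
  obtain ⟨v, hv0, hvs, -⟩ := Pool.Agent.W563.HZ.REL.t Am (Gm * L ^ m') hH1 ⟨⟨τ₀, hτ₀⟩⟩ (by
    intro τ j
    refine (hent τ j).trans ?_
    rcases j with j | j
    · show L ^ (j : ℕ) ≤ Gm * L ^ m'
      calc L ^ (j : ℕ) ≤ L ^ m' := pow_le_pow_right₀ hL j.2.le
        _ ≤ Gm * L ^ m' := le_mul_of_one_le_left (by positivity) hGm
    · show Gm * L ^ (j : ℕ) ≤ Gm * L ^ m'
      exact mul_le_mul_of_nonneg_left (pow_le_pow_right₀ hL j.2.le) hG0.le) hdet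
  set P₁ : ℤ[X] := pl fun j : Fin m' => v (Sum.inl j) with hP₁
  set P₂ : ℤ[X] := pl fun j : Fin m' => v (Sum.inr j) with hP₂
  have hP0 : P₁ ≠ 0 ∨ P₂ ≠ 0 := by
    by_contra hc
    push Not at hc
    apply hv0
    ext j
    rcases j with j | j
    · have := pl_coeff (fun j : Fin m' => v (Sum.inl j)) j
      rw [← hP₁, hc.1, coeff_zero] at this
      exact this.symm
    · have := pl_coeff (fun j : Fin m' => v (Sum.inr j)) j
      rw [← hP₂, hc.2, coeff_zero] at this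
      exact this.symm
  have hW := hne P₁ P₂ hP0
  have hroot : ∀ τ ∈ 𝒯, (P₁ ^ 2 - P₂ ^ 2 * G).eval τ = 0 := by
    intro τ hτ
    have h1 := hvs ⟨τ, hτ⟩
    rw [Fintype.sum_sum_type] at h1
    have h2 : P₁.eval τ + g τ * P₂.eval τ = 0 := by
      rw [hP₁, hP₂, pl_eval, pl_eval, Finset.mul_sum, ← h1]
      congr 1
      · refine Finset.sum_congr rfl fun j _ => ?_
        show _ = τ ^ (j : ℕ) * v (Sum.inl j)
        ring
      · refine Finset.sum_congr rfl fun j _ => ?_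
        show _ = g τ * τ ^ (j : ℕ) * v (Sum.inr j)
        ring
    rw [eval_sub, eval_mul, eval_pow, eval_pow, ← hg τ hτ]
    have h3 : P₁.eval τ = -(g τ * P₂.eval τ) := by linarith
    rw [h3]
    ring
  have hdeg : (P₁ ^ 2 - P₂ ^ 2 * G).natDegree ≤ 2 * m' + 4 * m := by
    refine (natDegree_sub_le_of_le (m := 2 * m') (n := 2 * m' + 4 * m) ?_ ?_).trans
      (max_le (by omega) le_rfl)
    · exact natDegree_pow_le_of_le 2 (pl_natDegree _)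
    · exact natDegree_mul_le_of_le (natDegree_pow_le_of_le 2 (pl_natDegree _))
        hGdeg
  refine le_trans (card_le_degree_of_subset_roots ?_) hdeg
  intro τ hτ
  rw [mem_roots hW]
  exact hroot τ hτ

lemma card_UG (G₀ : ℤ[X]) (p N : ℕ) (hp : p.Prime) (U : Finset ℤ) (g : ℤ → ℤ)
    (hg : ∀ τ ∈ U, g τ ^ 2 = G₀.eval τ)
    (hN : ∀ F ⊆ U, (∀ τ ∈ F, ∀ τ' ∈ F, (p : ℤ) ∣ τ - τ' ∧ (p : ℤ) ∣ g τ - g τ') → F.card ≤ N) :
    U.card ≤ N * (2 * p) := by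
  have : Fact p.Prime := ⟨hp⟩
  let f : ℤ → ZMod p × ZMod p := fun τ => ((τ : ZMod p), (g τ : ZMod p))
  have h1 : U.card ≤ N * (U.image f).card := by
    apply Finset.card_le_mul_card_image
    intro xy _
    apply hN _ (Finset.filter_subset _ _)
    intro τ hτ τ' hτ'
    rw [Finset.mem_filter] at hτ hτ'
    have h2 : f τ = f τ' := hτ.2.trans hτ'.2.symm
    have h3 : ((τ : ℤ) : ZMod p) = (τ' : ZMod p) := congrArg Prod.fst h2
    have h4 : ((g τ : ℤ) : ZMod p) = (g τ' : ZMod p) := congrArg Prod.snd h2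
    constructor
    · exact (ZMod.intCast_eq_intCast_iff_dvd_sub _ _ _).1 h3.symm
    · exact (ZMod.intCast_eq_intCast_iff_dvd_sub _ _ _).1 h4.symm
  have h5 : (U.image f).card ≤ 2 * p := by
    have h6 : (U.image f).card ≤ 2 * ((U.image f).image Prod.fst).card := by
      apply Finset.card_le_mul_card_image
      intro x _
      set G : (ZMod p)[X] := G₀.map (Int.castRingHom (ZMod p)) with hG
      have h7 : ((U.image f).filter fun xy => xy.1 = x).card ≤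
          (nthRoots 2 (G.eval x)).toFinset.card := by
        apply Finset.card_le_card_of_injOn Prod.snd
        · intro xy hxy
          rw [Finset.mem_coe, Finset.mem_filter, Finset.mem_image] at hxy
          obtain ⟨⟨τ, hτ, rfl⟩, hx⟩ := hxy
          rw [Finset.mem_coe, Multiset.mem_toFinset, mem_nthRoots (by norm_num)]
          rw [← hx]
          show ((g τ : ℤ) : ZMod p) ^ 2 = G.eval ((τ : ℤ) : ZMod p)
          rw [hG, Polynomial.eval_intCast_map, Int.cast_id, ← hg τ hτ]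
          simp
        · intro xy hxy xy' hxy' h
          rw [Finset.mem_coe, Finset.mem_filter] at hxy hxy'
          exact Prod.ext (hxy.2.trans hxy'.2.symm) h
      exact h7.trans ((Multiset.toFinset_card_le _).trans (card_nthRoots 2 _))
    refine h6.trans (Nat.mul_le_mul_left 2 ?_)
    calc ((U.image f).image Prod.fst).card ≤ (Finset.univ : Finset (ZMod p)).card :=
          Finset.card_le_card (Finset.subset_univ _)
      _ = p := by rw [Finset.card_univ, ZMod.card]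
  exact h1.trans (Nat.mul_le_mul_left N h5)

theorem cubG (G₀ : ℤ[X])
    (hne : ∀ P₁ P₂ : ℤ[X], P₁ ≠ 0 ∨ P₂ ≠ 0 → P₁ ^ 2 - P₂ ^ 2 * G₀ ≠ 0) (A B : ℤ[X]) (m : ℕ)
    (hGdeg : G₀.natDegree ≤ 4 * m) (hAB : A ≠ 0 ∨ B ≠ 0) (hA : A.natDegree < m) (hB : B.natDegree < m) (L H Λ : ℝ)
    (hL : 1 ≤ L) (hH : 1 ≤ H) (hΛ : 1 ≤ Λ) (hmΛ : (m : ℝ) ≤ Λ)
    (hexp : ((m : ℝ) * H * L ^ m) ^ 2 ≤ Real.exp Λ) (hcA : ∀ k, |(A.coeff k : ℝ)| ≤ H)
    (hcB : ∀ k, |(B.coeff k : ℝ)| ≤ H) (𝒯 : Finset ℤ) (hτL : ∀ τ ∈ 𝒯, |(τ : ℝ)| ≤ L)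
    (hpq : ∀ τ ∈ 𝒯, ∃ g : ℤ, (g ^ 2) ^ 2 = G₀.eval τ ∧ |g| ≤ |A.eval τ| ∧
      (g = 0 → A.eval τ = 0 ∧ B.eval τ = 0)) :
    (𝒯.card : ℝ) ≤ 200000 * √L * Λ ^ 2 * Real.log (120 * √L * Λ) := by
  -- the function g
  have hex : ∀ τ : ℤ, ∃ g : ℤ, τ ∈ 𝒯 → g ^ 2 = G₀.eval τ ∧
      |g| ≤ |A.eval τ| ^ 2 ∧ (g = 0 → A.eval τ = 0 ∧ B.eval τ = 0) := by
    intro τ
    by_cases hτ : τ ∈ 𝒯
    · obtain ⟨g, hg1, hg2, hg3⟩ := hpq τ hτ
      refine ⟨g ^ 2, fun _ => ⟨hg1, ?_, fun h => hg3 (pow_eq_zero_iff (by norm_num) |>.1 h)⟩⟩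
      rw [abs_pow]
      exact pow_le_pow_left₀ (abs_nonneg _) hg2 2
    · exact ⟨0, fun h => absurd h hτ⟩
  choose g hg using hex
  have hgb : ∀ τ ∈ 𝒯, |(g τ : ℝ)| ≤ Real.exp Λ := by
    intro τ hτ
    have h1 : |(g τ : ℝ)| ≤ |((A.eval τ : ℤ) : ℝ)| ^ 2 := by exact_mod_cast (hg τ hτ).2.1
    refine h1.trans (le_trans ?_ hexp)
    exact pow_le_pow_left₀ (abs_nonneg _)
      (Pool.Agent.W462.HZ.eval_bound A m L H hL hH hA hcA τ (hτL τ hτ)) 2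
  -- the zeros
  have hzero : (𝒯.filter fun τ => g τ = 0).card ≤ m := by
    rcases hAB with h | h
    · apply Pool.Agent.W462.HZ.card_roots_le A h m hA
      intro τ hτ
      rw [Finset.mem_filter] at hτ
      exact ((hg τ hτ.1).2.2 hτ.2).1
    · apply Pool.Agent.W462.HZ.card_roots_le B h m hB
      intro τ hτ
      rw [Finset.mem_filter] at hτ
      exact ((hg τ hτ.1).2.2 hτ.2).2
  obtain ⟨p, hp, hp3, hp16, hpup, hcard⟩ := Pool.Agent.W351.HZ.t Pool.Agent.W499.HZ.PRM.t L Λ hL hΛ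
    (𝒯.filter fun τ => ¬ g τ = 0) g
    (fun τ hτ => (Finset.mem_filter.1 hτ).2)
    (fun τ hτ => hgb τ (Finset.mem_filter.1 hτ).1)
  set U := (𝒯.filter fun τ => ¬ g τ = 0).filter fun τ => ¬ (p : ℤ) ∣ g τ with hU
  have hU1 : ∀ τ ∈ U, τ ∈ 𝒯 ∧ ¬ (p : ℤ) ∣ g τ := by
    intro τ hτ
    rw [hU, Finset.mem_filter, Finset.mem_filter] at hτ
    exact ⟨hτ.1.1, hτ.2⟩
  set m' : ℕ := ⌈Λ⌉₊ + 2 with hm'
  have hm'3 : 3 ≤ m' := by
    have : 0 < ⌈Λ⌉₊ := Nat.ceil_pos.2 (by linarith)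
    omega
  have hΛm : Λ ≤ m' := by
    have h1 := Nat.le_ceil Λ
    rw [hm']
    push_cast
    linarith
  have hm'up : (m' : ℝ) ≤ Λ + 3 := by
    have h1 := Nat.ceil_lt_add_one (a := Λ) (by linarith)
    rw [hm']
    push_cast
    linarith
  have hUc : U.card ≤ (2 * m' + 4 * m) * (2 * p) := by
    apply card_UG G₀ p _ hp U g (fun τ hτ => (hg τ (hU1 τ hτ).1).1)
    intro F hF hcong
    exact clsG G₀ m hne hGdeg p m' hp hp3 (by omega) L (Real.exp Λ) hL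
      (Real.one_le_exp (by linarith)) (Pool.Agent.W462.HZ.ineq L Λ hL hΛ p m' hm'3 hΛm hp16) F g
      (fun τ hτ => (hg τ (hU1 τ (hF hτ)).1).1)
      (fun τ hτ => hτL τ (hU1 τ (hF hτ)).1) (fun τ hτ => hgb τ (hU1 τ (hF hτ)).1)
      (fun τ hτ => (hU1 τ (hF hτ)).2) hcong
  have htot : 𝒯.card ≤ m + 2 * ((2 * m' + 4 * m) * (2 * p)) := by
    have h1 := Finset.card_filter_add_card_filter_not (s := 𝒯) (fun τ => g τ = 0)
    omega
  have htotR : (𝒯.card : ℝ) ≤ m + 2 * ((2 * m' + 4 * m) * (2 * p)) := by exact_mod_cast htot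
  have hsL : 1 ≤ √L := Real.one_le_sqrt.2 hL
  set ℓ := Real.log (120 * √L * Λ) with hℓ
  have hℓ1 : 1 ≤ ℓ := by
    rw [hℓ, Real.le_log_iff_exp_le (by positivity)]
    have h1 : Real.exp 1 ≤ 3 := by linarith [Real.exp_one_lt_d9]
    nlinarith [mul_le_mul hsL hΛ zero_le_one (by positivity : 0 ≤ √L)]
  have hp0 : (0 : ℝ) ≤ p := Nat.cast_nonneg _
  have h15 : (2 * (m' : ℝ) + 4 * m) ≤ 12 * Λ := by linarith
  have h1 : (𝒯.card : ℝ) ≤ Λ + 2 * ((12 * Λ) * (2 * (1920 * √L * Λ * ℓ))) := by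
    refine htotR.trans ?_
    gcongr
  refine h1.trans ?_
  have h2 : Λ ≤ √L * Λ ^ 2 * ℓ := by
    have h3 : 1 ≤ √L * Λ * ℓ := by
      have h4 : 1 ≤ √L * Λ := by nlinarith
      nlinarith
    calc Λ = Λ * 1 := (mul_one _).symm
      _ ≤ Λ * (√L * Λ * ℓ) := by gcongr
      _ = √L * Λ ^ 2 * ℓ := by ring
  have h5 : 0 ≤ √L * Λ ^ 2 * ℓ := by positivity
  nlinarith


/-- The polynomial `F_X(-B, A)` for the pencil `(a, 4 b, 6 c, 4 (d + N X), e + M X)`. -/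
noncomputable def GPs (a b c d e N M : ℤ) (A B : ℤ[X]) : ℤ[X] :=
  C a * B ^ 4 + (C (-4 * b) * (B ^ 3 * A) + (C (6 * c) * (B ^ 2 * A ^ 2) +
    ((C (-4 * d) + C (-4 * N) * X) * (B * A ^ 3) + (C e + C M * X) * A ^ 4)))

theorem GPs_natDegree (a b c d e N M : ℤ) (A B : ℤ[X]) (m : ℕ) (hA : A.natDegree < m)
    (hB : B.natDegree < m) : (GPs a b c d e N M A B).natDegree ≤ 4 * m := by
  have hA' : A.natDegree ≤ m - 1 := by omega
  have hB' : B.natDegree ≤ m - 1 := by omega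
  have hl : ∀ u v : ℤ, (C u + C v * X : ℤ[X]).natDegree ≤ 1 := by
    intro u v
    refine (natDegree_add_le _ _).trans (max_le ?_ ?_)
    · rw [natDegree_C]
      exact Nat.zero_le _
    · exact (natDegree_C_mul_le _ _).trans natDegree_X_le
  have h1 : (C a * B ^ 4 : ℤ[X]).natDegree ≤ 4 * m :=
    ((natDegree_C_mul_le _ _).trans (natDegree_pow_le_of_le 4 hB')).trans (by omega)
  have h2 : (C (-4 * b) * (B ^ 3 * A) : ℤ[X]).natDegree ≤ 4 * m :=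
    ((natDegree_C_mul_le _ _).trans
      (natDegree_mul_le_of_le (natDegree_pow_le_of_le 3 hB') hA')).trans (by omega)
  have h3 : (C (6 * c) * (B ^ 2 * A ^ 2) : ℤ[X]).natDegree ≤ 4 * m :=
    ((natDegree_C_mul_le _ _).trans
      (natDegree_mul_le_of_le (natDegree_pow_le_of_le 2 hB') (natDegree_pow_le_of_le 2 hA'))).trans
      (by omega)
  have h4 : ((C (-4 * d) + C (-4 * N) * X) * (B * A ^ 3) : ℤ[X]).natDegree ≤ 4 * m :=
    (natDegree_mul_le_of_le (hl _ _)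
      (natDegree_mul_le_of_le hB' (natDegree_pow_le_of_le 3 hA'))).trans (by omega)
  have h5 : ((C e + C M * X) * A ^ 4 : ℤ[X]).natDegree ≤ 4 * m :=
    (natDegree_mul_le_of_le (hl _ _) (natDegree_pow_le_of_le 4 hA')).trans (by omega)
  unfold GPs
  exact natDegree_add_le_of_degree_le h1 (natDegree_add_le_of_degree_le h2
    (natDegree_add_le_of_degree_le h3 (natDegree_add_le_of_degree_le h4 h5)))

theorem ncs {a b c d e N M : ℤ} (hN : N ≠ 0) (ha : ∀ s : ℤ, s ^ 2 ≠ a)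
    (hω : ∀ s : ℤ, s ^ 2 ≠ a * M ^ 4 - 16 * b * M ^ 3 * N + 96 * c * M ^ 2 * N ^ 2 -
      256 * d * M * N ^ 3 + 256 * e * N ^ 4) (A B : ℤ[X])
    (h0 : A ≠ 0 ∨ B ≠ 0) (P₁ P₂ : ℤ[X]) (hP : P₁ ≠ 0 ∨ P₂ ≠ 0) :
    P₁ ^ 2 - P₂ ^ 2 * GPs a b c d e N M A B ≠ 0 := by
  intro h
  have hP2 : P₂ ≠ 0 := by
    rintro rfl
    rcases hP with hP | hP
    · apply hP
      have h1 : P₁ ^ 2 = 0 := by
        rw [← h]; ring
      exact pow_eq_zero_iff (by norm_num) |>.1 h1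
    · exact hP rfl
  let φ : ℤ[X] →+* ℚ[X] := mapRingHom (Int.castRingHom ℚ)
  have hφinj : Function.Injective φ := map_injective _ (RingHom.injective_int _)
  have hφC : ∀ z : ℤ, φ (C z) = C (z : ℚ) := by
    intro z
    simp [φ]
  have hφX : φ X = X := by simp [φ]
  have hφ2 : φ P₂ ≠ 0 := by
    rw [Ne, map_eq_zero_iff φ hφinj]
    exact hP2
  have h1 : (φ P₁) ^ 2 = (φ P₂) ^ 2 * φ (GPs a b c d e N M A B) := by
    rw [← map_pow, ← map_pow, ← map_mul]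
    congr 1
    linear_combination h
  have h2 : φ P₂ ∣ φ P₁ := by
    rw [← IsIntegrallyClosed.pow_dvd_pow_iff (n := 2) (by norm_num)]
    exact ⟨_, h1⟩
  obtain ⟨f, hf⟩ := h2
  have h3 : f ^ 2 = φ (GPs a b c d e N M A B) := by
    apply mul_left_cancel₀ (pow_ne_zero 2 hφ2)
    rw [← h1, hf]
    ring
  have hNq : (N : ℚ) ≠ 0 := by exact_mod_cast hN
  have haq : ¬ IsSquare (a : ℚ) := by
    rw [Rat.isSquare_intCast_iff]
    rintro ⟨s, hs⟩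
    exact ha s (by rw [hs]; ring)
  have hωq : ¬ IsSquare ((a : ℚ) * M ^ 4 - 16 * b * M ^ 3 * N + 96 * c * M ^ 2 * N ^ 2 -
      256 * d * M * N ^ 3 + 256 * e * N ^ 4) := by
    have e1 : ((a : ℚ) * M ^ 4 - 16 * b * M ^ 3 * N + 96 * c * M ^ 2 * N ^ 2 -
      256 * d * M * N ^ 3 + 256 * e * N ^ 4) = ((a * M ^ 4 - 16 * b * M ^ 3 * N +
        96 * c * M ^ 2 * N ^ 2 - 256 * d * M * N ^ 3 + 256 * e * N ^ 4 : ℤ) : ℚ) := by
      push_cast
      ring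
    rw [e1, Rat.isSquare_intCast_iff]
    rintro ⟨s, hs⟩
    exact hω s (by rw [hs]; ring)
  have h00 : -(φ B) ≠ 0 ∨ φ A ≠ 0 := by
    rcases h0 with h4 | h4
    · right
      rw [Ne, map_eq_zero_iff φ hφinj]
      exact h4
    · left
      rw [neg_ne_zero, Ne, map_eq_zero_iff φ hφinj]
      exact h4
  refine pencil_form hNq haq hωq (U := -(φ B)) (W := φ A) (f := f) h00 ?_
  rw [h3]
  unfold GPs
  simp only [map_add, map_mul, map_pow, hφC, hφX]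
  push_cast
  simp only [C_add, C_sub, C_mul, C_pow, C_neg, map_ofNat]
  ring

lemma eval_GPs (a b c d e N M : ℤ) (A B : ℤ[X]) (τ p q g : ℤ) (hA : A.eval τ = g * q)
    (hB : B.eval τ = -(g * p))
    (h1 : a * p ^ 4 + 4 * b * p ^ 3 * q + 6 * c * p ^ 2 * q ^ 2 + 4 * (d + N * τ) * p * q ^ 3 +
      (e + M * τ) * q ^ 4 = 1) :
    (g ^ 2) ^ 2 = (GPs a b c d e N M A B).eval τ := by
  unfold GPs
  simp only [eval_add, eval_mul, eval_pow, eval_C, eval_X, hA, hB]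
  linear_combination (-(g ^ 4)) * h1

lemma exists_gs (a b c d e N M : ℤ) (hsq : ∀ e : ℤ, e ^ 2 ≠ a) (A B : ℤ[X]) (τ p q : ℤ)
    (h0 : p * A.eval τ + q * B.eval τ = 0)
    (h1 : a * p ^ 4 + 4 * b * p ^ 3 * q + 6 * c * p ^ 2 * q ^ 2 + 4 * (d + N * τ) * p * q ^ 3 +
      (e + M * τ) * q ^ 4 = 1) :
    ∃ g : ℤ, (g ^ 2) ^ 2 = (GPs a b c d e N M A B).eval τ ∧ |g| ≤ |A.eval τ| ∧
      (g = 0 → A.eval τ = 0 ∧ B.eval τ = 0) := by
  have hq : q ≠ 0 := by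
    rintro rfl
    have h2 : a * p ^ 4 = 1 := by linarith
    have h3 : IsUnit p := by
      have : p ∣ 1 := ⟨a * p ^ 3, by rw [← h2]; ring⟩
      exact isUnit_of_dvd_one this
    apply hsq 1
    rcases Int.isUnit_iff.1 h3 with h4 | h4
    · rw [h4] at h2
      linarith
    · rw [h4] at h2
      linarith
  have hcop : IsCoprime q p := by
    refine ⟨(e + M * τ) * q ^ 3, a * p ^ 3 + 4 * b * p ^ 2 * q + 6 * c * p * q ^ 2 +
      4 * (d + N * τ) * q ^ 3, ?_⟩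
    linear_combination h1
  have hdvd : q ∣ p * A.eval τ := ⟨-B.eval τ, by linear_combination h0⟩
  obtain ⟨g, hg⟩ := hcop.dvd_of_dvd_mul_left hdvd
  have hA : A.eval τ = g * q := by rw [hg]; ring
  have hB : B.eval τ = -(g * p) := by
    have h5 : q * (B.eval τ + g * p) = 0 := by
      rw [hA] at h0
      linear_combination h0
    rcases mul_eq_zero.1 h5 with h6 | h6
    · exact absurd h6 hq
    · linarith
  refine ⟨g, eval_GPs a b c d e N M A B τ p q g hA hB h1, ?_, ?_⟩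
  · rw [hA, abs_mul]
    have h7 : 1 ≤ |q| := Int.one_le_abs hq
    nlinarith [abs_nonneg g]
  · intro h8
    rw [hA, hB, h8]
    simp

end Pool.Agent.J4H76.HB
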