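import Mathlib
import Pool.Agent.J4H76.HB.L5
import Pool.Agent.J4H76.HB.L7
import Pool.Agent.R418.HL.P4

/-! Slanted lines: an interval and a cell. -/

set_option autoImplicit false

namespace Pool.Agent.J4H76.HB

open Polynomial
open Pool.Agent.R418.HL (Good Chart Mat ina)
open Pool.Agent.W303.HZ.IN2 (pol coeff_pol natDegree_pol eval_pol pol_ne)

/-- an interval and a cell -/
theorem in3 (K : ℝ) (hK : 1 ≤ K) : ∃ c₀ S₀ : ℝ, 0 < c₀ ∧ 1 ≤ S₀ ∧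
    ∀ (R T V S ℓ : ℝ) (a b c d e N M : ℤ) (p q : ℤ → ℤ)
    (𝒟 : Finset ℤ), N ≠ 0 → (∀ s : ℤ, s ^ 2 ≠ a) → (∀ s : ℤ, s ^ 2 ≠ om a b c d e N M) →
    1 ≤ R → 0 < T → S₀ ≤ S → S * (4 * |(N : ℝ)| * T ^ 2 + |(M : ℝ)|) ≤ R * T ^ 4 → T ≤ S →
    1 ≤ T * S → S ^ ((1 : ℝ) / 10) ≤ V →
    Real.log V ≤ S ^ ((1 : ℝ) / 2500) → 1 ≤ ℓ → ℓ ≤ S ^ ((1 : ℝ) / 6) →
    (∀ τ ∈ 𝒟, Good K R T V a b c (d + N * τ) (e + M * τ) (p τ) (q τ) ∧
      Chart K R T V a b c (d + N * τ) (p τ) (q τ)) →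
    (∀ τ ∈ 𝒟, ∀ τ' ∈ 𝒟, |(p τ : ℝ) / (T ^ 2 * q τ) - p τ' / (T ^ 2 * q τ')| ≤ c₀) →
    (∀ τ ∈ 𝒟, ∀ τ' ∈ 𝒟, |(τ : ℝ) - τ'| ≤ ℓ) →
    (𝒟.card : ℝ) ≤ √ℓ * S ^ ((1 : ℝ) / 400) := by
  obtain ⟨c₀, S₁, hc₀, hS₁, hV⟩ := va3 K hK
  obtain ⟨S₂, hS₂, hA⟩ := ina
  refine ⟨c₀, max (max S₁ S₂) (max 10 K), hc₀,
    le_trans hS₁ (le_trans (le_max_left _ _) (le_max_left _ _)), ?_⟩
  intro R T V S ℓ a b c d e N M p q 𝒟 hN hsq hω hR1 hT hS hNM hTS hTS' hV1 hlog hℓ1 hℓ hG hcell hint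
  have hK0 : 0 < K := by linarith
  have hSS₁ : S₁ ≤ S := le_trans (le_trans (le_max_left _ _) (le_max_left _ _)) hS
  have hSS₂ : S₂ ≤ S := le_trans (le_trans (le_max_right _ _) (le_max_left _ _)) hS
  have hS10 : 10 ≤ S := le_trans (le_trans (le_max_left _ _) (le_max_right _ _)) hS
  have hSK : K ≤ S := le_trans (le_trans (le_max_right _ _) (le_max_right _ _)) hS
  have hS0 : 0 < S := by linarith
  rcases Finset.eq_empty_or_nonempty 𝒟 with rfl | ⟨t₀, ht₀⟩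
  · simp only [Finset.card_empty, Nat.cast_zero]
    exact mul_nonneg (Real.sqrt_nonneg _) (Real.rpow_nonneg hS0.le _)
  -- the exponent
  have hlS : 1 ≤ Real.log S := by
    rw [Real.le_log_iff_exp_le hS0]
    have := Real.exp_one_lt_d9
    linarith
  have hV0 : 0 < V := lt_of_lt_of_le (Real.rpow_pos_of_pos hS0 _) hV1
  obtain ⟨σ, hσ⟩ : ∃ σ : ℝ, σ = Real.log V / Real.log S := ⟨_, rfl⟩
  have hVσ : V = S ^ σ := by
    rw [Real.rpow_def_of_pos hS0, hσ, mul_div_cancel₀ _ (by linarith : Real.log S ≠ 0)]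
    exact (Real.exp_log hV0).symm
  have hlV : 1 / 10 * Real.log S ≤ Real.log V := by
    have := Real.log_le_log (Real.rpow_pos_of_pos hS0 _) hV1
    rwa [Real.log_rpow hS0] at this
  have hσ1 : 1 / 10 ≤ σ := by
    rw [hσ, le_div_iff₀ (by linarith)]
    exact hlV
  have hσ2 : σ ≤ S ^ ((1 : ℝ) / 2500) := by
    refine le_trans ?_ hlog
    rw [hσ]
    exact div_le_self (by linarith) hlS
  obtain ⟨m, hm⟩ : ∃ m : ℕ, m = ⌈6 * σ⌉₊ := ⟨_, rfl⟩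
  have hm1 : 1 ≤ m := by
    rw [hm, Nat.one_le_ceil_iff]
    linarith
  obtain ⟨L, hLdef⟩ : ∃ L : ℝ, L = S ^ ((1 : ℝ) / 6) := ⟨_, rfl⟩
  have hL1 : 1 ≤ L := by rw [hLdef]; exact Real.one_le_rpow (by linarith) (by norm_num)
  obtain ⟨Λ, hΛ1, hΛm, hΛe, hΛf⟩ := hA S σ m hSS₂ hσ1 hσ2 hm
  rw [← hLdef] at hΛe hΛf hℓ
  have hV1' : 1 ≤ V := by
    rw [hVσ]; exact Real.one_le_rpow (by linarith) (by linarith)
  -- the matrix
  let A : {d // d ∈ 𝒟} → Fin m ⊕ Fin m → ℤ := fun i =>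
    Sum.elim (fun j : Fin m => p i * ((i : ℤ) - t₀) ^ (j : ℕ))
      (fun j : Fin m => q i * ((i : ℤ) - t₀) ^ (j : ℕ))
  obtain ⟨H0, hH0⟩ : ∃ H0 : ℝ, H0 = S ^ 2 * S ^ σ * L ^ m := ⟨_, rfl⟩
  have hLm : ∀ j : Fin m, L ^ (j : ℕ) ≤ L ^ m := fun j => pow_le_pow_right₀ hL1 j.2.le
  have hLm1 : 1 ≤ L ^ m := one_le_pow₀ hL1
  have hS21 : 1 ≤ S ^ 2 := one_le_pow₀ (by linarith)
  have hH01 : 1 ≤ H0 := by
    rw [hH0, ← hVσ]
    exact one_le_mul_of_one_le_of_one_le (one_le_mul_of_one_le_of_one_le hS21 hV1') hLm1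
  have hτℓ : ∀ d ∈ 𝒟, |((d - t₀ : ℤ) : ℝ)| ≤ ℓ := by
    intro d hd
    push_cast
    exact hint d hd t₀ ht₀
  have hτ : ∀ d ∈ 𝒟, |((d - t₀ : ℤ) : ℝ)| ≤ L := fun d hd => (hτℓ d hd).trans hℓ
  have hAb : ∀ i j, |(A i j : ℝ)| ≤ H0 := by
    rintro ⟨d, hd⟩ (j | j)
    · change |((p d * (d - t₀) ^ (j : ℕ) : ℤ) : ℝ)| ≤ H0
      rw [Int.cast_mul, Int.cast_pow, abs_mul, abs_pow]
      calc |(p d : ℝ)| * |((d - t₀ : ℤ) : ℝ)| ^ (j : ℕ) ≤ (K * (T * V)) * L ^ m := by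
            refine mul_le_mul (hG d hd).1.hp ?_ (by positivity) (by positivity)
            exact (pow_le_pow_left₀ (abs_nonneg _) (hτ d hd) _).trans (hLm j)
        _ ≤ (S * (S * V)) * L ^ m := by gcongr
        _ = H0 := by
            rw [hH0, ← hVσ]
            ring
    · change |((q d * (d - t₀) ^ (j : ℕ) : ℤ) : ℝ)| ≤ H0
      rw [Int.cast_mul, Int.cast_pow, abs_mul, abs_pow]
      have hq : |(q d : ℝ)| ≤ K * (S * V) := by
        have h1 := (hG d hd).1.hq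
        calc |(q d : ℝ)| = |(q d : ℝ)| * 1 := (mul_one _).symm
          _ ≤ |(q d : ℝ)| * (T * S) := by gcongr
          _ = |(q d : ℝ)| * T * S := by ring
          _ ≤ K * V * S := by gcongr
          _ = K * (S * V) := by ring
      calc |(q d : ℝ)| * |((d - t₀ : ℤ) : ℝ)| ^ (j : ℕ) ≤ (K * (S * V)) * L ^ m := by
            refine mul_le_mul hq ?_ (by positivity) (by positivity)
            exact (pow_le_pow_left₀ (abs_nonneg _) (hτ d hd) _).trans (hLm j)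
        _ ≤ (S * (S * V)) * L ^ m := by gcongr
        _ = H0 := by
            rw [hH0, ← hVσ]
            ring
  obtain ⟨d₁, hd₁⟩ : ∃ d₁, d₁ = d + N * t₀ := ⟨_, rfl⟩
  obtain ⟨e₁, he₁⟩ : ∃ e₁, e₁ = e + M * t₀ := ⟨_, rfl⟩
  have hom : om a b c d₁ e₁ N M = om a b c d e N M := by
    rw [hd₁, he₁]
    exact om_shift a b c d e N M t₀
  have hG' : ∀ t ∈ 𝒟, Good K R T V a b c (d₁ + N * (t - t₀)) (e₁ + M * (t - t₀)) (p t) (q t) ∧
      Chart K R T V a b c (d₁ + N * (t - t₀)) (p t) (q t) := by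
    intro t ht
    have h1 := hG t ht
    have e1 : d₁ + N * (t - t₀) = d + N * t := by rw [hd₁]; ring
    have e2 : e₁ + M * (t - t₀) = e + M * t := by rw [he₁]; ring
    rw [e1, e2]
    exact h1
  have hdet : ∀ f : Fin m ⊕ Fin m → {d // d ∈ 𝒟},
      Matrix.det (Matrix.of fun i j => A (f i) j) = 0 := by
    intro f
    have hb := hG t₀ ht₀
    rw [← hd₁, ← he₁] at hb
    have h1 := hV R T V S σ m a b c N M d₁ e₁ (p t₀) (q t₀) (fun i => p (f i)) (fun i => q (f i))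
      (fun i => (f i : ℤ) - t₀) hR1 hT hSS₁ hNM hσ1 hVσ hm
      (by
        rw [hom]
        intro h0
        exact hω 0 (by rw [h0]; norm_num))
      (fun i => hG' _ (f i).2) hb.1
      hb.2 (fun i j => hcell _ (f i).2 _ (f j).2) (fun i => hcell _ (f i).2 _ ht₀)
      (fun i => by rw [← hLdef]; exact hτ _ (f i).2)
    exact h1
  obtain ⟨v, hv0, hvA, hvb⟩ := Pool.Agent.W563.HZ.REL.t A H0 hH01 ⟨⟨t₀, ht₀⟩⟩ hAb hdet
  have hcardκ : Fintype.card (Fin m ⊕ Fin m) = m + m := by simp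
  rw [hcardκ] at hvb
  obtain ⟨Hb, hHb⟩ : ∃ Hb : ℝ, Hb = (((m + m : ℕ) : ℝ) * H0) ^ (m + m) := ⟨_, rfl⟩
  have hHb1 : 1 ≤ Hb := by
    rw [hHb]
    apply one_le_pow₀
    have h1 : (1 : ℝ) ≤ ((m + m : ℕ) : ℝ) := by exact_mod_cast (by omega : 1 ≤ m + m)
    exact one_le_mul_of_one_le_of_one_le h1 hH01
  have hcf : ∀ (w : Fin m → ℤ), (∀ j, |(w j : ℝ)| ≤ Hb) → ∀ k, |((pol w).coeff k : ℝ)| ≤ Hb := by
    intro w hw k
    rw [coeff_pol]
    by_cases hk : k < m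
    · rw [dif_pos hk]; exact hw _
    · rw [dif_neg hk]; simp only [Int.cast_zero, abs_zero]; linarith
  have hne : pol (fun j => v (Sum.inl j)) ≠ 0 ∨ pol (fun j => v (Sum.inr j)) ≠ 0 := by
    obtain ⟨j, hj⟩ := Function.ne_iff.1 hv0
    rcases j with j | j
    · exact Or.inl (pol_ne _ j hj)
    · exact Or.inr (pol_ne _ j hj)
  have hω₁ : ∀ s : ℤ, s ^ 2 ≠ a * M ^ 4 - 16 * b * M ^ 3 * N + 96 * c * M ^ 2 * N ^ 2 -
      256 * d₁ * M * N ^ 3 + 256 * e₁ * N ^ 4 := by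
    intro s hs
    apply hω s
    rw [← hom]
    unfold om
    exact hs
  have hfin := cubG (GPs a b c d₁ e₁ N M (pol fun j => v (Sum.inl j)) (pol fun j => v (Sum.inr j)))
    (fun P₁ P₂ hP => ncs hN hsq hω₁ _ _ hne P₁ P₂ hP)
    (pol fun j => v (Sum.inl j)) (pol fun j => v (Sum.inr j)) m
    (GPs_natDegree _ _ _ _ _ _ _ _ _ m (natDegree_pol hm1 _) (natDegree_pol hm1 _))
    hne (natDegree_pol hm1 _) (natDegree_pol hm1 _) ℓ Hb Λ hℓ1 hHb1 hΛ1 hΛm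
    (by
      refine le_trans ?_ hΛe
      rw [hHb, hH0]
      gcongr)
    (hcf _ fun j => by rw [hHb]; exact hvb _) (hcf _ fun j => by rw [hHb]; exact hvb _)
    (𝒟.image fun d => d - t₀) (by
      intro τ hτ'
      obtain ⟨d, hd, rfl⟩ := Finset.mem_image.1 hτ'
      exact hτℓ d hd) (by
      intro τ hτ'
      obtain ⟨t, hd, rfl⟩ := Finset.mem_image.1 hτ'
      apply exists_gs a b c d₁ e₁ N M hsq _ _ (t - t₀) (p t) (q t)
      · have h1 := hvA ⟨t, hd⟩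
        rw [Fintype.sum_sum_type] at h1
        rw [eval_pol, eval_pol, Finset.mul_sum, Finset.mul_sum, ← h1]
        congr 1
        · refine Finset.sum_congr rfl fun j _ => ?_
          change _ = p t * (t - t₀) ^ (j : ℕ) * v (Sum.inl j)
          ring
        · refine Finset.sum_congr rfl fun j _ => ?_
          change _ = q t * (t - t₀) ^ (j : ℕ) * v (Sum.inr j)
          ring
      · exact (hG' t hd).1.heq)
  rw [Finset.card_image_of_injective _ (fun x y h => by simpa using h)] at hfin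
  -- the size
  have hL0 : 0 < L := by linarith
  have hsL : 0 < √L := Real.sqrt_pos.2 hL0
  have hsℓ : √ℓ ≤ √L := Real.sqrt_le_sqrt hℓ
  have hsℓ0 : 1 ≤ √ℓ := Real.one_le_sqrt.2 hℓ1
  have hΛ0 : 0 < Λ := by linarith
  have hlg : Real.log (120 * √ℓ * Λ) ≤ Real.log (120 * √L * Λ) := by
    apply Real.log_le_log (by positivity)
    gcongr
  have hlg0 : 0 ≤ Real.log (120 * √L * Λ) := by
    apply Real.log_nonneg
    have h1 : 1 ≤ √L := hsℓ0.trans hsℓ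
    nlinarith [mul_le_mul h1 hΛ1 (by norm_num) (by linarith : (0 : ℝ) ≤ √L)]
  have hsLS : √L = S ^ ((1 : ℝ) / 12) := by
    rw [hLdef, Real.sqrt_eq_rpow, ← Real.rpow_mul hS0.le]
    norm_num
  have h1 : 200000 * Λ ^ 2 * Real.log (120 * √L * Λ) ≤ S ^ ((1 : ℝ) / 400) := by
    have h2 : √L * (200000 * Λ ^ 2 * Real.log (120 * √L * Λ)) ≤ √L * S ^ ((1 : ℝ) / 400) := by
      have h3 : √L * S ^ ((1 : ℝ) / 400) = S ^ ((1 : ℝ) / 12 + 1 / 400) := by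
        rw [hsLS, ← Real.rpow_add hS0]
      rw [h3]
      refine le_trans (le_of_eq ?_) hΛf
      ring
    exact le_of_mul_le_mul_left h2 hsL
  calc (𝒟.card : ℝ) ≤ 200000 * √ℓ * Λ ^ 2 * Real.log (120 * √ℓ * Λ) := hfin
    _ ≤ 200000 * √ℓ * Λ ^ 2 * Real.log (120 * √L * Λ) := by gcongr
    _ = √ℓ * (200000 * Λ ^ 2 * Real.log (120 * √L * Λ)) := by ring
    _ ≤ √ℓ * S ^ ((1 : ℝ) / 400) := by gcongr

end Pool.Agent.J4H76.HB
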