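import Mathlib
import Pool.Agent.J4H76.HB.L8
import Pool.Agent.Helper924.MW.Lower

/-! Slanted lines: a whole line; lines on which the value at the base point is a square. -/

set_option autoImplicit false

namespace Pool.Agent.J4H76.HB

open Pool.Agent.R418.HL (Good Chart y_le)

/-- a whole line -/
theorem ln (K : ℝ) (hK : 1 ≤ K) : ∃ C₁ S₀ : ℝ, 1 ≤ C₁ ∧ 1 ≤ S₀ ∧
    ∀ (R T V S ℓ : ℝ) (a b c d e N M : ℤ)
    (𝒟 : Finset ℤ), N ≠ 0 → (∀ s : ℤ, s ^ 2 ≠ a) → (∀ s : ℤ, s ^ 2 ≠ om a b c d e N M) →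
    1 ≤ R → 0 < T → S₀ ≤ S → S * (4 * |(N : ℝ)| * T ^ 2 + |(M : ℝ)|) ≤ R * T ^ 4 → T ≤ S →
    1 ≤ T * S → S ^ ((1 : ℝ) / 10) ≤ V →
    Real.log V ≤ S ^ ((1 : ℝ) / 2500) → 1 ≤ ℓ → ℓ ≤ S ^ ((1 : ℝ) / 6) →
    (∀ τ ∈ 𝒟, ∃ p q : ℤ, Good K R T V a b c (d + N * τ) (e + M * τ) p q ∧
      Chart K R T V a b c (d + N * τ) p q) →
    (∀ τ ∈ 𝒟, |(τ : ℝ)| ≤ ℓ) →
    (𝒟.card : ℝ) ≤ C₁ * (√ℓ * S ^ ((1 : ℝ) / 400)) := by
  obtain ⟨c₀, S₀, hc₀, hS₀, h⟩ := in3 K hK
  refine ⟨4 * (2 * (K ^ 2 / c₀) + 2), S₀, ?_, hS₀, ?_⟩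
  · have : 0 < K ^ 2 / c₀ := by positivity
    linarith
  intro R T V S ℓ a b c d e N M 𝒟 hN hsq hω hR1 hT hS hNM hTS hTS' hV1 hlog hℓ1 hℓ hG hτ
  have hS0 : 0 < S := by linarith
  have hV0 : 0 < V := lt_of_lt_of_le (Real.rpow_pos_of_pos hS0 _) hV1
  choose! p q hpq using hG
  have hB : 0 ≤ √ℓ * S ^ ((1 : ℝ) / 400) :=
    mul_nonneg (Real.sqrt_nonneg _) (Real.rpow_nonneg hS0.le _)
  have k := Pool.Agent.W284.HZFIB.fibre 𝒟 (fun t => (p t : ℝ) / (T ^ 2 * q t)) ℓ ℓ c₀ (K ^ 2)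
    (√ℓ * S ^ ((1 : ℝ) / 400)) (by linarith) (by linarith) hc₀ (by positivity) hB hτ
    (by
      intro t ht
      have h1 := (hpq t ht).2.1
      have hq : (q t : ℝ) ≠ 0 := by
        intro h0
        rw [h0, abs_zero, zero_mul, mul_zero] at h1
        linarith
      exact y_le hK hT hq (hpq t ht).1.hp h1)
    (by
      intro D' hD' hyy hdd
      exact h R T V S ℓ a b c d e N M p q D' hN hsq hω hR1 hT hS hNM hTS hTS' hV1 hlog hℓ1 hℓ
        (fun t ht => hpq t (hD' ht)) hyy hdd)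
  refine k.trans (le_of_eq ?_)
  rw [div_self (by linarith : ℓ ≠ 0)]
  ring

/-- two squares in a progression: few values -/
theorem sqk (𝒦 : Finset ℤ) (c₁ m : ℤ) (hm : 0 < m) (X D : ℕ)
    (hX : ∀ k ∈ 𝒦, ∀ k' ∈ 𝒦, |k - k'| ≤ X) (hD : ∀ t : ℕ, 1 ≤ t → t ≤ X →
      ((m.natAbs * t).divisors.card) ≤ D)
    (hs : ∀ k ∈ 𝒦, ∃ s : ℤ, s ^ 2 = c₁ + m * k) : 𝒦.card ^ 2 ≤ 𝒦.card + 2 * X * D := by
  classical
  have hs' : ∀ k : ℤ, ∃ u : ℤ, k ∈ 𝒦 → u ^ 2 = c₁ + m * k ∧ 0 ≤ u := by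
    intro k
    by_cases hk : k ∈ 𝒦
    · obtain ⟨s, hs⟩ := hs k hk
      exact ⟨|s|, fun _ => ⟨by rw [sq_abs, hs], abs_nonneg s⟩⟩
    · exact ⟨0, fun h => absurd h hk⟩
  choose u hu using hs'
  have h1 : 𝒦.offDiag.card ≤ D * (𝒦.offDiag.image fun x : ℤ × ℤ => x.2 - x.1).card := by
    apply Finset.card_le_mul_card_image
    intro t ht
    rw [Finset.mem_image] at ht
    obtain ⟨⟨x1, x2⟩, hx, rfl⟩ := ht
    rw [Finset.mem_offDiag] at hx
    obtain ⟨hx1, hx2, hx3⟩ := hx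
    dsimp only at hx1 hx2 hx3 ⊢
    have ht0 : x2 - x1 ≠ 0 := fun h0 => hx3 (by omega)
    have hDt := hD (x2 - x1).natAbs (by omega) (by
      have := abs_le.1 (hX x2 hx2 x1 hx1)
      omega)
    refine le_trans ?_ hDt
    apply Finset.card_le_card_of_injOn (fun x : ℤ × ℤ => (u x.2 - u x.1).natAbs)
    · rintro ⟨k, k'⟩ hk
      rw [Finset.mem_coe, Finset.mem_filter, Finset.mem_offDiag] at hk
      obtain ⟨⟨hk1, hk2, hk3⟩, hk4⟩ := hk
      dsimp only at hk1 hk2 hk3 hk4 ⊢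
      rw [Finset.mem_coe, Nat.mem_divisors]
      constructor
      · have e1 := (hu k hk1).1
        have e2 := (hu k' hk2).1
        have e3 : (u k' - u k) * (u k' + u k) = m * (x2 - x1) := by
          rw [← hk4]
          linear_combination e2 - e1
        have e4 : (u k' - u k) ∣ m * (x2 - x1) := ⟨_, e3.symm⟩
        have e5 := Int.natAbs_dvd_natAbs.2 e4
        rwa [Int.natAbs_mul] at e5
      · exact mul_ne_zero (by omega) (by omega)
    · rintro ⟨k, k'⟩ hk ⟨j, j'⟩ hj hkj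
      rw [Finset.mem_coe, Finset.mem_filter, Finset.mem_offDiag] at hk hj
      obtain ⟨⟨hk1, hk2, hk3⟩, hk4⟩ := hk
      obtain ⟨⟨hj1, hj2, hj3⟩, hj4⟩ := hj
      dsimp only at hk1 hk2 hk3 hk4 hj1 hj2 hj3 hj4 hkj
      have a1 := (hu k hk1)
      have a2 := (hu k' hk2)
      have b1 := (hu j hj1)
      have b2 := (hu j' hj2)
      have e3 : (u k' - u k) * (u k' + u k) = m * (x2 - x1) := by
        rw [← hk4]
        linear_combination a2.1 - a1.1
      have e4 : (u j' - u j) * (u j' + u j) = m * (x2 - x1) := by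
        rw [← hj4]
        linear_combination b2.1 - b1.1
      have hne : m * (x2 - x1) ≠ 0 := mul_ne_zero hm.ne' ht0
      have p1 : 0 ≤ u k' + u k := by linarith [a1.2, a2.2]
      have p2 : 0 ≤ u j' + u j := by linarith [b1.2, b2.2]
      have hneg : ¬ (u k' - u k = -(u j' - u j)) := by
        intro h0
        have q1 : 0 < u k' + u k := lt_of_le_of_ne p1 (fun h => hne (by rw [← e3, ← h]; ring))
        have q2 : 0 < u j' + u j := lt_of_le_of_ne p2 (fun h => hne (by rw [← e4, ← h]; ring))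
        have q3 : u j' - u j ≠ 0 := by
          intro h
          rw [h] at e4
          exact hne (by rw [← e4]; ring)
        have q4 : (u j' - u j) * (u k' + u k + (u j' + u j)) = 0 := by
          rw [h0] at e3
          linear_combination e4 - e3
        rcases mul_eq_zero.1 q4 with h | h
        · exact q3 h
        · linarith
      have heq : u k' - u k = u j' - u j := by
        rcases Int.natAbs_eq_natAbs_iff.1 hkj with h | h
        · exact h
        · exact absurd h hneg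
      have hv0 : u j' - u j ≠ 0 := by
        intro h
        rw [h] at e4
        exact hne (by rw [← e4]; ring)
      have hsum : u k' + u k = u j' + u j := by
        apply mul_left_cancel₀ hv0
        rw [e4, ← e3, heq]
      have c1 : u k = u j := by linarith
      have c2 : u k' = u j' := by linarith
      have d1 : m * k = m * j := by
        have := a1.1
        have := b1.1
        rw [c1] at *
        linarith
      have d2 : m * k' = m * j' := by
        have := a2.1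
        have := b2.1
        rw [c2] at *
        linarith
      exact Prod.ext (mul_left_cancel₀ hm.ne' d1) (mul_left_cancel₀ hm.ne' d2)
  have h2 : (𝒦.offDiag.image fun x : ℤ × ℤ => x.2 - x.1).card ≤ 2 * X := by
    have h3 : (𝒦.offDiag.image fun x : ℤ × ℤ => x.2 - x.1) ⊆
        (Finset.Icc (-(X : ℤ)) X).erase 0 := by
      intro t ht
      rw [Finset.mem_image] at ht
      obtain ⟨⟨x1, x2⟩, hx, rfl⟩ := ht
      rw [Finset.mem_offDiag] at hx
      obtain ⟨hx1, hx2, hx3⟩ := hx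
      dsimp only at hx1 hx2 hx3 ⊢
      have := abs_le.1 (hX x2 hx2 x1 hx1)
      rw [Finset.mem_erase, Finset.mem_Icc]
      omega
    refine (Finset.card_le_card h3).trans ?_
    rw [Finset.card_erase_of_mem (by rw [Finset.mem_Icc]; omega), Int.card_Icc]
    omega
  rw [Finset.offDiag_card] at h1
  have h3 : D * (𝒦.offDiag.image fun x : ℤ × ℤ => x.2 - x.1).card ≤ D * (2 * X) :=
    Nat.mul_le_mul_left _ h2
  have h4 : D * (2 * X) = 2 * X * D := by ring
  rw [pow_two]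
  omega

end Pool.Agent.J4H76.HB
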