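import Mathlib
import Pool.Agent.J4H76.HB.L9

/-! Slanted lines: a block. -/

set_option autoImplicit false

namespace Pool.Agent.J4H76.HB

open Pool.Agent.R418.HL (Good Chart y_le)

/-- the value at the base point, in terms of the line -/
def omk (a b c N M k : ℤ) : ℤ :=
  a * M ^ 4 - 16 * b * M ^ 3 * N + 96 * c * M ^ 2 * N ^ 2 + 256 * N ^ 3 * k

lemma om_eq (a b c d e N M : ℤ) : om a b c d e N M = omk a b c N M (N * e - M * d) := by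
  unfold om omk
  ring

lemma card_int_le (𝒟 : Finset ℤ) (ℓ : ℝ) (hℓ : 1 ≤ ℓ) (h : ∀ t ∈ 𝒟, |(t : ℝ)| ≤ ℓ) :
    (𝒟.card : ℝ) ≤ 3 * ℓ := by
  have h1 : 𝒟 ⊆ Finset.Icc (-⌊ℓ⌋) ⌊ℓ⌋ := by
    intro t ht
    have h2 := abs_le.1 (h t ht)
    rw [Finset.mem_Icc]
    constructor
    · have h3 : -t ≤ ⌊ℓ⌋ := Int.le_floor.2 (by push_cast; linarith)
      omega
    · exact Int.le_floor.2 h2.2
  have h2 := Finset.card_le_card h1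
  rw [Int.card_Icc] at h2
  have h3 : (⌊ℓ⌋ : ℝ) ≤ ℓ := Int.floor_le ℓ
  have h4 : (1 : ℤ) ≤ ⌊ℓ⌋ := Int.le_floor.2 (by exact_mod_cast hℓ)
  have h5 : ((⌊ℓ⌋ + 1 - -⌊ℓ⌋).toNat : ℤ) = 2 * ⌊ℓ⌋ + 1 := by
    rw [Int.toNat_of_nonneg (by omega)]
    ring
  have h6 : ((𝒟.card : ℕ) : ℤ) ≤ 2 * ⌊ℓ⌋ + 1 := by
    rw [← h5]
    exact_mod_cast h2
  have h7 : (𝒟.card : ℝ) ≤ 2 * (⌊ℓ⌋ : ℝ) + 1 := by exact_mod_cast h6
  linarith

theorem block (K : ℝ) (hK : 1 ≤ K) : ∃ C₁ S₀ : ℝ, 1 ≤ C₁ ∧ 1 ≤ S₀ ∧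
    ∀ (R T V S ℓ κ : ℝ) (a b c N M : ℤ) (X₀ D : ℕ) (𝓑 : Finset (ℤ × ℤ)), 0 < N →
    IsCoprime N M → (∀ s : ℤ, s ^ 2 ≠ a) →
    1 ≤ R → 0 < T → S₀ ≤ S → S * (4 * |(N : ℝ)| * T ^ 2 + |(M : ℝ)|) ≤ R * T ^ 4 → T ≤ S →
    1 ≤ T * S → S ^ ((1 : ℝ) / 10) ≤ V →
    Real.log V ≤ S ^ ((1 : ℝ) / 2500) → 1 ≤ ℓ → ℓ ≤ S ^ ((1 : ℝ) / 6) →
    (∀ P ∈ 𝓑, ∃ p q : ℤ, Good K R T V a b c P.1 P.2 p q ∧ Chart K R T V a b c P.1 p q) →
    (∀ P ∈ 𝓑, ∀ P' ∈ 𝓑, |(P.1 : ℝ) - P'.1| ≤ ℓ * N) →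
    (∀ P ∈ 𝓑, |(N : ℝ) * P.2 - M * P.1 - κ| ≤ X₀) →
    (∀ t : ℕ, 1 ≤ t → t ≤ 2 * X₀ → (((256 * N ^ 3).natAbs * t).divisors.card) ≤ D) →
    (𝓑.card : ℝ) ≤ (2 * X₀ + 1) * (C₁ * (√ℓ * S ^ ((1 : ℝ) / 400))) +
      (1 + 2 * √(X₀ * D)) * (3 * ℓ) := by
  classical
  obtain ⟨C₁, S₀, hC₁, hS₀, hln⟩ := ln K hK
  refine ⟨C₁, S₀, hC₁, hS₀, ?_⟩
  intro R T V S ℓ κ a b c N M X₀ D 𝓑 hN hcop hsq hR1 hT hS hNM hTS hTS' hV1 hlog hℓ1 hℓ hG hY hX hD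
  have hNr : (0 : ℝ) < N := by exact_mod_cast hN
  have hS0 : 0 < S := by linarith
  obtain ⟨kf, hkf⟩ : ∃ kf : ℤ × ℤ → ℤ, ∀ P, kf P = N * P.2 - M * P.1 := ⟨_, fun P => rfl⟩
  obtain ⟨𝒦, h𝒦⟩ : ∃ 𝒦 : Finset ℤ, 𝒦 = 𝓑.image kf := ⟨_, rfl⟩
  obtain ⟨𝒦₂, h𝒦₂⟩ : ∃ 𝒦₂ : Finset ℤ, 𝒦₂ = 𝒦.filter fun k => ∃ s : ℤ, s ^ 2 = omk a b c N M k :=
    ⟨_, rfl⟩
  obtain ⟨F, hF⟩ : ∃ F : ℤ → Finset (ℤ × ℤ), ∀ k, F k = 𝓑.filter fun P => kf P = k :=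
    ⟨_, fun k => rfl⟩
  -- the points of a line
  have hline : ∀ k ∈ 𝒦, ∃ (P₀ : ℤ × ℤ) (𝒟 : Finset ℤ), kf P₀ = k ∧ (F k).card = 𝒟.card ∧
      (∀ t ∈ 𝒟, |(t : ℝ)| ≤ ℓ) ∧ (∀ t ∈ 𝒟, ∃ p q : ℤ,
        Good K R T V a b c (P₀.1 + N * t) (P₀.2 + M * t) p q ∧
        Chart K R T V a b c (P₀.1 + N * t) p q) := by
    intro k hk
    rw [h𝒦, Finset.mem_image] at hk
    obtain ⟨P₀, hP₀, hkP₀⟩ := hk
    have hrep : ∀ P ∈ F k, P.1 = P₀.1 + N * ((P.1 - P₀.1) / N) ∧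
        P.2 = P₀.2 + M * ((P.1 - P₀.1) / N) := by
      intro P hP
      rw [hF, Finset.mem_filter] at hP
      have e1 : N * (P.2 - P₀.2) = M * (P.1 - P₀.1) := by
        have h1 := hP.2
        rw [← hkP₀, hkf, hkf] at h1
        linear_combination h1
      have e2 : N ∣ P.1 - P₀.1 := hcop.dvd_of_dvd_mul_left ⟨_, e1.symm⟩
      obtain ⟨t, ht⟩ := e2
      have e3 : (P.1 - P₀.1) / N = t := by
        rw [ht]
        exact Int.mul_ediv_cancel_left t hN.ne'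
      rw [e3]
      constructor
      · linear_combination ht
      · have e4 : N * (P.2 - P₀.2 - M * t) = 0 := by
          rw [ht] at e1
          linear_combination e1
        rcases mul_eq_zero.1 e4 with h | h
        · exact absurd h hN.ne'
        · linear_combination h
    refine ⟨P₀, (F k).image (fun P => (P.1 - P₀.1) / N), hkP₀, ?_, ?_, ?_⟩
    · rw [Finset.card_image_of_injOn]
      intro P hP P' hP' h
      dsimp only at h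
      obtain ⟨a1, a2⟩ := hrep P hP
      obtain ⟨b1, b2⟩ := hrep P' hP'
      rw [h] at a1 a2
      exact Prod.ext (a1.trans b1.symm) (a2.trans b2.symm)
    · intro t ht
      rw [Finset.mem_image] at ht
      obtain ⟨P, hP, rfl⟩ := ht
      have h1 := (hrep P hP).1
      rw [hF, Finset.mem_filter] at hP
      have h2 := hY P hP.1 P₀ hP₀
      obtain ⟨t, ht⟩ : ∃ t, t = (P.1 - P₀.1) / N := ⟨_, rfl⟩
      rw [← ht] at h1 ⊢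
      have h3 : (P.1 : ℝ) - P₀.1 = N * t := by
        rw [h1]
        push_cast
        ring
      rw [h3, abs_mul, abs_of_pos hNr, mul_comm] at h2
      exact le_of_mul_le_mul_right h2 hNr
    · intro t ht
      rw [Finset.mem_image] at ht
      obtain ⟨P, hP, rfl⟩ := ht
      obtain ⟨h1, h2⟩ := hrep P hP
      rw [hF, Finset.mem_filter] at hP
      rw [← h1, ← h2]
      exact hG P hP.1
  have hb1 : ∀ k ∈ 𝒦, ((F k).card : ℝ) ≤ 3 * ℓ := by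
    intro k hk
    obtain ⟨P₀, 𝒟, -, h2, h3, -⟩ := hline k hk
    rw [h2]
    exact card_int_le 𝒟 ℓ hℓ1 h3
  have hb2 : ∀ k ∈ 𝒦, k ∉ 𝒦₂ → ((F k).card : ℝ) ≤ C₁ * (√ℓ * S ^ ((1 : ℝ) / 400)) := by
    intro k hk hk2
    obtain ⟨P₀, 𝒟, h1, h2, h3, h4⟩ := hline k hk
    rw [h2]
    refine hln R T V S ℓ a b c P₀.1 P₀.2 N M 𝒟 hN.ne' hsq ?_ hR1 hT hS hNM hTS hTS' hV1 hlog hℓ1 hℓ
      h4 h3
    intro s hs
    apply hk2
    rw [h𝒦₂, Finset.mem_filter]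
    refine ⟨hk, s, ?_⟩
    rw [hs, om_eq, ← hkf, h1]
  -- the numbers of lines
  have hK1 : (𝒦.card : ℝ) ≤ 2 * X₀ + 1 := by
    have h1 : 𝒦 ⊆ Finset.Icc ⌈κ - X₀⌉ ⌊κ + X₀⌋ := by
      intro k hk
      rw [h𝒦, Finset.mem_image] at hk
      obtain ⟨P, hP, rfl⟩ := hk
      have h2 := abs_le.1 (hX P hP)
      rw [Finset.mem_Icc, hkf]
      constructor
      · apply Int.ceil_le.2
        push_cast
        linarith
      · apply Int.le_floor.2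
        push_cast
        linarith
    have h2 := Finset.card_le_card h1
    rw [Int.card_Icc] at h2
    have h3 : (⌊κ + X₀⌋ : ℝ) ≤ κ + X₀ := Int.floor_le _
    have h4 : κ - X₀ ≤ (⌈κ - X₀⌉ : ℝ) := Int.le_ceil _
    by_cases hneg : 0 ≤ ⌊κ + X₀⌋ + 1 - ⌈κ - X₀⌉
    · have h5 : ((𝒦.card : ℕ) : ℤ) ≤ ⌊κ + X₀⌋ + 1 - ⌈κ - X₀⌉ := by
        rw [← Int.toNat_of_nonneg hneg]
        exact_mod_cast h2
      have h6 : (𝒦.card : ℝ) ≤ ⌊κ + X₀⌋ + 1 - ⌈κ - X₀⌉ := by exact_mod_cast h5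
      linarith
    · have h5 : 𝒦.card = 0 := by
        have : (⌊κ + X₀⌋ + 1 - ⌈κ - X₀⌉).toNat = 0 := Int.toNat_of_nonpos (by omega)
        omega
      rw [h5]
      push_cast
      positivity
  have hK2 : (𝒦₂.card : ℝ) ≤ 1 + 2 * √(X₀ * D) := by
    have h1 := sqk 𝒦₂ (a * M ^ 4 - 16 * b * M ^ 3 * N + 96 * c * M ^ 2 * N ^ 2) (256 * N ^ 3)
      (by positivity) (2 * X₀) D
      (by
        intro k hk k' hk'
        rw [h𝒦₂, Finset.mem_filter, h𝒦, Finset.mem_image] at hk hk'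
        obtain ⟨⟨P, hP, rfl⟩, -⟩ := hk
        obtain ⟨⟨P', hP', rfl⟩, -⟩ := hk'
        have h2 := abs_le.1 (hX P hP)
        have h3 := abs_le.1 (hX P' hP')
        rw [hkf, hkf]
        have h4 : |(((N * P.2 - M * P.1 - (N * P'.2 - M * P'.1) : ℤ)) : ℝ)| ≤
            ((2 * X₀ : ℕ) : ℝ) := by
          push_cast
          rw [abs_le]
          constructor <;> linarith
        exact_mod_cast h4)
      hD
      (by
        intro k hk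
        rw [h𝒦₂, Finset.mem_filter] at hk
        obtain ⟨-, s, hs⟩ := hk
        refine ⟨s, ?_⟩
        rw [hs]
        unfold omk
        ring)
    have h2 : (𝒦₂.card : ℝ) ^ 2 ≤ 𝒦₂.card + 4 * (X₀ * D) := by
      have h3 : ((𝒦₂.card ^ 2 : ℕ) : ℝ) ≤ ((𝒦₂.card + 2 * (2 * X₀) * D : ℕ) : ℝ) := by
        exact_mod_cast h1
      push_cast at h3
      linarith
    have h3 : √(X₀ * D) ^ 2 = (X₀ : ℝ) * D := Real.sq_sqrt (by positivity)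
    have h4 : 0 ≤ √((X₀ : ℝ) * D) := Real.sqrt_nonneg _
    by_contra hcon
    push Not at hcon
    nlinarith
  -- the total
  have htot : (𝓑.card : ℝ) = ∑ k ∈ 𝒦, ((F k).card : ℝ) := by
    have h1 : 𝓑.card = ∑ k ∈ 𝒦, (F k).card := by
      rw [h𝒦, Finset.card_eq_sum_card_image kf 𝓑]
      exact Finset.sum_congr rfl fun k _ => by rw [hF]
    rw [h1]
    push_cast
    rfl
  have hB0 : 0 ≤ C₁ * (√ℓ * S ^ ((1 : ℝ) / 400)) := by positivity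
  have hsub : 𝒦₂ ⊆ 𝒦 := by rw [h𝒦₂]; exact Finset.filter_subset _ _
  rw [htot, ← Finset.sum_sdiff hsub]
  have s1 : ∑ k ∈ 𝒦 \ 𝒦₂, ((F k).card : ℝ) ≤
      (2 * X₀ + 1) * (C₁ * (√ℓ * S ^ ((1 : ℝ) / 400))) := by
    calc ∑ k ∈ 𝒦 \ 𝒦₂, ((F k).card : ℝ) ≤
          ∑ _k ∈ 𝒦 \ 𝒦₂, (C₁ * (√ℓ * S ^ ((1 : ℝ) / 400))) := by
          apply Finset.sum_le_sum
          intro k hk
          rw [Finset.mem_sdiff] at hk
          exact hb2 k hk.1 hk.2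
      _ = ((𝒦 \ 𝒦₂).card : ℝ) * (C₁ * (√ℓ * S ^ ((1 : ℝ) / 400))) := by
          rw [Finset.sum_const, nsmul_eq_mul]
      _ ≤ _ := by
          refine mul_le_mul_of_nonneg_right (le_trans ?_ hK1) hB0
          exact_mod_cast Finset.card_le_card Finset.sdiff_subset
  have s2 : ∑ k ∈ 𝒦₂, ((F k).card : ℝ) ≤ (1 + 2 * √(X₀ * D)) * (3 * ℓ) := by
    calc ∑ k ∈ 𝒦₂, ((F k).card : ℝ) ≤ ∑ _k ∈ 𝒦₂, (3 * ℓ) := by
          apply Finset.sum_le_sum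
          intro k hk
          exact hb1 k (hsub hk)
      _ = (𝒦₂.card : ℝ) * (3 * ℓ) := by
          rw [Finset.sum_const, nsmul_eq_mul]
      _ ≤ _ := mul_le_mul_of_nonneg_right hK2 (by linarith)
  linarith

end Pool.Agent.J4H76.HB
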