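import Mathlib
import Pool.Agent.J4H76.HB.L10

/-! Slanted lines: a block, with the sizes. -/

set_option autoImplicit false

namespace Pool.Agent.J4H76.HB

open Pool.Agent.R418.HL (Good Chart)

lemma ev (c s : ℝ) (hs : 0 < s) : ∃ R₀ : ℝ, ∀ R : ℝ, R₀ ≤ R → c ≤ R ^ s := by
  have h := (tendsto_rpow_atTop hs).eventually_ge_atTop c
  rw [Filter.eventually_atTop] at h
  exact h

lemma divb : ∃ C : ℕ, 1 ≤ C ∧ ∀ (R : ℝ) (n : ℕ), 1 ≤ R → n ≠ 0 → (n : ℝ) ≤ R ^ (2 : ℝ) →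
    (n.divisors.card : ℝ) ≤ C * R ^ ((1 : ℝ) / 200) := by
  obtain ⟨k, hk⟩ : ∃ k : ℕ, k = 400 := ⟨_, rfl⟩
  have hk0 : 0 < k := by omega
  have hkr : (k : ℝ) = 400 := by rw [hk]; norm_num
  obtain ⟨C, hC1, hC⟩ := Pool.Agent.Helper924.MW.Lower.exists_divisor_bound k hk0
  refine ⟨C, hC1, ?_⟩
  intro R n hR hn hnR
  have hR0 : 0 < R := by linarith
  have hCr : (1 : ℝ) ≤ C := by exact_mod_cast hC1
  have h1 : (n.divisors.card : ℝ) ^ k ≤ C * n := by exact_mod_cast hC n hn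
  have h2 : (R ^ ((1 : ℝ) / 200)) ^ k = R ^ (2 : ℝ) := by
    rw [← Real.rpow_natCast, ← Real.rpow_mul hR0.le, hkr]
    norm_num
  have h3 : (n.divisors.card : ℝ) ^ k ≤ (C * R ^ ((1 : ℝ) / 200)) ^ k := by
    rw [mul_pow, h2]
    refine h1.trans ?_
    have h4 : (C : ℝ) ≤ (C : ℝ) ^ k := le_self_pow₀ hCr (by omega)
    exact mul_le_mul h4 hnR (Nat.cast_nonneg _) (by positivity)
  exact le_of_pow_le_pow_left₀ (by omega) (by positivity) h3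

theorem gblock (K : ℝ) (hK : 1 ≤ K) : ∃ C R₀ : ℝ, 1 ≤ C ∧ 1 ≤ R₀ ∧
    ∀ (R T V w κ : ℝ) (a b c N M : ℤ) (Q N₀ : ℕ) (𝓑 : Finset (ℤ × ℤ)), R₀ ≤ R →
    R ^ (-(1 : ℝ) / 40000) ≤ T → T ≤ R ^ ((1 : ℝ) / 40000) → R ^ ((13 : ℝ) / 100) ≤ V →
    Real.log V ≤ R ^ ((1 : ℝ) / 3200) → 0 ≤ w → w ≤ R ^ ((11 : ℝ) / 10) →
    (∀ s : ℤ, s ^ 2 ≠ a) → 0 < N → IsCoprime N M → (Q : ℝ) ≤ R ^ ((1 : ℝ) / 8) →
    R ^ ((1 : ℝ) / 32) / 2 ≤ N₀ → (N₀ : ℝ) ≤ N → (N : ℝ) ≤ Q →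
    |(M : ℝ)| ≤ R ^ ((1 : ℝ) / 8 + 1 / 200) →
    (∀ P ∈ 𝓑, ∃ p q : ℤ, Good K R T V a b c P.1 P.2 p q ∧ Chart K R T V a b c P.1 p q) →
    (∀ P ∈ 𝓑, ∀ P' ∈ 𝓑, |(P.1 : ℝ) - P'.1| ≤ N₀ * Q) →
    (∀ P ∈ 𝓑, |(N : ℝ) * P.2 - M * P.1 - κ| ≤ N * (w + 2)) →
    (𝓑.card : ℝ) ≤ C * (w + 1) * (N₀ * Q) * R ^ (-(1 : ℝ) / 100) := by
  obtain ⟨C₁, S₀, hC₁, hS₀, hbl⟩ := block K hK
  obtain ⟨CD, hCD1, hCD⟩ := divb
  obtain ⟨r1, hr1⟩ := ev 5 (1 / 200) (by norm_num)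
  obtain ⟨r2, hr2⟩ := ev S₀ (4 / 5) (by norm_num)
  obtain ⟨r3, hr3⟩ := ev 2048 (1 / 100) (by norm_num)
  have hCDr : (1 : ℝ) ≤ CD := by exact_mod_cast hCD1
  refine ⟨3 * (6 * C₁ + 18 * CD), max (max r1 r2) (max r3 (2 ^ 32)), by linarith,
    le_trans (by norm_num) (le_trans (le_max_right _ _) (le_max_right _ _)), ?_⟩
  intro R T V w κ a b c N M Q N₀ 𝓑 hRR hTl hTu hV hlog hw0 hw hsq hN hcop hQ hN₀ hN₀N hNQ hM hG hY hX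
  have hR32 : (2 : ℝ) ^ 32 ≤ R := le_trans (le_trans (le_max_right _ _) (le_max_right _ _)) hRR
  have hR1 : (1 : ℝ) ≤ R := le_trans (by norm_num) hR32
  have hR0 : (0 : ℝ) < R := by linarith
  have k1 := hr1 R (le_trans (le_trans (le_max_left _ _) (le_max_left _ _)) hRR)
  have k2 := hr2 R (le_trans (le_trans (le_max_right _ _) (le_max_left _ _)) hRR)
  have k3 := hr3 R (le_trans (le_trans (le_max_left _ _) (le_max_right _ _)) hRR)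
  have hmono : ∀ s t : ℝ, s ≤ t → R ^ s ≤ R ^ t := fun s t h =>
    Real.rpow_le_rpow_of_exponent_le hR1 h
  have hpos : ∀ s : ℝ, 0 < R ^ s := fun s => Real.rpow_pos_of_pos hR0 s
  have hadd : ∀ s t : ℝ, R ^ s * R ^ t = R ^ (s + t) := fun s t => (Real.rpow_add hR0 s t).symm
  have hpw : ∀ (s : ℝ) (n : ℕ), (R ^ s) ^ n = R ^ (s * n) := fun s n => by
    rw [← Real.rpow_natCast, ← Real.rpow_mul hR0.le]
  have hT0 : 0 < T := lt_of_lt_of_le (hpos _) hTl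
  have hNr : (0 : ℝ) < N := by exact_mod_cast hN
  have hN1 : (1 : ℝ) ≤ N := by exact_mod_cast hN
  have hT2u : T ^ 2 ≤ R ^ ((1 : ℝ) / 20000) := by
    have h1 := pow_le_pow_left₀ hT0.le hTu 2
    rw [hpw] at h1
    refine h1.trans (le_of_eq ?_)
    norm_num
  have hT4l : R ^ (-(1 : ℝ) / 10000) ≤ T ^ 4 := by
    have h1 := pow_le_pow_left₀ (hpos _).le hTl 4
    rw [hpw] at h1
    refine le_trans (le_of_eq ?_) h1
    norm_num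
  have hT2 : 0 < T ^ 2 := by positivity
  have hT4 : 0 < T ^ 4 := by positivity
  -- the scale
  obtain ⟨G, hG'⟩ : ∃ G : ℝ, G = 4 * N * T ^ 2 + |(M : ℝ)| := ⟨_, rfl⟩
  have hG0 : 0 < G := by rw [hG']; positivity
  have hGu : G ≤ R ^ ((1 : ℝ) / 8 + 1 / 100) := by
    have e1 : 4 * (N : ℝ) * T ^ 2 ≤ 4 * (R ^ ((1 : ℝ) / 8) * R ^ ((1 : ℝ) / 20000)) := by
      have : (N : ℝ) ≤ R ^ ((1 : ℝ) / 8) := hNQ.trans hQ
      calc 4 * (N : ℝ) * T ^ 2 = 4 * (N * T ^ 2) := by ring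
        _ ≤ 4 * (R ^ ((1 : ℝ) / 8) * R ^ ((1 : ℝ) / 20000)) := by gcongr
    have e2 : R ^ ((1 : ℝ) / 8) * R ^ ((1 : ℝ) / 20000) ≤ R ^ ((1 : ℝ) / 8 + 1 / 200) := by
      rw [hadd]
      exact hmono _ _ (by norm_num)
    have e3 : R ^ ((1 : ℝ) / 8 + 1 / 200) * R ^ ((1 : ℝ) / 200) =
        R ^ ((1 : ℝ) / 8 + 1 / 100) := by
      rw [hadd]
      norm_num
    have e4 : R ^ ((1 : ℝ) / 8 + 1 / 200) * 5 ≤ R ^ ((1 : ℝ) / 8 + 1 / 200) *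
        R ^ ((1 : ℝ) / 200) := mul_le_mul_of_nonneg_left k1 (hpos _).le
    rw [hG']
    linarith
  obtain ⟨S, hS⟩ : ∃ S : ℝ, S = R * T ^ 4 / G := ⟨_, rfl⟩
  have hSG : S * G = R * T ^ 4 := by
    rw [hS]
    field_simp
  have hSl : R ^ ((4 : ℝ) / 5) ≤ S := by
    rw [hS, le_div_iff₀ hG0]
    calc R ^ ((4 : ℝ) / 5) * G ≤ R ^ ((4 : ℝ) / 5) * R ^ ((1 : ℝ) / 8 + 1 / 100) := by
          have := hpos ((4 : ℝ) / 5)
          gcongr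
      _ = R ^ ((4 : ℝ) / 5 + ((1 : ℝ) / 8 + 1 / 100)) := hadd _ _
      _ ≤ R ^ (1 + (-(1 : ℝ) / 10000)) := hmono _ _ (by norm_num)
      _ = R * R ^ (-(1 : ℝ) / 10000) := by rw [Real.rpow_add hR0, Real.rpow_one]
      _ ≤ R * T ^ 4 := by gcongr
  have hSu : S ≤ R ^ ((20001 : ℝ) / 20000) := by
    rw [hS, div_le_iff₀ hG0]
    have h1 : T ^ 2 ≤ G := by
      rw [hG']
      have h2 := abs_nonneg (M : ℝ)
      have h3 : 1 * T ^ 2 ≤ N * T ^ 2 := mul_le_mul_of_nonneg_right hN1 hT2.le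
      linarith
    calc R * T ^ 4 = (R * T ^ 2) * T ^ 2 := by ring
      _ ≤ (R * R ^ ((1 : ℝ) / 20000)) * G := by gcongr
      _ = R ^ ((20001 : ℝ) / 20000) * G := by
        congr 1
        calc R * R ^ ((1 : ℝ) / 20000) = R ^ (1 + (1 : ℝ) / 20000) := by
              rw [Real.rpow_add hR0, Real.rpow_one]
          _ = _ := by norm_num
  have hS0 : 0 < S := lt_of_lt_of_le (hpos _) hSl
  have hSexp : ∀ s : ℝ, 0 ≤ s → R ^ ((4 : ℝ) / 5 * s) ≤ S ^ s := by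
    intro s hs
    rw [Real.rpow_mul hR0.le]
    exact Real.rpow_le_rpow (hpos _).le hSl hs
  have hSexp' : ∀ s : ℝ, 0 ≤ s → S ^ s ≤ R ^ ((20001 : ℝ) / 20000 * s) := by
    intro s hs
    rw [Real.rpow_mul hR0.le]
    exact Real.rpow_le_rpow hS0.le hSu hs
  -- the length
  have hN₀1 : (1 : ℝ) ≤ N₀ := by
    have h1 : (2 : ℝ) ≤ R ^ ((1 : ℝ) / 32) := by
      have h2 : ((2 : ℝ) ^ 32) ^ ((1 : ℝ) / 32) ≤ R ^ ((1 : ℝ) / 32) :=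
        Real.rpow_le_rpow (by positivity) hR32 (by norm_num)
      rw [← Real.rpow_natCast, ← Real.rpow_mul (by norm_num)] at h2
      norm_num at h2
      linarith
    linarith
  have hQ1 : (1 : ℝ) ≤ Q := hN1.trans hNQ
  have hN₀0 : (0 : ℝ) < N₀ := by linarith
  have hQ0 : (0 : ℝ) < Q := by linarith
  obtain ⟨ℓ, hℓ⟩ : ∃ ℓ : ℝ, ℓ = N₀ * Q / N := ⟨_, rfl⟩
  have hℓN : ℓ * N = N₀ * Q := by
    rw [hℓ]
    field_simp
  have hℓ1 : 1 ≤ ℓ := by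
    rw [hℓ, le_div_iff₀ hNr]
    calc 1 * (N : ℝ) = N := one_mul _
      _ ≤ Q := hNQ
      _ = 1 * Q := (one_mul _).symm
      _ ≤ N₀ * Q := by gcongr
  have hℓQ : ℓ ≤ Q := by
    rw [hℓ, div_le_iff₀ hNr, mul_comm (Q : ℝ)]
    gcongr
  have hℓ0 : 0 < ℓ := by linarith
  obtain ⟨X₀, hX₀⟩ : ∃ X₀ : ℕ, X₀ = ⌈(N : ℝ) * (w + 2)⌉₊ := ⟨_, rfl⟩
  have hX1 : (N : ℝ) * (w + 2) ≤ X₀ := by rw [hX₀]; exact Nat.le_ceil _
  have hX2 : (X₀ : ℝ) ≤ N * (w + 3) := by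
    have h1 : (X₀ : ℝ) < N * (w + 2) + 1 := by
      rw [hX₀]
      exact Nat.ceil_lt_add_one (by positivity)
    linarith
  have hX3 : (1 : ℝ) ≤ X₀ := by
    refine le_trans ?_ hX1
    nlinarith
  obtain ⟨D, hD⟩ : ∃ D : ℕ, D = ⌊(CD : ℝ) * R ^ ((1 : ℝ) / 200)⌋₊ := ⟨_, rfl⟩
  have hCDR : 1 ≤ (CD : ℝ) * R ^ ((1 : ℝ) / 200) :=
    one_le_mul_of_one_le_of_one_le hCDr (Real.one_le_rpow hR1 (by norm_num))
  have hD1 : (D : ℝ) ≤ CD * R ^ ((1 : ℝ) / 200) := by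
    rw [hD]; exact Nat.floor_le (by linarith)
  have hD2 : (1 : ℝ) ≤ D := by
    have : 1 ≤ D := by
      rw [hD]
      exact Nat.le_floor (by simpa using hCDR)
    exact_mod_cast this
  have hNR : (N : ℝ) ≤ R ^ ((1 : ℝ) / 8) := hNQ.trans hQ
  have hdiv : ∀ t : ℕ, 1 ≤ t → t ≤ 2 * X₀ → (((256 * N ^ 3).natAbs * t).divisors.card) ≤ D := by
    intro t ht1 ht2
    rw [hD]
    apply Nat.le_floor
    have hne : (256 * N ^ 3).natAbs * t ≠ 0 := by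
      have : (256 * N ^ 3 : ℤ) ≠ 0 := by positivity
      exact mul_ne_zero (by omega) (by omega)
    refine hCD R _ hR1 hne ?_
    have h2 : (((256 * N ^ 3).natAbs : ℕ) : ℝ) = 256 * (N : ℝ) ^ 3 := by
      have h3 : (((256 * N ^ 3).natAbs : ℕ) : ℤ) = 256 * N ^ 3 :=
        Int.natAbs_of_nonneg (by positivity)
      have h4 : ((((256 * N ^ 3).natAbs : ℕ) : ℤ) : ℝ) = ((256 * N ^ 3 : ℤ) : ℝ) := by rw [h3]
      rw [Int.cast_natCast] at h4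
      rw [h4]
      push_cast
      rfl
    rw [Nat.cast_mul, h2]
    have ht : (t : ℝ) ≤ 2 * X₀ := by exact_mod_cast ht2
    have hw3 : w + 3 ≤ 4 * R ^ ((11 : ℝ) / 10) := by
      have := Real.one_le_rpow hR1 (by norm_num : (0 : ℝ) ≤ (11 : ℝ) / 10)
      linarith
    have hw0' : 0 ≤ w + 3 := by linarith
    have hN4 : (N : ℝ) ^ 4 ≤ R ^ ((1 : ℝ) / 2) := by
      have h4 := pow_le_pow_left₀ hNr.le hNR 4
      rw [hpw] at h4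
      refine h4.trans (le_of_eq ?_)
      norm_num
    calc 256 * (N : ℝ) ^ 3 * t ≤ 256 * (N : ℝ) ^ 3 * (2 * (N * (w + 3))) := by
          refine mul_le_mul_of_nonneg_left ?_ (by positivity)
          linarith
      _ = 512 * ((N : ℝ) ^ 4 * (w + 3)) := by ring
      _ ≤ 512 * (R ^ ((1 : ℝ) / 2) * (4 * R ^ ((11 : ℝ) / 10))) := by
          refine mul_le_mul_of_nonneg_left ?_ (by norm_num)
          exact mul_le_mul hN4 hw3 hw0' (hpos _).le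
      _ = 2048 * R ^ ((1 : ℝ) / 2 + (11 : ℝ) / 10) := by
        rw [← hadd]
        ring
      _ ≤ R ^ ((1 : ℝ) / 100) * R ^ ((1 : ℝ) / 2 + (11 : ℝ) / 10) :=
        mul_le_mul_of_nonneg_right k3 (hpos _).le
      _ = R ^ ((1 : ℝ) / 100 + (1 / 2 + 11 / 10)) := hadd _ _
      _ ≤ R ^ (2 : ℝ) := hmono _ _ (by norm_num)
  have habsN : |(N : ℝ)| = N := abs_of_pos hNr
  have hb := hbl R T V S ℓ κ a b c N M X₀ D 𝓑 hN hcop hsq hR1 hT0 (k2.trans hSl)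
    (by rw [habsN, ← hG', hSG])
    (hTu.trans ((hmono _ _ (by norm_num)).trans hSl))
    (by
      calc (1 : ℝ) ≤ R ^ (-(1 : ℝ) / 40000 + 4 / 5) := Real.one_le_rpow hR1 (by norm_num)
        _ = R ^ (-(1 : ℝ) / 40000) * R ^ ((4 : ℝ) / 5) := (hadd _ _).symm
        _ ≤ T * S := by gcongr)
    ((hSexp' (1 / 10) (by norm_num)).trans ((hmono _ _ (by norm_num)).trans hV))
    (hlog.trans ((hmono _ _ (by norm_num)).trans (hSexp (1 / 2500) (by norm_num))))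
    hℓ1 (hℓQ.trans (hQ.trans ((hmono _ _ (by norm_num)).trans (hSexp (1 / 6) (by norm_num)))))
    hG (by rw [hℓN]; exact hY) (fun P hP => (hX P hP).trans hX1) hdiv
  -- the final computation
  have hsN₀ : R ^ ((1 : ℝ) / 64) / 2 ≤ √(N₀ : ℝ) := by
    apply Real.le_sqrt_of_sq_le
    refine le_trans ?_ hN₀
    rw [div_pow, hpw]
    have : R ^ ((1 : ℝ) / 64 * ((2 : ℕ) : ℝ)) = R ^ ((1 : ℝ) / 32) := by norm_num
    rw [this]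
    have := hpos ((1 : ℝ) / 32)
    linarith
  have hsN₀0 : 0 < √(N₀ : ℝ) := Real.sqrt_pos.2 hN₀0
  have hinv : R ^ (-(1 : ℝ) / 64) * R ^ ((1 : ℝ) / 64) = 1 := by
    rw [hadd]; norm_num
  have hN₀sq : √(N₀ : ℝ) * √(N₀ : ℝ) = N₀ := Real.mul_self_sqrt hN₀0.le
  -- `√N₀ ≤ 2 R^(-1/64) N₀`
  have hN₀inv : √(N₀ : ℝ) ≤ 2 * R ^ (-(1 : ℝ) / 64) * N₀ := by
    have h1 : 1 ≤ 2 * R ^ (-(1 : ℝ) / 64) * √(N₀ : ℝ) := by
      calc (1 : ℝ) = 2 * R ^ (-(1 : ℝ) / 64) * (R ^ ((1 : ℝ) / 64) / 2) := by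
            linear_combination -hinv
        _ ≤ 2 * R ^ (-(1 : ℝ) / 64) * √(N₀ : ℝ) := by
          have := hpos (-(1 : ℝ) / 64)
          gcongr
    calc √(N₀ : ℝ) = 1 * √(N₀ : ℝ) := (one_mul _).symm
      _ ≤ (2 * R ^ (-(1 : ℝ) / 64) * √(N₀ : ℝ)) * √(N₀ : ℝ) := by gcongr
      _ = 2 * R ^ (-(1 : ℝ) / 64) * (√(N₀ : ℝ) * √(N₀ : ℝ)) := by ring
      _ = _ := by rw [hN₀sq]
  have f1 : (N : ℝ) * √ℓ ≤ 2 * R ^ (-(1 : ℝ) / 64) * (N₀ * Q) := by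
    have h1 : (N : ℝ) * √ℓ = √((N : ℝ) * (N₀ * Q)) := by
      rw [← hℓN]
      have : (N : ℝ) * (ℓ * N) = (N : ℝ) ^ 2 * ℓ := by ring
      rw [this, Real.sqrt_mul (by positivity), Real.sqrt_sq hNr.le]
    rw [h1]
    calc √((N : ℝ) * (N₀ * Q)) ≤ √((Q : ℝ) * (N₀ * Q)) := by
          apply Real.sqrt_le_sqrt
          gcongr
      _ = √(N₀ : ℝ) * Q := by
          have : (Q : ℝ) * (N₀ * Q) = N₀ * (Q : ℝ) ^ 2 := by ring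
          rw [this, Real.sqrt_mul (by positivity), Real.sqrt_sq hQ0.le]
      _ ≤ (2 * R ^ (-(1 : ℝ) / 64) * N₀) * Q := by gcongr
      _ = _ := by ring
  have f2 : √((N : ℝ) * (w + 3) * D) * ℓ ≤
      (w + 3) * (CD * R ^ ((1 : ℝ) / 400)) * (2 * R ^ (-(1 : ℝ) / 64) * (N₀ * Q)) := by
    have h1 : √((N : ℝ) * (w + 3) * D) = √(N : ℝ) * (√(w + 3) * √(D : ℝ)) := by
      rw [mul_assoc, Real.sqrt_mul hNr.le, Real.sqrt_mul (by linarith)]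
    have h2 : √(w + 3) ≤ w + 3 := by
      rw [Real.sqrt_le_left (by linarith)]
      nlinarith
    have h3 : √(D : ℝ) ≤ CD * R ^ ((1 : ℝ) / 400) := by
      rw [Real.sqrt_le_left (by positivity)]
      refine hD1.trans ?_
      rw [mul_pow, hpw]
      have e1 : R ^ ((1 : ℝ) / 400 * ((2 : ℕ) : ℝ)) = R ^ ((1 : ℝ) / 200) := by norm_num
      rw [e1]
      have e2 : (CD : ℝ) ≤ (CD : ℝ) ^ 2 := le_self_pow₀ hCDr (by norm_num)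
      gcongr
    have hsN : 0 < √(N : ℝ) := Real.sqrt_pos.2 hNr
    have hsNN : √(N : ℝ) * √(N : ℝ) = N := Real.mul_self_sqrt hNr.le
    have h4 : √(N : ℝ) * ℓ ≤ 2 * R ^ (-(1 : ℝ) / 64) * (N₀ * Q) := by
      have h5 : √(N₀ : ℝ) ≤ √(N : ℝ) := Real.sqrt_le_sqrt hN₀N
      have h6 : (√(N : ℝ) * ℓ) * √(N : ℝ) = N₀ * Q := by
        rw [← hℓN]
        calc (√(N : ℝ) * ℓ) * √(N : ℝ) = ℓ * (√(N : ℝ) * √(N : ℝ)) := by ring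
          _ = ℓ * N := by rw [hsNN]
      have h7 : (√(N : ℝ) * ℓ) * √(N₀ : ℝ) ≤ N₀ * Q := by
        rw [← h6]
        gcongr
      have h8 : (√(N : ℝ) * ℓ) * N₀ ≤ √(N₀ : ℝ) * (N₀ * Q) := by
        calc (√(N : ℝ) * ℓ) * N₀ = √(N₀ : ℝ) * ((√(N : ℝ) * ℓ) * √(N₀ : ℝ)) := by
              nth_rewrite 1 [← hN₀sq]
              ring
          _ ≤ √(N₀ : ℝ) * (N₀ * Q) := by gcongr
      have h9 : (√(N : ℝ) * ℓ) * N₀ ≤ (2 * R ^ (-(1 : ℝ) / 64) * (N₀ * Q)) * N₀ := by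
        refine h8.trans ?_
        calc √(N₀ : ℝ) * (N₀ * Q) ≤ (2 * R ^ (-(1 : ℝ) / 64) * N₀) * (N₀ * Q) := by gcongr
          _ = _ := by ring
      exact le_of_mul_le_mul_right h9 hN₀0
    rw [h1]
    calc √(N : ℝ) * (√(w + 3) * √(D : ℝ)) * ℓ = (√(w + 3) * √(D : ℝ)) * (√(N : ℝ) * ℓ) := by ring
      _ ≤ ((w + 3) * (CD * R ^ ((1 : ℝ) / 400))) * (2 * R ^ (-(1 : ℝ) / 64) * (N₀ * Q)) := by
        gcongr
      _ = _ := by ring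
  have hSS : S ^ ((1 : ℝ) / 400) ≤ R ^ ((1 : ℝ) / 300) :=
    (hSexp' (1 / 400) (by norm_num)).trans (hmono _ _ (by norm_num))
  have hfin1 : R ^ ((1 : ℝ) / 300) * R ^ (-(1 : ℝ) / 64) ≤ R ^ (-(1 : ℝ) / 100) := by
    rw [hadd]
    exact hmono _ _ (by norm_num)
  have hfin2 : R ^ ((1 : ℝ) / 400) * R ^ (-(1 : ℝ) / 64) ≤ R ^ (-(1 : ℝ) / 100) := by
    rw [hadd]
    exact hmono _ _ (by norm_num)
  have g1 : (2 * (X₀ : ℝ) + 1) * (C₁ * (√ℓ * S ^ ((1 : ℝ) / 400))) ≤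
      6 * C₁ * ((w + 3) * (N₀ * Q) * R ^ (-(1 : ℝ) / 100)) := by
    calc (2 * (X₀ : ℝ) + 1) * (C₁ * (√ℓ * S ^ ((1 : ℝ) / 400)))
        ≤ (3 * (N * (w + 3))) * (C₁ * (√ℓ * R ^ ((1 : ℝ) / 300))) := by
          gcongr
          linarith
      _ = 3 * C₁ * (w + 3) * R ^ ((1 : ℝ) / 300) * (N * √ℓ) := by ring
      _ ≤ 3 * C₁ * (w + 3) * R ^ ((1 : ℝ) / 300) * (2 * R ^ (-(1 : ℝ) / 64) * (N₀ * Q)) := by
          gcongr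
      _ = 6 * C₁ * ((w + 3) * (N₀ * Q) * (R ^ ((1 : ℝ) / 300) * R ^ (-(1 : ℝ) / 64))) := by ring
      _ ≤ _ := by gcongr
  have g2 : (1 + 2 * √((X₀ : ℝ) * D)) * (3 * ℓ) ≤
      18 * CD * ((w + 3) * (N₀ * Q) * R ^ (-(1 : ℝ) / 100)) := by
    have h1 : 1 ≤ √((X₀ : ℝ) * D) := Real.one_le_sqrt.2 (one_le_mul_of_one_le_of_one_le hX3 hD2)
    have h2 : √((X₀ : ℝ) * D) ≤ √((N : ℝ) * (w + 3) * D) := by
      apply Real.sqrt_le_sqrt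
      gcongr
    calc (1 + 2 * √((X₀ : ℝ) * D)) * (3 * ℓ) ≤ (3 * √((N : ℝ) * (w + 3) * D)) * (3 * ℓ) := by
          gcongr
          linarith
      _ = 9 * (√((N : ℝ) * (w + 3) * D) * ℓ) := by ring
      _ ≤ 9 * ((w + 3) * (CD * R ^ ((1 : ℝ) / 400)) * (2 * R ^ (-(1 : ℝ) / 64) * (N₀ * Q))) := by
          gcongr
      _ = 18 * CD * ((w + 3) * (N₀ * Q) * (R ^ ((1 : ℝ) / 400) * R ^ (-(1 : ℝ) / 64))) := by ring
      _ ≤ _ := by gcongr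
  have g3 : (w + 3) * (N₀ * Q) * R ^ (-(1 : ℝ) / 100) ≤
      3 * ((w + 1) * (N₀ * Q) * R ^ (-(1 : ℝ) / 100)) := by
    have h1 : 0 ≤ (N₀ * Q : ℝ) * R ^ (-(1 : ℝ) / 100) := by
      have := hpos (-(1 : ℝ) / 100)
      positivity
    nlinarith
  calc (𝓑.card : ℝ) ≤ _ := hb
    _ ≤ 6 * C₁ * ((w + 3) * (N₀ * Q) * R ^ (-(1 : ℝ) / 100)) +
        18 * CD * ((w + 3) * (N₀ * Q) * R ^ (-(1 : ℝ) / 100)) := add_le_add g1 g2
    _ = (6 * C₁ + 18 * CD) * ((w + 3) * (N₀ * Q) * R ^ (-(1 : ℝ) / 100)) := by ring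
    _ ≤ (6 * C₁ + 18 * CD) * (3 * ((w + 1) * (N₀ * Q) * R ^ (-(1 : ℝ) / 100))) := by gcongr
    _ = _ := by ring

end Pool.Agent.J4H76.HB
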