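import Mathlib
import Pool.Agent.J4H76.HB.L11

/-! Slanted lines: blocks with a slope close to a fraction of small denominator; trivial bound of
a block. -/

set_option autoImplicit false

namespace Pool.Agent.J4H76.HB

/-- integers with small differences -/
lemma card_diff (F : Finset ℤ) (X : ℝ) (hX : 0 ≤ X)
    (h : ∀ k ∈ F, ∀ k' ∈ F, |(k : ℝ) - k'| ≤ X) : (F.card : ℝ) ≤ X + 1 := by
  rcases F.eq_empty_or_nonempty with rfl | hne
  · simp only [Finset.card_empty, Nat.cast_zero]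
    linarith
  obtain ⟨m, hm, hmin⟩ := Finset.exists_min_image F (fun k => k) hne
  have h1 : F ⊆ Finset.Icc m (m + ⌊X⌋) := by
    intro k hk
    rw [Finset.mem_Icc]
    refine ⟨hmin k hk, ?_⟩
    have h2 := (abs_le.1 (h k hk m hm)).2
    have h3 : k - m ≤ ⌊X⌋ := Int.le_floor.2 (by push_cast; linarith)
    omega
  have h2 := Finset.card_le_card h1
  rw [Int.card_Icc] at h2
  have h3 : (0 : ℤ) ≤ ⌊X⌋ := Int.floor_nonneg.2 hX
  have h4 : ((F.card : ℕ) : ℤ) ≤ ⌊X⌋ + 1 := by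
    have : ((m + ⌊X⌋ + 1 - m).toNat : ℤ) = ⌊X⌋ + 1 := by
      rw [Int.toNat_of_nonneg (by omega)]
      ring
    rw [← this]
    exact_mod_cast h2
  have h5 : (F.card : ℝ) ≤ (⌊X⌋ : ℝ) + 1 := by exact_mod_cast h4
  have h6 : (⌊X⌋ : ℝ) ≤ X := Int.floor_le X
  linarith

/-- few parameters have a slope near a fraction of small denominator -/
lemma bad_card (𝒦 : Finset ℤ) (sl : ℤ → ℝ) (r : ℤ → ℚ) (θ smax : ℝ) (Q N₀ : ℕ) (hQ : 0 < Q)
    (hN₀ : 1 ≤ N₀) (hθ : θ ≠ 0) (hs0 : 0 ≤ smax) (hsl : ∀ k k' : ℤ, sl k - sl k' = θ * (k - k'))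
    (hr : ∀ k ∈ 𝒦, |sl k - r k| ≤ 1 / ((Q + 1) * (r k).den)) (hden : ∀ k ∈ 𝒦, (r k).den < N₀)
    (hs : ∀ k ∈ 𝒦, |sl k| ≤ smax) :
    (𝒦.card : ℝ) ≤ (2 / (|θ| * Q) + 1) * (N₀ * (3 * (N₀ * (smax + 1)))) := by
  classical
  have hQr : (0 : ℝ) < Q := by exact_mod_cast hQ
  have hθ0 : 0 < |θ| := abs_pos.2 hθ
  have hN₀r : (1 : ℝ) ≤ N₀ := by exact_mod_cast hN₀
  obtain ⟨X, hX⟩ : ∃ X : ℝ, X = N₀ * (smax + 1) := ⟨_, rfl⟩
  have hX1 : 1 ≤ X := by rw [hX]; nlinarith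
  -- fibres
  have hfib : ∀ ρ : ℚ, ((𝒦.filter fun k => r k = ρ).card : ℝ) ≤ 2 / (|θ| * Q) + 1 := by
    intro ρ
    apply card_diff _ _ (by positivity)
    intro k hk k' hk'
    rw [Finset.mem_filter] at hk hk'
    have h1 := hr k hk.1
    have h2 := hr k' hk'.1
    rw [hk.2] at h1
    rw [hk'.2] at h2
    have hd : (1 : ℝ) ≤ (ρ.den : ℝ) := by exact_mod_cast ρ.pos
    have h3 : 1 / (((Q : ℝ) + 1) * ρ.den) ≤ 1 / Q := by
      apply one_div_le_one_div_of_le hQr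
      nlinarith
    have h4 : |sl k - sl k'| ≤ 2 / Q := by
      have e1 : sl k - sl k' = (sl k - ρ) - (sl k' - ρ) := by ring
      rw [e1]
      calc |(sl k - ρ) - (sl k' - ρ)| ≤ |sl k - ρ| + |sl k' - ρ| := abs_sub _ _
        _ ≤ 1 / Q + 1 / Q := by linarith
        _ = 2 / Q := by ring
    rw [hsl, abs_mul] at h4
    rw [le_div_iff₀ (by positivity)]
    have h5 := mul_le_mul_of_nonneg_right h4 hQr.le
    have h6 : 2 / (Q : ℝ) * Q = 2 := by field_simp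
    rw [h6] at h5
    linarith
  -- the image
  have himg : ((𝒦.image r).card : ℝ) ≤ N₀ * (3 * X) := by
    have h1 : (𝒦.image r).card ≤ ((𝒦.image r).image fun ρ => (ρ.den, ρ.num)).card := by
      refine le_of_eq (Finset.card_image_of_injOn ?_).symm
      intro ρ _ ρ' _ h
      have h2 := Prod.mk.inj h
      exact Rat.ext h2.2 h2.1
    have h2 : ((𝒦.image r).image fun ρ => (ρ.den, ρ.num)) ⊆
        Finset.range N₀ ×ˢ Finset.Icc (-⌊X⌋) ⌊X⌋ := by
      intro x hx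
      rw [Finset.mem_image] at hx
      obtain ⟨ρ, hρ, rfl⟩ := hx
      rw [Finset.mem_image] at hρ
      obtain ⟨k, hk, rfl⟩ := hρ
      rw [Finset.mem_product, Finset.mem_range]
      refine ⟨hden k hk, ?_⟩
      dsimp only
      have hd : (1 : ℝ) ≤ ((r k).den : ℝ) := by exact_mod_cast (r k).pos
      have hd' : ((r k).den : ℝ) ≤ N₀ := by exact_mod_cast (hden k hk).le
      have h3 : |((r k : ℚ) : ℝ)| ≤ smax + 1 := by
        have e1 : ((r k : ℚ) : ℝ) = sl k - (sl k - r k) := by ring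
        rw [e1]
        have h4 := hr k hk
        have h5 : 1 / (((Q : ℝ) + 1) * (r k).den) ≤ 1 := by
          rw [div_le_one (by positivity)]
          nlinarith
        calc |sl k - (sl k - r k)| ≤ |sl k| + |sl k - r k| := abs_sub _ _
          _ ≤ smax + 1 := by linarith [hs k hk]
      have h6 : (((r k).num : ℤ) : ℝ) = ((r k : ℚ) : ℝ) * (r k).den := by
        have := Rat.mul_den_eq_num (r k)
        exact_mod_cast this.symm
      have h7 : |(((r k).num : ℤ) : ℝ)| ≤ X := by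
        rw [h6, abs_mul, hX]
        have : |((r k).den : ℝ)| = (r k).den := abs_of_pos (by linarith)
        rw [this, mul_comm]
        exact mul_le_mul hd' h3 (abs_nonneg _) (by linarith)
      have h8 := abs_le.1 h7
      rw [Finset.mem_Icc]
      constructor
      · have h9 : -(r k).num ≤ ⌊X⌋ := Int.le_floor.2 (by push_cast; linarith)
        omega
      · exact Int.le_floor.2 h8.2
    have h3 : (((Finset.Icc (-⌊X⌋) ⌊X⌋).card : ℕ) : ℝ) ≤ 3 * X := by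
      apply card_int_le _ _ hX1
      intro t ht
      rw [Finset.mem_Icc] at ht
      have e1 : ((-⌊X⌋ : ℤ) : ℝ) ≤ t := by exact_mod_cast ht.1
      have e2 : (t : ℝ) ≤ (⌊X⌋ : ℝ) := by exact_mod_cast ht.2
      have e3 : (⌊X⌋ : ℝ) ≤ X := Int.floor_le X
      push_cast at e1
      rw [abs_le]
      constructor <;> linarith
    have h4 := h1.trans (Finset.card_le_card h2)
    rw [Finset.card_product, Finset.card_range] at h4
    calc ((𝒦.image r).card : ℝ) ≤ ((N₀ * (Finset.Icc (-⌊X⌋) ⌊X⌋).card : ℕ) : ℝ) := by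
          exact_mod_cast h4
      _ = N₀ * ((Finset.Icc (-⌊X⌋) ⌊X⌋).card : ℝ) := by push_cast; rfl
      _ ≤ N₀ * (3 * X) := by gcongr
  have hB0 : (0 : ℝ) ≤ 2 / (|θ| * Q) + 1 := by positivity
  have h1 : 𝒦.card ≤ ⌊2 / (|θ| * Q) + 1⌋₊ * (𝒦.image r).card := by
    apply Finset.card_le_mul_card_image
    intro ρ _
    exact Nat.le_floor (hfib ρ)
  calc (𝒦.card : ℝ) ≤ ((⌊2 / (|θ| * Q) + 1⌋₊ * (𝒦.image r).card : ℕ) : ℝ) := by exact_mod_cast h1
    _ = (⌊2 / (|θ| * Q) + 1⌋₊ : ℝ) * ((𝒦.image r).card : ℝ) := by push_cast; rfl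
    _ ≤ (2 / (|θ| * Q) + 1) * (N₀ * (3 * X)) := by
      have := Nat.floor_le hB0
      gcongr
    _ = _ := by rw [hX]

/-- trivial bound of a block -/
lemma triv_block (𝓑 : Finset (ℤ × ℤ)) (es : ℤ → ℝ) (w Y : ℝ) (hw : 0 ≤ w) (hY : 0 ≤ Y)
    (h1 : ∀ P ∈ 𝓑, |(P.2 : ℝ) - es P.1| ≤ w) (h2 : ∀ P ∈ 𝓑, ∀ P' ∈ 𝓑, |(P.1 : ℝ) - P'.1| ≤ Y) :
    (𝓑.card : ℝ) ≤ (2 * w + 1) * (Y + 1) := by
  classical
  have h3 : 𝓑.card ≤ ⌊2 * w + 1⌋₊ * (𝓑.image Prod.fst).card := by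
    apply Finset.card_le_mul_card_image
    intro d _
    apply Nat.le_floor
    have h4 : (𝓑.filter fun P => P.1 = d).card =
        ((𝓑.filter fun P => P.1 = d).image Prod.snd).card := by
      rw [Finset.card_image_of_injOn]
      intro P hP P' hP' h
      rw [Finset.mem_coe, Finset.mem_filter] at hP hP'
      exact Prod.ext (hP.2.trans hP'.2.symm) h
    rw [h4]
    apply card_diff _ _ (by linarith)
    intro e he e' he'
    rw [Finset.mem_image] at he he'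
    obtain ⟨P, hP, rfl⟩ := he
    obtain ⟨P', hP', rfl⟩ := he'
    rw [Finset.mem_filter] at hP hP'
    have a1 := abs_le.1 (h1 P hP.1)
    have a2 := abs_le.1 (h1 P' hP'.1)
    rw [hP.2] at a1
    rw [hP'.2] at a2
    rw [abs_le]
    constructor <;> linarith
  have h5 : ((𝓑.image Prod.fst).card : ℝ) ≤ Y + 1 := by
    apply card_diff _ _ hY
    intro e he e' he'
    rw [Finset.mem_image] at he he'
    obtain ⟨P, hP, rfl⟩ := he
    obtain ⟨P', hP', rfl⟩ := he'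
    exact h2 P hP P' hP'
  calc (𝓑.card : ℝ) ≤ ((⌊2 * w + 1⌋₊ * (𝓑.image Prod.fst).card : ℕ) : ℝ) := by exact_mod_cast h3
    _ = (⌊2 * w + 1⌋₊ : ℝ) * ((𝓑.image Prod.fst).card : ℝ) := by push_cast; rfl
    _ ≤ (2 * w + 1) * (Y + 1) := by
      have := Nat.floor_le (show (0 : ℝ) ≤ 2 * w + 1 by linarith)
      gcongr

end Pool.Agent.J4H76.HB
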