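import Mathlib
import Pool.Agent.J4H76.HB.L12

/-! Slanted lines: all the points with given first three coefficients. -/

set_option autoImplicit false

namespace Pool.Agent.J4H76.HB

open Pool.Agent.R418.HL (Good Chart)

lemma floor_half {x : ℝ} (hx : 1 ≤ x) : x / 2 ≤ (⌊x⌋₊ : ℝ) := by
  have h1 := Nat.lt_floor_add_one x
  have h2 : (1 : ℝ) ≤ (⌊x⌋₊ : ℝ) := by
    have : 1 ≤ ⌊x⌋₊ := Nat.le_floor (by simpa using hx)
    exact_mod_cast this
  linarith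

/-- the slope is bounded -/
lemma slope_le {K R T a b c Δ u smax : ℝ} (hK : 1 ≤ K) (hR : 1 ≤ R) (hT : 0 < T)
    (ha : |a| * T ^ 4 ≤ K * R) (hb : |b| * T ^ 2 ≤ K * R) (hc : |c| ≤ K * R)
    (hu : |u| ≤ 2 * K * (R * T ^ 2)) (hΔ : 0 < |Δ|)
    (hs : 6 * K ^ 2 * R ^ 2 ≤ smax * (|Δ| * T ^ 2)) : |(2 * a * u - 2 * b * c) / Δ| ≤ smax := by
  have hT2 : 0 < T ^ 2 := by positivity
  rw [abs_div, div_le_iff₀ hΔ]
  have h1 : |2 * a * u - 2 * b * c| * T ^ 2 ≤ 6 * K ^ 2 * R ^ 2 := by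
    calc |2 * a * u - 2 * b * c| * T ^ 2 ≤ (|2 * a * u| + |2 * b * c|) * T ^ 2 := by
          gcongr
          exact abs_sub _ _
      _ = 2 * (|a| * T ^ 2 * |u|) + 2 * (|b| * T ^ 2 * |c|) := by
          rw [abs_mul, abs_mul, abs_mul, abs_mul, abs_of_pos (by norm_num : (0 : ℝ) < 2)]
          ring
      _ ≤ 2 * (|a| * T ^ 2 * (2 * K * (R * T ^ 2))) + 2 * (K * R * (K * R)) := by gcongr
      _ = 4 * K * R * (|a| * T ^ 4) + 2 * K ^ 2 * R ^ 2 := by ring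
      _ ≤ 4 * K * R * (K * R) + 2 * K ^ 2 * R ^ 2 := by gcongr
      _ = 6 * K ^ 2 * R ^ 2 := by ring
  have h2 : |2 * a * u - 2 * b * c| * T ^ 2 ≤ (smax * |Δ|) * T ^ 2 := by
    refine h1.trans (hs.trans (le_of_eq ?_))
    ring
  exact le_of_mul_le_mul_right h2 hT2

/-- the lines of a block -/
lemma near_line {a b c Δ d e u w N M s Y : ℝ} (hΔ : Δ ≠ 0)
    (he : |e - (a * d ^ 2 - 2 * b * c * d + c ^ 3) / Δ| ≤ w)
    (hs : s = (2 * a * u - 2 * b * c) / Δ) (hN : 0 < N) (hi0 : 0 ≤ d - u) (hi1 : d - u ≤ Y)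
    (h1 : |N * s - M| * Y ≤ N) (h2 : |a| * Y ^ 2 ≤ |Δ|) :
    |N * e - M * d - (N * ((a * u ^ 2 - 2 * b * c * u + c ^ 3) / Δ) - M * u)| ≤ N * (w + 2) := by
  have hΔ' : 0 < |Δ| := abs_pos.2 hΔ
  have e1 : N * e - M * d - (N * ((a * u ^ 2 - 2 * b * c * u + c ^ 3) / Δ) - M * u) =
      N * (e - (a * d ^ 2 - 2 * b * c * d + c ^ 3) / Δ) + (N * s - M) * (d - u) +
        N * (a / Δ * (d - u) ^ 2) := by
    rw [hs]
    field_simp
    ring
  rw [e1]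
  have e2 : |N * (e - (a * d ^ 2 - 2 * b * c * d + c ^ 3) / Δ)| ≤ N * w := by
    rw [abs_mul, abs_of_pos hN]
    gcongr
  have e3 : |(N * s - M) * (d - u)| ≤ N := by
    rw [abs_mul, abs_of_nonneg hi0]
    refine le_trans ?_ h1
    gcongr
  have e4 : |N * (a / Δ * (d - u) ^ 2)| ≤ N * 1 := by
    rw [abs_mul, abs_of_pos hN]
    gcongr
    rw [abs_mul, abs_div, abs_of_nonneg (sq_nonneg (d - u)), div_mul_eq_mul_div, div_le_one hΔ']
    refine le_trans ?_ h2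
    gcongr
  calc _ ≤ |N * (e - (a * d ^ 2 - 2 * b * c * d + c ^ 3) / Δ) + (N * s - M) * (d - u)| +
        |N * (a / Δ * (d - u) ^ 2)| := abs_add_le _ _
    _ ≤ |N * (e - (a * d ^ 2 - 2 * b * c * d + c ^ 3) / Δ)| + |(N * s - M) * (d - u)| +
        |N * (a / Δ * (d - u) ^ 2)| := by gcongr; exact abs_add_le _ _
    _ ≤ N * w + N + N * 1 := by linarith
    _ = N * (w + 2) := by ring

theorem strip (K : ℝ) (hK : 1 ≤ K) : ∃ C R₀ : ℝ, 1 ≤ C ∧ 1 ≤ R₀ ∧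
    ∀ (R T V w : ℝ) (a b c : ℤ) (𝓑 : Finset (ℤ × ℤ)), R₀ ≤ R →
    R ^ (-(1 : ℝ) / 40000) ≤ T → T ≤ R ^ ((1 : ℝ) / 40000) → R ^ ((13 : ℝ) / 100) ≤ V →
    Real.log V ≤ R ^ ((1 : ℝ) / 3200) → 0 ≤ w → w ≤ R ^ ((11 : ℝ) / 10) →
    (∀ s : ℤ, s ^ 2 ≠ a) → |(a : ℝ)| * T ^ 4 ≤ K * R → |(b : ℝ)| * T ^ 2 ≤ K * R →
    |(c : ℝ)| ≤ K * R → R ^ ((999 : ℝ) / 1000) ≤ |(a : ℝ)| * T ^ 4 →
    R ^ ((799 : ℝ) / 400) ≤ |((a * c - b ^ 2 : ℤ) : ℝ)| * T ^ 4 →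
    (∀ P ∈ 𝓑, |((a * c - b ^ 2 : ℤ) : ℝ) * P.2 -
      (a * (P.1 : ℝ) ^ 2 - 2 * b * c * P.1 + (c : ℝ) ^ 3)| ≤
      w * |((a * c - b ^ 2 : ℤ) : ℝ)|) →
    (∀ P ∈ 𝓑, ∃ p q : ℤ, Good K R T V a b c P.1 P.2 p q ∧ Chart K R T V a b c P.1 p q) →
    (𝓑.card : ℝ) ≤ C * (w + 1) * R ^ ((991 : ℝ) / 1000) := by
  classical
  obtain ⟨C₂, R₁, hC₂, hR₁, hgb⟩ := gblock K hK
  obtain ⟨r1, hr1⟩ := ev (7 * K ^ 2) (49 / 20000) (by norm_num)
  obtain ⟨r2, hr2⟩ := ev (K : ℝ) (1 / 10) (by norm_num)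
  refine ⟨6 * K * C₂ + 420 * K ^ 4, max (max r1 r2) (max R₁ (2 ^ 32)), ?_,
    le_trans (by norm_num) (le_trans (le_max_right _ _) (le_max_right _ _)), ?_⟩
  · have : 1 ≤ K ^ 4 := one_le_pow₀ hK
    have : 0 ≤ K * C₂ := by positivity
    linarith
  intro R T V w a b c 𝓑 hRR hTl hTu hV hlog hw0 hw hsq ha hb hc hal hΔl hstrip hG
  have hR32 : (2 : ℝ) ^ 32 ≤ R := le_trans (le_trans (le_max_right _ _) (le_max_right _ _)) hRR
  have hR1 : (1 : ℝ) ≤ R := le_trans (by norm_num) hR32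
  have hR0 : (0 : ℝ) < R := by linarith
  have hRR₁ : R₁ ≤ R := le_trans (le_trans (le_max_left _ _) (le_max_right _ _)) hRR
  have k1 := hr1 R (le_trans (le_trans (le_max_left _ _) (le_max_left _ _)) hRR)
  have k2 := hr2 R (le_trans (le_trans (le_max_right _ _) (le_max_left _ _)) hRR)
  have hmono : ∀ s t : ℝ, s ≤ t → R ^ s ≤ R ^ t := fun s t h =>
    Real.rpow_le_rpow_of_exponent_le hR1 h
  have hpos : ∀ s : ℝ, 0 < R ^ s := fun s => Real.rpow_pos_of_pos hR0 s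
  have hadd : ∀ s t : ℝ, R ^ s * R ^ t = R ^ (s + t) := fun s t => (Real.rpow_add hR0 s t).symm
  have hpw : ∀ (s : ℝ) (n : ℕ), (R ^ s) ^ n = R ^ (s * n) := fun s n => by
    rw [← Real.rpow_natCast, ← Real.rpow_mul hR0.le]
  have hRadd : ∀ s : ℝ, R * R ^ s = R ^ (1 + s) := fun s => by
    rw [Real.rpow_add hR0, Real.rpow_one]
  have hT0 : 0 < T := lt_of_lt_of_le (hpos _) hTl
  have hT2 : 0 < T ^ 2 := by positivity
  have hT4 : 0 < T ^ 4 := by positivity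
  have hT2u : T ^ 2 ≤ R ^ ((1 : ℝ) / 20000) := by
    have h1 := pow_le_pow_left₀ hT0.le hTu 2
    rw [hpw] at h1
    refine h1.trans (le_of_eq ?_)
    norm_num
  have hT2l : R ^ (-(1 : ℝ) / 20000) ≤ T ^ 2 := by
    have h1 := pow_le_pow_left₀ (hpos _).le hTl 2
    rw [hpw] at h1
    refine le_trans (le_of_eq ?_) h1
    norm_num
  have hK0 : 0 < K := by linarith
  have hK2 : K ≤ K ^ 2 := by nlinarith
  -- the discriminant
  obtain ⟨Δ, hΔ⟩ : ∃ Δ : ℝ, Δ = ((a * c - b ^ 2 : ℤ) : ℝ) := ⟨_, rfl⟩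
  rw [← hΔ] at hΔl hstrip
  have hΔ0 : 0 < |Δ| := by
    by_contra hcon
    have h1 : |Δ| = 0 := le_antisymm (not_lt.1 hcon) (abs_nonneg _)
    rw [h1, zero_mul] at hΔl
    linarith [hpos ((799 : ℝ) / 400)]
  have hΔne : Δ ≠ 0 := abs_pos.1 hΔ0
  have ha0 : 0 < |(a : ℝ)| := by
    by_contra hcon
    have h1 : |(a : ℝ)| = 0 := le_antisymm (not_lt.1 hcon) (abs_nonneg _)
    rw [h1, zero_mul] at hal
    linarith [hpos ((999 : ℝ) / 1000)]
  -- the lengths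
  obtain ⟨Q, hQdef⟩ : ∃ Q : ℕ, Q = ⌊R ^ ((1 : ℝ) / 8)⌋₊ := ⟨_, rfl⟩
  obtain ⟨N₀, hN₀def⟩ : ∃ N₀ : ℕ, N₀ = ⌊R ^ ((1 : ℝ) / 32)⌋₊ := ⟨_, rfl⟩
  have hQu : (Q : ℝ) ≤ R ^ ((1 : ℝ) / 8) := by rw [hQdef]; exact Nat.floor_le (hpos _).le
  have hQl : R ^ ((1 : ℝ) / 8) / 2 ≤ Q := by
    rw [hQdef]; exact floor_half (Real.one_le_rpow hR1 (by norm_num))
  have hN₀u : (N₀ : ℝ) ≤ R ^ ((1 : ℝ) / 32) := by rw [hN₀def]; exact Nat.floor_le (hpos _).le
  have hN₀l : R ^ ((1 : ℝ) / 32) / 2 ≤ N₀ := by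
    rw [hN₀def]; exact floor_half (Real.one_le_rpow hR1 (by norm_num))
  have hN₀1 : 1 ≤ N₀ := by
    rw [hN₀def]
    exact Nat.le_floor (by simpa using Real.one_le_rpow hR1 (by norm_num : (0 : ℝ) ≤ 1 / 32))
  have hQ1 : 1 ≤ Q := by
    rw [hQdef]
    exact Nat.le_floor (by simpa using Real.one_le_rpow hR1 (by norm_num : (0 : ℝ) ≤ 1 / 8))
  have hN₀r : (1 : ℝ) ≤ N₀ := by exact_mod_cast hN₀1
  have hQr : (1 : ℝ) ≤ Q := by exact_mod_cast hQ1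
  obtain ⟨Y, hY⟩ : ∃ Y : ℤ, Y = N₀ * Q := ⟨_, rfl⟩
  have hYr : (Y : ℝ) = N₀ * Q := by rw [hY]; push_cast; rfl
  have hY1 : (1 : ℝ) ≤ Y := by rw [hYr]; exact one_le_mul_of_one_le_of_one_le hN₀r hQr
  have hY0 : 0 < Y := by
    have : (0 : ℝ) < Y := by linarith
    exact_mod_cast this
  have hYu : (Y : ℝ) ≤ R ^ ((5 : ℝ) / 32) := by
    rw [hYr]
    calc (N₀ : ℝ) * Q ≤ R ^ ((1 : ℝ) / 32) * R ^ ((1 : ℝ) / 8) := by gcongr
      _ = R ^ ((5 : ℝ) / 32) := by rw [hadd]; norm_num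
  have hYRT : (Y : ℝ) ≤ R * T ^ 2 := by
    calc (Y : ℝ) ≤ R ^ ((5 : ℝ) / 32) := hYu
      _ ≤ R ^ (1 + -(1 : ℝ) / 20000) := hmono _ _ (by norm_num)
      _ = R * R ^ (-(1 : ℝ) / 20000) := (hRadd _).symm
      _ ≤ R * T ^ 2 := by gcongr
  -- slopes
  obtain ⟨sl, hsl⟩ : ∃ sl : ℤ → ℝ, ∀ k, sl k = (2 * a * ((k * Y : ℤ) : ℝ) - 2 * b * c) / Δ :=
    ⟨_, fun k => rfl⟩
  obtain ⟨smax, hsmax⟩ : ∃ smax : ℝ, smax = 6 * K ^ 2 * R ^ ((51 : ℝ) / 20000) := ⟨_, rfl⟩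
  have hsmax0 : 0 ≤ smax := by
    rw [hsmax]
    have := hpos ((51 : ℝ) / 20000)
    positivity
  have hsmaxΔ : 6 * K ^ 2 * R ^ 2 ≤ smax * (|Δ| * T ^ 2) := by
    have h1 : R ^ ((799 : ℝ) / 400) ≤ (|Δ| * T ^ 2) * R ^ ((1 : ℝ) / 20000) := by
      calc R ^ ((799 : ℝ) / 400) ≤ |Δ| * T ^ 4 := hΔl
        _ = (|Δ| * T ^ 2) * T ^ 2 := by ring
        _ ≤ (|Δ| * T ^ 2) * R ^ ((1 : ℝ) / 20000) := by gcongr
    have h2 : R ^ 2 = R ^ ((799 : ℝ) / 400) * R ^ ((1 : ℝ) / 400) := by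
      rw [hadd, ← Real.rpow_natCast]
      norm_num
    have h3 : R ^ ((51 : ℝ) / 20000) = R ^ ((1 : ℝ) / 20000) * R ^ ((1 : ℝ) / 400) := by
      rw [hadd]
      norm_num
    rw [hsmax, h2, h3]
    have h4 := mul_le_mul_of_nonneg_right h1 (hpos ((1 : ℝ) / 400)).le
    have h5 := mul_le_mul_of_nonneg_left h4 (by positivity : 0 ≤ 6 * K ^ 2)
    refine h5.trans (le_of_eq ?_)
    ring
  have hrat : ∀ k : ℤ, ∃ q : ℚ, |sl k - q| ≤ 1 / ((Q + 1) * q.den) ∧ q.den ≤ Q := fun k =>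
    Real.exists_rat_abs_sub_le_and_den_le (sl k) (by omega)
  choose r hr hrQ using hrat
  obtain ⟨kf, hkf⟩ : ∃ kf : ℤ × ℤ → ℤ, ∀ P, kf P = P.1 / Y := ⟨_, fun P => rfl⟩
  have hkf1 : ∀ P, 0 ≤ (P.1 : ℝ) - ((kf P * Y : ℤ) : ℝ) := by
    intro P
    have h1 : kf P * Y ≤ P.1 := by rw [hkf]; exact Int.ediv_mul_le _ hY0.ne'
    have h2 : ((kf P * Y : ℤ) : ℝ) ≤ P.1 := by exact_mod_cast h1
    linarith
  have hkf2 : ∀ P, (P.1 : ℝ) - ((kf P * Y : ℤ) : ℝ) ≤ Y := by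
    intro P
    have h1 : P.1 < (kf P + 1) * Y := by rw [hkf]; exact Int.lt_ediv_add_one_mul_self _ hY0
    have h2 : (P.1 : ℝ) ≤ (((kf P + 1) * Y : ℤ) : ℝ) := by exact_mod_cast h1.le
    push_cast at h2 ⊢
    linarith
  have hkfd : ∀ P P' : ℤ × ℤ, kf P = kf P' → |(P.1 : ℝ) - P'.1| ≤ Y := by
    intro P P' h
    have a1 := hkf1 P
    have a2 := hkf2 P
    have b1 := hkf1 P'
    have b2 := hkf2 P'
    rw [← h] at b1 b2
    rw [abs_le]
    constructor <;> linarith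
  have hkY : ∀ P ∈ 𝓑, |((kf P * Y : ℤ) : ℝ)| ≤ K * (R * T ^ 2) + Y := by
    intro P hP
    obtain ⟨p, q, h1, -⟩ := hG P hP
    have h2 := abs_le.1 h1.hd
    have a1 := hkf1 P
    have a2 := hkf2 P
    rw [abs_le]
    constructor <;> linarith
  have hYK : (Y : ℝ) ≤ K * (R * T ^ 2) := by
    refine hYRT.trans ?_
    have : 0 ≤ R * T ^ 2 := by positivity
    nlinarith
  have hslb : ∀ P ∈ 𝓑, |sl (kf P)| ≤ smax := by
    intro P hP
    rw [hsl]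
    refine slope_le hK hR1 hT0 ha hb hc ?_ hΔ0 hsmaxΔ
    have := hkY P hP
    linarith
  -- the strip
  have hes : ∀ P ∈ 𝓑, |(P.2 : ℝ) - (a * (P.1 : ℝ) ^ 2 - 2 * b * c * P.1 + (c : ℝ) ^ 3) / Δ| ≤
      w := by
    intro P hP
    have h1 := hstrip P hP
    have h2 : Δ * (P.2 : ℝ) - (a * (P.1 : ℝ) ^ 2 - 2 * b * c * P.1 + (c : ℝ) ^ 3) =
        Δ * ((P.2 : ℝ) - (a * (P.1 : ℝ) ^ 2 - 2 * b * c * P.1 + (c : ℝ) ^ 3) / Δ) := by
      field_simp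
    rw [h2, abs_mul, mul_comm] at h1
    exact le_of_mul_le_mul_right h1 hΔ0
  -- splitting
  obtain ⟨𝓑g, h𝓑g⟩ : ∃ 𝓑g : Finset (ℤ × ℤ), 𝓑g = 𝓑.filter fun P => N₀ ≤ (r (kf P)).den := ⟨_, rfl⟩
  obtain ⟨𝓑b, h𝓑b⟩ : ∃ 𝓑b : Finset (ℤ × ℤ), 𝓑b = 𝓑.filter fun P => ¬ N₀ ≤ (r (kf P)).den :=
    ⟨_, rfl⟩
  have hsplit : (𝓑.card : ℝ) = 𝓑g.card + 𝓑b.card := by
    have h1 := Finset.card_filter_add_card_filter_not (s := 𝓑)
      (fun P : ℤ × ℤ => N₀ ≤ (r (kf P)).den)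
    rw [h𝓑g, h𝓑b]
    exact_mod_cast h1.symm
  -- good blocks
  have hgood : (𝓑g.card : ℝ) ≤ 6 * K * C₂ * (w + 1) * R ^ ((991 : ℝ) / 1000) := by
    obtain ⟨B, hB⟩ : ∃ B : ℝ, B = C₂ * (w + 1) * (N₀ * Q) * R ^ (-(1 : ℝ) / 100) := ⟨_, rfl⟩
    have hB0 : 0 ≤ B := by
      rw [hB]
      have := hpos (-(1 : ℝ) / 100)
      positivity
    have hfib : ∀ k : ℤ, ((𝓑g.filter fun P => kf P = k).card : ℝ) ≤ B := by
      intro k
      rcases (𝓑g.filter fun P => kf P = k).eq_empty_or_nonempty with he | ⟨P₀, hP₀⟩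
      · rw [he, Finset.card_empty, Nat.cast_zero]
        exact hB0
      rw [h𝓑g, Finset.mem_filter, Finset.mem_filter] at hP₀
      obtain ⟨⟨hP₀1, hP₀2⟩, hP₀3⟩ := hP₀
      rw [hP₀3] at hP₀2
      obtain ⟨N, hN⟩ : ∃ N : ℤ, N = (r k).den := ⟨_, rfl⟩
      obtain ⟨M, hM⟩ : ∃ M : ℤ, M = (r k).num := ⟨_, rfl⟩
      have hNr : (N : ℝ) = ((r k).den : ℝ) := by rw [hN]; push_cast; rfl
      have hN1 : (1 : ℝ) ≤ N := by
        rw [hNr]
        exact_mod_cast (r k).pos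
      have hN0 : 0 < N := by
        have : (0 : ℝ) < N := by linarith
        exact_mod_cast this
      have hNr0 : (0 : ℝ) < N := by linarith
      have hNQ : (N : ℝ) ≤ Q := by rw [hNr]; exact_mod_cast hrQ k
      have hN₀N : (N₀ : ℝ) ≤ N := by rw [hNr]; exact_mod_cast hP₀2
      have hcop : IsCoprime N M := by
        have h1 := (r k).reduced
        rw [hN, hM, Int.isCoprime_iff_gcd_eq_one, Int.gcd_comm]
        exact h1
      have hq : ((r k : ℚ) : ℝ) * N = M := by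
        have h1 := Rat.mul_den_eq_num (r k)
        rw [hNr, hM]
        exact_mod_cast h1
      have hNs : |(N : ℝ) * sl k - M| ≤ 1 / (Q + 1) := by
        have h1 : (N : ℝ) * sl k - M = N * (sl k - r k) := by
          rw [← hq]; ring
        have h2 := hr k
        rw [← hNr] at h2
        rw [h1, abs_mul, abs_of_pos hNr0]
        calc (N : ℝ) * |sl k - r k| ≤ N * (1 / ((Q + 1) * N)) := by gcongr
          _ = 1 / (Q + 1) := by field_simp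
      have hslk : |sl k| ≤ smax := by
        have := hslb P₀ hP₀1
        rwa [hP₀3] at this
      have hMb : |(M : ℝ)| ≤ R ^ ((1 : ℝ) / 8 + 1 / 200) := by
        have h1 : |(M : ℝ)| ≤ N * smax + 1 := by
          have e1 : (M : ℝ) = N * sl k - (N * sl k - M) := by ring
          rw [e1]
          calc |(N : ℝ) * sl k - (N * sl k - M)| ≤ |(N : ℝ) * sl k| + |(N : ℝ) * sl k - M| :=
                abs_sub _ _
            _ ≤ N * smax + 1 := by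
              rw [abs_mul, abs_of_pos hNr0]
              have h3 : 1 / ((Q : ℝ) + 1) ≤ 1 := by
                rw [div_le_one (by positivity)]
                linarith
              have h4 : (N : ℝ) * |sl k| ≤ N * smax := by gcongr
              linarith
        have h51 : 1 ≤ R ^ ((51 : ℝ) / 20000) := Real.one_le_rpow hR1 (by norm_num)
        calc |(M : ℝ)| ≤ N * smax + 1 := h1
          _ ≤ N * (7 * K ^ 2 * R ^ ((51 : ℝ) / 20000)) := by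
            rw [hsmax]
            have h5 : 1 ≤ N * (K ^ 2 * R ^ ((51 : ℝ) / 20000)) :=
              one_le_mul_of_one_le_of_one_le hN1
                (one_le_mul_of_one_le_of_one_le (by nlinarith) h51)
            linarith
          _ ≤ R ^ ((1 : ℝ) / 8) * (R ^ ((49 : ℝ) / 20000) * R ^ ((51 : ℝ) / 20000)) := by
            have h6 : (N : ℝ) ≤ R ^ ((1 : ℝ) / 8) := hNQ.trans hQu
            gcongr
          _ = R ^ ((1 : ℝ) / 8 + 1 / 200) := by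
            rw [hadd, hadd]
            norm_num
      have hYN : |(N : ℝ) * sl k - M| * Y ≤ N := by
        calc |(N : ℝ) * sl k - M| * Y ≤ 1 / (Q + 1) * (N₀ * Q) := by
              rw [hYr]
              gcongr
          _ ≤ N₀ := by
            rw [div_mul_eq_mul_div, div_le_iff₀ (by positivity)]
            nlinarith
          _ ≤ N := hN₀N
      have haY : |(a : ℝ)| * (Y : ℝ) ^ 2 ≤ |Δ| := by
        have h1 : |(a : ℝ)| * (Y : ℝ) ^ 2 * T ^ 4 ≤ |Δ| * T ^ 4 := by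
          calc |(a : ℝ)| * (Y : ℝ) ^ 2 * T ^ 4 = (|(a : ℝ)| * T ^ 4) * (Y : ℝ) ^ 2 := by ring
            _ ≤ (K * R) * (R ^ ((5 : ℝ) / 32)) ^ 2 := by gcongr
            _ = K * (R * R ^ ((5 : ℝ) / 16)) := by
              rw [hpw]
              norm_num
              ring
            _ ≤ R ^ ((1 : ℝ) / 10) * (R * R ^ ((5 : ℝ) / 16)) := by
              have := hpos ((5 : ℝ) / 16)
              gcongr
            _ = R ^ ((1 : ℝ) / 10 + (1 + 5 / 16)) := by rw [hRadd, hadd]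
            _ ≤ R ^ ((799 : ℝ) / 400) := hmono _ _ (by norm_num)
            _ ≤ |Δ| * T ^ 4 := hΔl
        exact le_of_mul_le_mul_right h1 hT4
      rw [hB]
      refine hgb R T V w (N * ((a * (((k * Y : ℤ) : ℝ)) ^ 2 - 2 * b * c * ((k * Y : ℤ) : ℝ) +
        (c : ℝ) ^ 3) / Δ) - M * ((k * Y : ℤ) : ℝ)) a b c N M Q N₀ _ hRR₁ hTl hTu hV hlog hw0 hw hsq
        hN0 hcop hQu hN₀l hN₀N hNQ hMb ?_ ?_ ?_
      · intro P hP
        rw [h𝓑g, Finset.mem_filter, Finset.mem_filter] at hP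
        exact hG P hP.1.1
      · intro P hP P' hP'
        rw [Finset.mem_filter] at hP hP'
        rw [← hYr]
        exact hkfd P P' (hP.2.trans hP'.2.symm)
      · intro P hP
        rw [h𝓑g, Finset.mem_filter, Finset.mem_filter] at hP
        have a1 := hkf1 P
        have a2 := hkf2 P
        rw [hP.2] at a1 a2
        exact near_line hΔne (hes P hP.1.1) (hsl k) hNr0 a1 a2 hYN haY
    obtain ⟨X, hX⟩ : ∃ X : ℝ, X = K * (R * T ^ 2) / Y + 1 := ⟨_, rfl⟩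
    have hY0r : (0 : ℝ) < Y := by linarith
    have hX1 : 1 ≤ X := by
      rw [hX]
      have : 0 ≤ K * (R * T ^ 2) / Y := by positivity
      linarith
    have himg : ((𝓑g.image kf).card : ℝ) ≤ 3 * X := by
      apply card_int_le _ _ hX1
      intro k hk
      rw [Finset.mem_image] at hk
      obtain ⟨P, hP, rfl⟩ := hk
      rw [h𝓑g, Finset.mem_filter] at hP
      have h1 := hkY P hP.1
      push_cast at h1
      rw [abs_mul, abs_of_pos hY0r] at h1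
      have h2 : X * Y = K * (R * T ^ 2) + Y := by
        rw [hX]
        field_simp
      rw [← h2] at h1
      exact le_of_mul_le_mul_right h1 hY0r
    have h1 : 𝓑g.card ≤ ⌊B⌋₊ * (𝓑g.image kf).card := by
      apply Finset.card_le_mul_card_image
      intro k _
      exact Nat.le_floor (hfib k)
    have hXY : X * (N₀ * Q) ≤ 2 * K * (R * T ^ 2) := by
      rw [← hYr]
      have h2 : X * Y = K * (R * T ^ 2) + Y := by
        rw [hX]
        field_simp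
      rw [h2]
      linarith
    calc (𝓑g.card : ℝ) ≤ ((⌊B⌋₊ * (𝓑g.image kf).card : ℕ) : ℝ) := by exact_mod_cast h1
      _ = (⌊B⌋₊ : ℝ) * ((𝓑g.image kf).card : ℝ) := by push_cast; rfl
      _ ≤ B * (3 * X) := by
        have := Nat.floor_le hB0
        gcongr
      _ = 3 * C₂ * (w + 1) * R ^ (-(1 : ℝ) / 100) * (X * (N₀ * Q)) := by rw [hB]; ring
      _ ≤ 3 * C₂ * (w + 1) * R ^ (-(1 : ℝ) / 100) * (2 * K * (R * T ^ 2)) := by
        have := hpos (-(1 : ℝ) / 100)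
        gcongr
      _ ≤ 3 * C₂ * (w + 1) * R ^ (-(1 : ℝ) / 100) * (2 * K * (R * R ^ ((1 : ℝ) / 20000))) := by
        have := hpos (-(1 : ℝ) / 100)
        gcongr
      _ = 6 * K * C₂ * (w + 1) * (R ^ (-(1 : ℝ) / 100) * (R * R ^ ((1 : ℝ) / 20000))) := by ring
      _ = 6 * K * C₂ * (w + 1) * R ^ (-(1 : ℝ) / 100 + (1 + 1 / 20000)) := by rw [hRadd, hadd]
      _ ≤ 6 * K * C₂ * (w + 1) * R ^ ((991 : ℝ) / 1000) := by
        have := hmono (-(1 : ℝ) / 100 + (1 + 1 / 20000)) ((991 : ℝ) / 1000) (by norm_num)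
        gcongr
  -- bad blocks
  have hbad : (𝓑b.card : ℝ) ≤ 420 * K ^ 4 * (w + 1) * R ^ ((991 : ℝ) / 1000) := by
    have hY0r : (0 : ℝ) < Y := by linarith
    obtain ⟨θ, hθ⟩ : ∃ θ : ℝ, θ = 2 * a * Y / Δ := ⟨_, rfl⟩
    have hθabs : |θ| = 2 * |(a : ℝ)| * Y / |Δ| := by
      rw [hθ, abs_div, abs_mul, abs_mul, abs_of_pos hY0r, abs_of_pos (by norm_num : (0 : ℝ) < 2)]
    have hθ0 : θ ≠ 0 := by
      rw [← abs_pos, hθabs]
      positivity
    have hbc := bad_card (𝓑b.image kf) sl r θ smax Q N₀ (by omega) hN₀1 hθ0 hsmax0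
      (by
        intro k k'
        rw [hsl, hsl, hθ]
        push_cast
        field_simp
        ring)
      (fun k _ => hr k)
      (by
        intro k hk
        rw [Finset.mem_image] at hk
        obtain ⟨P, hP, rfl⟩ := hk
        rw [h𝓑b, Finset.mem_filter] at hP
        exact not_le.1 hP.2)
      (by
        intro k hk
        rw [Finset.mem_image] at hk
        obtain ⟨P, hP, rfl⟩ := hk
        rw [h𝓑b, Finset.mem_filter] at hP
        exact hslb P hP.1)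
    obtain ⟨B, hB⟩ : ∃ B : ℝ, B = (2 * w + 1) * (Y + 1) := ⟨_, rfl⟩
    have hB0 : 0 ≤ B := by rw [hB]; positivity
    have hfib : ∀ k : ℤ, ((𝓑b.filter fun P => kf P = k).card : ℝ) ≤ B := by
      intro k
      rw [hB]
      apply triv_block _ (fun d => (a * (d : ℝ) ^ 2 - 2 * b * c * d + (c : ℝ) ^ 3) / Δ) w Y hw0
        hY0r.le
      · intro P hP
        rw [h𝓑b, Finset.mem_filter, Finset.mem_filter] at hP
        exact hes P hP.1.1
      · intro P hP P' hP'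
        rw [Finset.mem_filter] at hP hP'
        exact hkfd P P' (hP.2.trans hP'.2.symm)
    have h1 : 𝓑b.card ≤ ⌊B⌋₊ * (𝓑b.image kf).card := by
      apply Finset.card_le_mul_card_image
      intro k _
      exact Nat.le_floor (hfib k)
    have hBu : B ≤ 4 * (w + 1) * Y := by
      rw [hB]
      calc (2 * w + 1) * ((Y : ℝ) + 1) ≤ (2 * (w + 1)) * (2 * Y) := by gcongr <;> linarith
        _ = _ := by ring
    -- the number of bad blocks, times the length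
    have hΔu : |Δ| * T ^ 4 ≤ 2 * K ^ 2 * R ^ 2 := by
      have e1 : |Δ| ≤ |(a : ℝ)| * |(c : ℝ)| + |(b : ℝ)| ^ 2 := by
        rw [hΔ]
        push_cast
        calc |(a : ℝ) * c - (b : ℝ) ^ 2| ≤ |(a : ℝ) * c| + |(b : ℝ) ^ 2| := abs_sub _ _
          _ = _ := by rw [abs_mul, abs_pow]
      calc |Δ| * T ^ 4 ≤ (|(a : ℝ)| * |(c : ℝ)| + |(b : ℝ)| ^ 2) * T ^ 4 := by gcongr
        _ = (|(a : ℝ)| * T ^ 4) * |(c : ℝ)| + (|(b : ℝ)| * T ^ 2) ^ 2 := by ring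
        _ ≤ (K * R) * (K * R) + (K * R) ^ 2 := by gcongr
        _ = _ := by ring
    have hratio : |Δ| ≤ 2 * K ^ 2 * R ^ ((1001 : ℝ) / 1000) * |(a : ℝ)| := by
      have e1 : R ^ 2 = R ^ ((1001 : ℝ) / 1000) * R ^ ((999 : ℝ) / 1000) := by
        rw [hadd, ← Real.rpow_natCast]
        norm_num
      have e2 : |Δ| * T ^ 4 ≤ (2 * K ^ 2 * R ^ ((1001 : ℝ) / 1000) * |(a : ℝ)|) * T ^ 4 := by
        refine hΔu.trans ?_
        rw [e1]
        have e3 := mul_le_mul_of_nonneg_left hal (by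
          have := hpos ((1001 : ℝ) / 1000)
          positivity : 0 ≤ 2 * K ^ 2 * R ^ ((1001 : ℝ) / 1000))
        linarith
      exact le_of_mul_le_mul_right e2 hT4
    have hQ0 : (0 : ℝ) < Q := by linarith
    have hQinv : 1 / (Q : ℝ) ≤ 2 * R ^ (-(1 : ℝ) / 8) := by
      rw [div_le_iff₀ hQ0]
      have e1 : R ^ (-(1 : ℝ) / 8) * R ^ ((1 : ℝ) / 8) = 1 := by rw [hadd]; norm_num
      have e2 := mul_le_mul_of_nonneg_left hQl (hpos (-(1 : ℝ) / 8)).le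
      linarith
    have hlen : (2 / (|θ| * Q) + 1) * Y ≤ 5 * K ^ 2 * R ^ ((876 : ℝ) / 1000) := by
      have e1 : 2 / (|θ| * Q) * Y = |Δ| / |(a : ℝ)| * (1 / Q) := by
        rw [hθabs]
        field_simp
      have e2 : |Δ| / |(a : ℝ)| ≤ 2 * K ^ 2 * R ^ ((1001 : ℝ) / 1000) := by
        rw [div_le_iff₀ ha0]
        exact hratio
      have e3 : |Δ| / |(a : ℝ)| * (1 / Q) ≤ 4 * K ^ 2 * R ^ ((876 : ℝ) / 1000) := by
        calc |Δ| / |(a : ℝ)| * (1 / Q) ≤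
              (2 * K ^ 2 * R ^ ((1001 : ℝ) / 1000)) * (2 * R ^ (-(1 : ℝ) / 8)) := by
              gcongr
          _ = 4 * K ^ 2 * (R ^ ((1001 : ℝ) / 1000) * R ^ (-(1 : ℝ) / 8)) := by ring
          _ = 4 * K ^ 2 * R ^ ((876 : ℝ) / 1000) := by
            rw [hadd]
            norm_num
      have e4 : (Y : ℝ) ≤ K ^ 2 * R ^ ((876 : ℝ) / 1000) := by
        calc (Y : ℝ) ≤ 1 * R ^ ((5 : ℝ) / 32) := by rw [one_mul]; exact hYu
          _ ≤ K ^ 2 * R ^ ((876 : ℝ) / 1000) := by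
            have e5 : (1 : ℝ) ≤ K ^ 2 := one_le_pow₀ hK
            have e6 := hmono ((5 : ℝ) / 32) ((876 : ℝ) / 1000) (by norm_num)
            have e7 := hpos ((5 : ℝ) / 32)
            exact mul_le_mul e5 e6 e7.le (by positivity)
      calc (2 / (|θ| * Q) + 1) * Y = 2 / (|θ| * Q) * Y + Y := by ring
        _ ≤ 4 * K ^ 2 * R ^ ((876 : ℝ) / 1000) + K ^ 2 * R ^ ((876 : ℝ) / 1000) := by
          rw [e1]
          exact add_le_add e3 e4
        _ = _ := by ring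
    have hnum : (N₀ : ℝ) * (3 * (N₀ * (smax + 1))) ≤ 21 * K ^ 2 * R ^ ((66 : ℝ) / 1000) := by
      have h51 : 1 ≤ R ^ ((51 : ℝ) / 20000) := Real.one_le_rpow hR1 (by norm_num)
      have e1 : smax + 1 ≤ 7 * K ^ 2 * R ^ ((51 : ℝ) / 20000) := by
        rw [hsmax]
        have h5 : 1 ≤ K ^ 2 * R ^ ((51 : ℝ) / 20000) :=
          one_le_mul_of_one_le_of_one_le (one_le_pow₀ hK) h51
        linarith
      calc (N₀ : ℝ) * (3 * (N₀ * (smax + 1))) ≤ R ^ ((1 : ℝ) / 32) * (3 * (R ^ ((1 : ℝ) / 32) *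
            (7 * K ^ 2 * R ^ ((51 : ℝ) / 20000)))) := by gcongr
        _ = 21 * K ^ 2 * (R ^ ((1 : ℝ) / 32) * (R ^ ((1 : ℝ) / 32) * R ^ ((51 : ℝ) / 20000))) := by
          ring
        _ = 21 * K ^ 2 * R ^ ((1 : ℝ) / 32 + (1 / 32 + 51 / 20000)) := by rw [hadd, hadd]
        _ ≤ _ := by
          have := hmono ((1 : ℝ) / 32 + (1 / 32 + 51 / 20000)) ((66 : ℝ) / 1000) (by norm_num)
          gcongr
    have hθQ : 0 ≤ 2 / (|θ| * Q) + 1 := by positivity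
    calc (𝓑b.card : ℝ) ≤ ((⌊B⌋₊ * (𝓑b.image kf).card : ℕ) : ℝ) := by exact_mod_cast h1
      _ = (⌊B⌋₊ : ℝ) * ((𝓑b.image kf).card : ℝ) := by push_cast; rfl
      _ ≤ B * ((2 / (|θ| * Q) + 1) * (N₀ * (3 * (N₀ * (smax + 1))))) := by
        have := Nat.floor_le hB0
        gcongr
      _ ≤ (4 * (w + 1) * Y) * ((2 / (|θ| * Q) + 1) * (N₀ * (3 * (N₀ * (smax + 1))))) := by
        gcongr
      _ = 4 * (w + 1) * (((2 / (|θ| * Q) + 1) * Y) * (N₀ * (3 * (N₀ * (smax + 1))))) := by ring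
      _ ≤ 4 * (w + 1) * ((5 * K ^ 2 * R ^ ((876 : ℝ) / 1000)) *
          (21 * K ^ 2 * R ^ ((66 : ℝ) / 1000))) := by
        have := hpos ((876 : ℝ) / 1000)
        gcongr
      _ = 420 * K ^ 4 * (w + 1) * (R ^ ((876 : ℝ) / 1000) * R ^ ((66 : ℝ) / 1000)) := by ring
      _ = 420 * K ^ 4 * (w + 1) * R ^ ((876 : ℝ) / 1000 + 66 / 1000) := by rw [hadd]
      _ ≤ _ := by
        have := hmono ((876 : ℝ) / 1000 + 66 / 1000) ((991 : ℝ) / 1000) (by norm_num)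
        gcongr
  rw [hsplit]
  calc (𝓑g.card : ℝ) + 𝓑b.card ≤ 6 * K * C₂ * (w + 1) * R ^ ((991 : ℝ) / 1000) +
        420 * K ^ 4 * (w + 1) * R ^ ((991 : ℝ) / 1000) := add_le_add hgood hbad
    _ = _ := by ring

end Pool.Agent.J4H76.HB
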