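import Mathlib
import Pool.Agent.J4H76.HB.L12
import Pool.Agent.R418.HL.C1

/-! Counting forms: sums of inverses; the number of last coefficients. -/

set_option autoImplicit false

namespace Pool.Agent.J4H76.HB

open Pool.Agent.R418.HL (bx bx_card)
open Pool.Agent.W654.HZ.CLT (card_Icc_le mem_Icc_of)

lemma fib2 (x : ℝ) (F : Finset ℤ) (m : ℕ) (h : ∀ c ∈ F, ⌊|(c : ℝ) - x|⌋₊ = m) : F.card ≤ 2 := by
  classical
  have h1 : F.card ≤ 1 * (F.image fun c : ℤ => decide (x ≤ (c : ℝ))).card := by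
    apply Finset.card_le_mul_card_image
    intro b _
    rw [Finset.card_le_one]
    intro c hc c' hc'
    rw [Finset.mem_filter] at hc hc'
    have e1 := h c hc.1
    have e2 := h c' hc'.1
    have hb : decide (x ≤ (c : ℝ)) = decide (x ≤ (c' : ℝ)) := hc.2.trans hc'.2.symm
    have f1 : (m : ℝ) ≤ |(c : ℝ) - x| := by
      rw [← e1]; exact Nat.floor_le (abs_nonneg _)
    have f2 : |(c : ℝ) - x| < m + 1 := by
      rw [← e1]; exact Nat.lt_floor_add_one _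
    have f3 : (m : ℝ) ≤ |(c' : ℝ) - x| := by
      rw [← e2]; exact Nat.floor_le (abs_nonneg _)
    have f4 : |(c' : ℝ) - x| < m + 1 := by
      rw [← e2]; exact Nat.lt_floor_add_one _
    have hlt : |(c : ℝ) - c'| < 1 := by
      by_cases hx : x ≤ (c : ℝ)
      · have hx' : x ≤ (c' : ℝ) := by
          rw [decide_eq_true hx] at hb
          exact of_decide_eq_true hb.symm
        rw [abs_of_nonneg (by linarith)] at f1 f2
        rw [abs_of_nonneg (by linarith)] at f3 f4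
        rw [abs_lt]
        constructor <;> linarith
      · have hx' : ¬ x ≤ (c' : ℝ) := by
          rw [decide_eq_false hx] at hb
          exact of_decide_eq_false hb.symm
        push Not at hx hx'
        rw [abs_of_neg (by linarith)] at f1 f2
        rw [abs_of_neg (by linarith)] at f3 f4
        rw [abs_lt]
        constructor <;> linarith
    have h3 : |c - c'| < 1 := by exact_mod_cast hlt
    have h4 := Int.abs_lt_one_iff.1 h3
    omega
  have h2 : (F.image fun c : ℤ => decide (x ≤ (c : ℝ))).card ≤ 2 := by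
    refine (Finset.card_le_univ _).trans ?_
    simp
  omega

lemma sum_inv_near (x : ℝ) (F : Finset ℤ) (M : ℕ)
    (hF : ∀ c ∈ F, 1 ≤ |(c : ℝ) - x| ∧ |(c : ℝ) - x| ≤ M) :
    ∑ c ∈ F, 1 / |(c : ℝ) - x| ≤ 2 * (1 + Real.log M) := by
  classical
  have h1 : ∀ c ∈ F, 1 / |(c : ℝ) - x| ≤ 1 / (⌊|(c : ℝ) - x|⌋₊ : ℝ) := by
    intro c hc
    obtain ⟨a1, a2⟩ := hF c hc
    have h2 : (1 : ℝ) ≤ (⌊|(c : ℝ) - x|⌋₊ : ℝ) := by
      have : 1 ≤ ⌊|(c : ℝ) - x|⌋₊ := Nat.le_floor (by simpa using a1)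
      exact_mod_cast this
    exact one_div_le_one_div_of_le (by linarith) (Nat.floor_le (abs_nonneg _))
  have hmap : ∀ c ∈ F, ⌊|(c : ℝ) - x|⌋₊ - 1 ∈ Finset.range M := by
    intro c hc
    obtain ⟨a1, a2⟩ := hF c hc
    have h2 : 1 ≤ ⌊|(c : ℝ) - x|⌋₊ := Nat.le_floor (by simpa using a1)
    have h3 : ⌊|(c : ℝ) - x|⌋₊ ≤ M := Nat.floor_le_of_le a2
    rw [Finset.mem_range]
    omega
  calc ∑ c ∈ F, 1 / |(c : ℝ) - x| ≤ ∑ c ∈ F, 1 / (⌊|(c : ℝ) - x|⌋₊ : ℝ) :=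
        Finset.sum_le_sum h1
    _ = ∑ i ∈ Finset.range M, ∑ c ∈ F.filter (fun c : ℤ => ⌊|(c : ℝ) - x|⌋₊ - 1 = i),
          1 / (⌊|(c : ℝ) - x|⌋₊ : ℝ) := (Finset.sum_fiberwise_of_maps_to hmap _).symm
    _ ≤ ∑ i ∈ Finset.range M, 2 * ((i : ℝ) + 1)⁻¹ := by
        apply Finset.sum_le_sum
        intro i _
        have h2 : ∀ c ∈ F.filter (fun c : ℤ => ⌊|(c : ℝ) - x|⌋₊ - 1 = i),
            1 / (⌊|(c : ℝ) - x|⌋₊ : ℝ) = ((i : ℝ) + 1)⁻¹ := by
          intro c hc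
          rw [Finset.mem_filter] at hc
          obtain ⟨a1, a2⟩ := hF c hc.1
          have h2 : 1 ≤ ⌊|(c : ℝ) - x|⌋₊ := Nat.le_floor (by simpa using a1)
          have h3 : ⌊|(c : ℝ) - x|⌋₊ = i + 1 := by omega
          rw [h3, one_div]
          push_cast
          rfl
        rw [Finset.sum_congr rfl h2, Finset.sum_const, nsmul_eq_mul]
        have h3 : (F.filter (fun c : ℤ => ⌊|(c : ℝ) - x|⌋₊ - 1 = i)).card ≤ 2 := by
          apply fib2 x _ (i + 1)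
          intro c hc
          rw [Finset.mem_filter] at hc
          obtain ⟨a1, a2⟩ := hF c hc.1
          have h2 : 1 ≤ ⌊|(c : ℝ) - x|⌋₊ := Nat.le_floor (by simpa using a1)
          omega
        have h4 : ((F.filter (fun c : ℤ => ⌊|(c : ℝ) - x|⌋₊ - 1 = i)).card : ℝ) ≤ 2 := by
          exact_mod_cast h3
        exact mul_le_mul_of_nonneg_right h4 (by positivity)
    _ = 2 * ((harmonic M : ℚ) : ℝ) := by
        rw [← Finset.mul_sum, harmonic]
        push_cast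
        rfl
    _ ≤ 2 * (1 + Real.log M) := by
        have := harmonic_le_one_add_log M
        linarith

lemma sum_inv_bx (A : ℝ) (hA : 1 ≤ A) :
    ∑ a ∈ (bx A).erase 0, 1 / |(a : ℝ)| ≤ 2 * (1 + Real.log A) := by
  have h1 := sum_inv_near 0 ((bx A).erase 0) ⌊A⌋₊ (by
    intro c hc
    rw [Finset.mem_erase] at hc
    have h2 : (1 : ℝ) ≤ |(c : ℝ)| := by
      have : (1 : ℤ) ≤ |c| := Int.one_le_abs hc.1
      exact_mod_cast this
    rw [sub_zero]
    refine ⟨h2, ?_⟩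
    have h3 := hc.2
    unfold bx at h3
    rw [Finset.mem_Icc] at h3
    have h4 : |c| ≤ ⌊A⌋ := abs_le.2 h3
    have h5 : ((⌊A⌋₊ : ℕ) : ℤ) = ⌊A⌋ := Int.natCast_floor_eq_floor (by linarith)
    have h6 : |(c : ℝ)| ≤ ((⌊A⌋ : ℤ) : ℝ) := by exact_mod_cast h4
    rw [← h5] at h6
    exact_mod_cast h6)
  simp only [sub_zero] at h1
  refine h1.trans ?_
  have h2 : (1 : ℝ) ≤ (⌊A⌋₊ : ℝ) := by
    have : 1 ≤ ⌊A⌋₊ := Nat.le_floor (by simpa using hA)
    exact_mod_cast this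
  have h3 : Real.log (⌊A⌋₊ : ℝ) ≤ Real.log A :=
    Real.log_le_log (by linarith) (Nat.floor_le (by linarith))
  linarith

/-- bound for the number of last coefficients, given `a`, `b`, `c` -/
noncomputable def Eb (K R T Z : ℝ) (a b c : ℤ) : ℝ :=
  if |(c : ℝ) - (b : ℝ) ^ 2 / a| < 1 then 2 * (K * (R * T ^ 4)) + 1 else
    8 * Z / |(a : ℝ)| * (1 / |(c : ℝ) - (b : ℝ) ^ 2 / a|) + 1

lemma Eb_nonneg {K R T Z : ℝ} (hK : 0 ≤ K) (hR : 0 ≤ R) (hZ : 0 ≤ Z) (a b c : ℤ) :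
    0 ≤ Eb K R T Z a b c := by
  unfold Eb
  split_ifs
  · positivity
  · positivity

lemma e_count {K R T Z : ℝ} (hK : 0 ≤ K) (hR : 0 ≤ R) (hZ : 0 ≤ Z) {a b c : ℤ} (ha : a ≠ 0)
    (F : Finset ℤ) (s : ℝ) (h1 : ∀ e ∈ F, |(e : ℝ)| ≤ K * (R * T ^ 4))
    (h2 : ∀ e ∈ F, |((a * c - b ^ 2 : ℤ) : ℝ) * e - s| ≤ 4 * Z) :
    (F.card : ℝ) ≤ Eb K R T Z a b c := by
  have har : (a : ℝ) ≠ 0 := by exact_mod_cast ha
  have ha0 : 0 < |(a : ℝ)| := abs_pos.2 har
  unfold Eb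
  split_ifs with hc
  · apply card_diff _ _ (by positivity)
    intro e he e' he'
    have a1 := abs_le.1 (h1 e he)
    have a2 := abs_le.1 (h1 e' he')
    rw [abs_le]
    constructor <;> linarith
  · push Not at hc
    have hc0 : 0 < |(c : ℝ) - (b : ℝ) ^ 2 / a| := by linarith
    have hΔ : |((a * c - b ^ 2 : ℤ) : ℝ)| = |(a : ℝ)| * |(c : ℝ) - (b : ℝ) ^ 2 / a| := by
      rw [← abs_mul]
      congr 1
      push_cast
      field_simp
    have hΔ0 : 0 < |((a * c - b ^ 2 : ℤ) : ℝ)| := by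
      rw [hΔ]
      positivity
    apply card_diff _ _ (by positivity)
    intro e he e' he'
    have a1 := abs_le.1 (h2 e he)
    have a2 := abs_le.1 (h2 e' he')
    have h3 : |((a * c - b ^ 2 : ℤ) : ℝ)| * |(e : ℝ) - e'| ≤ 8 * Z := by
      rw [← abs_mul, abs_le]
      constructor <;> linarith
    rw [hΔ] at h3
    have h4 : 8 * Z / |(a : ℝ)| * (1 / |(c : ℝ) - (b : ℝ) ^ 2 / a|) =
        8 * Z / (|(a : ℝ)| * |(c : ℝ) - (b : ℝ) ^ 2 / a|) := by
      field_simp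
    rw [h4, le_div_iff₀ (by positivity)]
    linarith

lemma sum_Eb {K R T Z M : ℝ} (hK : 0 ≤ K) (hR : 0 ≤ R) (hZ : 0 ≤ Z) {a b : ℤ} (ha : a ≠ 0)
    (hKR : 0 ≤ K * R) (hM : 1 ≤ M) (hMb : K * R + (b : ℝ) ^ 2 + 1 ≤ M) :
    ∑ c ∈ bx (K * R), Eb K R T Z a b c ≤
      4 * (K * (R * T ^ 4)) + 2 * (K * R) + 3 + 16 * Z / |(a : ℝ)| * (1 + Real.log M) := by
  classical
  have har : (a : ℝ) ≠ 0 := by exact_mod_cast ha
  have ha0 : 0 < |(a : ℝ)| := abs_pos.2 har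
  have ha1 : (1 : ℝ) ≤ |(a : ℝ)| := by
    have : (1 : ℤ) ≤ |a| := Int.one_le_abs ha
    exact_mod_cast this
  rw [← Finset.sum_filter_add_sum_filter_not (bx (K * R))
    (fun c : ℤ => |(c : ℝ) - (b : ℝ) ^ 2 / a| < 1)]
  have h1 : ∑ c ∈ (bx (K * R)).filter (fun c : ℤ => |(c : ℝ) - (b : ℝ) ^ 2 / a| < 1),
      Eb K R T Z a b c ≤
      2 * (2 * (K * (R * T ^ 4)) + 1) := by
    have h2 : ∀ c ∈ (bx (K * R)).filter (fun c : ℤ => |(c : ℝ) - (b : ℝ) ^ 2 / a| < 1),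
        Eb K R T Z a b c = 2 * (K * (R * T ^ 4)) + 1 := by
      intro c hc
      rw [Finset.mem_filter] at hc
      unfold Eb
      rw [if_pos hc.2]
    rw [Finset.sum_congr rfl h2, Finset.sum_const, nsmul_eq_mul]
    have h3 : ((bx (K * R)).filter (fun c : ℤ => |(c : ℝ) - (b : ℝ) ^ 2 / a| < 1)).card ≤ 2 := by
      apply fib2 ((b : ℝ) ^ 2 / a) _ 0
      intro c hc
      rw [Finset.mem_filter] at hc
      exact Nat.floor_eq_zero.2 hc.2
    have h4 : (((bx (K * R)).filter (fun c : ℤ => |(c : ℝ) - (b : ℝ) ^ 2 / a| < 1)).card : ℝ) ≤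
        2 := by exact_mod_cast h3
    exact mul_le_mul_of_nonneg_right h4 (by positivity)
  have h2 : ∑ c ∈ (bx (K * R)).filter (fun c : ℤ => ¬ |(c : ℝ) - (b : ℝ) ^ 2 / a| < 1),
      Eb K R T Z a b c ≤
      16 * Z / |(a : ℝ)| * (1 + Real.log M) + (2 * (K * R) + 1) := by
    have h2 : ∀ c ∈ (bx (K * R)).filter (fun c : ℤ => ¬ |(c : ℝ) - (b : ℝ) ^ 2 / a| < 1),
        Eb K R T Z a b c = 8 * Z / |(a : ℝ)| * (1 / |(c : ℝ) - (b : ℝ) ^ 2 / a|) + 1 := by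
      intro c hc
      rw [Finset.mem_filter] at hc
      unfold Eb
      rw [if_neg hc.2]
    rw [Finset.sum_congr rfl h2, Finset.sum_add_distrib, ← Finset.mul_sum, Finset.sum_const,
      nsmul_eq_mul, mul_one]
    have h3 : (((bx (K * R)).filter (fun c : ℤ => ¬ |(c : ℝ) - (b : ℝ) ^ 2 / a| < 1)).card : ℝ) ≤
        2 * (K * R) + 1 := by
      refine le_trans ?_ (card_Icc_le (K * R) hKR)
      exact_mod_cast Finset.card_le_card (Finset.filter_subset _ _)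
    have h4 := sum_inv_near ((b : ℝ) ^ 2 / a)
      ((bx (K * R)).filter (fun c : ℤ => ¬ |(c : ℝ) - (b : ℝ) ^ 2 / a| < 1)) ⌊M⌋₊ (by
      intro c hc
      rw [Finset.mem_filter] at hc
      refine ⟨not_lt.1 hc.2, ?_⟩
      have g1 : |(c : ℝ)| ≤ K * R := by
        have g2 := hc.1
        unfold bx at g2
        rw [Finset.mem_Icc] at g2
        have g3 : |c| ≤ ⌊K * R⌋ := abs_le.2 g2
        have g4 : |(c : ℝ)| ≤ ((⌊K * R⌋ : ℤ) : ℝ) := by exact_mod_cast g3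
        exact g4.trans (Int.floor_le _)
      have g2 : |(b : ℝ) ^ 2 / a| ≤ (b : ℝ) ^ 2 := by
        rw [abs_div, abs_of_nonneg (sq_nonneg (b : ℝ))]
        exact div_le_self (sq_nonneg _) ha1
      have g3 : |(c : ℝ) - (b : ℝ) ^ 2 / a| ≤ M - 1 := by
        refine (abs_sub _ _).trans ?_
        linarith
      have g4 := Nat.lt_floor_add_one M
      linarith)
    have h5 : (1 : ℝ) ≤ (⌊M⌋₊ : ℝ) := by
      have : 1 ≤ ⌊M⌋₊ := Nat.le_floor (by simpa using hM)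
      exact_mod_cast this
    have h6 : Real.log (⌊M⌋₊ : ℝ) ≤ Real.log M :=
      Real.log_le_log (by linarith) (Nat.floor_le (by linarith))
    have h7 : 0 ≤ 8 * Z / |(a : ℝ)| := by positivity
    have h8 : 8 * Z / |(a : ℝ)| * ∑ c ∈ (bx (K * R)).filter
        (fun c : ℤ => ¬ |(c : ℝ) - (b : ℝ) ^ 2 / a| < 1), 1 / |(c : ℝ) - (b : ℝ) ^ 2 / a| ≤
        8 * Z / |(a : ℝ)| * (2 * (1 + Real.log M)) :=
      mul_le_mul_of_nonneg_left (h4.trans (by linarith)) h7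
    have h9 : 8 * Z / |(a : ℝ)| * (2 * (1 + Real.log M)) =
        16 * Z / |(a : ℝ)| * (1 + Real.log M) := by ring
    linarith
  linarith

end Pool.Agent.J4H76.HB
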