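import Mathlib
import Pool.Agent.J4H76.HB.N1

/-! Counting forms: the general count. -/

set_option autoImplicit false

namespace Pool.Agent.J4H76.HB

open Pool.Agent.R418.HL (bx bx_card)
open Pool.Agent.W654.HZ.CLT (card_Icc_le mem_Icc_of)

/-- the quadratic polynomial of `d` -/
def qd (a b c d : ℤ) : ℤ := a * d ^ 2 - 2 * b * c * d + c ^ 3

theorem cntJ {K R T Z A₀ B₀ D₀ M : ℝ} (hK : 0 ≤ K) (hR : 0 ≤ R) (hZ : 0 ≤ Z)
    (Ω : Finset (ℤ × ℤ × ℤ × ℤ × ℤ)) (hA₀ : 1 ≤ A₀) (hB₀ : 0 ≤ B₀) (hD₀ : 0 ≤ D₀)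
    (hM : K * R + B₀ ^ 2 + 1 ≤ M)
    (h1 : ∀ x ∈ Ω, x.1 ≠ 0 ∧ |(x.1 : ℝ)| ≤ A₀ ∧ |(x.2.1 : ℝ)| ≤ B₀ ∧ |(x.2.2.1 : ℝ)| ≤ K * R ∧
      |(x.2.2.2.2 : ℝ)| ≤ K * (R * T ^ 4) ∧
      |((x.1 * x.2.2.1 - x.2.1 ^ 2 : ℤ) : ℝ) * x.2.2.2.2 -
        ((qd x.1 x.2.1 x.2.2.1 x.2.2.2.1 : ℤ) : ℝ)| ≤ 4 * Z)
    (hD : ∀ a b c : ℤ, (((Ω.filter fun x => x.1 = a ∧ x.2.1 = b ∧ x.2.2.1 = c).image
      fun x => x.2.2.2.1).card : ℝ) ≤ D₀) :
    (Ω.card : ℝ) ≤ D₀ * ((2 * B₀ + 1) * ((2 * A₀ + 1) * (4 * (K * (R * T ^ 4)) + 2 * (K * R) + 3) +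
      32 * Z * (1 + Real.log M) * (1 + Real.log A₀))) := by
  classical
  have hKR : 0 ≤ K * R := by positivity
  have hM1 : 1 ≤ M := by nlinarith [sq_nonneg B₀]
  have hlogM : 0 ≤ Real.log M := Real.log_nonneg hM1
  obtain ⟨t, ht⟩ : ∃ t : Finset (ℤ × ℤ × ℤ), t = (bx A₀).erase 0 ×ˢ bx B₀ ×ˢ bx (K * R) :=
    ⟨_, rfl⟩
  have hmap : Set.MapsTo (fun x : ℤ × ℤ × ℤ × ℤ × ℤ => (x.1, x.2.1, x.2.2.1)) Ω t := by
    intro x hx
    obtain ⟨a1, a2, a3, a4, -, -⟩ := h1 x hx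
    rw [ht, Finset.mem_coe, Finset.mem_product, Finset.mem_product, Finset.mem_erase]
    exact ⟨⟨a1, mem_Icc_of _ _ a2⟩, mem_Icc_of _ _ a3, mem_Icc_of _ _ a4⟩
  have hcard := Finset.card_eq_sum_card_fiberwise hmap
  have hfib : ∀ y ∈ t, ((Ω.filter fun x => (x.1, x.2.1, x.2.2.1) = y).card : ℝ) ≤
      D₀ * Eb K R T Z y.1 y.2.1 y.2.2 := by
    rintro ⟨a, b, c⟩ hy
    rw [ht, Finset.mem_product, Finset.mem_erase] at hy
    have ha : a ≠ 0 := hy.1.1
    have hE0 := Eb_nonneg (T := T) hK hR hZ a b c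
    obtain ⟨F, hF⟩ : ∃ F, F = Ω.filter fun x => (x.1, x.2.1, x.2.2.1) = (a, b, c) := ⟨_, rfl⟩
    rw [← hF]
    have hmem : ∀ x ∈ F, x ∈ Ω ∧ x.1 = a ∧ x.2.1 = b ∧ x.2.2.1 = c := by
      intro x hx
      rw [hF, Finset.mem_filter] at hx
      have h2 := Prod.mk.inj hx.2
      have h3 := Prod.mk.inj h2.2
      exact ⟨hx.1, h2.1, h3.1, h3.2⟩
    have h2 : F.card ≤ ⌊Eb K R T Z a b c⌋₊ * (F.image fun x => x.2.2.2.1).card := by
      apply Finset.card_le_mul_card_image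
      intro d _
      apply Nat.le_floor
      have h3 : (F.filter fun x => x.2.2.2.1 = d).card =
          ((F.filter fun x => x.2.2.2.1 = d).image fun x => x.2.2.2.2).card := by
        refine (Finset.card_image_of_injOn ?_).symm
        rintro ⟨x1, x2, x3, x4, x5⟩ hx ⟨y1, y2, y3, y4, y5⟩ hy h
        rw [Finset.mem_coe, Finset.mem_filter] at hx hy
        obtain ⟨-, p1, p2, p3⟩ := hmem _ hx.1
        obtain ⟨-, q1, q2, q3⟩ := hmem _ hy.1
        have p4 := hx.2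
        have q4 := hy.2
        dsimp only at p1 p2 p3 p4 q1 q2 q3 q4 h
        rw [p1, p2, p3, p4, q1, q2, q3, q4, h]
      rw [h3]
      apply e_count hK hR hZ ha _ ((qd a b c d : ℤ) : ℝ)
      · intro e he
        rw [Finset.mem_image] at he
        obtain ⟨x, hx, rfl⟩ := he
        rw [Finset.mem_filter] at hx
        exact (h1 x (hmem x hx.1).1).2.2.2.2.1
      · intro e he
        rw [Finset.mem_image] at he
        obtain ⟨x, hx, rfl⟩ := he
        rw [Finset.mem_filter] at hx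
        obtain ⟨p0, p1, p2, p3⟩ := hmem x hx.1
        have h4 := (h1 x p0).2.2.2.2.2
        rw [p1, p2, p3, hx.2] at h4
        exact h4
    have h3 : ((F.image fun x => x.2.2.2.1).card : ℝ) ≤ D₀ := by
      have h4 := hD a b c
      refine le_trans ?_ h4
      have h5 : F ⊆ Ω.filter fun x => x.1 = a ∧ x.2.1 = b ∧ x.2.2.1 = c := by
        intro x hx
        obtain ⟨p0, p1, p2, p3⟩ := hmem x hx
        rw [Finset.mem_filter]
        exact ⟨p0, p1, p2, p3⟩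
      exact_mod_cast Finset.card_le_card (Finset.image_subset_image h5)
    calc (F.card : ℝ) ≤ ((⌊Eb K R T Z a b c⌋₊ * (F.image fun x => x.2.2.2.1).card : ℕ) : ℝ) := by
          exact_mod_cast h2
      _ = (⌊Eb K R T Z a b c⌋₊ : ℝ) * ((F.image fun x => x.2.2.2.1).card : ℝ) := by
          push_cast; rfl
      _ ≤ Eb K R T Z a b c * D₀ :=
          mul_le_mul (Nat.floor_le hE0) h3 (Nat.cast_nonneg _) hE0
      _ = D₀ * Eb K R T Z a b c := mul_comm _ _
  have hB1 : ((bx B₀).card : ℝ) ≤ 2 * B₀ + 1 := card_Icc_le B₀ hB₀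
  have hA1 : (((bx A₀).erase 0).card : ℝ) ≤ 2 * A₀ + 1 := by
    refine le_trans ?_ (card_Icc_le A₀ (by linarith))
    exact_mod_cast Finset.card_le_card (Finset.erase_subset _ _)
  have hinv := sum_inv_bx A₀ hA₀
  obtain ⟨G, hG⟩ : ∃ G : ℝ, G = 4 * (K * (R * T ^ 4)) + 2 * (K * R) + 3 := ⟨_, rfl⟩
  have hG0 : 0 ≤ G := by rw [hG]; positivity
  have hsum : ∑ y ∈ t, D₀ * Eb K R T Z y.1 y.2.1 y.2.2 ≤
      D₀ * ((2 * B₀ + 1) * ((2 * A₀ + 1) * G + 32 * Z * (1 + Real.log M) * (1 + Real.log A₀))) := by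
    rw [← Finset.mul_sum]
    refine mul_le_mul_of_nonneg_left ?_ hD₀
    rw [ht, Finset.sum_product]
    calc ∑ a ∈ (bx A₀).erase 0, ∑ y ∈ bx B₀ ×ˢ bx (K * R), Eb K R T Z a y.1 y.2
        ≤ ∑ a ∈ (bx A₀).erase 0, (2 * B₀ + 1) *
          (G + 16 * Z * (1 + Real.log M) * (1 / |(a : ℝ)|)) := by
          apply Finset.sum_le_sum
          intro a ha
          have ha0 : a ≠ 0 := (Finset.mem_erase.1 ha).1
          have ha1 : 0 < |(a : ℝ)| := abs_pos.2 (by exact_mod_cast ha0)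
          rw [Finset.sum_product]
          calc ∑ b ∈ bx B₀, ∑ c ∈ bx (K * R), Eb K R T Z a b c ≤
                ∑ _b ∈ bx B₀, (G + 16 * Z * (1 + Real.log M) * (1 / |(a : ℝ)|)) := by
                apply Finset.sum_le_sum
                intro b hb
                have hb1 : (b : ℝ) ^ 2 ≤ B₀ ^ 2 := by
                  unfold bx at hb
                  rw [Finset.mem_Icc] at hb
                  have g3 : |b| ≤ ⌊B₀⌋ := abs_le.2 hb
                  have g4 : |(b : ℝ)| ≤ ((⌊B₀⌋ : ℤ) : ℝ) := by exact_mod_cast g3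
                  have g5 : |(b : ℝ)| ≤ B₀ := g4.trans (Int.floor_le _)
                  rw [← sq_abs]
                  gcongr
                have h2 := sum_Eb (T := T) hK hR hZ ha0 hKR hM1 (b := b) (by linarith)
                refine h2.trans (le_of_eq ?_)
                rw [hG]
                ring
            _ = ((bx B₀).card : ℝ) * (G + 16 * Z * (1 + Real.log M) * (1 / |(a : ℝ)|)) := by
                rw [Finset.sum_const, nsmul_eq_mul]
            _ ≤ _ := by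
                refine mul_le_mul_of_nonneg_right hB1 ?_
                have : 0 ≤ 1 + Real.log M := by linarith
                positivity
      _ = (2 * B₀ + 1) * ((((bx A₀).erase 0).card : ℝ) * G + 16 * Z * (1 + Real.log M) *
            ∑ a ∈ (bx A₀).erase 0, 1 / |(a : ℝ)|) := by
          rw [← Finset.mul_sum, Finset.sum_add_distrib, Finset.sum_const, nsmul_eq_mul,
            Finset.mul_sum]
      _ ≤ (2 * B₀ + 1) * ((2 * A₀ + 1) * G + 16 * Z * (1 + Real.log M) *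
            (2 * (1 + Real.log A₀))) := by
          have : 0 ≤ 16 * Z * (1 + Real.log M) := by
            have : 0 ≤ 1 + Real.log M := by linarith
            positivity
          gcongr
      _ = _ := by ring
  rw [hG] at hsum
  refine le_trans ?_ hsum
  rw [hcard]
  push_cast
  exact Finset.sum_le_sum hfib

end Pool.Agent.J4H76.HB
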