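import Mathlib
import Pool.Agent.J4H76.HB.N2
import Pool.Agent.J4H76.HB.L13

/-! Counting forms: small first coefficient; square first coefficient. -/

set_option autoImplicit false

namespace Pool.Agent.J4H76.HB

open Pool.Agent.R418.HL (bx bx_card)
open Pool.Agent.W654.HZ.CLT (card_Icc_le mem_Icc_of)

/-- the determinant of the first three coefficients -/
def dt (x : ℤ × ℤ × ℤ × ℤ × ℤ) : ℤ := x.1 * x.2.2.1 - x.2.1 ^ 2

/-- the box of forms -/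
noncomputable def B5 (K R T : ℝ) : Finset (ℤ × ℤ × ℤ × ℤ × ℤ) :=
  bx (K * R / T ^ 4) ×ˢ bx (K * R / T ^ 2) ×ˢ bx (K * R) ×ˢ
        bx (K * (R * T ^ 2)) ×ˢ bx (K * (R * T ^ 4))

/-- the second invariant is small -/
def JS (Z : ℝ) (x : ℤ × ℤ × ℤ × ℤ × ℤ) : Prop :=
  |((dt x : ℤ) : ℝ) * x.2.2.2.2 - ((qd x.1 x.2.1 x.2.2.1 x.2.2.2.1 : ℤ) : ℝ)| ≤ 4 * Z

/-- the number of last coefficients if the determinant is large -/
theorem cnt4 {Z δ : ℝ} (hZ : 0 ≤ Z) (hδ : 0 < δ) (Ω : Finset (ℤ × ℤ × ℤ × ℤ × ℤ))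
    (t : Finset (ℤ × ℤ × ℤ × ℤ)) (ht : ∀ x ∈ Ω, (x.1, x.2.1, x.2.2.1, x.2.2.2.1) ∈ t)
    (hJ : ∀ x ∈ Ω, JS Z x) (hdt : ∀ x ∈ Ω, δ ≤ |((dt x : ℤ) : ℝ)|) :
    (Ω.card : ℝ) ≤ (8 * Z / δ + 1) * t.card := by
  classical
  have hB0 : 0 ≤ 8 * Z / δ + 1 := by positivity
  have h1 : Ω.card ≤ ⌊8 * Z / δ + 1⌋₊ *
      (Ω.image fun x => (x.1, x.2.1, x.2.2.1, x.2.2.2.1)).card := by
    apply Finset.card_le_mul_card_image
    rintro ⟨a, b, c, d⟩ _
    apply Nat.le_floor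
    obtain ⟨F, hF⟩ : ∃ F, F = Ω.filter fun x => (x.1, x.2.1, x.2.2.1, x.2.2.2.1) = (a, b, c, d) :=
      ⟨_, rfl⟩
    rw [← hF]
    have hmem : ∀ x ∈ F, x ∈ Ω ∧ x.1 = a ∧ x.2.1 = b ∧ x.2.2.1 = c ∧ x.2.2.2.1 = d := by
      intro x hx
      rw [hF, Finset.mem_filter] at hx
      have h2 := Prod.mk.inj hx.2
      have h3 := Prod.mk.inj h2.2
      have h4 := Prod.mk.inj h3.2
      exact ⟨hx.1, h2.1, h3.1, h4.1, h4.2⟩
    have h3 : F.card = (F.image fun x => x.2.2.2.2).card := by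
      refine (Finset.card_image_of_injOn ?_).symm
      rintro ⟨x1, x2, x3, x4, x5⟩ hx ⟨y1, y2, y3, y4, y5⟩ hy h
      obtain ⟨-, p1, p2, p3, p4⟩ := hmem _ hx
      obtain ⟨-, q1, q2, q3, q4⟩ := hmem _ hy
      dsimp only at p1 p2 p3 p4 q1 q2 q3 q4 h
      rw [p1, p2, p3, p4, q1, q2, q3, q4, h]
    rw [h3]
    apply card_diff _ _ (by positivity)
    intro e he e' he'
    rw [Finset.mem_image] at he he'
    obtain ⟨x, hx, rfl⟩ := he
    obtain ⟨y, hy, rfl⟩ := he'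
    obtain ⟨p0, p1, p2, p3, p4⟩ := hmem _ hx
    obtain ⟨q0, q1, q2, q3, q4⟩ := hmem _ hy
    have a1 := hJ x p0
    have a2 := hJ y q0
    have a3 := hdt x p0
    have e1 : dt y = dt x := by
      unfold dt
      rw [p1, p2, p3, q1, q2, q3]
    have e2 : qd y.1 y.2.1 y.2.2.1 y.2.2.2.1 = qd x.1 x.2.1 x.2.2.1 x.2.2.2.1 := by
      rw [p1, p2, p3, p4, q1, q2, q3, q4]
    unfold JS at a1 a2
    rw [e1, e2] at a2
    have b1 := abs_le.1 a1
    have b2 := abs_le.1 a2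
    rw [le_div_iff₀ hδ]
    have h5 : |((dt x : ℤ) : ℝ)| * |(x.2.2.2.2 : ℝ) - y.2.2.2.2| ≤ 8 * Z := by
      rw [← abs_mul, abs_le]
      constructor <;> linarith
    have h6 := mul_le_mul_of_nonneg_right a3 (abs_nonneg ((x.2.2.2.2 : ℝ) - y.2.2.2.2))
    linarith
  have h2 : (Ω.image fun x => (x.1, x.2.1, x.2.2.1, x.2.2.2.1)).card ≤ t.card := by
    apply Finset.card_le_card
    intro y hy
    rw [Finset.mem_image] at hy
    obtain ⟨x, hx, rfl⟩ := hy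
    exact ht x hx
  calc (Ω.card : ℝ) ≤ ((⌊8 * Z / δ + 1⌋₊ *
        (Ω.image fun x => (x.1, x.2.1, x.2.2.1, x.2.2.2.1)).card : ℕ) : ℝ) := by exact_mod_cast h1
    _ = (⌊8 * Z / δ + 1⌋₊ : ℝ) *
        ((Ω.image fun x => (x.1, x.2.1, x.2.2.1, x.2.2.2.1)).card : ℝ) := by push_cast; rfl
    _ ≤ (8 * Z / δ + 1) * t.card := by
      have g1 := Nat.floor_le hB0
      have g2 : ((Ω.image fun x => (x.1, x.2.1, x.2.2.1, x.2.2.2.1)).card : ℝ) ≤ t.card := by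
        exact_mod_cast h2
      gcongr

/-- powers of the shape -/
theorem Tf {R T : ℝ} (hR1 : 1 ≤ R) (hTl : R ^ (-(1 : ℝ) / 40000) ≤ T)
    (hTu : T ≤ R ^ ((1 : ℝ) / 40000)) : 0 < T ∧ R ^ (-(1 : ℝ) / 20000) ≤ T ^ 2 ∧
    T ^ 2 ≤ R ^ ((1 : ℝ) / 20000) ∧ R ^ (-(1 : ℝ) / 10000) ≤ T ^ 4 ∧
    T ^ 4 ≤ R ^ ((1 : ℝ) / 10000) := by
  have hR0 : 0 < R := by linarith
  have hpos : ∀ s : ℝ, 0 < R ^ s := fun s => Real.rpow_pos_of_pos hR0 s
  have hpw : ∀ (s : ℝ) (n : ℕ), (R ^ s) ^ n = R ^ (s * n) := fun s n => by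
    rw [← Real.rpow_natCast, ← Real.rpow_mul hR0.le]
  have hT0 : 0 < T := lt_of_lt_of_le (hpos _) hTl
  refine ⟨hT0, ?_, ?_, ?_, ?_⟩
  · have h1 := pow_le_pow_left₀ (hpos _).le hTl 2
    rw [hpw] at h1
    refine le_trans (le_of_eq ?_) h1
    norm_num
  · have h1 := pow_le_pow_left₀ hT0.le hTu 2
    rw [hpw] at h1
    refine h1.trans (le_of_eq ?_)
    norm_num
  · have h1 := pow_le_pow_left₀ (hpos _).le hTl 4
    rw [hpw] at h1
    refine le_trans (le_of_eq ?_) h1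
    norm_num
  · have h1 := pow_le_pow_left₀ hT0.le hTu 4
    rw [hpw] at h1
    refine h1.trans (le_of_eq ?_)
    norm_num

/-- small first coefficient, large second coefficient -/
theorem cI1 (K : ℝ) (hK : 1 ≤ K) : ∃ C R₀ : ℝ, 1 ≤ C ∧ 1 ≤ R₀ ∧
    ∀ (R T Z : ℝ) (Ω : Finset (ℤ × ℤ × ℤ × ℤ × ℤ)), R₀ ≤ R →
    R ^ (-(1 : ℝ) / 40000) ≤ T → T ≤ R ^ ((1 : ℝ) / 40000) → R ^ (2 : ℝ) ≤ Z →
    (∀ x ∈ Ω, x ∈ B5 K R T ∧ JS Z x ∧ |(x.1 : ℝ)| * T ^ 4 ≤ R ^ ((999 : ℝ) / 1000) ∧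
      R ^ ((9998 : ℝ) / 10000) ≤ |(x.2.1 : ℝ)| * T ^ 2) →
    (Ω.card : ℝ) ≤ C * Z * R ^ ((19999 : ℝ) / 10000) := by
  classical
  obtain ⟨r1, hr1⟩ := ev (2 * K) (6 / 10000) (by norm_num)
  refine ⟨2000 * K ^ 3, max r1 1, ?_, le_max_right _ _, ?_⟩
  · have : 1 ≤ K ^ 3 := one_le_pow₀ hK
    linarith
  intro R T Z Ω hRR hTl hTu hZ h
  have hR1 : (1 : ℝ) ≤ R := le_trans (le_max_right _ _) hRR
  have hR0 : (0 : ℝ) < R := by linarith
  have k1 := hr1 R (le_trans (le_max_left _ _) hRR)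
  obtain ⟨hT0, hT2l, hT2u, hT4l, hT4u⟩ := Tf hR1 hTl hTu
  have hK0 : 0 < K := by linarith
  have hmono : ∀ s t : ℝ, s ≤ t → R ^ s ≤ R ^ t := fun s t h =>
    Real.rpow_le_rpow_of_exponent_le hR1 h
  have hpos : ∀ s : ℝ, 0 < R ^ s := fun s => Real.rpow_pos_of_pos hR0 s
  have hadd : ∀ s t : ℝ, R ^ s * R ^ t = R ^ (s + t) := fun s t => (Real.rpow_add hR0 s t).symm
  have hRadd : ∀ s : ℝ, R * R ^ s = R ^ (1 + s) := fun s => by
    rw [Real.rpow_add hR0, Real.rpow_one]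
  have hZ0 : 0 < Z := lt_of_lt_of_le (hpos _) hZ
  have hT2 : 0 < T ^ 2 := by positivity
  have hT4 : 0 < T ^ 4 := by positivity
  obtain ⟨α, hα⟩ : ∃ α, α = R ^ ((999 : ℝ) / 1000) := ⟨_, rfl⟩
  obtain ⟨β, hβ⟩ : ∃ β, β = R ^ ((9998 : ℝ) / 10000) := ⟨_, rfl⟩
  have hα0 : 0 < α := by rw [hα]; exact hpos _
  have hβ0 : 0 < β := by rw [hβ]; exact hpos _
  have hβ2 : β ^ 2 = R ^ ((19996 : ℝ) / 10000) := by
    rw [hβ, pow_two, hadd]
    norm_num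
  obtain ⟨δ, hδ⟩ : ∃ δ, δ = β ^ 2 / (2 * T ^ 4) := ⟨_, rfl⟩
  have hδ0 : 0 < δ := by rw [hδ]; positivity
  obtain ⟨t, ht⟩ : ∃ t : Finset (ℤ × ℤ × ℤ × ℤ), t = bx (α / T ^ 4) ×ˢ bx (K * R / T ^ 2) ×ˢ
      bx (K * R) ×ˢ bx (K * (R * T ^ 2)) := ⟨_, rfl⟩
  have hc := cnt4 hZ0.le hδ0 Ω t
    (by
      intro x hx
      obtain ⟨h1, -, h3, -⟩ := h x hx
      unfold B5 at h1
      rw [Finset.mem_product, Finset.mem_product, Finset.mem_product, Finset.mem_product] at h1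
      rw [ht, Finset.mem_product, Finset.mem_product, Finset.mem_product]
      refine ⟨mem_Icc_of _ _ ?_, h1.2.1, h1.2.2.1, h1.2.2.2.1⟩
      rw [le_div_iff₀ hT4, hα]
      exact h3)
    (fun x hx => (h x hx).2.1)
    (by
      intro x hx
      obtain ⟨h1, -, h3, h4⟩ := h x hx
      unfold B5 at h1
      rw [Finset.mem_product, Finset.mem_product, Finset.mem_product] at h1
      have hcx : |(x.2.2.1 : ℝ)| ≤ K * R := by
        have g1 := h1.2.2.1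
        unfold bx at g1
        rw [Finset.mem_Icc] at g1
        have g3 : |x.2.2.1| ≤ ⌊K * R⌋ := abs_le.2 g1
        have g4 : |(x.2.2.1 : ℝ)| ≤ ((⌊K * R⌋ : ℤ) : ℝ) := by exact_mod_cast g3
        exact g4.trans (Int.floor_le _)
      rw [← hβ] at h4
      rw [← hα] at h3
      have g5 : |(x.1 : ℝ)| * |(x.2.2.1 : ℝ)| * T ^ 4 ≤ β ^ 2 / 2 := by
        calc |(x.1 : ℝ)| * |(x.2.2.1 : ℝ)| * T ^ 4 = (|(x.1 : ℝ)| * T ^ 4) * |(x.2.2.1 : ℝ)| := by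
              ring
          _ ≤ α * (K * R) := by gcongr
          _ = (2 * K) * (R * α) / 2 := by ring
          _ ≤ R ^ ((6 : ℝ) / 10000) * (R * α) / 2 := by gcongr
          _ = β ^ 2 / 2 := by
            rw [hβ2, hα, hRadd, hadd]
            norm_num
      have g6 : β ^ 2 ≤ |(x.2.1 : ℝ)| ^ 2 * T ^ 4 := by
        calc β ^ 2 ≤ (|(x.2.1 : ℝ)| * T ^ 2) ^ 2 := by gcongr
          _ = |(x.2.1 : ℝ)| ^ 2 * T ^ 4 := by ring
      have g7 : |(x.2.1 : ℝ)| ^ 2 - |(x.1 : ℝ)| * |(x.2.2.1 : ℝ)| ≤ |((dt x : ℤ) : ℝ)| := by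
        unfold dt
        push_cast
        have e1 := neg_abs_le ((x.1 : ℝ) * x.2.2.1 - (x.2.1 : ℝ) ^ 2)
        have e2 := le_abs_self ((x.1 : ℝ) * x.2.2.1)
        rw [abs_mul] at e2
        rw [sq_abs]
        linarith
      rw [hδ, div_le_iff₀ (by positivity)]
      have g8 := mul_le_mul_of_nonneg_right g7 hT4.le
      linarith)
  have htc : (t.card : ℝ) ≤ 81 * K ^ 3 * R ^ (3999 / 1000 + (1 : ℝ) / 10000) := by
    rw [ht, Finset.card_product, Finset.card_product, Finset.card_product]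
    have hRT2 : 1 ≤ K * (R * T ^ 2) := by
      calc (1 : ℝ) ≤ R ^ (1 + -(1 : ℝ) / 20000) := Real.one_le_rpow hR1 (by norm_num)
        _ = R * R ^ (-(1 : ℝ) / 20000) := (hRadd _).symm
        _ ≤ R * T ^ 2 := by gcongr
        _ ≤ K * (R * T ^ 2) := le_mul_of_one_le_left (by positivity) hK
    have hKR1 : 1 ≤ K * R := one_le_mul_of_one_le_of_one_le hK hR1
    have b1 : ((bx (α / T ^ 4)).card : ℝ) ≤ 3 * (α / T ^ 4) := by
      apply bx_card (by positivity)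
      have : 1 ≤ α / T ^ 4 := by
        rw [le_div_iff₀ hT4, one_mul, hα]
        exact hT4u.trans (hmono _ _ (by norm_num))
      linarith
    have b2 : ((bx (K * R / T ^ 2)).card : ℝ) ≤ 3 * (K * R / T ^ 2) := by
      apply bx_card (by positivity)
      have : 1 ≤ K * R / T ^ 2 := by
        rw [le_div_iff₀ hT2, one_mul]
        have := hmono ((1 : ℝ) / 20000) 1 (by norm_num)
        rw [Real.rpow_one] at this
        nlinarith
      linarith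
    have b3 : ((bx (K * R)).card : ℝ) ≤ 3 * (K * R) := by
      apply bx_card (by positivity)
      linarith
    have b4 : ((bx (K * (R * T ^ 2))).card : ℝ) ≤ 3 * (K * (R * T ^ 2)) := by
      apply bx_card (by positivity)
      linarith
    push_cast
    calc ((bx (α / T ^ 4)).card : ℝ) * (((bx (K * R / T ^ 2)).card : ℝ) *
          (((bx (K * R)).card : ℝ) * ((bx (K * (R * T ^ 2))).card : ℝ)))
        ≤ (3 * (α / T ^ 4)) * ((3 * (K * R / T ^ 2)) * ((3 * (K * R)) *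
          (3 * (K * (R * T ^ 2))))) := by gcongr
      _ = 81 * K ^ 3 * (R * (R * (R * α)) / T ^ 4) := by
          field_simp
          ring
      _ ≤ 81 * K ^ 3 * R ^ (3999 / 1000 + (1 : ℝ) / 10000) := by
          refine mul_le_mul_of_nonneg_left ?_ (by positivity)
          rw [div_le_iff₀ hT4, hα, hRadd, hRadd, hRadd]
          calc R ^ (1 + (1 + (1 + (999 : ℝ) / 1000))) =
                R ^ (3999 / 1000 + (1 : ℝ) / 10000) * R ^ (-(1 : ℝ) / 10000) := by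
                rw [hadd]
                norm_num
            _ ≤ _ := by
              have := hpos (3999 / 1000 + (1 : ℝ) / 10000)
              gcongr
  have hZδ : 8 * Z / δ + 1 ≤ 17 * Z * R ^ (-(19995 : ℝ) / 10000) := by
    have e1 : 8 * Z / δ = 16 * Z * (T ^ 4 / β ^ 2) := by
      rw [hδ]
      field_simp
      norm_num
    have e2 : T ^ 4 / β ^ 2 ≤ R ^ (-(19995 : ℝ) / 10000) := by
      rw [div_le_iff₀ (by positivity), hβ2, hadd]
      refine hT4u.trans (le_of_eq ?_)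
      norm_num
    have e3 : 1 ≤ Z * R ^ (-(19995 : ℝ) / 10000) := by
      calc (1 : ℝ) ≤ R ^ ((2 : ℝ) + -(19995 : ℝ) / 10000) := Real.one_le_rpow hR1 (by norm_num)
        _ = R ^ (2 : ℝ) * R ^ (-(19995 : ℝ) / 10000) := (hadd _ _).symm
        _ ≤ _ := by
          have := hpos (-(19995 : ℝ) / 10000)
          gcongr
    rw [e1]
    have e4 : 16 * Z * (T ^ 4 / β ^ 2) ≤ 16 * Z * R ^ (-(19995 : ℝ) / 10000) := by gcongr
    linarith
  calc (Ω.card : ℝ) ≤ (8 * Z / δ + 1) * t.card := hc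
    _ ≤ (17 * Z * R ^ (-(19995 : ℝ) / 10000)) *
        (81 * K ^ 3 * R ^ (3999 / 1000 + (1 : ℝ) / 10000)) := by
      have := hpos (-(19995 : ℝ) / 10000)
      gcongr
    _ = 1377 * K ^ 3 * Z * (R ^ (-(19995 : ℝ) / 10000) *
        R ^ (3999 / 1000 + (1 : ℝ) / 10000)) := by ring
    _ = 1377 * K ^ 3 * Z * R ^ (-(19995 : ℝ) / 10000 + (3999 / 1000 + (1 : ℝ) / 10000)) := by
      rw [hadd]
    _ ≤ 2000 * K ^ 3 * Z * R ^ ((19999 : ℝ) / 10000) := by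
      have h1 := hmono (-(19995 : ℝ) / 10000 + (3999 / 1000 + (1 : ℝ) / 10000))
        ((19999 : ℝ) / 10000) (by norm_num)
      have := hpos ((19999 : ℝ) / 10000)
      gcongr
      norm_num

end Pool.Agent.J4H76.HB
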