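import Mathlib
import Pool.Agent.J4H76.HB.N3

/-! Counting forms: small coefficients; small determinant; square first coefficient. -/

set_option autoImplicit false

namespace Pool.Agent.J4H76.HB

open Pool.Agent.R418.HL (bx bx_card)
open Pool.Agent.W654.HZ.CLT (card_Icc_le mem_Icc_of)

lemma bx_abs {A : ℝ} {c : ℤ} (h : c ∈ bx A) : |(c : ℝ)| ≤ A := by
  unfold bx at h
  rw [Finset.mem_Icc] at h
  have g3 : |c| ≤ ⌊A⌋ := abs_le.2 h
  have g4 : |(c : ℝ)| ≤ ((⌊A⌋ : ℤ) : ℝ) := by exact_mod_cast g3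
  exact g4.trans (Int.floor_le _)

lemma B5_mem {K R T : ℝ} (hT : 0 < T) {x : ℤ × ℤ × ℤ × ℤ × ℤ} (h : x ∈ B5 K R T) :
    |(x.1 : ℝ)| * T ^ 4 ≤ K * R ∧ |(x.2.1 : ℝ)| * T ^ 2 ≤ K * R ∧ |(x.2.2.1 : ℝ)| ≤ K * R ∧
      |(x.2.2.2.1 : ℝ)| ≤ K * (R * T ^ 2) ∧ |(x.2.2.2.2 : ℝ)| ≤ K * (R * T ^ 4) := by
  unfold B5 at h
  rw [Finset.mem_product, Finset.mem_product, Finset.mem_product, Finset.mem_product] at h
  refine ⟨?_, ?_, bx_abs h.2.2.1, bx_abs h.2.2.2.1, bx_abs h.2.2.2.2⟩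
  · have := bx_abs h.1
    rwa [le_div_iff₀ (by positivity)] at this
  · have := bx_abs h.2.1
    rwa [le_div_iff₀ (by positivity)] at this

lemma log_small (c : ℝ) (hc : 1 ≤ c) {R x : ℝ} (hR : 1 ≤ R) (hx : 1 ≤ x)
    (h : x ≤ c * R ^ (3 : ℝ)) :
    1 + Real.log x ≤ (c + 4000000) * R ^ ((1 : ℝ) / 1000000) := by
  have hR0 : 0 < R := by linarith
  have h1 : Real.log x ≤ Real.log (c * R ^ (3 : ℝ)) := Real.log_le_log (by linarith) h
  rw [Real.log_mul (by linarith) (Real.rpow_pos_of_pos hR0 _).ne', Real.log_rpow hR0] at h1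
  have h2 : Real.log c ≤ c - 1 := Real.log_le_sub_one_of_pos (by linarith)
  have h3 : Real.log R ≤ R ^ ((1 : ℝ) / 1000000) / (1 / 1000000) :=
    Real.log_le_rpow_div hR0.le (by norm_num)
  have h4 : (1 : ℝ) ≤ R ^ ((1 : ℝ) / 1000000) := Real.one_le_rpow hR (by norm_num)
  have h5 : R ^ ((1 : ℝ) / 1000000) / (1 / 1000000) = 1000000 * R ^ ((1 : ℝ) / 1000000) := by ring
  rw [h5] at h3
  nlinarith

/-- small first coefficient, small second coefficient -/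
theorem cI2 (K : ℝ) (hK : 1 ≤ K) : ∃ C : ℝ, 1 ≤ C ∧
    ∀ (R T Z : ℝ) (Ω : Finset (ℤ × ℤ × ℤ × ℤ × ℤ)), 1 ≤ R →
    R ^ (-(1 : ℝ) / 40000) ≤ T → T ≤ R ^ ((1 : ℝ) / 40000) → R ^ (2 : ℝ) ≤ Z →
    (∀ x ∈ Ω, x ∈ B5 K R T ∧ JS Z x ∧ x.1 ≠ 0 ∧ |(x.1 : ℝ)| * T ^ 4 ≤ R ^ ((999 : ℝ) / 1000) ∧
      |(x.2.1 : ℝ)| * T ^ 2 ≤ R ^ ((9998 : ℝ) / 10000)) →
    (Ω.card : ℝ) ≤ C * Z * R ^ ((19999 : ℝ) / 10000) := by
  classical
  obtain ⟨c, hc⟩ : ∃ c : ℝ, c = 3 * K + 4000000 := ⟨_, rfl⟩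
  have hc1 : 1 ≤ c := by linarith
  refine ⟨9 * K * (27 * K + 32 * c ^ 2), ?_, ?_⟩
  · have h1 : 1 ≤ c ^ 2 := one_le_pow₀ hc1
    nlinarith
  intro R T Z Ω hR1 hTl hTu hZ h
  have hR0 : (0 : ℝ) < R := by linarith
  obtain ⟨hT0, hT2l, hT2u, hT4l, hT4u⟩ := Tf hR1 hTl hTu
  have hK0 : 0 < K := by linarith
  have hmono : ∀ s t : ℝ, s ≤ t → R ^ s ≤ R ^ t := fun s t h =>
    Real.rpow_le_rpow_of_exponent_le hR1 h
  have hpos : ∀ s : ℝ, 0 < R ^ s := fun s => Real.rpow_pos_of_pos hR0 s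
  have hadd : ∀ s t : ℝ, R ^ s * R ^ t = R ^ (s + t) := fun s t => (Real.rpow_add hR0 s t).symm
  have hRadd : ∀ s : ℝ, R * R ^ s = R ^ (1 + s) := fun s => by
    rw [Real.rpow_add hR0, Real.rpow_one]
  have hZ0 : 0 < Z := lt_of_lt_of_le (hpos _) hZ
  have hT2 : 0 < T ^ 2 := by positivity
  have hT4 : 0 < T ^ 4 := by positivity
  obtain ⟨α, hα⟩ : ∃ α, α = R ^ ((999 : ℝ) / 1000) := ⟨_, rfl⟩
  obtain ⟨β, hβ⟩ : ∃ β, β = R ^ ((9998 : ℝ) / 10000) := ⟨_, rfl⟩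
  have hα0 : 0 < α := by rw [hα]; exact hpos _
  have hβ0 : 0 < β := by rw [hβ]; exact hpos _
  have hA1 : 1 ≤ α / T ^ 4 := by
    rw [le_div_iff₀ hT4, one_mul, hα]
    exact hT4u.trans (hmono _ _ (by norm_num))
  have hB1 : 1 ≤ β / T ^ 2 := by
    rw [le_div_iff₀ hT2, one_mul, hβ]
    exact hT2u.trans (hmono _ _ (by norm_num))
  have hRT2 : 1 ≤ K * (R * T ^ 2) := by
    calc (1 : ℝ) ≤ R ^ (1 + -(1 : ℝ) / 20000) := Real.one_le_rpow hR1 (by norm_num)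
      _ = R * R ^ (-(1 : ℝ) / 20000) := (hRadd _).symm
      _ ≤ R * T ^ 2 := by gcongr
      _ ≤ K * (R * T ^ 2) := le_mul_of_one_le_left (by positivity) hK
  have hKR1 : 1 ≤ K * R := one_le_mul_of_one_le_of_one_le hK hR1
  have hR3 : R ≤ R ^ (3 : ℝ) := by
    have := hmono 1 3 (by norm_num)
    rwa [Real.rpow_one] at this
  obtain ⟨M, hM⟩ : ∃ M : ℝ, M = K * R + (β / T ^ 2) ^ 2 + 1 := ⟨_, rfl⟩
  have hM1 : 1 ≤ M := by rw [hM]; nlinarith [sq_nonneg (β / T ^ 2)]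
  have hMu : M ≤ (3 * K) * R ^ (3 : ℝ) := by
    have e1 : (β / T ^ 2) ^ 2 ≤ R ^ (3 : ℝ) := by
      have e2 : (β / T ^ 2) ^ 2 = β ^ 2 / T ^ 4 := by
        rw [div_pow]
        ring
      rw [e2, div_le_iff₀ hT4, hβ, pow_two, hadd]
      calc R ^ ((9998 : ℝ) / 10000 + 9998 / 10000) ≤ R ^ ((3 : ℝ) + -(1 : ℝ) / 10000) :=
            hmono _ _ (by norm_num)
        _ = R ^ (3 : ℝ) * R ^ (-(1 : ℝ) / 10000) := (hadd _ _).symm
        _ ≤ _ := by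
          have := hpos 3
          gcongr
    have e3 : 1 ≤ R ^ (3 : ℝ) := Real.one_le_rpow hR1 (by norm_num)
    rw [hM]
    have e4 : K * R ≤ K * R ^ (3 : ℝ) := by gcongr
    nlinarith
  have hlM := log_small (3 * K) (by linarith) hR1 hM1 hMu
  have hlA : 1 + Real.log (α / T ^ 4) ≤ c * R ^ ((1 : ℝ) / 1000000) := by
    rw [hc]
    apply log_small (3 * K) (by linarith) hR1 hA1
    have e1 : α / T ^ 4 ≤ R ^ (3 : ℝ) := by
      rw [div_le_iff₀ hT4, hα]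
      calc R ^ ((999 : ℝ) / 1000) ≤ R ^ ((3 : ℝ) + -(1 : ℝ) / 10000) :=
            hmono _ _ (by norm_num)
        _ = R ^ (3 : ℝ) * R ^ (-(1 : ℝ) / 10000) := (hadd _ _).symm
        _ ≤ _ := by
          have := hpos 3
          gcongr
    have := hpos 3
    nlinarith
  rw [← hc] at hlM
  have hcount := cntJ (K := K) (R := R) (T := T) (Z := Z) (A₀ := α / T ^ 4) (B₀ := β / T ^ 2)
    (D₀ := 3 * (K * (R * T ^ 2))) (M := M) hK0.le hR0.le hZ0.le Ω hA1 (by linarith)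
    (by linarith) (le_of_eq hM.symm)
    (by
      intro x hx
      obtain ⟨h1, h2, h3, h4, h5⟩ := h x hx
      obtain ⟨g1, g2, g3, g4, g5⟩ := B5_mem hT0 h1
      refine ⟨h3, ?_, ?_, g3, g5, h2⟩
      · rw [le_div_iff₀ hT4, hα]
        exact h4
      · rw [le_div_iff₀ hT2, hβ]
        exact h5)
    (by
      intro a b c'
      have h1 : ((Ω.filter fun x => x.1 = a ∧ x.2.1 = b ∧ x.2.2.1 = c').image
          fun x => x.2.2.2.1) ⊆ bx (K * (R * T ^ 2)) := by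
        intro d hd
        rw [Finset.mem_image] at hd
        obtain ⟨x, hx, rfl⟩ := hd
        rw [Finset.mem_filter] at hx
        exact mem_Icc_of _ _ (B5_mem hT0 (h x hx.1).1).2.2.2.1
      have h2 : ((bx (K * (R * T ^ 2))).card : ℝ) ≤ 3 * (K * (R * T ^ 2)) := by
        apply bx_card (by positivity)
        linarith
      refine le_trans ?_ h2
      exact_mod_cast Finset.card_le_card h1)
  obtain ⟨lam, hlam⟩ : ∃ lam : ℝ, lam = c * R ^ ((1 : ℝ) / 1000000) := ⟨_, rfl⟩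
  rw [← hlam] at hlM hlA
  have hlam0 : 0 < lam := by
    rw [hlam]
    have := hpos ((1 : ℝ) / 1000000)
    positivity
  have hlM0 : 0 ≤ 1 + Real.log M := by
    have := Real.log_nonneg hM1
    linarith
  have hlA0 : 0 ≤ 1 + Real.log (α / T ^ 4) := by
    have := Real.log_nonneg hA1
    linarith
  have s1 : 3 * (K * (R * T ^ 2)) * (2 * (β / T ^ 2) + 1) ≤ 9 * K * (R * β) := by
    calc 3 * (K * (R * T ^ 2)) * (2 * (β / T ^ 2) + 1) ≤
          3 * (K * (R * T ^ 2)) * (3 * (β / T ^ 2)) := by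
          gcongr
          linarith
      _ = _ := by
        field_simp
        ring
  have s2 : (2 * (α / T ^ 4) + 1) * (4 * (K * (R * T ^ 4)) + 2 * (K * R) + 3) ≤
      27 * K * Z := by
    have e1 : 1 / T ^ 4 ≤ R ^ ((1 : ℝ) / 10000) := by
      rw [div_le_iff₀ hT4]
      calc (1 : ℝ) = R ^ ((1 : ℝ) / 10000) * R ^ (-(1 : ℝ) / 10000) := by
            rw [hadd]; norm_num
        _ ≤ _ := by
          have := hpos ((1 : ℝ) / 10000)
          gcongr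
    have e2 : 1 ≤ R ^ ((1 : ℝ) / 10000) := Real.one_le_rpow hR1 (by norm_num)
    calc (2 * (α / T ^ 4) + 1) * (4 * (K * (R * T ^ 4)) + 2 * (K * R) + 3)
        ≤ (3 * (α / T ^ 4)) * (4 * (K * (R * T ^ 4)) + 5 * (K * R)) := by
          refine mul_le_mul (by linarith) (by linarith) (by positivity) (by positivity)
      _ = 12 * K * (R * α) + 15 * K * (R * α) * (1 / T ^ 4) := by
          field_simp
          ring
      _ ≤ 12 * K * (R * α) * R ^ ((1 : ℝ) / 10000) +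
          15 * K * (R * α) * R ^ ((1 : ℝ) / 10000) := by
          refine add_le_add (le_mul_of_one_le_right (by positivity) e2)
            (mul_le_mul_of_nonneg_left e1 (by positivity))
      _ = 27 * K * (R ^ ((1 : ℝ) / 10000) * (R * α)) := by ring
      _ = 27 * K * R ^ ((1 : ℝ) / 10000 + (1 + 999 / 1000)) := by
          rw [hα, hRadd, hadd]
      _ ≤ 27 * K * R ^ (2 : ℝ) := by
          have := hmono ((1 : ℝ) / 10000 + (1 + 999 / 1000)) 2 (by norm_num)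
          gcongr
      _ ≤ 27 * K * Z := by gcongr
  have s3 : 32 * Z * (1 + Real.log M) * (1 + Real.log (α / T ^ 4)) ≤ 32 * Z * lam * lam := by
    gcongr
  have hlam2 : lam * lam = c ^ 2 * R ^ ((2 : ℝ) / 1000000) := by
    rw [hlam]
    have : R ^ ((1 : ℝ) / 1000000) * R ^ ((1 : ℝ) / 1000000) = R ^ ((2 : ℝ) / 1000000) := by
      rw [hadd]; norm_num
    calc _ = c ^ 2 * (R ^ ((1 : ℝ) / 1000000) * R ^ ((1 : ℝ) / 1000000)) := by ring
      _ = _ := by rw [this]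
  have hR2 : (1 : ℝ) ≤ R ^ ((2 : ℝ) / 1000000) := Real.one_le_rpow hR1 (by norm_num)
  calc (Ω.card : ℝ) ≤ _ := hcount
    _ = (3 * (K * (R * T ^ 2)) * (2 * (β / T ^ 2) + 1)) *
        ((2 * (α / T ^ 4) + 1) * (4 * (K * (R * T ^ 4)) + 2 * (K * R) + 3) +
        32 * Z * (1 + Real.log M) * (1 + Real.log (α / T ^ 4))) := by ring
    _ ≤ (9 * K * (R * β)) * (27 * K * Z + 32 * Z * lam * lam) := by gcongr
    _ = 9 * K * (R * β) * Z * (27 * K + 32 * (lam * lam)) := by ring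
    _ ≤ 9 * K * (R * β) * Z * (27 * K * R ^ ((2 : ℝ) / 1000000) +
        32 * (c ^ 2 * R ^ ((2 : ℝ) / 1000000))) := by
      rw [hlam2]
      have : 27 * K ≤ 27 * K * R ^ ((2 : ℝ) / 1000000) :=
        le_mul_of_one_le_right (by positivity) hR2
      gcongr
    _ = 9 * K * (27 * K + 32 * c ^ 2) * Z * (R ^ ((2 : ℝ) / 1000000) * (R * β)) := by ring
    _ = 9 * K * (27 * K + 32 * c ^ 2) * Z * R ^ ((2 : ℝ) / 1000000 + (1 + 9998 / 10000)) := by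
      rw [hβ, hRadd, hadd]
    _ ≤ _ := by
      have := hmono ((2 : ℝ) / 1000000 + (1 + 9998 / 10000)) ((19999 : ℝ) / 10000) (by norm_num)
      gcongr

/-- zero first coefficient, small second coefficient -/
theorem cI3 (K : ℝ) (hK : 1 ≤ K) : ∃ C : ℝ, 1 ≤ C ∧
    ∀ (R T Z : ℝ) (Ω : Finset (ℤ × ℤ × ℤ × ℤ × ℤ)), 1 ≤ R →
    R ^ (-(1 : ℝ) / 40000) ≤ T → T ≤ R ^ ((1 : ℝ) / 40000) → R ^ (2 : ℝ) ≤ Z →
    (∀ x ∈ Ω, x ∈ B5 K R T ∧ x.1 = 0 ∧ |(x.2.1 : ℝ)| * T ^ 2 ≤ R ^ ((9998 : ℝ) / 10000)) →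
    (Ω.card : ℝ) ≤ C * Z * R ^ ((19999 : ℝ) / 10000) := by
  classical
  refine ⟨81 * K ^ 3, ?_, ?_⟩
  · have : 1 ≤ K ^ 3 := one_le_pow₀ hK
    linarith
  intro R T Z Ω hR1 hTl hTu hZ h
  have hR0 : (0 : ℝ) < R := by linarith
  obtain ⟨hT0, hT2l, hT2u, hT4l, hT4u⟩ := Tf hR1 hTl hTu
  have hK0 : 0 < K := by linarith
  have hmono : ∀ s t : ℝ, s ≤ t → R ^ s ≤ R ^ t := fun s t h =>
    Real.rpow_le_rpow_of_exponent_le hR1 h
  have hpos : ∀ s : ℝ, 0 < R ^ s := fun s => Real.rpow_pos_of_pos hR0 s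
  have hadd : ∀ s t : ℝ, R ^ s * R ^ t = R ^ (s + t) := fun s t => (Real.rpow_add hR0 s t).symm
  have hRadd : ∀ s : ℝ, R * R ^ s = R ^ (1 + s) := fun s => by
    rw [Real.rpow_add hR0, Real.rpow_one]
  have hZ0 : 0 < Z := lt_of_lt_of_le (hpos _) hZ
  have hT2 : 0 < T ^ 2 := by positivity
  have hT4 : 0 < T ^ 4 := by positivity
  obtain ⟨β, hβ⟩ : ∃ β, β = R ^ ((9998 : ℝ) / 10000) := ⟨_, rfl⟩
  have hβ0 : 0 < β := by rw [hβ]; exact hpos _
  obtain ⟨t, ht⟩ : ∃ t : Finset (ℤ × ℤ × ℤ × ℤ), t = bx (β / T ^ 2) ×ˢ bx (K * R) ×ˢ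
      bx (K * (R * T ^ 2)) ×ˢ bx (K * (R * T ^ 4)) := ⟨_, rfl⟩
  have h1 : Ω.card ≤ t.card := by
    apply Finset.card_le_card_of_injOn (fun x => x.2)
    · intro x hx
      obtain ⟨h1, -, h3⟩ := h x hx
      obtain ⟨g1, g2, g3, g4, g5⟩ := B5_mem hT0 h1
      rw [Finset.mem_coe, ht, Finset.mem_product, Finset.mem_product, Finset.mem_product]
      refine ⟨mem_Icc_of _ _ ?_, mem_Icc_of _ _ g3, mem_Icc_of _ _ g4, mem_Icc_of _ _ g5⟩
      rw [le_div_iff₀ hT2, hβ]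
      exact h3
    · intro x hx y hy hxy
      exact Prod.ext ((h x hx).2.1.trans (h y hy).2.1.symm) hxy
  have hRT2 : 1 ≤ K * (R * T ^ 2) := by
    calc (1 : ℝ) ≤ R ^ (1 + -(1 : ℝ) / 20000) := Real.one_le_rpow hR1 (by norm_num)
      _ = R * R ^ (-(1 : ℝ) / 20000) := (hRadd _).symm
      _ ≤ R * T ^ 2 := by gcongr
      _ ≤ K * (R * T ^ 2) := le_mul_of_one_le_left (by positivity) hK
  have hRT4 : 1 ≤ K * (R * T ^ 4) := by
    calc (1 : ℝ) ≤ R ^ (1 + -(1 : ℝ) / 10000) := Real.one_le_rpow hR1 (by norm_num)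
      _ = R * R ^ (-(1 : ℝ) / 10000) := (hRadd _).symm
      _ ≤ R * T ^ 4 := by gcongr
      _ ≤ K * (R * T ^ 4) := le_mul_of_one_le_left (by positivity) hK
  have hKR1 : 1 ≤ K * R := one_le_mul_of_one_le_of_one_le hK hR1
  have b1 : ((bx (β / T ^ 2)).card : ℝ) ≤ 3 * (β / T ^ 2) := by
    apply bx_card (by positivity)
    have : 1 ≤ β / T ^ 2 := by
      rw [le_div_iff₀ hT2, one_mul, hβ]
      exact hT2u.trans (hmono _ _ (by norm_num))
    linarith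
  have b2 : ((bx (K * R)).card : ℝ) ≤ 3 * (K * R) := by
    apply bx_card (by positivity)
    linarith
  have b3 : ((bx (K * (R * T ^ 2))).card : ℝ) ≤ 3 * (K * (R * T ^ 2)) := by
    apply bx_card (by positivity)
    linarith
  have b4 : ((bx (K * (R * T ^ 4))).card : ℝ) ≤ 3 * (K * (R * T ^ 4)) := by
    apply bx_card (by positivity)
    linarith
  calc (Ω.card : ℝ) ≤ t.card := by exact_mod_cast h1
    _ = ((bx (β / T ^ 2)).card : ℝ) * (((bx (K * R)).card : ℝ) *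
          (((bx (K * (R * T ^ 2))).card : ℝ) * ((bx (K * (R * T ^ 4))).card : ℝ))) := by
        rw [ht, Finset.card_product, Finset.card_product, Finset.card_product]
        push_cast
        rfl
    _ ≤ (3 * (β / T ^ 2)) * ((3 * (K * R)) * ((3 * (K * (R * T ^ 2))) *
          (3 * (K * (R * T ^ 4))))) := by gcongr
    _ = 81 * K ^ 3 * (R * (R * (R * β)) * T ^ 4) := by
        field_simp
        ring
    _ ≤ 81 * K ^ 3 * (R * (R * (R * β)) * R ^ ((1 : ℝ) / 10000)) := by gcongr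
    _ = 81 * K ^ 3 * (R ^ ((2 : ℝ) + (19999 : ℝ) / 10000)) := by
        rw [hβ, hRadd, hRadd, hRadd, hadd]
        norm_num
    _ = 81 * K ^ 3 * (R ^ (2 : ℝ) * R ^ ((19999 : ℝ) / 10000)) := by rw [hadd]
    _ ≤ 81 * K ^ 3 * (Z * R ^ ((19999 : ℝ) / 10000)) := by
        have := hpos ((19999 : ℝ) / 10000)
        gcongr
    _ = _ := by ring

end Pool.Agent.J4H76.HB
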