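import Mathlib
import Pool.Agent.J4H76.HB.N4

/-! Counting forms: small determinant; square first coefficient. -/

set_option autoImplicit false

namespace Pool.Agent.J4H76.HB

open Pool.Agent.R418.HL (bx bx_card)
open Pool.Agent.W654.HZ.CLT (card_Icc_le mem_Icc_of)

lemma dt_id (a b c d e : ℤ) : (a * d - b * c) ^ 2 = (a * c - b ^ 2) * (a * e - c ^ 2) -
    a * ((a * c - b ^ 2) * e - qd a b c d) := by
  unfold qd
  ring

/-- small determinant: the range of the fourth coefficient -/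
lemma d_range {K R T Z : ℝ} (hK : 1 ≤ K) (hR1 : 1 ≤ R) (hT : 0 < T)
    (hZ : Z ≤ R ^ ((1199 : ℝ) / 400)) {x : ℤ × ℤ × ℤ × ℤ × ℤ} (hx : x ∈ B5 K R T)
    (hJ : JS Z x) (ha : R ^ ((999 : ℝ) / 1000) ≤ |(x.1 : ℝ)| * T ^ 4)
    (hdt : |((dt x : ℤ) : ℝ)| * T ^ 4 ≤ R ^ ((799 : ℝ) / 400)) :
    |(x.2.2.2.1 : ℝ) - (x.2.1 : ℝ) * x.2.2.1 / x.1| ≤ 3 * K * R ^ ((3999 : ℝ) / 4000) * T ^ 2 := by
  have hR0 : (0 : ℝ) < R := by linarith
  have hK0 : 0 < K := by linarith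
  have hpos : ∀ s : ℝ, 0 < R ^ s := fun s => Real.rpow_pos_of_pos hR0 s
  have hadd : ∀ s t : ℝ, R ^ s * R ^ t = R ^ (s + t) := fun s t => (Real.rpow_add hR0 s t).symm
  have hRadd : ∀ s : ℝ, R * R ^ s = R ^ (1 + s) := fun s => by
    rw [Real.rpow_add hR0, Real.rpow_one]
  have hT2 : 0 < T ^ 2 := by positivity
  have hT4 : 0 < T ^ 4 := by positivity
  obtain ⟨g1, g2, g3, g4, g5⟩ := B5_mem hT hx
  obtain ⟨a, b, c, d, e⟩ := x
  dsimp only at g1 g2 g3 g4 g5 ha ⊢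
  unfold dt at hdt
  unfold JS dt at hJ
  dsimp only at hdt hJ
  have ha0 : (a : ℝ) ≠ 0 := by
    intro h
    rw [h, abs_zero, zero_mul] at ha
    exact absurd ha (not_le.2 (hpos _))
  have haa : 0 < |(a : ℝ)| := abs_pos.2 ha0
  obtain ⟨Δ, hΔ⟩ : ∃ Δ : ℝ, Δ = ((a * c - b ^ 2 : ℤ) : ℝ) := ⟨_, rfl⟩
  obtain ⟨J, hJJ⟩ : ∃ J : ℝ, J = Δ * e - ((qd a b c d : ℤ) : ℝ) := ⟨_, rfl⟩
  rw [← hΔ] at hJ hdt
  rw [← hJJ] at hJ
  have hid : ((a : ℝ) * d - b * c) ^ 2 = Δ * (a * e - c ^ 2) - a * J := by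
    rw [hJJ, hΔ]
    exact_mod_cast dt_id a b c d e
  have h1 : |(a : ℝ) * e - c ^ 2| ≤ 2 * K ^ 2 * R ^ 2 := by
    have e1 : |(a : ℝ)| * |(e : ℝ)| ≤ K ^ 2 * R ^ 2 := by
      have e2 : (|(a : ℝ)| * T ^ 4) * |(e : ℝ)| ≤ (K * R) * (K * (R * T ^ 4)) :=
        mul_le_mul g1 g5 (abs_nonneg _) (by positivity)
      have e3 : (|(a : ℝ)| * |(e : ℝ)|) * T ^ 4 ≤ (K ^ 2 * R ^ 2) * T ^ 4 := by
        calc (|(a : ℝ)| * |(e : ℝ)|) * T ^ 4 = (|(a : ℝ)| * T ^ 4) * |(e : ℝ)| := by ring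
          _ ≤ _ := e2
          _ = _ := by ring
      exact le_of_mul_le_mul_right e3 hT4
    have e4 : |(c : ℝ)| ^ 2 ≤ (K * R) ^ 2 := pow_le_pow_left₀ (abs_nonneg _) g3 2
    calc |(a : ℝ) * e - c ^ 2| ≤ |(a : ℝ) * e| + |(c : ℝ) ^ 2| := abs_sub _ _
      _ = |(a : ℝ)| * |(e : ℝ)| + |(c : ℝ)| ^ 2 := by rw [abs_mul, abs_pow]
      _ ≤ K ^ 2 * R ^ 2 + (K * R) ^ 2 := add_le_add e1 e4
      _ = _ := by ring
  have hR2 : R ^ 2 = R ^ (2 : ℝ) := by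
    rw [← Real.rpow_natCast]
    norm_num
  have hX : R ^ ((799 : ℝ) / 400) * R ^ (2 : ℝ) = R ^ ((1599 : ℝ) / 400) := by
    rw [hadd]; norm_num
  have hX2 : R * R ^ ((1199 : ℝ) / 400) = R ^ ((1599 : ℝ) / 400) := by
    rw [hRadd]; norm_num
  obtain ⟨X, hXX⟩ : ∃ X : ℝ, X = R ^ ((1599 : ℝ) / 400) := ⟨_, rfl⟩
  have hX0 : 0 < X := by rw [hXX]; exact hpos _
  have h2 : |(a : ℝ) * d - b * c| ^ 2 * T ^ 4 ≤ 9 * K ^ 2 * X := by
    rw [sq_abs, hid]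
    have e1 : |Δ * (a * e - c ^ 2)| * T ^ 4 ≤ 2 * K ^ 2 * X := by
      rw [abs_mul]
      calc |Δ| * |(a : ℝ) * e - c ^ 2| * T ^ 4 = (|Δ| * T ^ 4) * |(a : ℝ) * e - c ^ 2| := by ring
        _ ≤ R ^ ((799 : ℝ) / 400) * (2 * K ^ 2 * R ^ 2) :=
          mul_le_mul hdt h1 (abs_nonneg _) (hpos _).le
        _ = 2 * K ^ 2 * (R ^ ((799 : ℝ) / 400) * R ^ (2 : ℝ)) := by rw [hR2]; ring
        _ = 2 * K ^ 2 * X := by rw [hX, hXX]
    have e2 : |(a : ℝ) * J| * T ^ 4 ≤ 4 * K * X := by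
      rw [abs_mul]
      calc |(a : ℝ)| * |J| * T ^ 4 = (|(a : ℝ)| * T ^ 4) * |J| := by ring
        _ ≤ (K * R) * (4 * R ^ ((1199 : ℝ) / 400)) := by
          refine mul_le_mul g1 (hJ.trans (by linarith)) (abs_nonneg _) (by positivity)
        _ = 4 * K * (R * R ^ ((1199 : ℝ) / 400)) := by ring
        _ = 4 * K * X := by rw [hX2, hXX]
    have e3 : Δ * (a * e - c ^ 2) - a * J ≤ |Δ * (a * e - c ^ 2)| + |(a : ℝ) * J| :=
      (le_abs_self _).trans (abs_sub _ _)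
    have e4 := mul_le_mul_of_nonneg_right e3 hT4.le
    have e5 : K ≤ K ^ 2 := by nlinarith
    have e6 : K * X ≤ K ^ 2 * X := by gcongr
    nlinarith
  have hXs : X = (R ^ ((1599 : ℝ) / 800)) ^ 2 := by
    rw [hXX, pow_two, hadd]; norm_num
  have h3 : |(a : ℝ) * d - b * c| * T ^ 2 ≤ 3 * K * R ^ ((1599 : ℝ) / 800) := by
    have h4 := hpos ((1599 : ℝ) / 800)
    refine (abs_le_of_sq_le_sq' ?_ (by positivity)).2
    calc (|(a : ℝ) * d - b * c| * T ^ 2) ^ 2 = |(a : ℝ) * d - b * c| ^ 2 * T ^ 4 := by ring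
      _ ≤ 9 * K ^ 2 * X := h2
      _ = _ := by rw [hXs]; ring
  have h4 : |(d : ℝ) - (b : ℝ) * c / a| * |(a : ℝ)| = |(a : ℝ) * d - b * c| := by
    rw [← abs_mul]
    congr 1
    field_simp
  have h5 : |(d : ℝ) - (b : ℝ) * c / a| * R ^ ((999 : ℝ) / 1000) ≤
      (3 * K * R ^ ((3999 : ℝ) / 4000) * T ^ 2) * R ^ ((999 : ℝ) / 1000) := by
    calc |(d : ℝ) - (b : ℝ) * c / a| * R ^ ((999 : ℝ) / 1000) ≤
          |(d : ℝ) - (b : ℝ) * c / a| * (|(a : ℝ)| * T ^ 4) := by gcongr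
      _ = (|(d : ℝ) - (b : ℝ) * c / a| * |(a : ℝ)|) * T ^ 4 := by ring
      _ = (|(a : ℝ) * d - b * c| * T ^ 2) * T ^ 2 := by rw [h4]; ring
      _ ≤ (3 * K * R ^ ((1599 : ℝ) / 800)) * T ^ 2 := by gcongr
      _ = (3 * K * (R ^ ((3999 : ℝ) / 4000) * R ^ ((999 : ℝ) / 1000))) * T ^ 2 := by
        rw [hadd]; norm_num
      _ = _ := by ring
  exact le_of_mul_le_mul_right h5 (hpos _)

/-- small determinant -/
theorem cII (K : ℝ) (hK : 1 ≤ K) : ∃ C : ℝ, 1 ≤ C ∧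
    ∀ (R T Z : ℝ) (Ω : Finset (ℤ × ℤ × ℤ × ℤ × ℤ)), 1 ≤ R →
    R ^ (-(1 : ℝ) / 40000) ≤ T → T ≤ R ^ ((1 : ℝ) / 40000) → R ^ (2 : ℝ) ≤ Z →
    Z ≤ R ^ ((1199 : ℝ) / 400) →
    (∀ x ∈ Ω, x ∈ B5 K R T ∧ JS Z x ∧ R ^ ((999 : ℝ) / 1000) ≤ |(x.1 : ℝ)| * T ^ 4 ∧
      |((dt x : ℤ) : ℝ)| * T ^ 4 ≤ R ^ ((799 : ℝ) / 400)) →
    (Ω.card : ℝ) ≤ C * Z * R ^ ((19999 : ℝ) / 10000) := by
  classical
  obtain ⟨c, hc⟩ : ∃ c : ℝ, c = 3 * K ^ 2 + 4000000 := ⟨_, rfl⟩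
  have hK2 : 1 ≤ K ^ 2 := one_le_pow₀ hK
  have hc1 : 1 ≤ c := by linarith
  refine ⟨21 * K ^ 2 * (27 * K ^ 2 + 32 * c ^ 2), ?_, ?_⟩
  · have h1 : 1 ≤ c ^ 2 := one_le_pow₀ hc1
    nlinarith
  intro R T Z Ω hR1 hTl hTu hZ hZu h
  have hR0 : (0 : ℝ) < R := by linarith
  obtain ⟨hT0, hT2l, hT2u, hT4l, hT4u⟩ := Tf hR1 hTl hTu
  have hK0 : 0 < K := by linarith
  have hmono : ∀ s t : ℝ, s ≤ t → R ^ s ≤ R ^ t := fun s t h =>
    Real.rpow_le_rpow_of_exponent_le hR1 h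
  have hpos : ∀ s : ℝ, 0 < R ^ s := fun s => Real.rpow_pos_of_pos hR0 s
  have hadd : ∀ s t : ℝ, R ^ s * R ^ t = R ^ (s + t) := fun s t => (Real.rpow_add hR0 s t).symm
  have hRadd : ∀ s : ℝ, R * R ^ s = R ^ (1 + s) := fun s => by
    rw [Real.rpow_add hR0, Real.rpow_one]
  have hZ0 : 0 < Z := lt_of_lt_of_le (hpos _) hZ
  have hT2 : 0 < T ^ 2 := by positivity
  have hT4 : 0 < T ^ 4 := by positivity
  have hR3 : R ≤ R ^ (3 : ℝ) := by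
    have := hmono 1 3 (by norm_num)
    rwa [Real.rpow_one] at this
  have hKR1 : 1 ≤ K * R := one_le_mul_of_one_le_of_one_le hK hR1
  have hA1 : 1 ≤ K * R / T ^ 4 := by
    rw [le_div_iff₀ hT4, one_mul]
    have := hmono ((1 : ℝ) / 10000) 1 (by norm_num)
    rw [Real.rpow_one] at this
    nlinarith
  have hB1 : 1 ≤ K * R / T ^ 2 := by
    rw [le_div_iff₀ hT2, one_mul]
    have := hmono ((1 : ℝ) / 20000) 1 (by norm_num)
    rw [Real.rpow_one] at this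
    nlinarith
  obtain ⟨β, hβ⟩ : ∃ β, β = R ^ ((3999 : ℝ) / 4000) := ⟨_, rfl⟩
  have hβ0 : 0 < β := by rw [hβ]; exact hpos _
  have hβT : 1 ≤ β * T ^ 2 := by
    calc (1 : ℝ) ≤ R ^ ((3999 : ℝ) / 4000 + -(1 : ℝ) / 20000) :=
          Real.one_le_rpow hR1 (by norm_num)
      _ = R ^ ((3999 : ℝ) / 4000) * R ^ (-(1 : ℝ) / 20000) := (hadd _ _).symm
      _ ≤ β * T ^ 2 := by rw [hβ]; gcongr
  obtain ⟨M, hM⟩ : ∃ M : ℝ, M = K * R + (K * R / T ^ 2) ^ 2 + 1 := ⟨_, rfl⟩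
  have hM1 : 1 ≤ M := by rw [hM]; nlinarith [sq_nonneg (K * R / T ^ 2)]
  have hMu : M ≤ (3 * K ^ 2) * R ^ (3 : ℝ) := by
    have e1 : (K * R / T ^ 2) ^ 2 ≤ K ^ 2 * R ^ (3 : ℝ) := by
      have e2 : (K * R / T ^ 2) ^ 2 = K ^ 2 * (R ^ (2 : ℝ) / T ^ 4) := by
        have : R ^ (2 : ℝ) = R ^ 2 := by
          rw [← Real.rpow_natCast]; norm_num
        rw [div_pow, this]
        ring
      rw [e2]
      refine mul_le_mul_of_nonneg_left ?_ (by positivity)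
      rw [div_le_iff₀ hT4]
      calc R ^ (2 : ℝ) ≤ R ^ ((3 : ℝ) + -(1 : ℝ) / 10000) :=
            hmono _ _ (by norm_num)
        _ = R ^ (3 : ℝ) * R ^ (-(1 : ℝ) / 10000) := (hadd _ _).symm
        _ ≤ _ := by
          have := hpos 3
          gcongr
    have e3 : 1 ≤ R ^ (3 : ℝ) := Real.one_le_rpow hR1 (by norm_num)
    rw [hM]
    have e4 : K * R ≤ K ^ 2 * R ^ (3 : ℝ) := by
      have : K ≤ K ^ 2 := by nlinarith
      gcongr
    nlinarith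
  have hlM := log_small (3 * K ^ 2) (by linarith) hR1 hM1 hMu
  have hlA : 1 + Real.log (K * R / T ^ 4) ≤ c * R ^ ((1 : ℝ) / 1000000) := by
    rw [hc]
    apply log_small (3 * K ^ 2) (by linarith) hR1 hA1
    have e1 : K * R / T ^ 4 ≤ K * R ^ (3 : ℝ) := by
      rw [mul_div_assoc]
      refine mul_le_mul_of_nonneg_left ?_ (by positivity)
      rw [div_le_iff₀ hT4]
      calc R = R ^ (1 : ℝ) := (Real.rpow_one R).symm
        _ ≤ R ^ ((3 : ℝ) + -(1 : ℝ) / 10000) := hmono _ _ (by norm_num)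
        _ = R ^ (3 : ℝ) * R ^ (-(1 : ℝ) / 10000) := (hadd _ _).symm
        _ ≤ _ := by
          have := hpos 3
          gcongr
    have := hpos 3
    have : K ≤ K ^ 2 := by nlinarith
    nlinarith
  rw [← hc] at hlM
  have hcount := cntJ (K := K) (R := R) (T := T) (Z := Z) (A₀ := K * R / T ^ 4)
    (B₀ := K * R / T ^ 2)
    (D₀ := 7 * K * (β * T ^ 2)) (M := M) hK0.le hR0.le hZ0.le Ω hA1 (by linarith)
    (by
      have : 0 < K * (β * T ^ 2) := by positivity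
      linarith) (le_of_eq hM.symm)
    (by
      intro x hx
      obtain ⟨h1, h2, h3, h4⟩ := h x hx
      obtain ⟨g1, g2, g3, g4, g5⟩ := B5_mem hT0 h1
      refine ⟨?_, ?_, ?_, g3, g5, h2⟩
      · intro h0
        rw [h0] at h3
        push_cast at h3
        rw [abs_zero, zero_mul] at h3
        exact absurd h3 (not_le.2 (hpos _))
      · rw [le_div_iff₀ hT4]
        exact g1
      · rw [le_div_iff₀ hT2]
        exact g2)
    (by
      intro a b c'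
      have h1 : (((Ω.filter fun x => x.1 = a ∧ x.2.1 = b ∧ x.2.2.1 = c').image
          fun x => x.2.2.2.1).card : ℝ) ≤ 6 * K * (β * T ^ 2) + 1 := by
        apply card_diff _ _ (by positivity)
        intro d hd d' hd'
        rw [Finset.mem_image] at hd hd'
        obtain ⟨x, hx, rfl⟩ := hd
        obtain ⟨y, hy, rfl⟩ := hd'
        rw [Finset.mem_filter] at hx hy
        obtain ⟨h1, h2, h3, h4⟩ := h x hx.1
        obtain ⟨h1', h2', h3', h4'⟩ := h y hy.1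
        have k1 := d_range hK hR1 hT0 hZu h1 h2 h3 h4
        have k2 := d_range hK hR1 hT0 hZu h1' h2' h3' h4'
        rw [hx.2.1, hx.2.2.1, hx.2.2.2, ← hβ] at k1
        rw [hy.2.1, hy.2.2.1, hy.2.2.2, ← hβ] at k2
        have k1' := abs_le.1 k1
        have k2' := abs_le.1 k2
        rw [abs_le]
        constructor <;> linarith
      have h2 : 1 ≤ K * (β * T ^ 2) := one_le_mul_of_one_le_of_one_le hK hβT
      linarith)
  obtain ⟨lam, hlam⟩ : ∃ lam : ℝ, lam = c * R ^ ((1 : ℝ) / 1000000) := ⟨_, rfl⟩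
  rw [← hlam] at hlM hlA
  have hlam0 : 0 < lam := by
    rw [hlam]
    have := hpos ((1 : ℝ) / 1000000)
    positivity
  have hlM0 : 0 ≤ 1 + Real.log M := by
    have := Real.log_nonneg hM1
    linarith
  have hlA0 : 0 ≤ 1 + Real.log (K * R / T ^ 4) := by
    have := Real.log_nonneg hA1
    linarith
  have s1 : 7 * K * (β * T ^ 2) * (2 * (K * R / T ^ 2) + 1) ≤ 21 * K ^ 2 * (R * β) := by
    calc 7 * K * (β * T ^ 2) * (2 * (K * R / T ^ 2) + 1) ≤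
          7 * K * (β * T ^ 2) * (3 * (K * R / T ^ 2)) := by
          gcongr
          linarith
      _ = _ := by
        field_simp
        ring
  have e2 : 1 ≤ R ^ ((1 : ℝ) / 10000) := Real.one_le_rpow hR1 (by norm_num)
  have s2 : (2 * (K * R / T ^ 4) + 1) * (4 * (K * (R * T ^ 4)) + 2 * (K * R) + 3) ≤
      27 * K ^ 2 * Z * R ^ ((1 : ℝ) / 10000) := by
    have e1 : 1 / T ^ 4 ≤ R ^ ((1 : ℝ) / 10000) := by
      rw [div_le_iff₀ hT4]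
      calc (1 : ℝ) = R ^ ((1 : ℝ) / 10000) * R ^ (-(1 : ℝ) / 10000) := by
            rw [hadd]; norm_num
        _ ≤ _ := by
          have := hpos ((1 : ℝ) / 10000)
          gcongr
    have e3 : R * R = R ^ (2 : ℝ) := by
      rw [← pow_two, ← Real.rpow_natCast]; norm_num
    calc (2 * (K * R / T ^ 4) + 1) * (4 * (K * (R * T ^ 4)) + 2 * (K * R) + 3)
        ≤ (3 * (K * R / T ^ 4)) * (4 * (K * (R * T ^ 4)) + 5 * (K * R)) := by
          refine mul_le_mul (by linarith) (by linarith) (by positivity) (by positivity)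
      _ = 12 * K ^ 2 * (R * R) + 15 * K ^ 2 * (R * R) * (1 / T ^ 4) := by
          field_simp
          ring
      _ ≤ 12 * K ^ 2 * (R * R) * R ^ ((1 : ℝ) / 10000) +
          15 * K ^ 2 * (R * R) * R ^ ((1 : ℝ) / 10000) := by
          refine add_le_add (le_mul_of_one_le_right (by positivity) e2)
            (mul_le_mul_of_nonneg_left e1 (by positivity))
      _ = 27 * K ^ 2 * R ^ (2 : ℝ) * R ^ ((1 : ℝ) / 10000) := by rw [e3]; ring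
      _ ≤ 27 * K ^ 2 * Z * R ^ ((1 : ℝ) / 10000) := by gcongr
  have s3 : 32 * Z * (1 + Real.log M) * (1 + Real.log (K * R / T ^ 4)) ≤ 32 * Z * lam * lam := by
    gcongr
  have hlam2 : lam * lam ≤ c ^ 2 * R ^ ((1 : ℝ) / 10000) := by
    rw [hlam]
    have : R ^ ((1 : ℝ) / 1000000) * R ^ ((1 : ℝ) / 1000000) ≤ R ^ ((1 : ℝ) / 10000) := by
      rw [hadd]
      exact hmono _ _ (by norm_num)
    calc _ = c ^ 2 * (R ^ ((1 : ℝ) / 1000000) * R ^ ((1 : ℝ) / 1000000)) := by ring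
      _ ≤ _ := by gcongr
  calc (Ω.card : ℝ) ≤ _ := hcount
    _ = (7 * K * (β * T ^ 2) * (2 * (K * R / T ^ 2) + 1)) *
        ((2 * (K * R / T ^ 4) + 1) * (4 * (K * (R * T ^ 4)) + 2 * (K * R) + 3) +
        32 * Z * (1 + Real.log M) * (1 + Real.log (K * R / T ^ 4))) := by ring
    _ ≤ (21 * K ^ 2 * (R * β)) * (27 * K ^ 2 * Z * R ^ ((1 : ℝ) / 10000) +
        32 * Z * lam * lam) := by gcongr
    _ = 21 * K ^ 2 * (R * β) * Z * (27 * K ^ 2 * R ^ ((1 : ℝ) / 10000) + 32 * (lam * lam)) := by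
      ring
    _ ≤ 21 * K ^ 2 * (R * β) * Z * (27 * K ^ 2 * R ^ ((1 : ℝ) / 10000) +
        32 * (c ^ 2 * R ^ ((1 : ℝ) / 10000))) := by gcongr
    _ = 21 * K ^ 2 * (27 * K ^ 2 + 32 * c ^ 2) * Z * (R ^ ((1 : ℝ) / 10000) * (R * β)) := by ring
    _ = 21 * K ^ 2 * (27 * K ^ 2 + 32 * c ^ 2) * Z * R ^ ((1 : ℝ) / 10000 + (1 + 3999 / 4000)) := by
      rw [hβ, hRadd, hadd]
    _ ≤ _ := by
      have := hmono ((1 : ℝ) / 10000 + (1 + 3999 / 4000)) ((19999 : ℝ) / 10000) (by norm_num)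
      gcongr

/-- square first coefficient -/
theorem cIII (K : ℝ) (hK : 1 ≤ K) : ∃ C : ℝ, 1 ≤ C ∧
    ∀ (R T Z : ℝ) (Ω : Finset (ℤ × ℤ × ℤ × ℤ × ℤ)), 1 ≤ R →
    R ^ (-(1 : ℝ) / 40000) ≤ T → T ≤ R ^ ((1 : ℝ) / 40000) → R ^ (2 : ℝ) ≤ Z →
    (∀ x ∈ Ω, x ∈ B5 K R T ∧ JS Z x ∧ (∃ s : ℤ, s ^ 2 = x.1) ∧
      R ^ ((799 : ℝ) / 400) ≤ |((dt x : ℤ) : ℝ)| * T ^ 4) →
    (Ω.card : ℝ) ≤ C * Z * R ^ ((19999 : ℝ) / 10000) := by
  classical
  refine ⟨729 * K ^ 4, ?_, ?_⟩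
  · have : 1 ≤ K ^ 4 := one_le_pow₀ hK
    linarith
  intro R T Z Ω hR1 hTl hTu hZ h
  have hR0 : (0 : ℝ) < R := by linarith
  obtain ⟨hT0, hT2l, hT2u, hT4l, hT4u⟩ := Tf hR1 hTl hTu
  have hK0 : 0 < K := by linarith
  have hmono : ∀ s t : ℝ, s ≤ t → R ^ s ≤ R ^ t := fun s t h =>
    Real.rpow_le_rpow_of_exponent_le hR1 h
  have hpos : ∀ s : ℝ, 0 < R ^ s := fun s => Real.rpow_pos_of_pos hR0 s
  have hadd : ∀ s t : ℝ, R ^ s * R ^ t = R ^ (s + t) := fun s t => (Real.rpow_add hR0 s t).symm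
  have hRadd : ∀ s : ℝ, R * R ^ s = R ^ (1 + s) := fun s => by
    rw [Real.rpow_add hR0, Real.rpow_one]
  have hZ0 : 0 < Z := lt_of_lt_of_le (hpos _) hZ
  have hT2 : 0 < T ^ 2 := by positivity
  have hT4 : 0 < T ^ 4 := by positivity
  have hR22 : R ^ ((1 : ℝ) / 2) * R ^ ((1 : ℝ) / 2) = R := by
    rw [← Real.rpow_add hR0]; norm_num
  have hRh : 0 < R ^ ((1 : ℝ) / 2) := hpos _
  obtain ⟨δ, hδ⟩ : ∃ δ, δ = R ^ ((799 : ℝ) / 400) / T ^ 4 := ⟨_, rfl⟩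
  have hδ0 : 0 < δ := by
    rw [hδ]
    have := hpos ((799 : ℝ) / 400)
    positivity
  obtain ⟨t0, ht0⟩ : ∃ t : Finset (ℤ × ℤ × ℤ × ℤ), t = bx (K * R ^ ((1 : ℝ) / 2) / T ^ 2) ×ˢ
      bx (K * R / T ^ 2) ×ˢ bx (K * R) ×ˢ bx (K * (R * T ^ 2)) := ⟨_, rfl⟩
  obtain ⟨t, ht⟩ : ∃ t : Finset (ℤ × ℤ × ℤ × ℤ), t = t0.image
      (fun z => (z.1 ^ 2, z.2.1, z.2.2.1, z.2.2.2)) := ⟨_, rfl⟩
  have hc := cnt4 hZ0.le hδ0 Ω t
    (by
      intro x hx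
      obtain ⟨h1, -, ⟨s, hs⟩, -⟩ := h x hx
      have hg := B5_mem hT0 h1
      unfold B5 at h1
      rw [Finset.mem_product, Finset.mem_product, Finset.mem_product, Finset.mem_product] at h1
      rw [ht, Finset.mem_image]
      refine ⟨(s, x.2.1, x.2.2.1, x.2.2.2.1), ?_, by dsimp only; rw [hs]⟩
      rw [ht0, Finset.mem_product, Finset.mem_product, Finset.mem_product]
      refine ⟨mem_Icc_of _ _ ?_, h1.2.1, h1.2.2.1, h1.2.2.2.1⟩
      rw [le_div_iff₀ hT2]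
      show |(s : ℝ)| * T ^ 2 ≤ K * R ^ ((1 : ℝ) / 2)
      refine abs_le_of_sq_le_sq' ?_ (by positivity) |>.2
      have e1 : |(s : ℝ)| ^ 2 = |(x.1 : ℝ)| := by
        rw [← hs]; push_cast; rw [abs_pow]
      calc (|(s : ℝ)| * T ^ 2) ^ 2 = |(x.1 : ℝ)| * T ^ 4 := by rw [mul_pow, e1]; ring
        _ ≤ K * R := hg.1
        _ = K * (R ^ ((1 : ℝ) / 2) * R ^ ((1 : ℝ) / 2)) := by rw [hR22]
        _ ≤ K ^ 2 * (R ^ ((1 : ℝ) / 2) * R ^ ((1 : ℝ) / 2)) := by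
          have : K ≤ K ^ 2 := by nlinarith
          gcongr
        _ = (K * R ^ ((1 : ℝ) / 2)) ^ 2 := by ring)
    (fun x hx => (h x hx).2.1)
    (by
      intro x hx
      obtain ⟨-, -, -, h4⟩ := h x hx
      rw [hδ, div_le_iff₀ hT4]
      exact h4)
  have htc : (t.card : ℝ) ≤ 81 * K ^ 4 * (R ^ ((7 : ℝ) / 2) / T ^ 2) := by
    have htt : t.card ≤ t0.card := by rw [ht]; exact Finset.card_image_le
    refine le_trans (Nat.cast_le.2 htt) ?_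
    rw [ht0, Finset.card_product, Finset.card_product, Finset.card_product]
    have hRT2 : 1 ≤ K * (R * T ^ 2) := by
      calc (1 : ℝ) ≤ R ^ (1 + -(1 : ℝ) / 20000) := Real.one_le_rpow hR1 (by norm_num)
        _ = R * R ^ (-(1 : ℝ) / 20000) := (hRadd _).symm
        _ ≤ R * T ^ 2 := by gcongr
        _ ≤ K * (R * T ^ 2) := le_mul_of_one_le_left (by positivity) hK
    have hKR1 : 1 ≤ K * R := one_le_mul_of_one_le_of_one_le hK hR1
    have b1 : ((bx (K * R ^ ((1 : ℝ) / 2) / T ^ 2)).card : ℝ) ≤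
        3 * (K * R ^ ((1 : ℝ) / 2) / T ^ 2) := by
      apply bx_card (by positivity)
      have : 1 ≤ K * R ^ ((1 : ℝ) / 2) / T ^ 2 := by
        rw [le_div_iff₀ hT2, one_mul]
        have := hmono ((1 : ℝ) / 20000) (1 / 2) (by norm_num)
        nlinarith
      linarith
    have b2 : ((bx (K * R / T ^ 2)).card : ℝ) ≤ 3 * (K * R / T ^ 2) := by
      apply bx_card (by positivity)
      have : 1 ≤ K * R / T ^ 2 := by
        rw [le_div_iff₀ hT2, one_mul]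
        have := hmono ((1 : ℝ) / 20000) 1 (by norm_num)
        rw [Real.rpow_one] at this
        nlinarith
      linarith
    have b3 : ((bx (K * R)).card : ℝ) ≤ 3 * (K * R) := by
      apply bx_card (by positivity)
      linarith
    have b4 : ((bx (K * (R * T ^ 2))).card : ℝ) ≤ 3 * (K * (R * T ^ 2)) := by
      apply bx_card (by positivity)
      linarith
    push_cast
    calc ((bx (K * R ^ ((1 : ℝ) / 2) / T ^ 2)).card : ℝ) * (((bx (K * R / T ^ 2)).card : ℝ) *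
          (((bx (K * R)).card : ℝ) * ((bx (K * (R * T ^ 2))).card : ℝ)))
        ≤ (3 * (K * R ^ ((1 : ℝ) / 2) / T ^ 2)) * ((3 * (K * R / T ^ 2)) * ((3 * (K * R)) *
          (3 * (K * (R * T ^ 2))))) := by gcongr
      _ = 81 * K ^ 4 * ((R * (R * (R * R ^ ((1 : ℝ) / 2)))) / T ^ 2) := by
          field_simp
          ring
      _ = _ := by
          rw [hRadd, hRadd, hRadd]
          norm_num
  have hZδ : 8 * Z / δ + 1 ≤ 9 * Z * (T ^ 4 * R ^ (-(799 : ℝ) / 400)) := by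
    have e1 : 8 * Z / δ = 8 * Z * (T ^ 4 * R ^ (-(799 : ℝ) / 400)) := by
      have : R ^ (-(799 : ℝ) / 400) = (R ^ ((799 : ℝ) / 400))⁻¹ := by
        rw [show (-(799 : ℝ) / 400) = -((799 : ℝ) / 400) by ring, Real.rpow_neg hR0.le]
      rw [hδ, this]
      have := hpos ((799 : ℝ) / 400)
      field_simp
    have e3 : 1 ≤ Z * (T ^ 4 * R ^ (-(799 : ℝ) / 400)) := by
      calc (1 : ℝ) ≤ R ^ ((2 : ℝ) + (-(1 : ℝ) / 10000 + -(799 : ℝ) / 400)) :=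
            Real.one_le_rpow hR1 (by norm_num)
        _ = R ^ (2 : ℝ) * (R ^ (-(1 : ℝ) / 10000) * R ^ (-(799 : ℝ) / 400)) := by
            rw [hadd, hadd]
        _ ≤ _ := by
          have := hpos (-(799 : ℝ) / 400)
          gcongr
    rw [e1]
    linarith
  have hpp := hpos (-(799 : ℝ) / 400)
  calc (Ω.card : ℝ) ≤ (8 * Z / δ + 1) * t.card := hc
    _ ≤ (9 * Z * (T ^ 4 * R ^ (-(799 : ℝ) / 400))) *
        (81 * K ^ 4 * (R ^ ((7 : ℝ) / 2) / T ^ 2)) := by gcongr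
    _ = 729 * K ^ 4 * Z * (T ^ 2 * (R ^ (-(799 : ℝ) / 400) * R ^ ((7 : ℝ) / 2))) := by
      field_simp
      ring
    _ ≤ 729 * K ^ 4 * Z * (R ^ ((1 : ℝ) / 20000) * (R ^ (-(799 : ℝ) / 400) *
        R ^ ((7 : ℝ) / 2))) := by
      have := hpos ((7 : ℝ) / 2)
      gcongr
    _ = 729 * K ^ 4 * Z * R ^ ((1 : ℝ) / 20000 + (-(799 : ℝ) / 400 + (7 : ℝ) / 2)) := by
      rw [hadd, hadd]
    _ ≤ _ := by
      have := hmono ((1 : ℝ) / 20000 + (-(799 : ℝ) / 400 + (7 : ℝ) / 2)) ((19999 : ℝ) / 10000)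
        (by norm_num)
      gcongr

end Pool.Agent.J4H76.HB
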