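import Mathlib
import Pool.Agent.J4H76.HB.N5

/-! Counting forms: the main case, from the strip theorem. -/

set_option autoImplicit false

namespace Pool.Agent.J4H76.HB

open Pool.Agent.R418.HL (bx bx_card Good Chart)
open Pool.Agent.W654.HZ.CLT (card_Icc_le mem_Icc_of)

theorem cIV (K : ℝ) (hK : 1 ≤ K) : ∃ C R₀ : ℝ, 1 ≤ C ∧ 1 ≤ R₀ ∧
    ∀ (R T V Z : ℝ) (Ω : Finset (ℤ × ℤ × ℤ × ℤ × ℤ)), R₀ ≤ R →
    R ^ (-(1 : ℝ) / 40000) ≤ T → T ≤ R ^ ((1 : ℝ) / 40000) → R ^ ((13 : ℝ) / 100) ≤ V →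
    Real.log V ≤ R ^ ((1 : ℝ) / 3200) → R ^ (2 : ℝ) ≤ Z → Z ≤ R ^ ((1199 : ℝ) / 400) →
    (∀ x ∈ Ω, x ∈ B5 K R T ∧ JS Z x ∧ (∀ s : ℤ, s ^ 2 ≠ x.1) ∧
      R ^ ((999 : ℝ) / 1000) ≤ |(x.1 : ℝ)| * T ^ 4 ∧
      R ^ ((799 : ℝ) / 400) ≤ |((dt x : ℤ) : ℝ)| * T ^ 4 ∧
      ∃ p q : ℤ, Good K R T V x.1 x.2.1 x.2.2.1 x.2.2.2.1 x.2.2.2.2 p q ∧
        Chart K R T V x.1 x.2.1 x.2.2.1 x.2.2.2.1 p q) →
    (Ω.card : ℝ) ≤ C * Z * R ^ ((1994 : ℝ) / 1000) := by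
  classical
  obtain ⟨C, R₀, hC, hR₀, hst⟩ := strip K hK
  obtain ⟨r1, hr1⟩ := ev 4 (999 / 10000) (by norm_num)
  refine ⟨135 * K ^ 3 * C, max r1 R₀, ?_, le_trans hR₀ (le_max_right _ _), ?_⟩
  · have h1 : 1 ≤ K ^ 3 := one_le_pow₀ hK
    nlinarith
  intro R T V Z Ω hRR hTl hTu hV hlog hZ hZu h
  have hRR0 : R₀ ≤ R := le_trans (le_max_right _ _) hRR
  have hR1 : (1 : ℝ) ≤ R := le_trans hR₀ hRR0
  have hR0 : (0 : ℝ) < R := by linarith
  have k1 := hr1 R (le_trans (le_max_left _ _) hRR)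
  obtain ⟨hT0, hT2l, hT2u, hT4l, hT4u⟩ := Tf hR1 hTl hTu
  have hK0 : 0 < K := by linarith
  have hmono : ∀ s t : ℝ, s ≤ t → R ^ s ≤ R ^ t := fun s t h =>
    Real.rpow_le_rpow_of_exponent_le hR1 h
  have hpos : ∀ s : ℝ, 0 < R ^ s := fun s => Real.rpow_pos_of_pos hR0 s
  have hadd : ∀ s t : ℝ, R ^ s * R ^ t = R ^ (s + t) := fun s t => (Real.rpow_add hR0 s t).symm
  have hRadd : ∀ s : ℝ, R * R ^ s = R ^ (1 + s) := fun s => by
    rw [Real.rpow_add hR0, Real.rpow_one]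
  have hZ0 : 0 < Z := lt_of_lt_of_le (hpos _) hZ
  have hT2 : 0 < T ^ 2 := by positivity
  have hT4 : 0 < T ^ 4 := by positivity
  obtain ⟨δ, hδ⟩ : ∃ δ, δ = R ^ ((799 : ℝ) / 400) := ⟨_, rfl⟩
  have hδ0 : 0 < δ := by rw [hδ]; exact hpos _
  obtain ⟨w, hw⟩ : ∃ w : ℝ, w = 4 * Z * T ^ 4 / δ := ⟨_, rfl⟩
  have hw0 : 0 ≤ w := by rw [hw]; positivity
  have hwu : w ≤ R ^ ((11 : ℝ) / 10) := by
    rw [hw, div_le_iff₀ hδ0]
    calc 4 * Z * T ^ 4 ≤ R ^ ((999 : ℝ) / 10000) * R ^ ((1199 : ℝ) / 400) *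
          R ^ ((1 : ℝ) / 10000) := by
          have := hpos ((999 : ℝ) / 10000)
          gcongr
      _ = R ^ ((11 : ℝ) / 10) * δ := by
          rw [hδ, hadd, hadd, hadd]
          norm_num
  have hX0 : 0 ≤ C * (w + 1) * R ^ ((991 : ℝ) / 1000) := by
    have := hpos ((991 : ℝ) / 1000)
    positivity
  have hfib : Ω.card ≤ ⌊C * (w + 1) * R ^ ((991 : ℝ) / 1000)⌋₊ *
      (Ω.image fun x => (x.1, x.2.1, x.2.2.1)).card := by
    apply Finset.card_le_mul_card_image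
    rintro ⟨a, b, c⟩ habc
    apply Nat.le_floor
    obtain ⟨F, hF⟩ : ∃ F, F = Ω.filter fun x => (x.1, x.2.1, x.2.2.1) = (a, b, c) := ⟨_, rfl⟩
    rw [← hF]
    have hmem : ∀ x ∈ F, x ∈ Ω ∧ x.1 = a ∧ x.2.1 = b ∧ x.2.2.1 = c := by
      intro x hx
      rw [hF, Finset.mem_filter] at hx
      have h2 := Prod.mk.inj hx.2
      have h3 := Prod.mk.inj h2.2
      exact ⟨hx.1, h2.1, h3.1, h3.2⟩
    have h3 : F.card = (F.image fun x => x.2.2.2).card := by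
      refine (Finset.card_image_of_injOn ?_).symm
      rintro ⟨x1, x2, x3, x4, x5⟩ hx ⟨y1, y2, y3, y4, y5⟩ hy h
      obtain ⟨-, p1, p2, p3⟩ := hmem _ hx
      obtain ⟨-, q1, q2, q3⟩ := hmem _ hy
      dsimp only at p1 p2 p3 q1 q2 q3 h
      rw [p1, p2, p3, q1, q2, q3, h]
    rw [h3]
    rw [Finset.mem_image] at habc
    obtain ⟨x0, hx0, hx0'⟩ := habc
    have g2 := Prod.mk.inj hx0'
    have g3 := Prod.mk.inj g2.2
    obtain ⟨h1, -, h4, h5, h6, -⟩ := h x0 hx0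
    obtain ⟨e1, e2, e3, -, -⟩ := B5_mem hT0 h1
    unfold dt at h6
    rw [g2.1] at e1 h4 h5 h6
    rw [g3.1] at e2 h6
    rw [g3.2] at e3 h6
    refine hst R T V w a b c _ hRR0 hTl hTu hV hlog hw0 hwu h4 e1 e2 e3 h5 h6 ?_ ?_
    · intro P hP
      rw [Finset.mem_image] at hP
      obtain ⟨x, hx, rfl⟩ := hP
      obtain ⟨p0, p1, p2, p3⟩ := hmem _ hx
      obtain ⟨-, k2, -, -, -, -⟩ := h x p0
      unfold JS dt qd at k2
      rw [p1, p2, p3] at k2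
      have k3 : 4 * Z ≤ w * |((a * c - b ^ 2 : ℤ) : ℝ)| := by
        rw [← hδ] at h6
        rw [hw, div_mul_eq_mul_div, le_div_iff₀ hδ0]
        calc 4 * Z * δ ≤ 4 * Z * (|((a * c - b ^ 2 : ℤ) : ℝ)| * T ^ 4) := by gcongr
          _ = _ := by ring
      refine le_trans (le_of_eq ?_) (k2.trans k3)
      push_cast
      rfl
    · intro P hP
      rw [Finset.mem_image] at hP
      obtain ⟨x, hx, rfl⟩ := hP
      obtain ⟨p0, p1, p2, p3⟩ := hmem _ hx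
      obtain ⟨-, -, -, -, -, p, q, k2, k3⟩ := h x p0
      rw [p1, p2, p3] at k2 k3
      exact ⟨p, q, k2, k3⟩
  have himg : ((Ω.image fun x => (x.1, x.2.1, x.2.2.1)).card : ℝ) ≤
      27 * K ^ 3 * (R ^ (3 : ℝ) / (T ^ 4 * T ^ 2)) := by
    obtain ⟨t, ht⟩ : ∃ t : Finset (ℤ × ℤ × ℤ), t = bx (K * R / T ^ 4) ×ˢ bx (K * R / T ^ 2) ×ˢ
        bx (K * R) := ⟨_, rfl⟩
    have hsub : (Ω.image fun x => (x.1, x.2.1, x.2.2.1)) ⊆ t := by
      intro y hy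
      rw [Finset.mem_image] at hy
      obtain ⟨x, hx, rfl⟩ := hy
      have h1 := (h x hx).1
      unfold B5 at h1
      rw [Finset.mem_product, Finset.mem_product, Finset.mem_product] at h1
      rw [ht, Finset.mem_product, Finset.mem_product]
      exact ⟨h1.1, h1.2.1, h1.2.2.1⟩
    refine le_trans (Nat.cast_le.2 (Finset.card_le_card hsub)) ?_
    rw [ht, Finset.card_product, Finset.card_product]
    have hKR1 : 1 ≤ K * R := one_le_mul_of_one_le_of_one_le hK hR1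
    have b1 : ((bx (K * R / T ^ 4)).card : ℝ) ≤ 3 * (K * R / T ^ 4) := by
      apply bx_card (by positivity)
      have : 1 ≤ K * R / T ^ 4 := by
        rw [le_div_iff₀ hT4, one_mul]
        have := hmono ((1 : ℝ) / 10000) 1 (by norm_num)
        rw [Real.rpow_one] at this
        nlinarith
      linarith
    have b2 : ((bx (K * R / T ^ 2)).card : ℝ) ≤ 3 * (K * R / T ^ 2) := by
      apply bx_card (by positivity)
      have : 1 ≤ K * R / T ^ 2 := by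
        rw [le_div_iff₀ hT2, one_mul]
        have := hmono ((1 : ℝ) / 20000) 1 (by norm_num)
        rw [Real.rpow_one] at this
        nlinarith
      linarith
    have b3 : ((bx (K * R)).card : ℝ) ≤ 3 * (K * R) := by
      apply bx_card (by positivity)
      linarith
    have hR3 : R ^ (3 : ℝ) = R ^ 3 := by
      rw [← Real.rpow_natCast]; norm_num
    push_cast
    calc ((bx (K * R / T ^ 4)).card : ℝ) * (((bx (K * R / T ^ 2)).card : ℝ) *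
          ((bx (K * R)).card : ℝ))
        ≤ (3 * (K * R / T ^ 4)) * ((3 * (K * R / T ^ 2)) * (3 * (K * R))) := by gcongr
      _ = _ := by
          rw [hR3]
          field_simp
          ring
  have hw1 : w + 1 ≤ 5 * Z * T ^ 4 / δ := by
    have e3 : 1 ≤ Z * T ^ 4 / δ := by
      rw [le_div_iff₀ hδ0, hδ, one_mul]
      calc R ^ ((799 : ℝ) / 400) ≤ R ^ ((2 : ℝ) + -(1 : ℝ) / 10000) := hmono _ _ (by norm_num)
        _ = R ^ (2 : ℝ) * R ^ (-(1 : ℝ) / 10000) := (hadd _ _).symm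
        _ ≤ _ := by gcongr
    have e4 : w = 4 * (Z * T ^ 4 / δ) := by rw [hw]; ring
    rw [e4]
    have e5 : 5 * Z * T ^ 4 / δ = 5 * (Z * T ^ 4 / δ) := by ring
    rw [e5]
    linarith
  have hpp := hpos ((991 : ℝ) / 1000)
  have hp3 := hpos 3
  have hδi : R ^ (-(799 : ℝ) / 400) = 1 / δ := by
    rw [hδ, show (-(799 : ℝ) / 400) = -((799 : ℝ) / 400) by ring, Real.rpow_neg hR0.le, one_div]
  have hT2i : 1 / T ^ 2 ≤ R ^ ((1 : ℝ) / 20000) := by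
    rw [div_le_iff₀ hT2]
    calc (1 : ℝ) = R ^ ((1 : ℝ) / 20000) * R ^ (-(1 : ℝ) / 20000) := by
          rw [hadd]; norm_num
      _ ≤ _ := by
        have := hpos ((1 : ℝ) / 20000)
        gcongr
  calc (Ω.card : ℝ) ≤ ((⌊C * (w + 1) * R ^ ((991 : ℝ) / 1000)⌋₊ *
        (Ω.image fun x => (x.1, x.2.1, x.2.2.1)).card : ℕ) : ℝ) := Nat.cast_le.2 hfib
    _ = (⌊C * (w + 1) * R ^ ((991 : ℝ) / 1000)⌋₊ : ℝ) *
        ((Ω.image fun x => (x.1, x.2.1, x.2.2.1)).card : ℝ) := Nat.cast_mul _ _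
    _ ≤ (C * (w + 1) * R ^ ((991 : ℝ) / 1000)) * (27 * K ^ 3 * (R ^ (3 : ℝ) / (T ^ 4 * T ^ 2))) := by
      have := Nat.floor_le hX0
      gcongr
    _ ≤ (C * (5 * Z * T ^ 4 / δ) * R ^ ((991 : ℝ) / 1000)) *
        (27 * K ^ 3 * (R ^ (3 : ℝ) / (T ^ 4 * T ^ 2))) := by gcongr
    _ = 135 * K ^ 3 * C * Z * ((1 / δ) * R ^ ((991 : ℝ) / 1000) * R ^ (3 : ℝ)) * (1 / T ^ 2) := by
      field_simp
      ring
    _ ≤ 135 * K ^ 3 * C * Z * ((1 / δ) * R ^ ((991 : ℝ) / 1000) * R ^ (3 : ℝ)) *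
        R ^ ((1 : ℝ) / 20000) := by gcongr
    _ = 135 * K ^ 3 * C * Z * (((1 / δ) * R ^ ((991 : ℝ) / 1000) * R ^ (3 : ℝ)) *
        R ^ ((1 : ℝ) / 20000)) := by ring
    _ = 135 * K ^ 3 * C * Z * R ^ (-(799 : ℝ) / 400 + 991 / 1000 + 3 + 1 / 20000) := by
      rw [← hδi, hadd, hadd, hadd]
    _ ≤ _ := by
      have := hmono (-(799 : ℝ) / 400 + 991 / 1000 + 3 + 1 / 20000) ((1994 : ℝ) / 1000)
        (by norm_num)
      gcongr

end Pool.Agent.J4H76.HB
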