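import Mathlib
import Pool.Agent.J4H76.HB.N6
import Pool.Agent.R418.HL.C1

/-! The curves from forms with a small second invariant. -/

set_option autoImplicit false

namespace Pool.Agent.J4H76.HB

open Pool.Agent.R418.HL (bx bx_card Good Chart InBox invI invJ ab ab_eq abs3 invI_shift
  invJ_shift)
open Pool.Agent.W654.HZ.CLT (card_Icc_le mem_Icc_of)

/-- the form `x` gives the curve `P` -/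
def frm (P : ℤ × ℤ) (x : ℤ × ℤ × ℤ × ℤ × ℤ) : Prop :=
  invI x.1 x.2.1 x.2.2.1 x.2.2.2.1 x.2.2.2.2 = -4 * P.1 ∧
    invJ x.1 x.2.1 x.2.2.1 x.2.2.2.1 x.2.2.2.2 = -4 * P.2

/-- bad forms -/
def bad (R T : ℝ) (x : ℤ × ℤ × ℤ × ℤ × ℤ) : Prop :=
  |(x.1 : ℝ)| * T ^ 4 ≤ R ^ ((999 : ℝ) / 1000) ∨
    |((dt x : ℤ) : ℝ)| * T ^ 4 ≤ R ^ ((799 : ℝ) / 400) ∨ ∃ s : ℤ, s ^ 2 = x.1

/-- the curves from bad forms -/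
def SA (K R T Z : ℝ) : Set (ℤ × ℤ) := {P | |(P.2 : ℝ)| ≤ Z ∧ ∃ x, x ∈ B5 K R T ∧ frm P x ∧
  bad R T x}

/-- the curves from the other forms -/
def SB (K R T V Z : ℝ) : Set (ℤ × ℤ) := {P | |(P.2 : ℝ)| ≤ Z ∧ ∃ x, x ∈ B5 K R T ∧ frm P x ∧
  ¬ bad R T x ∧ ∃ p q : ℤ, Good K R T V x.1 x.2.1 x.2.2.1 x.2.2.2.1 x.2.2.2.2 p q ∧
        Chart K R T V x.1 x.2.1 x.2.2.1 x.2.2.2.1 p q}

/-- the curves from forms of a large shape -/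
def SC (K R T Z : ℝ) : Set (ℤ × ℤ) := {P | |(P.2 : ℝ)| ≤ Z ∧ ∃ x, x ∈ B5 K R T ∧ frm P x ∧
  x.1 ≠ 0}

lemma JS_of {Z : ℝ} {P : ℤ × ℤ} {x : ℤ × ℤ × ℤ × ℤ × ℤ} (h : frm P x) (hZ : |(P.2 : ℝ)| ≤ Z) :
    JS Z x := by
  have h1 : ((dt x : ℤ) : ℝ) * x.2.2.2.2 - ((qd x.1 x.2.1 x.2.2.1 x.2.2.2.1 : ℤ) : ℝ) =
      -4 * P.2 := by
    have h2 := h.2
    have h3 : dt x * x.2.2.2.2 - qd x.1 x.2.1 x.2.2.1 x.2.2.2.1 = -4 * P.2 := by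
      rw [← h2]
      unfold dt qd invJ
      ring
    exact_mod_cast h3
  unfold JS
  rw [h1, abs_mul]
  norm_num
  exact hZ

lemma frm_ab {P : ℤ × ℤ} {x : ℤ × ℤ × ℤ × ℤ × ℤ} (h : frm P x) :
    ab x.1 x.2.1 x.2.2.1 x.2.2.2.1 x.2.2.2.2 = P := ab_eq h.1 h.2

lemma set_card (S : Set (ℤ × ℤ)) (Ω : Finset (ℤ × ℤ × ℤ × ℤ × ℤ))
    (h : ∀ P ∈ S, ∃ x ∈ Ω, frm P x) : S.Finite ∧ (S.ncard : ℝ) ≤ Ω.card := by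
  classical
  have hsub : S ⊆ ((Ω.image (fun x => ab x.1 x.2.1 x.2.2.1 x.2.2.2.1 x.2.2.2.2) :
      Finset (ℤ × ℤ)) : Set (ℤ × ℤ)) := by
    intro P hP
    obtain ⟨x, hx, hf⟩ := h P hP
    rw [Finset.mem_coe, Finset.mem_image]
    exact ⟨x, hx, frm_ab hf⟩
  refine ⟨(Finset.finite_toSet _).subset hsub, ?_⟩
  have h1 := Set.ncard_le_ncard hsub (Finset.finite_toSet _)
  rw [Set.ncard_coe_finset] at h1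
  exact_mod_cast h1.trans Finset.card_image_le

theorem SA_card (K : ℝ) (hK : 1 ≤ K) : ∃ C R₀ : ℝ, 1 ≤ C ∧ 1 ≤ R₀ ∧ ∀ R T Z : ℝ, R₀ ≤ R →
    R ^ (-(1 : ℝ) / 40000) ≤ T → T ≤ R ^ ((1 : ℝ) / 40000) → R ^ (2 : ℝ) ≤ Z →
    Z ≤ R ^ ((1199 : ℝ) / 400) →
    (SA K R T Z).Finite ∧ ((SA K R T Z).ncard : ℝ) ≤ C * Z * R ^ ((19999 : ℝ) / 10000) := by
  classical
  obtain ⟨C1, R1, hC1, hR1, h1⟩ := cI1 K hK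
  obtain ⟨C2, hC2, h2⟩ := cI2 K hK
  obtain ⟨C3, hC3, h3⟩ := cI3 K hK
  obtain ⟨C4, hC4, h4⟩ := cII K hK
  obtain ⟨C5, hC5, h5⟩ := cIII K hK
  refine ⟨C1 + C2 + C3 + C4 + C5, R1, by linarith, hR1, ?_⟩
  intro R T Z hRR hTl hTu hZ hZu
  have hR : 1 ≤ R := hR1.trans hRR
  obtain ⟨Ω, hΩ⟩ : ∃ Ω : Finset (ℤ × ℤ × ℤ × ℤ × ℤ), Ω = (B5 K R T).filter fun x =>
      JS Z x ∧ bad R T x := ⟨_, rfl⟩
  obtain ⟨hf, hc⟩ := set_card (SA K R T Z) Ω (by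
    rintro P ⟨hP, x, hx, hxf, hb⟩
    refine ⟨x, ?_, hxf⟩
    rw [hΩ, Finset.mem_filter]
    exact ⟨hx, JS_of hxf hP, hb⟩)
  refine ⟨hf, hc.trans ?_⟩
  have hmem : ∀ x ∈ Ω, x ∈ B5 K R T ∧ JS Z x ∧ bad R T x := by
    intro x hx
    rw [hΩ, Finset.mem_filter] at hx
    exact hx
  obtain ⟨Ω1, hΩ1⟩ : ∃ Ω1 : Finset (ℤ × ℤ × ℤ × ℤ × ℤ), Ω1 = Ω.filter fun x =>
      |(x.1 : ℝ)| * T ^ 4 ≤ R ^ ((999 : ℝ) / 1000) ∧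
      R ^ ((9998 : ℝ) / 10000) ≤ |(x.2.1 : ℝ)| * T ^ 2 := ⟨_, rfl⟩
  obtain ⟨Ω2, hΩ2⟩ : ∃ Ω1 : Finset (ℤ × ℤ × ℤ × ℤ × ℤ), Ω1 = Ω.filter fun x =>
      x.1 ≠ 0 ∧ |(x.1 : ℝ)| * T ^ 4 ≤ R ^ ((999 : ℝ) / 1000) ∧
      |(x.2.1 : ℝ)| * T ^ 2 ≤ R ^ ((9998 : ℝ) / 10000) := ⟨_, rfl⟩
  obtain ⟨Ω3, hΩ3⟩ : ∃ Ω1 : Finset (ℤ × ℤ × ℤ × ℤ × ℤ), Ω1 = Ω.filter fun x =>
      x.1 = 0 ∧ |(x.2.1 : ℝ)| * T ^ 2 ≤ R ^ ((9998 : ℝ) / 10000) := ⟨_, rfl⟩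
  obtain ⟨Ω4, hΩ4⟩ : ∃ Ω1 : Finset (ℤ × ℤ × ℤ × ℤ × ℤ), Ω1 = Ω.filter fun x =>
      R ^ ((999 : ℝ) / 1000) ≤ |(x.1 : ℝ)| * T ^ 4 ∧
      |((dt x : ℤ) : ℝ)| * T ^ 4 ≤ R ^ ((799 : ℝ) / 400) := ⟨_, rfl⟩
  obtain ⟨Ω5, hΩ5⟩ : ∃ Ω1 : Finset (ℤ × ℤ × ℤ × ℤ × ℤ), Ω1 = Ω.filter fun x =>
      (∃ s : ℤ, s ^ 2 = x.1) ∧
      R ^ ((799 : ℝ) / 400) ≤ |((dt x : ℤ) : ℝ)| * T ^ 4 := ⟨_, rfl⟩
  have b1 := h1 R T Z Ω1 hRR hTl hTu hZ (by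
    intro x hx
    rw [hΩ1, Finset.mem_filter] at hx
    obtain ⟨k1, k2, -⟩ := hmem x hx.1
    exact ⟨k1, k2, hx.2.1, hx.2.2⟩)
  have b2 := h2 R T Z Ω2 hR hTl hTu hZ (by
    intro x hx
    rw [hΩ2, Finset.mem_filter] at hx
    obtain ⟨k1, k2, -⟩ := hmem x hx.1
    exact ⟨k1, k2, hx.2.1, hx.2.2.1, hx.2.2.2⟩)
  have b3 := h3 R T Z Ω3 hR hTl hTu hZ (by
    intro x hx
    rw [hΩ3, Finset.mem_filter] at hx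
    obtain ⟨k1, k2, -⟩ := hmem x hx.1
    exact ⟨k1, hx.2.1, hx.2.2⟩)
  have b4 := h4 R T Z Ω4 hR hTl hTu hZ hZu (by
    intro x hx
    rw [hΩ4, Finset.mem_filter] at hx
    obtain ⟨k1, k2, -⟩ := hmem x hx.1
    exact ⟨k1, k2, hx.2.1, hx.2.2⟩)
  have b5 := h5 R T Z Ω5 hR hTl hTu hZ (by
    intro x hx
    rw [hΩ5, Finset.mem_filter] at hx
    obtain ⟨k1, k2, -⟩ := hmem x hx.1
    exact ⟨k1, k2, hx.2.1, hx.2.2⟩)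
  have hsub : Ω ⊆ Ω1 ∪ (Ω2 ∪ (Ω3 ∪ (Ω4 ∪ Ω5))) := by
    intro x hx
    obtain ⟨-, -, k3⟩ := hmem x hx
    rw [Finset.mem_union, Finset.mem_union, Finset.mem_union, Finset.mem_union, hΩ1, hΩ2, hΩ3,
      hΩ4, hΩ5, Finset.mem_filter, Finset.mem_filter, Finset.mem_filter, Finset.mem_filter,
      Finset.mem_filter]
    by_cases c1 : |(x.1 : ℝ)| * T ^ 4 ≤ R ^ ((999 : ℝ) / 1000)
    · rcases le_total (|(x.2.1 : ℝ)| * T ^ 2) (R ^ ((9998 : ℝ) / 10000)) with c2 | c2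
      · by_cases c3 : x.1 = 0
        · right; right; left
          exact ⟨hx, c3, c2⟩
        · right; left
          exact ⟨hx, c3, c1, c2⟩
      · left
        exact ⟨hx, c1, c2⟩
    · by_cases c2 : |((dt x : ℤ) : ℝ)| * T ^ 4 ≤ R ^ ((799 : ℝ) / 400)
      · right; right; right; left
        exact ⟨hx, (not_le.1 c1).le, c2⟩
      · right; right; right; right
        rcases k3 with k3 | k3 | k3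
        · exact absurd k3 c1
        · exact absurd k3 c2
        · exact ⟨hx, k3, (not_le.1 c2).le⟩
  have hcard : (Ω.card : ℝ) ≤ Ω1.card + (Ω2.card + (Ω3.card + (Ω4.card + Ω5.card))) := by
    have e1 := Finset.card_le_card hsub
    have e2 := Finset.card_union_le Ω1 (Ω2 ∪ (Ω3 ∪ (Ω4 ∪ Ω5)))
    have e3 := Finset.card_union_le Ω2 (Ω3 ∪ (Ω4 ∪ Ω5))
    have e4 := Finset.card_union_le Ω3 (Ω4 ∪ Ω5)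
    have e5 := Finset.card_union_le Ω4 Ω5
    have e6 : Ω.card ≤ Ω1.card + (Ω2.card + (Ω3.card + (Ω4.card + Ω5.card))) := by omega
    exact_mod_cast e6
  refine hcard.trans ?_
  have e7 : (C1 + C2 + C3 + C4 + C5) * Z * R ^ ((19999 : ℝ) / 10000) =
      C1 * Z * R ^ ((19999 : ℝ) / 10000) + (C2 * Z * R ^ ((19999 : ℝ) / 10000) +
      (C3 * Z * R ^ ((19999 : ℝ) / 10000) + (C4 * Z * R ^ ((19999 : ℝ) / 10000) +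
      C5 * Z * R ^ ((19999 : ℝ) / 10000)))) := by ring
  rw [e7]
  linarith

theorem SB_card (K : ℝ) (hK : 1 ≤ K) : ∃ C R₀ : ℝ, 1 ≤ C ∧ 1 ≤ R₀ ∧ ∀ R T V Z : ℝ, R₀ ≤ R →
    R ^ (-(1 : ℝ) / 40000) ≤ T → T ≤ R ^ ((1 : ℝ) / 40000) → R ^ ((13 : ℝ) / 100) ≤ V →
    Real.log V ≤ R ^ ((1 : ℝ) / 3200) → R ^ (2 : ℝ) ≤ Z → Z ≤ R ^ ((1199 : ℝ) / 400) →
    (SB K R T V Z).Finite ∧ ((SB K R T V Z).ncard : ℝ) ≤ C * Z * R ^ ((1994 : ℝ) / 1000) := by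
  classical
  obtain ⟨C1, R1, hC1, hR1, h1⟩ := cIV K hK
  refine ⟨C1, R1, hC1, hR1, ?_⟩
  intro R T V Z hRR hTl hTu hV hlog hZ hZu
  obtain ⟨Ω, hΩ⟩ : ∃ Ω : Finset (ℤ × ℤ × ℤ × ℤ × ℤ), Ω = (B5 K R T).filter fun x =>
      JS Z x ∧ ¬ bad R T x ∧ ∃ p q : ℤ, Good K R T V x.1 x.2.1 x.2.2.1 x.2.2.2.1 x.2.2.2.2 p q ∧
        Chart K R T V x.1 x.2.1 x.2.2.1 x.2.2.2.1 p q := ⟨_, rfl⟩
  obtain ⟨hf, hc⟩ := set_card (SB K R T V Z) Ω (by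
    rintro P ⟨hP, x, hx, hxf, hb, hg⟩
    refine ⟨x, ?_, hxf⟩
    rw [hΩ, Finset.mem_filter]
    exact ⟨hx, JS_of hxf hP, hb, hg⟩)
  refine ⟨hf, hc.trans (h1 R T V Z Ω hRR hTl hTu hV hlog hZ hZu ?_)⟩
  intro x hx
  rw [hΩ, Finset.mem_filter] at hx
  obtain ⟨k1, k2, k3, k4⟩ := hx
  unfold bad at k3
  push Not at k3
  exact ⟨k1, k2, k3.2.2, k3.1.le, k3.2.1.le, k4⟩

end Pool.Agent.J4H76.HB
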