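import Mathlib
import Pool.Agent.J4H76.HB.N7

/-! The curves from forms of a large shape, with a small second invariant. -/

set_option autoImplicit false

namespace Pool.Agent.J4H76.HB

open Pool.Agent.R418.HL (bx bx_card Good Chart InBox invI invJ ab ab_eq abs3 invI_shift
  invJ_shift)
open Pool.Agent.W654.HZ.CLT (card_Icc_le mem_Icc_of)

/-- the shifted form -/
def shf (n : ℤ) (x : ℤ × ℤ × ℤ × ℤ × ℤ) : ℤ × ℤ × ℤ × ℤ × ℤ :=
  (x.1, x.2.1 + n * x.1, x.2.2.1 + 2 * n * x.2.1 + n ^ 2 * x.1,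
      x.2.2.2.1 + 3 * n * x.2.2.1 + 3 * n ^ 2 * x.2.1 + n ^ 3 * x.1,
      x.2.2.2.2 + 4 * n * x.2.2.2.1 + 6 * n ^ 2 * x.2.2.1 + 4 * n ^ 3 * x.2.1 + n ^ 4 * x.1)

lemma frm_shf {P : ℤ × ℤ} {x : ℤ × ℤ × ℤ × ℤ × ℤ} (n : ℤ) (h : frm P x) : frm P (shf n x) := by
  refine ⟨?_, ?_⟩
  · rw [← h.1]
    exact invI_shift _ _ _ _ _ _
  · rw [← h.2]
    exact invJ_shift _ _ _ _ _ _

lemma shf_mem {K R T : ℝ} (hK : 1 ≤ K) (hR1 : 1 ≤ R) (hT1 : 1 ≤ T)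
    {x : ℤ × ℤ × ℤ × ℤ × ℤ} (hx : x ∈ B5 K R T) {n : ℤ} (hn0 : (0 : ℝ) ≤ n)
    (hn : (n : ℝ) ≤ T ^ 2) : shf n x ∈ B5 (16 * K) R T := by
  have hT0 : 0 < T := by linarith
  have hT4 : 0 < T ^ 4 := by positivity
  have hT2 : 0 < T ^ 2 := by positivity
  have hK0 : 0 < K := by linarith
  have hR0 : 0 < R := by linarith
  have hmem : ∀ a b c d e : ℤ, |(a : ℝ)| * T ^ 4 ≤ 16 * K * R → |(b : ℝ)| * T ^ 2 ≤ 16 * K * R →
      |(c : ℝ)| ≤ 16 * K * R → |(d : ℝ)| ≤ 16 * K * (R * T ^ 2) →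
      |(e : ℝ)| ≤ 16 * K * (R * T ^ 4) → (a, b, c, d, e) ∈ B5 (16 * K) R T := by
    intro a b c d e ha hb hc hd he
    unfold B5
    rw [Finset.mem_product, Finset.mem_product, Finset.mem_product, Finset.mem_product]
    refine ⟨?_, ?_, ?_, ?_, ?_⟩
    · refine mem_Icc_of _ _ ?_
      rw [le_div_iff₀ hT4]
      exact ha
    · refine mem_Icc_of _ _ ?_
      rw [le_div_iff₀ hT2]
      exact hb
    · exact mem_Icc_of _ _ hc
    · exact mem_Icc_of _ _ hd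
    · exact mem_Icc_of _ _ he
  obtain ⟨ha, hb, hc, hd, he⟩ := B5_mem hT0 hx
  obtain ⟨a, b, c, d, e⟩ := x
  dsimp only at ha hb hc hd he
  unfold shf
  dsimp only
  obtain ⟨ν, hν⟩ : ∃ ν : ℝ, ν = ((n : ℤ) : ℝ) := ⟨_, rfl⟩
  rw [← hν] at hn hn0
  have a0 := abs_nonneg (a : ℝ)
  have b0 := abs_nonneg (b : ℝ)
  have c0' := abs_nonneg (c : ℝ)
  have d0' := abs_nonneg (d : ℝ)
  have hKR : 0 ≤ K * R := by positivity
  have hKR2 : 0 ≤ K * (R * T ^ 2) := by positivity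
  have hKR4 : 0 ≤ K * (R * T ^ 4) := by positivity
  apply hmem
  · linarith
  · push_cast
    rw [← hν]
    calc |(b : ℝ) + ν * a| * T ^ 2 ≤ (|(b : ℝ)| + ν * |(a : ℝ)|) * T ^ 2 := by
          gcongr
          refine (abs_add_le _ _).trans ?_
          rw [abs_mul, abs_of_nonneg hn0]
      _ ≤ (|(b : ℝ)| + T ^ 2 * |(a : ℝ)|) * T ^ 2 := by gcongr
      _ = |(b : ℝ)| * T ^ 2 + |(a : ℝ)| * T ^ 4 := by ring
      _ ≤ 16 * K * R := by linarith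
  · push_cast
    rw [← hν]
    calc |(c : ℝ) + 2 * ν * b + ν ^ 2 * a| ≤ |(c : ℝ)| + 2 * ν * |(b : ℝ)| +
          ν ^ 2 * |(a : ℝ)| := by
          refine (abs3 _ _ _).trans ?_
          rw [abs_mul, abs_mul, abs_mul, abs_pow, abs_of_nonneg hn0,
            abs_of_pos (by norm_num : (0 : ℝ) < 2)]
      _ ≤ |(c : ℝ)| + 2 * T ^ 2 * |(b : ℝ)| + (T ^ 2) ^ 2 * |(a : ℝ)| := by gcongr
      _ = |(c : ℝ)| + 2 * (|(b : ℝ)| * T ^ 2) + |(a : ℝ)| * T ^ 4 := by ring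
      _ ≤ 16 * K * R := by linarith
  · push_cast
    rw [← hν]
    calc |(d : ℝ) + 3 * ν * c + 3 * ν ^ 2 * b + ν ^ 3 * a| ≤
          |(d : ℝ)| + 3 * ν * |(c : ℝ)| + 3 * ν ^ 2 * |(b : ℝ)| + ν ^ 3 * |(a : ℝ)| := by
          refine (abs_add_le _ _).trans ?_
          refine (add_le_add_left (abs3 _ _ _) _).trans ?_
          rw [abs_mul, abs_mul, abs_mul, abs_mul, abs_mul, abs_pow, abs_pow,
            abs_of_nonneg hn0, abs_of_pos (by norm_num : (0 : ℝ) < 3)]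
      _ ≤ |(d : ℝ)| + 3 * T ^ 2 * |(c : ℝ)| + 3 * (T ^ 2) ^ 2 * |(b : ℝ)| +
          (T ^ 2) ^ 3 * |(a : ℝ)| := by gcongr
      _ = |(d : ℝ)| + (3 * |(c : ℝ)| + 3 * (|(b : ℝ)| * T ^ 2) + |(a : ℝ)| * T ^ 4) *
          T ^ 2 := by ring
      _ ≤ K * (R * T ^ 2) + (3 * (K * R) + 3 * (K * R) + K * R) * T ^ 2 := by gcongr
      _ = 8 * (K * (R * T ^ 2)) := by ring
      _ ≤ 16 * K * (R * T ^ 2) := by linarith
  · push_cast
    rw [← hν]
    calc |(e : ℝ) + 4 * ν * d + 6 * ν ^ 2 * c + 4 * ν ^ 3 * b + ν ^ 4 * a| ≤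
          |(e : ℝ)| + 4 * ν * |(d : ℝ)| + 6 * ν ^ 2 * |(c : ℝ)| + 4 * ν ^ 3 * |(b : ℝ)| +
            ν ^ 4 * |(a : ℝ)| := by
          refine (abs_add_le _ _).trans ?_
          refine (add_le_add_left (abs_add_le _ _) _).trans ?_
          refine (add_le_add_left (add_le_add_left (abs3 _ _ _) _) _).trans ?_
          rw [abs_mul, abs_mul, abs_mul, abs_mul, abs_mul, abs_mul, abs_mul, abs_pow, abs_pow,
            abs_pow, abs_of_nonneg hn0, abs_of_pos (by norm_num : (0 : ℝ) < 4),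
            abs_of_pos (by norm_num : (0 : ℝ) < 6)]
      _ ≤ |(e : ℝ)| + 4 * T ^ 2 * |(d : ℝ)| + 6 * (T ^ 2) ^ 2 * |(c : ℝ)| +
          4 * (T ^ 2) ^ 3 * |(b : ℝ)| + (T ^ 2) ^ 4 * |(a : ℝ)| := by gcongr
      _ = |(e : ℝ)| + 4 * T ^ 2 * |(d : ℝ)| + (6 * |(c : ℝ)| +
          4 * (|(b : ℝ)| * T ^ 2) + |(a : ℝ)| * T ^ 4) * T ^ 4 := by ring
      _ ≤ K * (R * T ^ 4) + 4 * T ^ 2 * (K * (R * T ^ 2)) + (6 * (K * R) + 4 * (K * R) +
          K * R) * T ^ 4 := by gcongr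
      _ = 16 * (K * (R * T ^ 4)) := by ring
      _ = 16 * K * (R * T ^ 4) := by ring

/-- the number of forms of a large shape -/
theorem cV (K : ℝ) (hK : 1 ≤ K) : ∃ C : ℝ, 1 ≤ C ∧
    ∀ (R T Z : ℝ) (Ω : Finset (ℤ × ℤ × ℤ × ℤ × ℤ)), 1 ≤ R → 1 ≤ T → T ^ 4 ≤ K * R →
    R ^ (2 : ℝ) ≤ Z → (∀ x ∈ Ω, x ∈ B5 (16 * K) R T ∧ JS Z x ∧ x.1 ≠ 0) →
    (Ω.card : ℝ) ≤ C * Z * R ^ (2 + (2 : ℝ) / 1000000) := by
  classical
  obtain ⟨c, hc⟩ : ∃ c : ℝ, c = 300 * K ^ 2 + 4000000 := ⟨_, rfl⟩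
  have hK2 : 1 ≤ K ^ 2 := one_le_pow₀ hK
  have hc1 : 1 ≤ c := by linarith
  refine ⟨1089 * K ^ 2 * (3267 * K ^ 2 + 32 * c ^ 2), ?_, ?_⟩
  · have h1 : 1 ≤ c ^ 2 := one_le_pow₀ hc1
    nlinarith
  intro R T Z Ω hR1 hT1 hTR hZ h
  have hR0 : (0 : ℝ) < R := by linarith
  have hK0 : 0 < K := by linarith
  have hmono : ∀ s t : ℝ, s ≤ t → R ^ s ≤ R ^ t := fun s t h =>
    Real.rpow_le_rpow_of_exponent_le hR1 h
  have hpos : ∀ s : ℝ, 0 < R ^ s := fun s => Real.rpow_pos_of_pos hR0 s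
  have hadd : ∀ s t : ℝ, R ^ s * R ^ t = R ^ (s + t) := fun s t => (Real.rpow_add hR0 s t).symm
  have hZ0 : 0 < Z := lt_of_lt_of_le (hpos _) hZ
  have hT0 : 0 < T := by linarith
  have hT2 : 0 < T ^ 2 := by positivity
  have hT4 : 0 < T ^ 4 := by positivity
  have hT21 : 1 ≤ T ^ 2 := one_le_pow₀ hT1
  have hT41 : 1 ≤ T ^ 4 := one_le_pow₀ hT1
  have hT2R : T ^ 2 ≤ K * R := by
    refine le_trans ?_ hTR
    exact pow_le_pow_right₀ hT1 (by norm_num)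
  have hKR1 : 1 ≤ K * R := one_le_mul_of_one_le_of_one_le hK hR1
  have hA1 : 1 ≤ K * R / T ^ 4 := by
    rw [le_div_iff₀ hT4, one_mul]
    exact hTR
  have hB1 : 1 ≤ K * R / T ^ 2 := by
    rw [le_div_iff₀ hT2, one_mul]
    exact hT2R
  have hA0 : 16 * K * R / T ^ 4 = 16 * (K * R / T ^ 4) := by ring
  have hB0 : 16 * K * R / T ^ 2 = 16 * (K * R / T ^ 2) := by ring
  have hR3 : R ≤ R ^ (3 : ℝ) := by
    have := hmono 1 3 (by norm_num)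
    rwa [Real.rpow_one] at this
  have hR23 : R ^ 2 ≤ R ^ (3 : ℝ) := by
    have := hmono 2 3 (by norm_num)
    refine le_trans (le_of_eq ?_) this
    rw [← Real.rpow_natCast]; norm_num
  have hR13 : 1 ≤ R ^ (3 : ℝ) := Real.one_le_rpow hR1 (by norm_num)
  have hKK : K ≤ K ^ 2 := by nlinarith
  obtain ⟨M, hM⟩ : ∃ M : ℝ, M = (16 * K) * R + (16 * K * R / T ^ 2) ^ 2 + 1 := ⟨_, rfl⟩
  have hM1 : 1 ≤ M := by rw [hM]; nlinarith [sq_nonneg (16 * K * R / T ^ 2)]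
  have hMu : M ≤ (300 * K ^ 2) * R ^ (3 : ℝ) := by
    have e1 : (16 * K * R / T ^ 2) ^ 2 ≤ 256 * K ^ 2 * R ^ (3 : ℝ) := by
      have e2 : 16 * K * R / T ^ 2 ≤ 16 * K * R := div_le_self (by positivity) hT21
      calc (16 * K * R / T ^ 2) ^ 2 ≤ (16 * K * R) ^ 2 :=
            pow_le_pow_left₀ (by positivity) e2 2
        _ = 256 * K ^ 2 * R ^ 2 := by ring
        _ ≤ _ := by gcongr
    have e4 : K * R ≤ K ^ 2 * R ^ (3 : ℝ) := by gcongr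
    have e5 : 1 ≤ K ^ 2 * R ^ (3 : ℝ) := one_le_mul_of_one_le_of_one_le hK2 hR13
    rw [hM]
    linarith
  have hlM := log_small (300 * K ^ 2) (by linarith) hR1 hM1 hMu
  have hlA : 1 + Real.log (16 * K * R / T ^ 4) ≤ c * R ^ ((1 : ℝ) / 1000000) := by
    rw [hc]
    apply log_small (300 * K ^ 2) (by linarith) hR1 (by rw [hA0]; linarith)
    have e1 : 16 * K * R / T ^ 4 ≤ 16 * K * R := div_le_self (by positivity) hT41
    have e4 : K * R ≤ K ^ 2 * R ^ (3 : ℝ) := by gcongr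
    linarith
  rw [← hc] at hlM
  have hcount := cntJ (K := 16 * K) (R := R) (T := T) (Z := Z) (A₀ := 16 * K * R / T ^ 4)
    (B₀ := 16 * K * R / T ^ 2)
    (D₀ := 33 * K * (R * T ^ 2)) (M := M) (by positivity) hR0.le hZ0.le Ω
    (by rw [hA0]; linarith) (by rw [hB0]; linarith) (by positivity) (le_of_eq hM.symm)
    (by
      intro x hx
      obtain ⟨h1, h2, h3⟩ := h x hx
      obtain ⟨g1, g2, g3, g4, g5⟩ := B5_mem hT0 h1
      refine ⟨h3, ?_, ?_, g3, g5, h2⟩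
      · rw [le_div_iff₀ hT4]
        exact g1
      · rw [le_div_iff₀ hT2]
        exact g2)
    (by
      intro a b c'
      have h1 : ((Ω.filter fun x => x.1 = a ∧ x.2.1 = b ∧ x.2.2.1 = c').image
          fun x => x.2.2.2.1) ⊆ bx (16 * K * (R * T ^ 2)) := by
        intro d hd
        rw [Finset.mem_image] at hd
        obtain ⟨x, hx, rfl⟩ := hd
        rw [Finset.mem_filter] at hx
        exact mem_Icc_of _ _ (B5_mem hT0 (h x hx.1).1).2.2.2.1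
      have h2 : ((bx (16 * K * (R * T ^ 2))).card : ℝ) ≤ 33 * K * (R * T ^ 2) := by
        apply bx_card (by positivity)
        have : 1 ≤ K * R * T ^ 2 := one_le_mul_of_one_le_of_one_le hKR1 hT21
        linarith
      refine le_trans ?_ h2
      exact_mod_cast Finset.card_le_card h1)
  obtain ⟨lam, hlam⟩ : ∃ lam : ℝ, lam = c * R ^ ((1 : ℝ) / 1000000) := ⟨_, rfl⟩
  rw [← hlam] at hlM hlA
  have hlam0 : 0 < lam := by
    rw [hlam]
    have := hpos ((1 : ℝ) / 1000000)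
    positivity
  have hlM0 : 0 ≤ 1 + Real.log M := by
    have := Real.log_nonneg hM1
    linarith
  have hlA0 : 0 ≤ 1 + Real.log (16 * K * R / T ^ 4) := by
    have := Real.log_nonneg (show 1 ≤ 16 * K * R / T ^ 4 by rw [hA0]; linarith)
    linarith
  have s1 : 33 * K * (R * T ^ 2) * (2 * (16 * K * R / T ^ 2) + 1) ≤ 1089 * K ^ 2 * R ^ 2 := by
    calc 33 * K * (R * T ^ 2) * (2 * (16 * K * R / T ^ 2) + 1) ≤
          33 * K * (R * T ^ 2) * (33 * (K * R / T ^ 2)) := by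
          refine mul_le_mul_of_nonneg_left ?_ (by positivity)
          rw [hB0]
          linarith
      _ = _ := by
        field_simp
        ring
  have hR2 : R ^ 2 = R ^ (2 : ℝ) := by
    rw [← Real.rpow_natCast]; norm_num
  have s2 : (2 * (16 * K * R / T ^ 4) + 1) * (4 * ((16 * K) * (R * T ^ 4)) + 2 * ((16 * K) * R) + 3) ≤
      3267 * K ^ 2 * Z := by
    have e1 : K * R ≤ K * (R * T ^ 4) := by
      have : K * R * 1 ≤ K * R * T ^ 4 := mul_le_mul_of_nonneg_left hT41 (by positivity)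
      linarith
    calc (2 * (16 * K * R / T ^ 4) + 1) * (4 * ((16 * K) * (R * T ^ 4)) + 2 * ((16 * K) * R) + 3)
        ≤ (33 * (K * R / T ^ 4)) * (99 * (K * (R * T ^ 4))) := by
          refine mul_le_mul (by rw [hA0]; linarith) (by linarith) (by positivity) (by positivity)
      _ = 3267 * K ^ 2 * R ^ 2 := by
          field_simp
          ring
      _ ≤ 3267 * K ^ 2 * Z := by rw [hR2]; gcongr
  have s3 : 32 * Z * (1 + Real.log M) * (1 + Real.log (16 * K * R / T ^ 4)) ≤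
      32 * Z * lam * lam := by
    gcongr
  have hlam2 : lam * lam = c ^ 2 * R ^ ((2 : ℝ) / 1000000) := by
    rw [hlam]
    have : R ^ ((1 : ℝ) / 1000000) * R ^ ((1 : ℝ) / 1000000) = R ^ ((2 : ℝ) / 1000000) := by
      rw [hadd]; norm_num
    calc _ = c ^ 2 * (R ^ ((1 : ℝ) / 1000000) * R ^ ((1 : ℝ) / 1000000)) := by ring
      _ = _ := by rw [this]
  have hR2' : (1 : ℝ) ≤ R ^ ((2 : ℝ) / 1000000) := Real.one_le_rpow hR1 (by norm_num)
  calc (Ω.card : ℝ) ≤ _ := hcount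
    _ = (33 * K * (R * T ^ 2) * (2 * (16 * K * R / T ^ 2) + 1)) *
        ((2 * (16 * K * R / T ^ 4) + 1) * (4 * ((16 * K) * (R * T ^ 4)) + 2 * ((16 * K) * R) + 3) +
        32 * Z * (1 + Real.log M) * (1 + Real.log (16 * K * R / T ^ 4))) := by ring
    _ ≤ (1089 * K ^ 2 * R ^ 2) * (3267 * K ^ 2 * Z + 32 * Z * lam * lam) := by gcongr
    _ = 1089 * K ^ 2 * R ^ 2 * Z * (3267 * K ^ 2 + 32 * (lam * lam)) := by ring
    _ ≤ 1089 * K ^ 2 * R ^ 2 * Z * (3267 * K ^ 2 * R ^ ((2 : ℝ) / 1000000) +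
        32 * (c ^ 2 * R ^ ((2 : ℝ) / 1000000))) := by
      rw [hlam2]
      have : 3267 * K ^ 2 ≤ 3267 * K ^ 2 * R ^ ((2 : ℝ) / 1000000) :=
        le_mul_of_one_le_right (by positivity) hR2'
      gcongr
    _ = 1089 * K ^ 2 * (3267 * K ^ 2 + 32 * c ^ 2) * Z * (R ^ 2 * R ^ ((2 : ℝ) / 1000000)) := by
      ring
    _ = _ := by
      rw [hR2, hadd]

theorem SC_card (K : ℝ) (hK : 1 ≤ K) : ∃ C : ℝ, 1 ≤ C ∧ ∀ R T Z : ℝ, 1 ≤ R →
    R ^ ((1 : ℝ) / 40000) ≤ T → R ^ (2 : ℝ) ≤ Z →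
    (SC K R T Z).Finite ∧ ((SC K R T Z).ncard : ℝ) ≤ C * Z * R ^ ((99998 : ℝ) / 50000) := by
  classical
  obtain ⟨C, hC, hcV⟩ := cV K hK
  refine ⟨2 * C, by linarith, ?_⟩
  intro R T Z hR1 hTl hZ
  have hK0 : 0 < K := by linarith
  have hR0 : 0 < R := by linarith
  have hZ0 : 0 < Z := lt_of_lt_of_le (Real.rpow_pos_of_pos hR0 _) hZ
  have hT1 : 1 ≤ T := (Real.one_le_rpow hR1 (by norm_num)).trans hTl
  have hT0 : 0 < T := by linarith
  have hT4 : 0 < T ^ 4 := by positivity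
  have hT2 : 0 < T ^ 2 := by positivity
  have hT21 : 1 ≤ T ^ 2 := one_le_pow₀ hT1
  have hpos : ∀ s : ℝ, 0 < R ^ s := fun s => Real.rpow_pos_of_pos hR0 s
  have hadd : ∀ s t : ℝ, R ^ s * R ^ t = R ^ (s + t) := fun s t => (Real.rpow_add hR0 s t).symm
  by_cases hTR : T ^ 4 ≤ K * R
  swap
  · have he : SC K R T Z = ∅ := by
      rw [Set.eq_empty_iff_forall_notMem]
      rintro P ⟨-, x, hx, -, ha0⟩
      apply hTR
      have h1 : (1 : ℝ) ≤ |(x.1 : ℝ)| := by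
        have : (1 : ℤ) ≤ |x.1| := Int.one_le_abs ha0
        exact_mod_cast this
      have ha := (B5_mem hT0 hx).1
      nlinarith
    rw [he]
    refine ⟨Set.finite_empty, ?_⟩
    rw [Set.ncard_empty]
    have := hpos ((99998 : ℝ) / 50000)
    push_cast
    positivity
  obtain ⟨F, hF⟩ : ∃ F : Finset (ℤ × ℤ × ℤ × ℤ × ℤ), F = (B5 (16 * K) R T).filter fun x =>
      JS Z x ∧ x.1 ≠ 0 := ⟨_, rfl⟩
  have hFc := hcV R T Z F hR1 hT1 hTR hZ (by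
    intro x hx
    rw [hF, Finset.mem_filter] at hx
    exact hx)
  have hfm : ∀ (P : ℤ × ℤ) (x : ℤ × ℤ × ℤ × ℤ × ℤ) (n : ℤ), |(P.2 : ℝ)| ≤ Z → x ∈ B5 K R T →
      frm P x → x.1 ≠ 0 → (0 : ℝ) ≤ n → (n : ℝ) ≤ T ^ 2 → shf n x ∈ F := by
    intro P x n hP hx hf h0 hn0 hn
    rw [hF, Finset.mem_filter]
    exact ⟨shf_mem hK hR1 hT1 hx hn0 hn, JS_of (frm_shf n hf) hP, h0⟩
  obtain ⟨hfinS, -⟩ := set_card (SC K R T Z) F (by
    rintro P ⟨hP, x, hx, hxf, h0⟩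
    refine ⟨shf ((0 : ℤ)) x, hfm P x 0 hP hx hxf h0 (by norm_num) ?_, frm_shf 0 hxf⟩
    push_cast
    positivity)
  refine ⟨hfinS, ?_⟩
  have hch : ∀ P : ℤ × ℤ, ∃ x : ℤ × ℤ × ℤ × ℤ × ℤ, P ∈ SC K R T Z →
      |(P.2 : ℝ)| ≤ Z ∧ x ∈ B5 K R T ∧ frm P x ∧ x.1 ≠ 0 := by
    intro P
    by_cases hP : P ∈ SC K R T Z
    · obtain ⟨h1, x, h⟩ := hP
      exact ⟨x, fun _ => ⟨h1, h⟩⟩
    · exact ⟨(0, 0, 0, 0, 0), fun h => absurd h hP⟩
  choose φ hφ using hch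
  obtain ⟨N, hN⟩ : ∃ N : ℕ, N = ⌊T ^ 2⌋₊ := ⟨_, rfl⟩
  have hN1 : (N : ℝ) ≤ T ^ 2 := by rw [hN]; exact Nat.floor_le hT2.le
  have hN2 : T ^ 2 / 2 ≤ N := by
    have h1 := Nat.lt_floor_add_one (T ^ 2)
    have h2 : 1 ≤ N := by rw [hN]; exact Nat.le_floor (by simpa using hT21)
    have h3 : (1 : ℝ) ≤ N := by exact_mod_cast h2
    rw [← hN] at h1
    linarith
  have hcard : (hfinS.toFinset ×ˢ Finset.range N).card ≤ F.card := by
    apply Finset.card_le_card_of_injOn (fun Pn : (ℤ × ℤ) × ℕ => shf (Pn.2 : ℤ) (φ Pn.1))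
    · rintro ⟨P, n⟩ hPn
      rw [Finset.mem_coe, Finset.mem_product, Set.Finite.mem_toFinset, Finset.mem_range] at hPn
      obtain ⟨h1, h2, h3, h4⟩ := hφ P hPn.1
      have hn : ((n : ℤ) : ℝ) ≤ T ^ 2 := by
        have : (n : ℝ) ≤ N := by exact_mod_cast hPn.2.le
        push_cast
        linarith
      have hn0 : (0 : ℝ) ≤ ((n : ℤ) : ℝ) := by push_cast; exact Nat.cast_nonneg n
      rw [Finset.mem_coe]
      exact hfm P (φ P) n h1 h2 h3 h4 hn0 hn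
    · rintro ⟨P, n⟩ hPn ⟨P', n'⟩ hPn' h
      rw [Finset.mem_coe, Finset.mem_product, Set.Finite.mem_toFinset, Finset.mem_range] at hPn hPn'
      obtain ⟨-, -, hk, h0⟩ := hφ P hPn.1
      obtain ⟨-, -, hk', -⟩ := hφ P' hPn'.1
      dsimp only at h hk hk' h0
      have hPP : P = P' := by
        rw [← frm_ab (frm_shf (n : ℤ) hk), h, frm_ab (frm_shf (n' : ℤ) hk')]
      subst hPP
      have h2 : (φ P).2.1 + (n : ℤ) * (φ P).1 = (φ P).2.1 + (n' : ℤ) * (φ P).1 :=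
        congrArg (fun x : ℤ × ℤ × ℤ × ℤ × ℤ => x.2.1) h
      have h3 : (n : ℤ) = n' := by
        have h4 : (n : ℤ) * (φ P).1 = n' * (φ P).1 := by linarith
        exact mul_right_cancel₀ h0 h4
      have h4 : n = n' := by exact_mod_cast h3
      rw [h4]
  rw [Finset.card_product, Finset.card_range] at hcard
  have hcardR : ((SC K R T Z).ncard : ℝ) * N ≤ F.card := by
    rw [Set.ncard_eq_toFinset_card _ hfinS]
    exact_mod_cast hcard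
  have h1 : ((SC K R T Z).ncard : ℝ) * (R ^ ((1 : ℝ) / 20000) / 2) ≤
      C * Z * R ^ (2 + (2 : ℝ) / 1000000) := by
    have h2 : R ^ ((1 : ℝ) / 20000) ≤ T ^ 2 := by
      have h3 := pow_le_pow_left₀ (Real.rpow_pos_of_pos hR0 _).le hTl 2
      rw [← Real.rpow_natCast, ← Real.rpow_mul hR0.le] at h3
      refine le_trans (le_of_eq ?_) h3
      norm_num
    calc ((SC K R T Z).ncard : ℝ) * (R ^ ((1 : ℝ) / 20000) / 2) ≤ ((SC K R T Z).ncard : ℝ) * N := by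
          gcongr
          linarith
      _ ≤ F.card := hcardR
      _ ≤ _ := hFc
  have h2 : C * Z * R ^ (2 + (2 : ℝ) / 1000000) ≤
      C * Z * (R ^ ((99998 : ℝ) / 50000) * R ^ ((1 : ℝ) / 20000)) := by
    rw [hadd]
    have := Real.rpow_le_rpow_of_exponent_le hR1
      (show 2 + (2 : ℝ) / 1000000 ≤ (99998 : ℝ) / 50000 + 1 / 20000 by norm_num)
    gcongr
  have h3 : 0 < R ^ ((1 : ℝ) / 20000) := Real.rpow_pos_of_pos hR0 _
  have h4 : ((SC K R T Z).ncard : ℝ) * R ^ ((1 : ℝ) / 20000) ≤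
      (2 * C * Z * R ^ ((99998 : ℝ) / 50000)) * R ^ ((1 : ℝ) / 20000) := by linarith
  exact le_of_mul_le_mul_right h4 h3

end Pool.Agent.J4H76.HB
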