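import Mathlib
import Pool.Agent.J4H76.HB.N8

/-! The curves with a small point. -/

set_option autoImplicit false

namespace Pool.Agent.J4H76.HB

open Pool.Agent.R418.HL (bx bx_card)
open Pool.Agent.W654.HZ.CLT (card_Icc_le mem_Icc_of)

/-- the curves with a given first coordinate -/
lemma cx {R Z : ℝ} (hR : 100 ≤ R) (hZ : R ^ 2 ≤ Z) (hZ3 : Z ≤ R ^ 3) (x : ℤ) (hx0 : x ≠ 0)
    (hx : (x : ℝ) ≤ R ^ 3) (F : Finset (ℤ × ℤ))
    (hF : ∀ P ∈ F, |(P.1 : ℝ)| ≤ R ^ 2 ∧ |(P.2 : ℝ)| ≤ Z ∧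
      ∃ y : ℤ, y ^ 2 = x ^ 3 + P.1 * x + P.2) :
    (F.card : ℝ) ≤ 20 * Z * R ^ ((3 : ℝ) / 2) * (1 / |(x : ℝ)|) := by
  classical
  have hR0 : (0 : ℝ) < R := by linarith
  have hR1 : (1 : ℝ) ≤ R := by linarith
  obtain ⟨S, hS⟩ : ∃ S : ℝ, S = R ^ ((3 : ℝ) / 2) := ⟨_, rfl⟩
  rw [← hS]
  have hS0 : 0 < S := by rw [hS]; exact Real.rpow_pos_of_pos hR0 _
  have hS2 : S ^ 2 = R ^ 3 := by
    rw [hS, ← Real.rpow_natCast, ← Real.rpow_mul hR0.le, ← Real.rpow_natCast]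
    norm_num
  have hR2 : 1 ≤ R ^ 2 := one_le_pow₀ hR1
  have hZ0 : 0 < Z := by linarith
  have hZ1 : 1 ≤ Z := by linarith
  have hSR : R ≤ S := by
    refine (abs_le_of_sq_le_sq' ?_ hS0.le).2
    rw [hS2]
    nlinarith
  have hRZ : R ≤ Z := by nlinarith
  have hxr : (x : ℝ) ≠ 0 := by exact_mod_cast hx0
  have hxa : 0 < |(x : ℝ)| := abs_pos.2 hxr
  have hxa1 : 1 ≤ |(x : ℝ)| := by
    have : (1 : ℤ) ≤ |x| := Int.one_le_abs hx0
    exact_mod_cast this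
  have hch : ∀ P : ℤ × ℤ, ∃ y : ℤ, P ∈ F → 0 ≤ y ∧ (y : ℝ) ^ 2 = (x : ℝ) ^ 3 + P.1 * x + P.2 := by
    intro P
    by_cases hP : P ∈ F
    · obtain ⟨-, -, y, hy⟩ := hF P hP
      refine ⟨|y|, fun _ => ⟨abs_nonneg y, ?_⟩⟩
      have h1 : |y| ^ 2 = x ^ 3 + P.1 * x + P.2 := by rw [sq_abs]; exact hy
      exact_mod_cast h1
    · exact ⟨0, fun h => absurd h hP⟩
  choose ψ hψ using hch
  -- the fibres
  have hX0 : 0 ≤ 2 * Z / |(x : ℝ)| + 1 := by positivity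
  have hfib : F.card ≤ ⌊2 * Z / |(x : ℝ)| + 1⌋₊ * (F.image ψ).card := by
    apply Finset.card_le_mul_card_image
    intro y _
    apply Nat.le_floor
    obtain ⟨G, hG⟩ : ∃ G, G = F.filter fun P => ψ P = y := ⟨_, rfl⟩
    rw [← hG]
    have hmem : ∀ P ∈ G, P ∈ F ∧ (y : ℝ) ^ 2 = (x : ℝ) ^ 3 + P.1 * x + P.2 := by
      intro P hP
      rw [hG, Finset.mem_filter] at hP
      refine ⟨hP.1, ?_⟩
      rw [← hP.2]
      exact (hψ P hP.1).2
    have h3 : G.card = (G.image fun P => P.1).card := by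
      refine (Finset.card_image_of_injOn ?_).symm
      rintro ⟨A, B⟩ hP ⟨A', B'⟩ hP' h
      dsimp only at h
      subst h
      have e1 := (hmem _ hP).2
      have e2 := (hmem _ hP').2
      dsimp only at e1 e2
      have e3 : (B : ℝ) = B' := by linarith
      have e4 : B = B' := by exact_mod_cast e3
      rw [e4]
    rw [h3]
    apply card_diff _ _ (by positivity)
    intro A hA A' hA'
    rw [Finset.mem_image] at hA hA'
    obtain ⟨P, hP, rfl⟩ := hA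
    obtain ⟨P', hP', rfl⟩ := hA'
    obtain ⟨p1, p2⟩ := hmem P hP
    obtain ⟨q1, q2⟩ := hmem P' hP'
    have b1 := abs_le.1 (hF P p1).2.1
    have b2 := abs_le.1 (hF P' q1).2.1
    rw [le_div_iff₀ hxa, ← abs_mul, abs_le]
    constructor <;> linarith
  have hfib' : (F.card : ℝ) ≤ (2 * Z / |(x : ℝ)| + 1) * ((F.image ψ).card : ℝ) := by
    calc (F.card : ℝ) ≤ ((⌊2 * Z / |(x : ℝ)| + 1⌋₊ * (F.image ψ).card : ℕ) : ℝ) :=
          Nat.cast_le.2 hfib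
      _ = (⌊2 * Z / |(x : ℝ)| + 1⌋₊ : ℝ) * ((F.image ψ).card : ℝ) := Nat.cast_mul _ _
      _ ≤ _ := by
        have := Nat.floor_le hX0
        gcongr
  rcases lt_or_ge (x : ℝ) (-(2 * R)) with c1 | c1
  · -- no curve
    have hFe : F = ∅ := by
      rw [Finset.eq_empty_iff_forall_notMem]
      intro P hP
      obtain ⟨hA, hB, -⟩ := hF P hP
      obtain ⟨-, h4⟩ := hψ P hP
      obtain ⟨z, hz⟩ : ∃ z : ℝ, z = -(x : ℝ) := ⟨_, rfl⟩
      have h3 : 2 * R < z := by linarith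
      have hz0 : 0 < z := by linarith
      have h4' : ((ψ P : ℤ) : ℝ) ^ 2 = -z ^ 3 - P.1 * z + P.2 := by rw [h4, hz]; ring
      have h5 : -(P.1 : ℝ) * z ≤ R ^ 2 * z := by
        have := neg_abs_le (P.1 : ℝ)
        have h6 : -(P.1 : ℝ) ≤ R ^ 2 := by linarith
        gcongr
      have h6 : (P.2 : ℝ) ≤ R ^ 3 := ((le_abs_self _).trans hB).trans hZ3
      have h7 : (2 * R) ^ 2 ≤ z ^ 2 := pow_le_pow_left₀ (by positivity) h3.le 2
      have h8 : (2 * R) ^ 3 ≤ z ^ 3 := pow_le_pow_left₀ (by positivity) h3.le 3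
      have h9 : R ^ 2 * z ≤ 1 / 4 * z ^ 3 := by
        have : R ^ 2 ≤ 1 / 4 * z ^ 2 := by linarith
        calc R ^ 2 * z ≤ 1 / 4 * z ^ 2 * z := by gcongr
          _ = _ := by ring
      have h10 : 0 < z ^ 3 := by positivity
      have h11 : 0 ≤ ((ψ P : ℤ) : ℝ) ^ 2 := sq_nonneg _
      nlinarith
    rw [hFe, Finset.card_empty]
    push_cast
    positivity
  rcases le_or_gt (x : ℝ) (2 * R) with c2 | c2
  · -- small `x`
    have hxx : |(x : ℝ)| ≤ 2 * R := abs_le.2 ⟨by linarith, c2⟩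
    have himg : ((F.image ψ).card : ℝ) ≤ 4 * S + 1 := by
      apply card_diff _ _ (by positivity)
      have key : ∀ P ∈ F, (0 : ℝ) ≤ ((ψ P : ℤ) : ℝ) ∧ ((ψ P : ℤ) : ℝ) ≤ 4 * S := by
        intro P hP
        obtain ⟨hA, hB, -⟩ := hF P hP
        obtain ⟨h0, h4⟩ := hψ P hP
        refine ⟨by exact_mod_cast h0, (abs_le_of_sq_le_sq' ?_ (by positivity)).2⟩
        rw [h4]
        have e1 : (x : ℝ) ^ 3 ≤ 8 * R ^ 3 := by
          have : |(x : ℝ)| ^ 3 ≤ (2 * R) ^ 3 := pow_le_pow_left₀ (abs_nonneg _) hxx 3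
          rw [← abs_pow] at this
          have h5 := le_abs_self ((x : ℝ) ^ 3)
          nlinarith
        have e2 : (P.1 : ℝ) * x ≤ 2 * R ^ 3 := by
          refine (le_abs_self _).trans ?_
          rw [abs_mul]
          calc |(P.1 : ℝ)| * |(x : ℝ)| ≤ R ^ 2 * (2 * R) := by gcongr
            _ = _ := by ring
        have e3 : (P.2 : ℝ) ≤ R ^ 3 := ((le_abs_self _).trans hB).trans hZ3
        have e4 : 0 < R ^ 3 := by positivity
        nlinarith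
      intro k hk k' hk'
      rw [Finset.mem_image] at hk hk'
      obtain ⟨P, hP, rfl⟩ := hk
      obtain ⟨P', hP', rfl⟩ := hk'
      obtain ⟨a1, a2⟩ := key P hP
      obtain ⟨b1, b2⟩ := key P' hP'
      rw [abs_le]
      constructor <;> linarith
    have e1 : 2 * Z / |(x : ℝ)| + 1 ≤ 4 * Z * (1 / |(x : ℝ)|) := by
      have e2 : 1 ≤ 2 * Z * (1 / |(x : ℝ)|) := by
        rw [mul_one_div, le_div_iff₀ hxa]
        linarith
      have e3 : 2 * Z / |(x : ℝ)| = 2 * Z * (1 / |(x : ℝ)|) := by ring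
      rw [e3]
      linarith
    have e4 : 4 * S + 1 ≤ 5 * S := by linarith
    calc (F.card : ℝ) ≤ _ := hfib'
      _ ≤ (4 * Z * (1 / |(x : ℝ)|)) * (5 * S) := by
        refine mul_le_mul e1 (himg.trans e4) (by positivity) (by positivity)
      _ = _ := by ring
  · -- larger `x`
    have hxp : (0 : ℝ) < x := by linarith
    obtain ⟨s, hs⟩ : ∃ s : ℝ, s = √(x : ℝ) := ⟨_, rfl⟩
    have hs0 : 0 < s := by rw [hs]; exact Real.sqrt_pos.2 hxp
    have hs2 : s ^ 2 = (x : ℝ) := by rw [hs]; exact Real.sq_sqrt hxp.le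
    have hs1 : 1 ≤ s := by
      refine (abs_le_of_sq_le_sq' ?_ hs0.le).2
      rw [hs2]
      linarith
    have key : ∀ P ∈ F, s ^ 3 / 2 ≤ ((ψ P : ℤ) : ℝ) := by
      intro P hP
      obtain ⟨hA, hB, -⟩ := hF P hP
      obtain ⟨h0, h4⟩ := hψ P hP
      have h0' : (0 : ℝ) ≤ ((ψ P : ℤ) : ℝ) := by exact_mod_cast h0
      refine (abs_le_of_sq_le_sq' ?_ h0').2
      rw [h4]
      have e1 : (s ^ 3 / 2) ^ 2 = (x : ℝ) ^ 3 / 4 := by rw [← hs2]; ring
      rw [e1]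
      have h7 : (2 * R) ^ 2 ≤ (x : ℝ) ^ 2 := pow_le_pow_left₀ (by positivity) c2.le 2
      have h8 : (2 * R) ^ 3 ≤ (x : ℝ) ^ 3 := pow_le_pow_left₀ (by positivity) c2.le 3
      have h9 : R ^ 2 * (x : ℝ) ≤ 1 / 4 * (x : ℝ) ^ 3 := by
        have : R ^ 2 ≤ 1 / 4 * (x : ℝ) ^ 2 := by linarith
        calc R ^ 2 * (x : ℝ) ≤ 1 / 4 * (x : ℝ) ^ 2 * x := by gcongr
          _ = _ := by ring
      have h5 : -(R ^ 2 * (x : ℝ)) ≤ P.1 * x := by
        have h6 := neg_abs_le ((P.1 : ℝ) * x)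
        rw [abs_mul, abs_of_pos hxp] at h6
        have h10 : |(P.1 : ℝ)| * x ≤ R ^ 2 * x := by gcongr
        linarith
      have h6 : -(R ^ 3) ≤ (P.2 : ℝ) := by
        have := neg_abs_le (P.2 : ℝ)
        linarith
      nlinarith
    have hs3 : 0 < s ^ 3 := by positivity
    have himg : ((F.image ψ).card : ℝ) ≤ (2 * R ^ 2 * s ^ 2 + 2 * Z) / s ^ 3 + 1 := by
      apply card_diff _ _ (by positivity)
      intro k hk k' hk'
      rw [Finset.mem_image] at hk hk'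
      obtain ⟨P, hP, rfl⟩ := hk
      obtain ⟨P', hP', rfl⟩ := hk'
      obtain ⟨hA, hB, -⟩ := hF P hP
      obtain ⟨hA', hB', -⟩ := hF P' hP'
      have a1 := key P hP
      have b1 := key P' hP'
      have a2 := (hψ P hP).2
      have b2 := (hψ P' hP').2
      rw [le_div_iff₀ hs3]
      calc |((ψ P : ℤ) : ℝ) - ((ψ P' : ℤ) : ℝ)| * s ^ 3 ≤
            |((ψ P : ℤ) : ℝ) - ((ψ P' : ℤ) : ℝ)| * (((ψ P : ℤ) : ℝ) + ((ψ P' : ℤ) : ℝ)) := by
            gcongr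
            linarith
        _ = |(((ψ P : ℤ) : ℝ) - ((ψ P' : ℤ) : ℝ)) * (((ψ P : ℤ) : ℝ) + ((ψ P' : ℤ) : ℝ))| := by
            rw [abs_mul, abs_of_nonneg (by linarith : 0 ≤ ((ψ P : ℤ) : ℝ) + ((ψ P' : ℤ) : ℝ))]
        _ = |((P.1 : ℝ) - P'.1) * s ^ 2 + ((P.2 : ℝ) - P'.2)| := by
            congr 1
            rw [hs2]
            linear_combination a2 - b2
        _ ≤ |((P.1 : ℝ) - P'.1) * s ^ 2| + |(P.2 : ℝ) - P'.2| := abs_add_le _ _
        _ ≤ (2 * R ^ 2) * s ^ 2 + 2 * Z := by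
            rw [abs_mul, abs_of_pos (by positivity : 0 < s ^ 2)]
            have h1 : |(P.1 : ℝ) - P'.1| ≤ 2 * R ^ 2 := (abs_sub _ _).trans (by linarith)
            have h2 : |(P.2 : ℝ) - P'.2| ≤ 2 * Z := (abs_sub _ _).trans (by linarith)
            gcongr
        _ = _ := by ring
    rw [← hs2] at hfib' hx c2 ⊢
    rw [abs_of_pos (by positivity : 0 < s ^ 2)] at hfib' ⊢
    obtain ⟨a1, ha1⟩ : ∃ a1 : ℝ, a1 = R ^ 2 / s := ⟨_, rfl⟩
    obtain ⟨b1, hb1⟩ : ∃ b1 : ℝ, b1 = Z / s ^ 3 := ⟨_, rfl⟩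
    have ha10 : 0 ≤ a1 := by rw [ha1]; positivity
    have hb10 : 0 ≤ b1 := by rw [hb1]; positivity
    have ha1S : a1 ≤ S := by
      rw [ha1, div_le_iff₀ hs0]
      refine (abs_le_of_sq_le_sq' ?_ (by positivity)).2
      calc (R ^ 2) ^ 2 = R ^ 3 * R := by ring
        _ ≤ S ^ 2 * s ^ 2 := by
          rw [hS2]
          have : R ≤ s ^ 2 := by linarith
          gcongr
        _ = _ := by ring
    have hb1S : b1 ≤ S := by
      rw [hb1, div_le_iff₀ hs3]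
      refine hZ3.trans ((abs_le_of_sq_le_sq' ?_ (by positivity)).2)
      calc (R ^ 3) ^ 2 = R ^ 3 * R ^ 3 := by ring
        _ ≤ S ^ 2 * (s ^ 2) ^ 3 := by
          rw [hS2]
          have : R ≤ s ^ 2 := by linarith
          gcongr
        _ = _ := by ring
    have hsS : s ≤ S := by
      refine (abs_le_of_sq_le_sq' ?_ hS0.le).2
      rw [hS2]
      exact hx
    have k1 : a1 * s ^ 2 ≤ Z * S := by
      calc a1 * s ^ 2 = R ^ 2 * s := by rw [ha1]; field_simp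
        _ ≤ Z * S := by gcongr
    have k2 : b1 * s ^ 2 ≤ Z * S := by
      have h1 : b1 * s ^ 2 = Z / s := by rw [hb1]; field_simp
      rw [h1]
      refine (div_le_self hZ0.le hs1).trans ?_
      exact le_mul_of_one_le_right hZ0.le (by linarith)
    have k3 : s ^ 2 ≤ Z * S := by
      calc s ^ 2 ≤ R ^ 3 := hx
        _ = R ^ 2 * R := by ring
        _ ≤ Z * S := by gcongr
    have k4 : a1 * Z ≤ Z * S := by
      calc a1 * Z ≤ S * Z := by gcongr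
        _ = _ := mul_comm _ _
    have k5 : b1 * Z ≤ Z * S := by
      calc b1 * Z ≤ S * Z := by gcongr
        _ = _ := mul_comm _ _
    have k6 : Z ≤ Z * S := le_mul_of_one_le_right hZ0.le (by linarith)
    have k7 : (2 * R ^ 2 * s ^ 2 + 2 * Z) / s ^ 3 + 1 = 2 * a1 + 2 * b1 + 1 := by
      rw [ha1, hb1]
      field_simp
    rw [k7] at himg
    calc (F.card : ℝ) ≤ _ := hfib'
      _ ≤ (2 * Z / s ^ 2 + 1) * (2 * a1 + 2 * b1 + 1) := by
        refine mul_le_mul_of_nonneg_left himg (by positivity)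
      _ = (4 * (a1 * Z) + 4 * (b1 * Z) + 2 * Z + 2 * (a1 * s ^ 2) + 2 * (b1 * s ^ 2) + s ^ 2) *
          (1 / s ^ 2) := by
        field_simp
        ring
      _ ≤ 20 * Z * S * (1 / s ^ 2) := by
        refine mul_le_mul_of_nonneg_right ?_ (by positivity)
        have : 0 < Z * S := by positivity
        linarith

/-- the curves with a small point -/
def S0 (R Z : ℝ) : Set (ℤ × ℤ) := {P | |(P.1 : ℝ)| ≤ R ^ 2 ∧ |(P.2 : ℝ)| ≤ Z ∧
  ∃ x y : ℤ, y ^ 2 = x ^ 3 + P.1 * x + P.2 ∧ (x : ℝ) ≤ R ^ 3}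

theorem S0_card {R Z : ℝ} (hR : 100 ≤ R) (hZ : R ^ 2 ≤ Z) (hZ3 : Z ≤ R ^ 3) :
    (S0 R Z).Finite ∧ ((S0 R Z).ncard : ℝ) ≤ 400 * Z * R ^ ((19 : ℝ) / 10) := by
  classical
  have hR0 : (0 : ℝ) < R := by linarith
  have hR1 : (1 : ℝ) ≤ R := by linarith
  have hR2 : 1 ≤ R ^ 2 := one_le_pow₀ hR1
  have hR3 : 1 ≤ R ^ 3 := one_le_pow₀ hR1
  have hZ0 : 0 < Z := by linarith
  have hZ1 : 1 ≤ Z := by linarith
  obtain ⟨G0, hG0⟩ : ∃ G0 : Finset (ℤ × ℤ), G0 = (bx (R ^ 2) ×ˢ bx (√Z)).image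
      (fun z : ℤ × ℤ => ((z.1, z.2 ^ 2) : ℤ × ℤ)) := ⟨_, rfl⟩
  obtain ⟨H, hH⟩ : ∃ H : ℤ → Finset (ℤ × ℤ), ∀ x, H x = (bx (R ^ 2) ×ˢ bx Z).filter
      (fun P => ∃ y : ℤ, y ^ 2 = x ^ 3 + P.1 * x + P.2) := ⟨_, fun _ => rfl⟩
  obtain ⟨G1, hG1⟩ : ∃ G1 : Finset (ℤ × ℤ), G1 = ((bx (R ^ 3)).erase 0).biUnion H := ⟨_, rfl⟩
  have hsub : S0 R Z ⊆ ((G0 ∪ G1 : Finset (ℤ × ℤ)) : Set (ℤ × ℤ)) := by
    rintro ⟨A, B⟩ ⟨hA, hB, x, y, hxy, hx⟩
    dsimp only at hA hB hxy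
    rw [Finset.mem_coe, Finset.mem_union]
    by_cases hx0 : x = 0
    · left
      rw [hG0, Finset.mem_image]
      refine ⟨(A, y), ?_, ?_⟩
      · rw [Finset.mem_product]
        refine ⟨mem_Icc_of _ _ hA, mem_Icc_of _ _ ?_⟩
        apply Real.le_sqrt_of_sq_le
        show |(y : ℝ)| ^ 2 ≤ Z
        rw [sq_abs]
        have h1 : y ^ 2 = B := by rw [hxy, hx0]; ring
        have h2 : (y : ℝ) ^ 2 = B := by exact_mod_cast h1
        rw [h2]
        exact (le_abs_self _).trans hB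
      · rw [Prod.mk.injEq]
        refine ⟨rfl, ?_⟩
        rw [hxy, hx0]; ring
    · right
      rw [hG1, Finset.mem_biUnion]
      have hxl : -(R ^ 3) ≤ (x : ℝ) := by
        by_contra hcon
        push Not at hcon
        obtain ⟨z, hz⟩ : ∃ z : ℝ, z = -(x : ℝ) := ⟨_, rfl⟩
        have h3 : 2 * R < z := by nlinarith
        have hz0 : 0 < z := by linarith
        have h4 : (y : ℝ) ^ 2 = (x : ℝ) ^ 3 + A * x + B := by exact_mod_cast hxy
        have h4' : (y : ℝ) ^ 2 = -z ^ 3 - A * z + B := by rw [h4, hz]; ring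
        have h5 : -(A : ℝ) * z ≤ R ^ 2 * z := by
          have := neg_abs_le (A : ℝ)
          have h6 : -(A : ℝ) ≤ R ^ 2 := by linarith
          gcongr
        have h6 : (B : ℝ) ≤ R ^ 3 := ((le_abs_self _).trans hB).trans hZ3
        have h7 : (2 * R) ^ 2 ≤ z ^ 2 := pow_le_pow_left₀ (by positivity) h3.le 2
        have h8 : (2 * R) ^ 3 ≤ z ^ 3 := pow_le_pow_left₀ (by positivity) h3.le 3
        have h9 : R ^ 2 * z ≤ 1 / 4 * z ^ 3 := by
          have : R ^ 2 ≤ 1 / 4 * z ^ 2 := by linarith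
          calc R ^ 2 * z ≤ 1 / 4 * z ^ 2 * z := by gcongr
            _ = _ := by ring
        have h10 : 0 < z ^ 3 := by positivity
        have h11 : 0 ≤ (y : ℝ) ^ 2 := sq_nonneg _
        nlinarith
      refine ⟨x, ?_, ?_⟩
      · rw [Finset.mem_erase]
        exact ⟨hx0, mem_Icc_of _ _ (abs_le.2 ⟨hxl, hx⟩)⟩
      · rw [hH, Finset.mem_filter, Finset.mem_product]
        exact ⟨⟨mem_Icc_of _ _ hA, mem_Icc_of _ _ hB⟩, y, hxy⟩
  refine ⟨(Finset.finite_toSet _).subset hsub, ?_⟩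
  have h1 : (S0 R Z).ncard ≤ G0.card + G1.card := by
    refine (Set.ncard_le_ncard hsub (Finset.finite_toSet _)).trans ?_
    rw [Set.ncard_coe_finset]
    exact Finset.card_union_le _ _
  obtain ⟨S, hS⟩ : ∃ S : ℝ, S = R ^ ((3 : ℝ) / 2) := ⟨_, rfl⟩
  have hS0 : 0 < S := by rw [hS]; exact Real.rpow_pos_of_pos hR0 _
  -- first part
  have hsZ : 1 ≤ √Z := by rw [Real.one_le_sqrt]; exact hZ1
  have hsZ2 : √Z * √Z = Z := Real.mul_self_sqrt hZ0.le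
  have hRs : R ≤ √Z := Real.le_sqrt_of_sq_le hZ
  have b0 : (G0.card : ℝ) ≤ 9 * Z * R := by
    have h2 : G0.card ≤ (bx (R ^ 2)).card * (bx (√Z)).card := by
      rw [hG0, ← Finset.card_product]
      exact Finset.card_image_le
    have c1 : ((bx (R ^ 2)).card : ℝ) ≤ 3 * R ^ 2 := bx_card (by positivity) (by linarith)
    have c2 : ((bx (√Z)).card : ℝ) ≤ 3 * √Z := bx_card (by positivity) (by linarith)
    calc (G0.card : ℝ) ≤ ((bx (R ^ 2)).card : ℝ) * ((bx (√Z)).card : ℝ) := by exact_mod_cast h2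
      _ ≤ (3 * R ^ 2) * (3 * √Z) := by gcongr
      _ = 9 * (R * R * √Z) := by ring
      _ ≤ 9 * (R * √Z * √Z) := by gcongr
      _ = 9 * Z * R := by rw [mul_assoc R, hsZ2]; ring
  have b1 : (G1.card : ℝ) ≤ 20 * Z * S * (2 * (1 + Real.log (R ^ 3))) := by
    have h2 : G1.card ≤ ∑ x ∈ (bx (R ^ 3)).erase 0, (H x).card := by
      rw [hG1]
      exact Finset.card_biUnion_le
    have h3 : ((∑ x ∈ (bx (R ^ 3)).erase 0, (H x).card : ℕ) : ℝ) ≤
        ∑ x ∈ (bx (R ^ 3)).erase 0, 20 * Z * S * (1 / |(x : ℝ)|) := by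
      push_cast
      apply Finset.sum_le_sum
      intro x hx
      rw [Finset.mem_erase] at hx
      rw [hS]
      have hxa := bx_abs hx.2
      apply cx hR hZ hZ3 x hx.1 ((le_abs_self _).trans hxa)
      intro P hP
      rw [hH, Finset.mem_filter, Finset.mem_product] at hP
      exact ⟨bx_abs hP.1.1, bx_abs hP.1.2, hP.2⟩
    rw [← Finset.mul_sum] at h3
    have h4 := sum_inv_bx (R ^ 3) hR3
    calc (G1.card : ℝ) ≤ ((∑ x ∈ (bx (R ^ 3)).erase 0, (H x).card : ℕ) : ℝ) := Nat.cast_le.2 h2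
      _ ≤ _ := h3
      _ ≤ _ := mul_le_mul_of_nonneg_left h4 (by positivity)
  have hlog : 1 + Real.log (R ^ 3) ≤ 9 * R ^ ((4 : ℝ) / 10) := by
    rw [Real.log_pow]
    have h3 : Real.log R ≤ R ^ ((4 : ℝ) / 10) / (4 / 10) :=
      Real.log_le_rpow_div hR0.le (by norm_num)
    have h4 : (1 : ℝ) ≤ R ^ ((4 : ℝ) / 10) := Real.one_le_rpow hR1 (by norm_num)
    have h5 : R ^ ((4 : ℝ) / 10) / (4 / 10) = 5 / 2 * R ^ ((4 : ℝ) / 10) := by ring
    rw [h5] at h3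
    push_cast
    linarith
  have hR19 : R ≤ R ^ ((19 : ℝ) / 10) := by
    have := Real.rpow_le_rpow_of_exponent_le hR1 (show (1 : ℝ) ≤ 19 / 10 by norm_num)
    rwa [Real.rpow_one] at this
  have hSS : S * R ^ ((4 : ℝ) / 10) = R ^ ((19 : ℝ) / 10) := by
    rw [hS, ← Real.rpow_add hR0]; norm_num
  have hp := Real.rpow_pos_of_pos hR0 ((19 : ℝ) / 10)
  calc ((S0 R Z).ncard : ℝ) ≤ ((G0.card + G1.card : ℕ) : ℝ) := Nat.cast_le.2 h1
    _ = (G0.card : ℝ) + G1.card := Nat.cast_add _ _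
    _ ≤ 9 * Z * R + 20 * Z * S * (2 * (1 + Real.log (R ^ 3))) := add_le_add b0 b1
    _ ≤ 9 * Z * R + 20 * Z * S * (2 * (9 * R ^ ((4 : ℝ) / 10))) := by gcongr
    _ = 9 * Z * R + 360 * Z * (S * R ^ ((4 : ℝ) / 10)) := by ring
    _ ≤ 9 * Z * R ^ ((19 : ℝ) / 10) + 360 * Z * R ^ ((19 : ℝ) / 10) := by
      rw [hSS]
      gcongr
    _ ≤ 400 * Z * R ^ ((19 : ℝ) / 10) := by
      have : 0 < Z * R ^ ((19 : ℝ) / 10) := by positivity
      linarith

end Pool.Agent.J4H76.HB
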