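import Mathlib
import Pool.Agent.J4H76.HB.N9
import Pool.Agent.R418.HL.Fin

/-! Assembly: boxes in which the second coefficient is of size at most `R ^ (1199 / 400)`. -/

set_option autoImplicit false

namespace Pool.Agent.J4H76.HB

open Pool.Agent.R418.HL (bx bx_card Good Chart InBox invI invJ red mulR SH sh_card cnd
  invI_swap invJ_swap)
open Pool.Agent.W654.HZ.CLT (card_Icc_le mem_Icc_of)

lemma box_B5 {K R T : ℝ} (hT : 0 < T) {a b c d e : ℤ} (h : InBox K R T a b c d e) :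
    (a, b, c, d, e) ∈ B5 K R T := by
  have hT4 : 0 < T ^ 4 := by positivity
  have hT2 : 0 < T ^ 2 := by positivity
  obtain ⟨ha, hb, hc, hd, he⟩ := h
  unfold B5
  rw [Finset.mem_product, Finset.mem_product, Finset.mem_product, Finset.mem_product]
  refine ⟨?_, ?_, ?_, ?_, ?_⟩
  · refine mem_Icc_of _ _ ?_
    rw [le_div_iff₀ hT4]
    exact ha
  · refine mem_Icc_of _ _ ?_
    rw [le_div_iff₀ hT2]
    exact hb
  · exact mem_Icc_of _ _ hc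
  · exact mem_Icc_of _ _ hd
  · exact mem_Icc_of _ _ he

/-- the data of a point of large height -/
theorem mem2 {R Z : ℝ} (hb : (2 : ℝ) ^ 50 ≤ R) (hZ3 : Z ≤ R ^ 3) {A B x y : ℤ}
    (hA : |(A : ℝ)| ≤ R ^ 2)
    (hB : |(B : ℝ)| ≤ Z) (hxy : y ^ 2 = x ^ 3 + A * x + B)
    (hx : |(x : ℝ)| ≤ Real.exp (R ^ ((1 : ℝ) / 3200))) (hx2 : R ^ ((13 : ℝ) / 5) ≤ x) :
    (A, B) ∈ SH R ∨ ∃ i j : ℕ, (i : ℝ) ≤ R ^ ((1 : ℝ) / 3200) ∧
      (j : ℝ) ≤ 3000000 * R ^ ((1 : ℝ) / 1000000) ∧ R ^ ((13 : ℝ) / 100) ≤ 2 ^ i ∧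
      Real.log (2 ^ i) ≤ R ^ ((1 : ℝ) / 3200) ∧
      (((2 : ℝ) ^ j / 2 ≤ R ^ ((1 : ℝ) / 40000) ∧ ((A, B) ∈ SB 3000 R (2 ^ j / 2) (2 ^ i) Z ∨
        (A, B) ∈ SA 3000 R (2 ^ j / 2) Z ∨ (A, B) ∈ SB 3000 R (1 / (2 ^ j / 2)) (2 ^ i) Z ∨
        (A, B) ∈ SA 3000 R (1 / (2 ^ j / 2)) Z)) ∨
      (R ^ ((1 : ℝ) / 40000) ≤ (2 : ℝ) ^ j / 2 ∧ (A, B) ∈ SC 3000 R (2 ^ j / 2) Z)) := by
  have hR1 : (1 : ℝ) ≤ R := le_trans (by norm_num) hb
  have hR100 : (100 : ℝ) ≤ R := le_trans (by norm_num) hb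
  have hR0 : (0 : ℝ) < R := by linarith
  have hB3 : |(B : ℝ)| ≤ R ^ 3 := hB.trans hZ3
  have hmono : ∀ s t : ℝ, s ≤ t → R ^ s ≤ R ^ t := fun s t h =>
    Real.rpow_le_rpow_of_exponent_le hR1 h
  have h2 : R ^ (2 : ℕ) ≤ (x : ℝ) := by
    have h1 : R ^ (2 : ℕ) ≤ R ^ ((13 : ℝ) / 5) := by
      rw [← Real.rpow_natCast]
      exact hmono _ _ (by norm_num)
    linarith
  have hx0 : (0 : ℝ) < x := lt_of_lt_of_le (by positivity) h2
  have hsx : R ^ ((13 : ℝ) / 10) ≤ √(x : ℝ) := by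
    apply Real.le_sqrt_of_sq_le
    rw [← Real.rpow_natCast, ← Real.rpow_mul hR0.le]
    refine le_trans (le_of_eq ?_) hx2
    norm_num
  have hsx0 : 0 < √(x : ℝ) := lt_of_lt_of_le (by positivity) hsx
  rcases red R hR100 x |y| A B (by rw [sq_abs]; exact hxy) (abs_nonneg y) hA hB3 h2 with
    ⟨r, w, h4, h5, h6⟩ | ⟨i, j, a, b, c, d, e, p, q, h4, h5, h6, h7, h8, h9, h10⟩
  · left
    refine ⟨hA, r, w, h4, h5, ?_⟩
    have h7 : |(w : ℝ)| * R ^ ((13 : ℝ) / 10) ≤ 28 * R ^ ((7 : ℝ) / 10) * R ^ ((13 : ℝ) / 10) := by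
      calc |(w : ℝ)| * R ^ ((13 : ℝ) / 10) ≤ |(w : ℝ)| * √(x : ℝ) := by gcongr
        _ ≤ 28 * R ^ 2 := h6
        _ = 28 * (R ^ ((7 : ℝ) / 10) * R ^ ((13 : ℝ) / 10)) := by
          rw [← Real.rpow_add hR0, ← Real.rpow_natCast]
          norm_num
        _ = _ := by ring
    exact le_of_mul_le_mul_right h7 (by positivity)
  · right
    have hxle : (x : ℝ) ≤ Real.exp (R ^ ((1 : ℝ) / 3200)) := le_trans (le_abs_self _) hx
    have hRp : 0 < R ^ ((1 : ℝ) / 3200) := by positivity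
    have h11 : √(√(x : ℝ) / R) ≤ Real.exp (1 / 4 * R ^ ((1 : ℝ) / 3200)) := by
      rw [Real.sqrt_le_left (Real.exp_pos _).le, ← Real.exp_nat_mul]
      have h12 : √(x : ℝ) ≤ Real.exp (1 / 2 * R ^ ((1 : ℝ) / 3200)) := by
        rw [Real.sqrt_le_left (Real.exp_pos _).le, ← Real.exp_nat_mul]
        refine hxle.trans (le_of_eq ?_)
        congr 1
        push_cast
        ring
      refine (div_le_self hsx0.le hR1).trans (h12.trans (le_of_eq ?_))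
      congr 1
      push_cast
      ring
    have hlog4 : Real.log (2 ^ i) ≤ 1 / 4 * R ^ ((1 : ℝ) / 3200) := by
      rw [Real.log_le_iff_le_exp (by positivity)]
      exact h4.trans h11
    have hlog : Real.log (2 ^ i) ≤ R ^ ((1 : ℝ) / 3200) := by linarith
    have hT0 : (0 : ℝ) < 2 ^ j / 2 := by positivity
    have hT0' : (0 : ℝ) < 1 / (2 ^ j / 2) := by positivity
    refine ⟨i, j, ?_, ?_, ?_, hlog, ?_⟩
    · rw [Real.log_pow] at hlog4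
      have h12 := Real.log_two_gt_d9
      have h13 : (0 : ℝ) ≤ i := Nat.cast_nonneg i
      nlinarith
    · have ha := h7.ha
      have ha1 : (1 : ℝ) ≤ |(a : ℝ)| := by
        have : (1 : ℤ) ≤ |a| := Int.one_le_abs h6
        exact_mod_cast this
      have h10 : ((2 : ℝ) ^ j / 2) ^ 4 ≤ 3000 * R := by
        refine le_trans ?_ ha
        have : (0 : ℝ) ≤ ((2 : ℝ) ^ j / 2) ^ 4 := by positivity
        nlinarith
      have h11 : (2 : ℝ) ^ j ≤ 48000 * R := by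
        have h12 : (1 : ℝ) ≤ 2 ^ j := one_le_pow₀ (by norm_num)
        have h13 : (2 : ℝ) ^ j ≤ ((2 : ℝ) ^ j) ^ 4 := le_self_pow₀ h12 (by norm_num)
        have h14 : ((2 : ℝ) ^ j / 2) ^ 4 = ((2 : ℝ) ^ j) ^ 4 / 16 := by ring
        rw [h14] at h10
        linarith
      have h12 : Real.log ((2 : ℝ) ^ j) ≤ Real.log (48000 * R) :=
        Real.log_le_log (by positivity) h11
      rw [Real.log_pow, Real.log_mul (by norm_num) hR0.ne'] at h12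
      have h13 := Real.log_two_gt_d9
      have h14 : Real.log 48000 ≤ 48000 - 1 := Real.log_le_sub_one_of_pos (by norm_num)
      have h15 : Real.log R ≤ R ^ ((1 : ℝ) / 1000000) / (1 / 1000000) :=
        Real.log_le_rpow_div hR0.le (by norm_num)
      have h16 : (1 : ℝ) ≤ R ^ ((1 : ℝ) / 1000000) := Real.one_le_rpow hR1 (by norm_num)
      have h17 : (0 : ℝ) ≤ j := Nat.cast_nonneg j
      have h18 : (1 / 2 : ℝ) * j ≤ j * Real.log 2 := by nlinarith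
      have h19 : R ^ ((1 : ℝ) / 1000000) / (1 / 1000000) = 1000000 * R ^ ((1 : ℝ) / 1000000) := by
        ring
      rw [h19] at h15
      nlinarith
    · have h11 : R ^ ((3 : ℝ) / 20) ≤ √(√(x : ℝ) / R) := by
        apply Real.le_sqrt_of_sq_le
        rw [le_div_iff₀ hR0]
        refine le_trans (le_of_eq ?_) hsx
        rw [← Real.rpow_natCast, ← Real.rpow_mul hR0.le, mul_comm, mulR hR0]
        norm_num
      have h12 : (2 : ℝ) ≤ R ^ ((2 : ℝ) / 100) := by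
        have h13 : ((2 : ℝ) ^ 50) ^ ((2 : ℝ) / 100) ≤ R ^ ((2 : ℝ) / 100) :=
          Real.rpow_le_rpow (by positivity) hb (by norm_num)
        refine le_trans (le_of_eq ?_) h13
        rw [← Real.rpow_natCast, ← Real.rpow_mul (by norm_num)]
        norm_num
      have h13 : R ^ ((3 : ℝ) / 20) = R ^ ((13 : ℝ) / 100) * R ^ ((2 : ℝ) / 100) := by
        rw [← Real.rpow_add hR0]
        norm_num
      have h14 : (0 : ℝ) < R ^ ((13 : ℝ) / 100) := by positivity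
      have h15 : (2 : ℝ) ^ (i + 1) = 2 * 2 ^ i := by ring
      rw [h15] at h5
      rw [h13] at h11
      nlinarith
    · rcases le_total ((2 : ℝ) ^ j / 2) (R ^ ((1 : ℝ) / 40000)) with hT | hT
      · left
        refine ⟨hT, ?_⟩
        rcases h8 with h8 | h8
        · have hm := box_B5 hT0 h7.box
          by_cases hbad : bad R (2 ^ j / 2) (a, b, c, d, e)
          · right; left
            exact ⟨hB, (a, b, c, d, e), hm, ⟨h9, h10⟩, hbad⟩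
          · left
            exact ⟨hB, (a, b, c, d, e), hm, ⟨h9, h10⟩, hbad, p, q, h7, h8⟩
        · have h7' := h7.swap hT0
          have hm := box_B5 hT0' h7'.box
          have hf : frm (A, B) (e, d, c, b, a) :=
            ⟨by dsimp only; rw [invI_swap]; exact h9, by dsimp only; rw [invJ_swap]; exact h10⟩
          by_cases hbad : bad R (1 / (2 ^ j / 2)) (e, d, c, b, a)
          · right; right; right
            exact ⟨hB, (e, d, c, b, a), hm, hf, hbad⟩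
          · right; right; left
            exact ⟨hB, (e, d, c, b, a), hm, hf, hbad, q, p, h7', h8⟩
      · right
        exact ⟨hT, hB, (a, b, c, d, e), box_B5 hT0 h7.box, ⟨h9, h10⟩, h6⟩

/-- the exceptional curves -/
def EZ (R Z : ℝ) : Set (ℤ × ℤ) := {P | |(P.1 : ℝ)| ≤ R ^ 2 ∧ |(P.2 : ℝ)| ≤ Z ∧
  ∃ x y : ℤ, y ^ 2 = x ^ 3 + P.1 * x + P.2 ∧ |(x : ℝ)| ≤ Real.exp (R ^ ((1 : ℝ) / 3200))}

/-- the conditions on the scales -/
def Q2 (R : ℝ) (i j : ℕ) : Prop := R ^ ((13 : ℝ) / 100) ≤ (2 : ℝ) ^ i ∧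
  Real.log (2 ^ i) ≤ R ^ ((1 : ℝ) / 3200) ∧ (2 : ℝ) ^ j / 2 ≤ R ^ ((1 : ℝ) / 40000)

theorem large2 : ∃ M R₁ : ℝ, 0 ≤ M ∧ 1 ≤ R₁ ∧ ∀ R Z : ℝ, R₁ ≤ R → R ^ (2 : ℝ) ≤ Z →
    Z ≤ R ^ ((1199 : ℝ) / 400) →
    (EZ R Z).Finite ∧ ((EZ R Z).ncard : ℝ) ≤ M * Z * R ^ (2 - (1 : ℝ) / 30000) := by
  classical
  obtain ⟨C1, R1, hC1, hR1', hA⟩ := SA_card 3000 (by norm_num)
  obtain ⟨C2, R2, hC2, hR2', hN⟩ := SB_card 3000 (by norm_num)
  obtain ⟨C3, hC3, hL⟩ := SC_card 3000 (by norm_num)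
  obtain ⟨R3, hR3⟩ := ev 2 (1 / 40000) (by norm_num)
  refine ⟨1597 + 3000001 * C3 + 3000001 * C1 + 3000001 * C1 + 6000002 * C2 + 6000002 * C2,
    max (max R1 R2) (max R3 (2 ^ 50)),
    by positivity, le_trans hR1' ((le_max_left _ _).trans (le_max_left _ _)),
    fun R Z hRR hZ hZu => ?_⟩
  have hb : (2 : ℝ) ^ 50 ≤ R := le_trans ((le_max_right _ _).trans (le_max_right _ _)) hRR
  have hRR1 : R1 ≤ R := le_trans ((le_max_left _ _).trans (le_max_left _ _)) hRR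
  have hRR2 : R2 ≤ R := le_trans ((le_max_right _ _).trans (le_max_left _ _)) hRR
  have hR2 : (2 : ℝ) ≤ R ^ ((1 : ℝ) / 40000) :=
    hR3 R (le_trans ((le_max_left _ _).trans (le_max_right _ _)) hRR)
  have hR1 : (1 : ℝ) ≤ R := le_trans (by norm_num) hb
  have hR100 : (100 : ℝ) ≤ R := le_trans (by norm_num) hb
  have hRpos : (0 : ℝ) < R := by linarith
  have hpow : ∀ s : ℝ, 0 < R ^ s := fun s => Real.rpow_pos_of_pos hRpos s
  have hZ0 : 0 < Z := lt_of_lt_of_le (hpow _) hZ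
  have hZ2 : R ^ 2 ≤ Z := by
    refine le_trans (le_of_eq ?_) hZ
    rw [← Real.rpow_natCast]; norm_num
  have hZ3 : Z ≤ R ^ 3 := by
    refine hZu.trans ?_
    have := Real.rpow_le_rpow_of_exponent_le hR1 (show (1199 : ℝ) / 400 ≤ 3 by norm_num)
    refine this.trans (le_of_eq ?_)
    rw [← Real.rpow_natCast]; norm_num
  have hmono : ∀ s : ℝ, s ≤ 2 - (1 : ℝ) / 30000 → R ^ s ≤ R ^ (2 - (1 : ℝ) / 30000) := fun s hs =>
    Real.rpow_le_rpow_of_exponent_le hR1 hs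
  have hRinv : R ^ (-(1 : ℝ) / 40000) ≤ 1 / 2 := by
    rw [show (-(1 : ℝ) / 40000) = -((1 : ℝ) / 40000) by ring, Real.rpow_neg hRpos.le, ← one_div]
    exact one_div_le_one_div_of_le (by norm_num) hR2
  have hhalf : ∀ j : ℕ, (1 / 2 : ℝ) ≤ 2 ^ j / 2 := Pool.Agent.W382.HZ.FIN.half
  have hinv1 : ∀ j : ℕ, (2 : ℝ) ^ j / 2 ≤ R ^ ((1 : ℝ) / 40000) →
      R ^ (-(1 : ℝ) / 40000) ≤ 1 / ((2 : ℝ) ^ j / 2) := by
    intro j hj
    rw [show (-(1 : ℝ) / 40000) = -((1 : ℝ) / 40000) by ring, Real.rpow_neg hRpos.le, ← one_div]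
    exact one_div_le_one_div_of_le (by positivity) hj
  have hinv2 : ∀ j : ℕ, 1 / ((2 : ℝ) ^ j / 2) ≤ R ^ ((1 : ℝ) / 40000) := by
    intro j
    refine le_trans ?_ hR2
    rw [div_le_iff₀ (by positivity)]
    have := hhalf j
    linarith
  set I := ⌊R ^ ((1 : ℝ) / 3200)⌋₊ with hI
  set J := ⌊3000000 * R ^ ((1 : ℝ) / 1000000)⌋₊ with hJ
  have hI1 : ((I + 1 : ℕ) : ℝ) ≤ 2 * R ^ ((1 : ℝ) / 3200) := by
    have h1 := Nat.floor_le (hpow ((1 : ℝ) / 3200)).le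
    have h2 : (1 : ℝ) ≤ R ^ ((1 : ℝ) / 3200) := Real.one_le_rpow hR1 (by norm_num)
    push_cast
    rw [← hI] at h1
    linarith
  have hJ1 : ((J + 1 : ℕ) : ℝ) ≤ 3000001 * R ^ ((1 : ℝ) / 1000000) := by
    have h1 := Nat.floor_le (show (0 : ℝ) ≤ 3000000 * R ^ ((1 : ℝ) / 1000000) by
      have := hpow ((1 : ℝ) / 1000000)
      positivity)
    have h2 : (1 : ℝ) ≤ R ^ ((1 : ℝ) / 1000000) := Real.one_le_rpow hR1 (by norm_num)
    push_cast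
    rw [← hJ] at h1
    linarith
  -- the unions
  have hC1' : (0 : ℝ) ≤ C1 * Z * R ^ ((19999 : ℝ) / 10000) := by
    have := hpow ((19999 : ℝ) / 10000); positivity
  have hC2' : (0 : ℝ) ≤ C2 * Z * R ^ ((1994 : ℝ) / 1000) := by
    have := hpow ((1994 : ℝ) / 1000); positivity
  have hC3' : (0 : ℝ) ≤ C3 * Z * R ^ ((99998 : ℝ) / 50000) := by
    have := hpow ((99998 : ℝ) / 50000); positivity
  have kL : ∀ j ∈ Finset.range (J + 1), {P | (R ^ ((1 : ℝ) / 40000) ≤ (2 : ℝ) ^ j / 2) ∧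
      P ∈ SC 3000 R (2 ^ j / 2) Z}.Finite ∧ (({P | (R ^ ((1 : ℝ) / 40000) ≤ (2 : ℝ) ^ j / 2) ∧
      P ∈ SC 3000 R (2 ^ j / 2) Z}).ncard : ℝ) ≤ C3 * Z * R ^ ((99998 : ℝ) / 50000) := fun j _ =>
    cnd hC3' fun h => hL R (2 ^ j / 2) Z hR1 h hZ
  have kQ1 : ∀ j ∈ Finset.range (J + 1), {P | ((2 : ℝ) ^ j / 2 ≤ R ^ ((1 : ℝ) / 40000)) ∧
      P ∈ SA 3000 R (2 ^ j / 2) Z}.Finite ∧ (({P | ((2 : ℝ) ^ j / 2 ≤ R ^ ((1 : ℝ) / 40000)) ∧
      P ∈ SA 3000 R (2 ^ j / 2) Z}).ncard : ℝ) ≤ C1 * Z * R ^ ((19999 : ℝ) / 10000) := fun j _ =>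
    cnd hC1' fun h => hA R (2 ^ j / 2) Z hRR1 (hRinv.trans (hhalf j)) h hZ hZu
  have kQ2 : ∀ j ∈ Finset.range (J + 1), {P | ((2 : ℝ) ^ j / 2 ≤ R ^ ((1 : ℝ) / 40000)) ∧
      P ∈ SA 3000 R (1 / (2 ^ j / 2)) Z}.Finite ∧ (({P | ((2 : ℝ) ^ j / 2 ≤
      R ^ ((1 : ℝ) / 40000)) ∧
      P ∈ SA 3000 R (1 / (2 ^ j / 2)) Z}).ncard : ℝ) ≤ C1 * Z * R ^ ((19999 : ℝ) / 10000) :=
    fun j _ =>
    cnd hC1' fun h => hA R (1 / (2 ^ j / 2)) Z hRR1 (hinv1 j h) (hinv2 j) hZ hZu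
  have kN1 : ∀ ij ∈ Finset.range (I + 1) ×ˢ Finset.range (J + 1), {P | Q2 R ij.1 ij.2 ∧
      P ∈ SB 3000 R (2 ^ ij.2 / 2) (2 ^ ij.1) Z}.Finite ∧ (({P | Q2 R ij.1 ij.2 ∧
      P ∈ SB 3000 R (2 ^ ij.2 / 2) (2 ^ ij.1) Z}).ncard : ℝ) ≤
      C2 * Z * R ^ ((1994 : ℝ) / 1000) :=
    fun ij _ => cnd hC2' fun h => hN R (2 ^ ij.2 / 2) (2 ^ ij.1) Z hRR2
      (hRinv.trans (hhalf ij.2)) h.2.2 h.1 h.2.1 hZ hZu
  have kN2 : ∀ ij ∈ Finset.range (I + 1) ×ˢ Finset.range (J + 1), {P | Q2 R ij.1 ij.2 ∧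
      P ∈ SB 3000 R (1 / (2 ^ ij.2 / 2)) (2 ^ ij.1) Z}.Finite ∧ (({P | Q2 R ij.1 ij.2 ∧
      P ∈ SB 3000 R (1 / (2 ^ ij.2 / 2)) (2 ^ ij.1) Z}).ncard : ℝ) ≤
      C2 * Z * R ^ ((1994 : ℝ) / 1000) :=
    fun ij _ => cnd hC2' fun h => hN R (1 / (2 ^ ij.2 / 2)) (2 ^ ij.1) Z hRR2 (hinv1 ij.2 h.2.2)
      (hinv2 ij.2) h.1 h.2.1 hZ hZu
  obtain ⟨fL, cL⟩ := Pool.Agent.W382.HZ.FIN.bU _ _ _ (fun j hj => (kL j hj).1)
    (fun j hj => (kL j hj).2)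
  obtain ⟨fQ1, cQ1⟩ := Pool.Agent.W382.HZ.FIN.bU _ _ _ (fun j hj => (kQ1 j hj).1)
    (fun j hj => (kQ1 j hj).2)
  obtain ⟨fQ2, cQ2⟩ := Pool.Agent.W382.HZ.FIN.bU _ _ _ (fun j hj => (kQ2 j hj).1)
    (fun j hj => (kQ2 j hj).2)
  obtain ⟨fN1, cN1⟩ := Pool.Agent.W382.HZ.FIN.bU _ _ _ (fun j hj => (kN1 j hj).1)
    (fun j hj => (kN1 j hj).2)
  obtain ⟨fN2, cN2⟩ := Pool.Agent.W382.HZ.FIN.bU _ _ _ (fun j hj => (kN2 j hj).1)
    (fun j hj => (kN2 j hj).2)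
  obtain ⟨fH, cH⟩ := sh_card R hR1
  obtain ⟨fS, cS⟩ := S0_card hR100 hZ2 hZ3
  rw [Finset.card_range] at cL cQ1 cQ2
  rw [Finset.card_product, Finset.card_range, Finset.card_range] at cN1 cN2
  set UL := ⋃ j ∈ Finset.range (J + 1), {P | (R ^ ((1 : ℝ) / 40000) ≤ (2 : ℝ) ^ j / 2) ∧
      P ∈ SC 3000 R (2 ^ j / 2) Z} with hUL
  set U1 := ⋃ j ∈ Finset.range (J + 1), {P | ((2 : ℝ) ^ j / 2 ≤ R ^ ((1 : ℝ) / 40000)) ∧
      P ∈ SA 3000 R (2 ^ j / 2) Z} with hU1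
  set U2 := ⋃ j ∈ Finset.range (J + 1), {P | ((2 : ℝ) ^ j / 2 ≤ R ^ ((1 : ℝ) / 40000)) ∧
      P ∈ SA 3000 R (1 / (2 ^ j / 2)) Z} with hU2
  set U3 := ⋃ ij ∈ Finset.range (I + 1) ×ˢ Finset.range (J + 1), {P | Q2 R ij.1 ij.2 ∧
      P ∈ SB 3000 R (2 ^ ij.2 / 2) (2 ^ ij.1) Z} with hU3
  set U4 := ⋃ ij ∈ Finset.range (I + 1) ×ˢ Finset.range (J + 1), {P | Q2 R ij.1 ij.2 ∧
      P ∈ SB 3000 R (1 / (2 ^ ij.2 / 2)) (2 ^ ij.1) Z} with hU4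
  have hfin : (S0 R Z ∪ (SH R ∪ (UL ∪ (U1 ∪ (U2 ∪ (U3 ∪ U4)))))).Finite :=
    fS.union (fH.union (fL.union (fQ1.union (fQ2.union (fN1.union fN2)))))
  have hsub : EZ R Z ⊆ S0 R Z ∪ (SH R ∪ (UL ∪ (U1 ∪ (U2 ∪ (U3 ∪ U4))))) := by
    rintro ⟨A, B⟩ ⟨hA, hB, x, y, hxy, hx⟩
    dsimp only at hA hB hxy
    rcases le_total (x : ℝ) (R ^ 3) with k1 | k1
    · exact Or.inl ⟨hA, hB, x, y, hxy, k1⟩
    right
    have k4 : R ^ ((13 : ℝ) / 5) ≤ (x : ℝ) := by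
      refine le_trans ?_ k1
      rw [← Real.rpow_natCast]
      exact Real.rpow_le_rpow_of_exponent_le hR1 (by norm_num)
    rcases mem2 hb hZ3 hA hB hxy hx k4 with h1 | ⟨i, j, hi, hj, h3, h4, h5⟩
    · exact Or.inl h1
    right
    have hi' : i ∈ Finset.range (I + 1) :=
      Finset.mem_range.2 (Nat.lt_succ_of_le (Nat.le_floor hi))
    have hj' : j ∈ Finset.range (J + 1) :=
      Finset.mem_range.2 (Nat.lt_succ_of_le (Nat.le_floor hj))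
    have hij : (i, j) ∈ Finset.range (I + 1) ×ˢ Finset.range (J + 1) :=
      Finset.mem_product.2 ⟨hi', hj'⟩
    rcases h5 with ⟨hT, h6 | h6 | h6 | h6⟩ | ⟨hT, h6⟩
    · right; right; right; left
      exact Set.mem_biUnion hij ⟨⟨h3, h4, hT⟩, h6⟩
    · right; left
      exact Set.mem_biUnion hj' ⟨hT, h6⟩
    · right; right; right; right
      exact Set.mem_biUnion hij ⟨⟨h3, h4, hT⟩, h6⟩
    · right; right; left
      exact Set.mem_biUnion hj' ⟨hT, h6⟩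
    · left
      exact Set.mem_biUnion hj' ⟨hT, h6⟩
  refine ⟨hfin.subset hsub, ?_⟩
  have hcard : ((EZ R Z).ncard : ℝ) ≤ (S0 R Z).ncard + ((SH R).ncard +
      (UL.ncard + (U1.ncard + (U2.ncard + (U3.ncard + U4.ncard))))) := by
    have h1 := Set.ncard_le_ncard hsub hfin
    have h2 := Set.ncard_union_le (S0 R Z) (SH R ∪ (UL ∪ (U1 ∪ (U2 ∪ (U3 ∪ U4)))))
    have h6 := Set.ncard_union_le (SH R) (UL ∪ (U1 ∪ (U2 ∪ (U3 ∪ U4))))
    have h7 := Set.ncard_union_le UL (U1 ∪ (U2 ∪ (U3 ∪ U4)))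
    have h8 := Set.ncard_union_le U1 (U2 ∪ (U3 ∪ U4))
    have h9 := Set.ncard_union_le U2 (U3 ∪ U4)
    have h10 := Set.ncard_union_le U3 U4
    have h11 : (EZ R Z).ncard ≤ (S0 R Z).ncard + ((SH R).ncard +
      (UL.ncard + (U1.ncard + (U2.ncard + (U3.ncard + U4.ncard))))) := by omega
    exact_mod_cast h11
  refine hcard.trans ?_
  -- bounds
  obtain ⟨W, hW⟩ : ∃ W : ℝ, W = R ^ (2 - (1 : ℝ) / 30000) := ⟨_, rfl⟩
  have hW0 : 0 < W := by rw [hW]; exact hpow _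
  rw [← hW] at hmono ⊢
  have hZW : 0 < Z * W := by positivity
  have b0 : ((S0 R Z).ncard : ℝ) ≤ 400 * (Z * W) := by
    refine cS.trans ?_
    have := hmono ((19 : ℝ) / 10) (by norm_num)
    calc 400 * Z * R ^ ((19 : ℝ) / 10) ≤ 400 * Z * W := by gcongr
      _ = _ := by ring
  have b1 : ((SH R).ncard : ℝ) ≤ 1197 * (Z * W) := by
    refine cH.trans ?_
    have h2 := hmono ((17 : ℝ) / 10) (by norm_num)
    calc 1197 * R ^ ((37 : ℝ) / 10) = 1197 * (R ^ (2 : ℝ) * R ^ ((17 : ℝ) / 10)) := by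
          rw [← Real.rpow_add hRpos]; norm_num
      _ ≤ 1197 * (Z * W) := by
          have := hpow ((17 : ℝ) / 10)
          gcongr
  have hb4 : ∀ (U : Set (ℤ × ℤ)) (C s : ℝ), 0 < C →
      (1 : ℝ) / 1000000 + s ≤ 2 - 1 / 30000 →
      (U.ncard : ℝ) ≤ ((J + 1 : ℕ) : ℝ) * (C * Z * R ^ s) →
      (U.ncard : ℝ) ≤ 3000001 * C * (Z * W) := by
    intro U C s hC hs hU
    refine hU.trans ?_
    have h2 : R ^ ((1 : ℝ) / 1000000) * R ^ s ≤ W := by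
      rw [← Real.rpow_add hRpos]
      exact hmono _ hs
    have h3 := hpow s
    calc ((J + 1 : ℕ) : ℝ) * (C * Z * R ^ s)
        ≤ (3000001 * R ^ ((1 : ℝ) / 1000000)) * (C * Z * R ^ s) :=
          mul_le_mul_of_nonneg_right hJ1 (by positivity)
      _ = 3000001 * C * (Z * (R ^ ((1 : ℝ) / 1000000) * R ^ s)) := by ring
      _ ≤ 3000001 * C * (Z * W) := by gcongr
  have b5 : ∀ U : Set (ℤ × ℤ), (U.ncard : ℝ) ≤ (((I + 1) * (J + 1) : ℕ) : ℝ) *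
      (C2 * Z * R ^ ((1994 : ℝ) / 1000)) → (U.ncard : ℝ) ≤ 6000002 * C2 * (Z * W) := by
    intro U hU
    refine hU.trans ?_
    have h2 : R ^ ((1 : ℝ) / 3200) * R ^ ((1 : ℝ) / 1000000) * R ^ ((1994 : ℝ) / 1000) ≤ W := by
      rw [← Real.rpow_add hRpos, ← Real.rpow_add hRpos]
      exact hmono _ (by norm_num)
    have h5 : (((I + 1) * (J + 1) : ℕ) : ℝ) ≤
        (2 * R ^ ((1 : ℝ) / 3200)) * (3000001 * R ^ ((1 : ℝ) / 1000000)) := by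
      rw [Nat.cast_mul]
      exact mul_le_mul hI1 hJ1 (by positivity) (by positivity)
    calc (((I + 1) * (J + 1) : ℕ) : ℝ) * (C2 * Z * R ^ ((1994 : ℝ) / 1000))
        ≤ ((2 * R ^ ((1 : ℝ) / 3200)) * (3000001 * R ^ ((1 : ℝ) / 1000000))) *
            (C2 * Z * R ^ ((1994 : ℝ) / 1000)) :=
          mul_le_mul_of_nonneg_right h5 hC2'
      _ = 6000002 * C2 * (Z * (R ^ ((1 : ℝ) / 3200) * R ^ ((1 : ℝ) / 1000000) *
            R ^ ((1994 : ℝ) / 1000))) := by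
          ring
      _ ≤ 6000002 * C2 * (Z * W) := by gcongr
  have c0 := hb4 UL C3 _ (by linarith) (by norm_num) cL
  have c1 := hb4 U1 C1 _ (by linarith) (by norm_num) cQ1
  have c2 := hb4 U2 C1 _ (by linarith) (by norm_num) cQ2
  have c3 := b5 U3 cN1
  have c4 := b5 U4 cN2
  have e : (1597 + 3000001 * C3 + 3000001 * C1 + 3000001 * C1 + 6000002 * C2 + 6000002 * C2) *
      Z * W = 1597 * (Z * W) + 3000001 * C3 * (Z * W) + 3000001 * C1 * (Z * W) +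
      3000001 * C1 * (Z * W) + 6000002 * C2 * (Z * W) + 6000002 * C2 * (Z * W) := by ring
  rw [e]
  linarith

end Pool.Agent.J4H76.HB
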