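import Mathlib
import Pool.Agent.J4H76.HB.N10

/-! Final statement for boxes. -/

set_option autoImplicit false

namespace Pool.Agent.J4H76.HB

open Pool.Agent.R418.HL (bx bx_card EX)
open Pool.Agent.W654.HZ.CLT (card_Icc_le mem_Icc_of)

/-- the exceptional curves of a box -/
def EB (U V : ℝ) : Set (ℤ × ℤ) := {P | |(P.1 : ℝ)| ≤ U ∧ |(P.2 : ℝ)| ≤ V ∧
  ∃ x y : ℤ, y ^ 2 = x ^ 3 + P.1 * x + P.2 ∧ |(x : ℝ)| ≤ Real.exp (U ^ ((1 : ℝ) / 6400))}

theorem main3 : ∃ M : ℝ, ∀ U V : ℝ, 1 ≤ U → U ≤ V → V ≤ U ^ ((3 : ℝ) / 2) →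
    (EB U V).Finite ∧ ((EB U V).ncard : ℝ) ≤ M * V * U ^ (1 - (1 : ℝ) / 60000) := by
  classical
  obtain ⟨M₁, R₁, hM₁, hR₁, h1⟩ := large2
  obtain ⟨M₂, h2⟩ := Pool.Agent.R418.HL.main
  refine ⟨M₁ + |M₂| + 9 * R₁ ^ 2, fun U V hU hUV hV => ?_⟩
  have hU0 : (0 : ℝ) < U := by linarith
  have hV0 : (0 : ℝ) < V := by linarith
  have hV1 : (1 : ℝ) ≤ V := by linarith
  obtain ⟨R, hR⟩ : ∃ R : ℝ, R = √U := ⟨_, rfl⟩
  have hR1 : 1 ≤ R := by rw [hR, Real.one_le_sqrt]; exact hU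
  have hR0 : 0 < R := by linarith
  have hRU : R ^ 2 = U := by rw [hR]; exact Real.sq_sqrt hU0.le
  have hRU' : R ^ (2 : ℝ) = U := by
    rw [← hRU, ← Real.rpow_natCast]; norm_num
  have hUs : ∀ s : ℝ, U ^ s = R ^ (2 * s) := fun s => by
    rw [← hRU', ← Real.rpow_mul hR0.le]
  have hpow : ∀ s : ℝ, 0 < R ^ s := fun s => Real.rpow_pos_of_pos hR0 s
  have e1 : U ^ ((1 : ℝ) / 6400) = R ^ ((1 : ℝ) / 3200) := by rw [hUs]; norm_num
  have e2 : U ^ (1 - (1 : ℝ) / 60000) = R ^ (2 - (1 : ℝ) / 30000) := by rw [hUs]; norm_num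
  have e3 : U ^ ((3 : ℝ) / 2) = R ^ 3 := by
    rw [hUs, ← Real.rpow_natCast]; norm_num
  rw [e3] at hV
  have hEB : EB U V = EZ R V := by
    unfold EB EZ
    rw [e1, hRU]
  rw [e2]
  have hW1 : 1 ≤ R ^ (2 - (1 : ℝ) / 30000) := Real.one_le_rpow hR1 (by norm_num)
  have hR₁2 : 1 ≤ R₁ ^ 2 := one_le_pow₀ hR₁
  have hM2 : 0 ≤ |M₂| := abs_nonneg _
  have hVW : 0 < V * R ^ (2 - (1 : ℝ) / 30000) := by positivity
  by_cases hc : R₁ ≤ R
  · rcases le_total V (R ^ ((1199 : ℝ) / 400)) with hc2 | hc2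
    · obtain ⟨g1, g2⟩ := h1 R V hc (by rw [hRU']; exact hUV) hc2
      rw [hEB]
      refine ⟨g1, g2.trans ?_⟩
      rw [mul_assoc, mul_assoc]
      refine mul_le_mul_of_nonneg_right ?_ hVW.le
      have : 0 ≤ 9 * R₁ ^ 2 := by positivity
      linarith
    · obtain ⟨g1, g2⟩ := h2 R hR1
      have hsub : EB U V ⊆ EX R := by
        rintro P ⟨hA, hB, x, y, hxy, hx⟩
        refine ⟨by rw [hRU]; exact hA, hB.trans hV, x, y, hxy, hx.trans ?_⟩
        rw [e1]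
        apply Real.exp_le_exp.2
        exact Real.rpow_le_rpow_of_exponent_le hR1 (by norm_num)
      refine ⟨g1.subset hsub, ?_⟩
      calc ((EB U V).ncard : ℝ) ≤ ((EX R).ncard : ℝ) := by
            exact_mod_cast Set.ncard_le_ncard hsub g1
        _ ≤ M₂ * R ^ ((79 : ℝ) / 16) := g2
        _ ≤ |M₂| * R ^ ((79 : ℝ) / 16) := by
            have := hpow ((79 : ℝ) / 16)
            have := le_abs_self M₂
            gcongr
        _ ≤ |M₂| * (R ^ ((1199 : ℝ) / 400) * R ^ (2 - (1 : ℝ) / 30000)) := by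
            refine mul_le_mul_of_nonneg_left ?_ hM2
            rw [← Real.rpow_add hR0]
            exact Real.rpow_le_rpow_of_exponent_le hR1 (by norm_num)
        _ ≤ |M₂| * (V * R ^ (2 - (1 : ℝ) / 30000)) := by
            have := hpow (2 - (1 : ℝ) / 30000)
            gcongr
        _ ≤ (M₁ + |M₂| + 9 * R₁ ^ 2) * (V * R ^ (2 - (1 : ℝ) / 30000)) := by
            refine mul_le_mul_of_nonneg_right ?_ hVW.le
            linarith
        _ = _ := by ring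
  · push Not at hc
    have hsub : EB U V ⊆ ((bx U ×ˢ bx V : Finset (ℤ × ℤ)) : Set (ℤ × ℤ)) := by
      rintro ⟨A, B⟩ ⟨hA, hB, -⟩
      rw [Finset.mem_coe, Finset.mem_product]
      exact ⟨mem_Icc_of _ _ hA, mem_Icc_of _ _ hB⟩
    refine ⟨(Finset.finite_toSet _).subset hsub, ?_⟩
    have k1 : (EB U V).ncard ≤ (bx U ×ˢ bx V).card := by
      have := Set.ncard_le_ncard hsub (Finset.finite_toSet _)
      rwa [Set.ncard_coe_finset] at this
    have b1 : ((bx U).card : ℝ) ≤ 3 * U := bx_card (by positivity) (by linarith)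
    have b2 : ((bx V).card : ℝ) ≤ 3 * V := bx_card (by positivity) (by linarith)
    have hUR : U ≤ R₁ ^ 2 := by
      rw [← hRU]
      exact pow_le_pow_left₀ hR0.le hc.le 2
    calc ((EB U V).ncard : ℝ) ≤ ((bx U ×ˢ bx V).card : ℝ) := by exact_mod_cast k1
      _ = (bx U).card * (bx V).card := by rw [Finset.card_product]; push_cast; rfl
      _ ≤ (3 * U) * (3 * V) := by gcongr
      _ = 9 * U * V := by ring
      _ ≤ 9 * R₁ ^ 2 * V := by gcongr
      _ = (9 * R₁ ^ 2 * V) * 1 := (mul_one _).symm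
      _ ≤ (9 * R₁ ^ 2 * V) * R ^ (2 - (1 : ℝ) / 30000) := by gcongr
      _ = 9 * R₁ ^ 2 * (V * R ^ (2 - (1 : ℝ) / 30000)) := by ring
      _ ≤ (M₁ + |M₂| + 9 * R₁ ^ 2) * (V * R ^ (2 - (1 : ℝ) / 30000)) := by
          refine mul_le_mul_of_nonneg_right ?_ hVW.le
          linarith
      _ = _ := by ring

end Pool.Agent.J4H76.HB
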